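import Pool.Agent.Lib.MP_4d1bc1_mp.Deriv

set_option autoImplicit false

/-! Commutation of the partial derivatives with vector fields. -/

namespace Pool.Agent.Lib.MP_4d1bc1_mp

open Finset Polynomial

universe u

variable {F : Type u} [Field F] [Algebra ℝ F]

namespace Polar

variable (p : Polar F)

theorem E_comm_E (i j : ℕ) (f : F) : p.E i (p.E j f) = p.E j (p.E i f) := p.T.comm _ _ f
theorem E_comm_G (i j l : ℕ) (f : F) : p.E i (p.G j l f) = p.G j l (p.E i f) := p.T.comm _ _ f
theorem G_comm_G (a b j l : ℕ) (f : F) : p.G a b (p.G j l f) = p.G j l (p.G a b f) :=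
  p.T.comm _ _ f

theorem cf_P (c : ℕ → F) (e : ℕ → ℕ → F) (δ : Derivation ℝ F F) :
    (fun a => δ (cf c e a)) = cf (fun i => δ (c i)) (fun i j => δ (e i j)) := by
  funext a
  rcases a with i | ⟨i, j⟩
  · rfl
  · simp only [cf, Sum.elim_inr]
    have : (2⁻¹ : F) = algebraMap ℝ F 2⁻¹ := by rw [map_inv₀, map_ofNat]
    rw [this, ← Algebra.smul_def, Derivation.map_smul, Algebra.smul_def]

/-- `E k` of a vector field applied to `f` -/
theorem E_vfd (k : ℕ) (c : ℕ → F) (e : ℕ → ℕ → F) (f : F) :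
    p.E k (p.vfd c e f) = p.vfd c e (p.E k f)
      + p.vfd (fun i => p.E k (c i)) (fun i j => p.E k (e i j)) f := by
  have := p.T.P_vf (Sum.inl k) (cf c e) f
  rw [vfd, vfd, E, this]
  congr 1
  rw [cf_P]

theorem G_vfd (k l : ℕ) (c : ℕ → F) (e : ℕ → ℕ → F) (f : F) :
    p.G k l (p.vfd c e f) = p.vfd c e (p.G k l f)
      + p.vfd (fun i => p.G k l (c i)) (fun i j => p.G k l (e i j)) f := by
  have := p.T.P_vf (Sum.inr (k, l)) (cf c e) f
  rw [vfd, vfd, G, this]
  congr 1
  rw [cf_P]

/-- Commutator of two vector fields. -/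
theorem vfd_vfd (c c' : ℕ → F) (e e' : ℕ → ℕ → F) (f : F) :
    p.vfd c e (p.vfd c' e' f) = p.vfd c' e' (p.vfd c e f)
      + p.vfd (fun i => p.vfd c e (c' i) - p.vfd c' e' (c i))
          (fun i j => p.vfd c e (e' i j) - p.vfd c' e' (e i j)) f := by
  have h := p.T.vf_comm (cf c e) (cf c' e') f
  have hh : (fun a => p.T.vf (cf c e) (cf c' e' a) - p.T.vf (cf c' e') (cf c e a))
      = cf (fun i => p.vfd c e (c' i) - p.vfd c' e' (c i))
          (fun i j => p.vfd c e (e' i j) - p.vfd c' e' (e i j)) := by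
    funext a
    have h1 := congrFun (cf_P c' e' (p.T.vf (cf c e))) a
    have h2 := congrFun (cf_P c e (p.T.vf (cf c' e'))) a
    rw [h1, h2]
    rcases a with i | ⟨i, j⟩
    · rfl
    · simp only [cf, Sum.elim_inr, vfd]; ring
  rw [hh] at h
  exact h

theorem vfd_congr {c c' : ℕ → F} {e e' : ℕ → ℕ → F} (hc : ∀ i, c i = c' i)
    (he : ∀ i j, e i j = e' i j) (f : F) : p.vfd c e f = p.vfd c' e' f := by
  have h1 : c = c' := funext hc
  have h2 : e = e' := funext fun i => funext fun j => he i j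
  rw [h1, h2]

theorem vfd_zero (f : F) : p.vfd (fun _ => 0) (fun _ _ => 0) f = 0 := by
  have : cf (fun _ => (0 : F)) (fun _ _ => 0) = fun _ => 0 := by
    funext a; rcases a with i | ⟨i, j⟩ <;> simp [cf]
  rw [vfd, this, Frame.vf_zero]

theorem vfd_comm_of {c c' : ℕ → F} {e e' : ℕ → ℕ → F}
    (h1 : ∀ i, p.vfd c e (c' i) = p.vfd c' e' (c i))
    (h2 : ∀ i j, p.vfd c e (e' i j) = p.vfd c' e' (e i j)) (f : F) :
    p.vfd c e (p.vfd c' e' f) = p.vfd c' e' (p.vfd c e f) := by
  rw [p.vfd_vfd c c' e e' f]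
  have h3 := p.vfd_congr (c := fun i => p.vfd c e (c' i) - p.vfd c' e' (c i))
    (c' := fun _ => 0) (e := fun i j => p.vfd c e (e' i j) - p.vfd c' e' (e i j))
    (e' := fun _ _ => 0) (fun i => by rw [h1 i, sub_self]) (fun i j => by rw [h2 i j, sub_self]) f
  rw [h3, vfd_zero, add_zero]

theorem vfd_add (c c' : ℕ → F) (e e' : ℕ → ℕ → F) (f : F) :
    p.vfd (fun i => c i + c' i) (fun i j => e i j + e' i j) f
      = p.vfd c e f + p.vfd c' e' f := by
  have : cf (fun i => c i + c' i) (fun i j => e i j + e' i j)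
      = fun a => cf c e a + cf c' e' a := by
    funext a; rcases a with i | ⟨i, j⟩
    · rfl
    · simp [cf]; ring
  rw [vfd, this, Frame.vf_add]
  rfl

theorem vfd_single_r (k : ℕ) (x f : F) :
    p.vfd (fun i => if i = k then x else 0) (fun _ _ => 0) f = x * p.E k f := by
  classical
  have : cf (fun i => if i = k then x else 0) (fun _ _ => (0 : F))
      = fun a => if a = Sum.inl k then x else 0 := by
    funext a; rcases a with i | ⟨i, j⟩ <;> simp [cf]
  rw [vfd, this, Frame.vf_single]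
  rfl

theorem vfd_single_kap (k l : ℕ) (x f : F) :
    p.vfd (fun _ => 0) (fun i j => if i = k ∧ j = l then x else 0) f
      = 2⁻¹ * x * p.G k l f := by
  classical
  have : cf (fun _ => (0 : F)) (fun i j => if i = k ∧ j = l then x else 0)
      = fun a => if a = Sum.inr (k, l) then 2⁻¹ * x else 0 := by
    funext a; rcases a with i | ⟨i, j⟩ <;> simp [cf]
  rw [vfd, this, Frame.vf_single]
  rfl

/-- the total derivative and `E` -/
theorem E_zero_D (f : F) : p.E 0 (p.D f) = p.D (p.E 0 f) := by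
  rw [D, p.E_vfd]
  simp only [E_r, map_add, E_kap, add_zero]
  rw [p.vfd_congr (c' := fun _ => 0) (e' := fun _ _ => 0) (fun i => by simp)
    (fun i j => rfl), vfd_zero, add_zero]

theorem E_succ_D (k : ℕ) (f : F) : p.E (k + 1) (p.D f) = p.D (p.E (k + 1) f) + p.E k f := by
  rw [D, p.E_vfd]
  simp only [E_r, map_add, E_kap, add_zero]
  rw [p.vfd_congr (c' := fun i => if i = k then 1 else 0) (e' := fun _ _ => 0)
    (fun i => by simp [eq_comm]) (fun i j => rfl), vfd_single_r, one_mul]

/-- shifted gradient component -/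
noncomputable def Gm (j l : ℕ) (f : F) : F :=
  match j with
  | 0 => 0
  | j + 1 => p.G j l f

theorem vfd_Gm (j l : ℕ) (f : F) :
    p.vfd (fun _ => 0) (fun a b => if j = a + 1 ∧ l = b then 1 else 0) f
      = 2⁻¹ * p.Gm j l f := by
  cases j with
  | zero =>
    rw [p.vfd_congr (c' := fun _ => 0) (e' := fun _ _ => 0) (fun i => rfl)
      (fun i j => by simp), vfd_zero]
    simp [Gm]
  | succ j =>
    rw [p.vfd_congr (c' := fun _ => 0) (e' := fun a b => if a = j ∧ b = l then 1 else 0)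
      (fun i => rfl) (fun a b => by
        congr 1
        simp only [add_left_inj, eq_comm]),
      vfd_single_kap]
    simp [Gm]

theorem vfd_Gm' (j l : ℕ) (f : F) :
    p.vfd (fun _ => 0) (fun a b => if j = b + 1 ∧ l = a then 1 else 0) f
      = 2⁻¹ * p.Gm j l f := by
  cases j with
  | zero =>
    rw [p.vfd_congr (c' := fun _ => 0) (e' := fun _ _ => 0) (fun i => rfl)
      (fun i j => by simp), vfd_zero]
    simp [Gm]
  | succ j =>
    rw [p.vfd_congr (c' := fun _ => 0) (e' := fun a b => if a = l ∧ b = j then 1 else 0)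
      (fun i => rfl) (fun a b => by
        congr 1
        simp only [add_left_inj, eq_iff_iff]
        constructor
        · rintro ⟨rfl, rfl⟩; exact ⟨rfl, rfl⟩
        · rintro ⟨rfl, rfl⟩; exact ⟨rfl, rfl⟩),
      vfd_single_kap, p.G_symm l j]
    simp [Gm]

/-- the total derivative and `G` -/
theorem G_D (j l : ℕ) (f : F) :
    p.G j l (p.D f) = p.D (p.G j l f) + p.Gm j l f + p.Gm l j f := by
  have := p.charZero
  rw [D, p.G_vfd]
  simp only [G_r', map_add, G_kap']
  have h1 : ∀ a b : ℕ, ((if j = a + 1 ∧ l = b then (1 : F) else 0)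
        + (if j = b ∧ l = a + 1 then 1 else 0))
        + ((if j = a ∧ l = b + 1 then 1 else 0) + (if j = b + 1 ∧ l = a then 1 else 0))
      = ((if j = a + 1 ∧ l = b then (1 : F) else 0)
        + (if j = b + 1 ∧ l = a then 1 else 0))
        + ((if l = b + 1 ∧ j = a then 1 else 0) + (if l = a + 1 ∧ j = b then 1 else 0)) := by
    intro a b
    simp only [and_comm (a := l = b + 1), and_comm (a := l = a + 1)]
    ring
  rw [p.vfd_congr (c' := fun _ => (0 + 0) + (0 + 0)) (fun i => by simp) h1,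
    p.vfd_add (fun _ => 0 + 0) (fun _ => 0 + 0), p.vfd_add (fun _ => 0) (fun _ => 0),
    p.vfd_add (fun _ => 0) (fun _ => 0), vfd_Gm, vfd_Gm', vfd_Gm, vfd_Gm']
  have h2 : (2 : F) ≠ 0 := two_ne_zero
  field_simp
  ring

end Polar

end Pool.Agent.Lib.MP_4d1bc1_mp
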