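import Pool.Agent.Lib.MP_4d1bc1_mp.KCalc

set_option autoImplicit false

/-! Derivations and numerals. -/

namespace Pool.Agent.Lib.MP_4d1bc1_mp

open Finset Polynomial

universe u

variable {F : Type u} [Field F] [Algebra ℝ F]

@[simp] theorem der_ofNat (δ : Derivation ℝ F F) (n : ℕ) [n.AtLeastTwo] :
    δ (OfNat.ofNat n : F) = 0 := by
  rw [← Nat.cast_ofNat]; exact Derivation.map_natCast δ n

theorem der_inv_zero (δ : Derivation ℝ F F) {a : F} (ha : δ a = 0) : δ a⁻¹ = 0 := by
  rw [Derivation.leibniz_inv, ha]; simp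

theorem der_mul_zero (δ : Derivation ℝ F F) {a b : F} (ha : δ a = 0) (hb : δ b = 0) :
    δ (a * b) = 0 := by
  rw [Derivation.leibniz, ha, hb]; simp

theorem der_div_zero (δ : Derivation ℝ F F) {a b : F} (ha : δ a = 0) (hb : δ b = 0) :
    δ (a / b) = 0 := by
  rw [div_eq_mul_inv]; exact der_mul_zero δ ha (der_inv_zero δ hb)

theorem der_mul (δ : Derivation ℝ F F) (a b : F) : δ (a * b) = δ a * b + a * δ b := by
  rw [Derivation.leibniz]; simp only [smul_eq_mul]; ring

theorem der_pow (δ : Derivation ℝ F F) (a : F) (n : ℕ) :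
    δ (a ^ (n + 1)) = (n + 1) * a ^ n * δ a := by
  rw [Derivation.leibniz_pow]; simp only [smul_eq_mul, nsmul_eq_mul, Nat.add_sub_cancel]
  push_cast; ring

theorem der_const_mul (δ : Derivation ℝ F F) {a : F} (ha : δ a = 0) (b : F) :
    δ (a * b) = a * δ b := by
  rw [der_mul, ha]; ring

namespace Polar

variable (p : Polar F)

/-- killed by all partial derivatives -/
def IsConst (a : F) : Prop := (∀ i, p.E i a = 0) ∧ ∀ i j, p.G i j a = 0

theorem isConst_natCast (n : ℕ) : p.IsConst (n : F) :=
  ⟨fun _ => Derivation.map_natCast _ _, fun _ _ => Derivation.map_natCast _ _⟩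

theorem isConst_ofNat (n : ℕ) [n.AtLeastTwo] : p.IsConst (OfNat.ofNat n : F) :=
  ⟨fun _ => der_ofNat _ _, fun _ _ => der_ofNat _ _⟩

theorem isConst_one : p.IsConst (1 : F) :=
  ⟨fun _ => Derivation.map_one_eq_zero _, fun _ _ => Derivation.map_one_eq_zero _⟩

theorem IsConst.mul {p : Polar F} {a b : F} (ha : p.IsConst a) (hb : p.IsConst b) :
    p.IsConst (a * b) :=
  ⟨fun i => der_mul_zero _ (ha.1 i) (hb.1 i), fun i j => der_mul_zero _ (ha.2 i j) (hb.2 i j)⟩

theorem IsConst.add {p : Polar F} {a b : F} (ha : p.IsConst a) (hb : p.IsConst b) :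
    p.IsConst (a + b) :=
  ⟨fun i => by rw [map_add, ha.1, hb.1, add_zero],
    fun i j => by rw [map_add, ha.2, hb.2, add_zero]⟩

theorem IsConst.neg {p : Polar F} {a : F} (ha : p.IsConst a) : p.IsConst (-a) :=
  ⟨fun i => by rw [map_neg, ha.1, neg_zero], fun i j => by rw [map_neg, ha.2, neg_zero]⟩

theorem IsConst.sub {p : Polar F} {a b : F} (ha : p.IsConst a) (hb : p.IsConst b) :
    p.IsConst (a - b) :=
  ⟨fun i => by rw [map_sub, ha.1, hb.1, sub_zero],
    fun i j => by rw [map_sub, ha.2, hb.2, sub_zero]⟩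

theorem IsConst.inv {p : Polar F} {a : F} (ha : p.IsConst a) : p.IsConst a⁻¹ :=
  ⟨fun i => der_inv_zero _ (ha.1 i), fun i j => der_inv_zero _ (ha.2 i j)⟩

theorem IsConst.div {p : Polar F} {a b : F} (ha : p.IsConst a) (hb : p.IsConst b) :
    p.IsConst (a / b) := by
  rw [div_eq_mul_inv]; exact ha.mul hb.inv

/-- A constant is killed by every vector field. -/
theorem IsConst.vfd_eq {p : Polar F} {a : F} (ha : p.IsConst a) (c : ℕ → F) (e : ℕ → ℕ → F) :
    p.vfd c e a = 0 := by
  rw [p.vfd_eq_sum c e a 0 ⟨fun i _ => ha.1 i, fun i j _ => ha.2 i j⟩]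
  simp

theorem IsConst.D_eq {p : Polar F} {a : F} (ha : p.IsConst a) : p.D a = 0 := ha.vfd_eq _ _

theorem IsConst.grad_eq {p : Polar F} {a : F} (ha : p.IsConst a) (L : ℕ) : p.grad L a = 0 := by
  ext j; rw [coeff_grad, ha.2, coeff_zero]

theorem D_const_mul {a : F} (ha : p.IsConst a) (b : F) : p.D (a * b) = a * p.D b :=
  der_const_mul _ ha.D_eq b

theorem grad_const_mul {a : F} (ha : p.IsConst a) (L : ℕ) (b : F) :
    p.grad L (a * b) = C a * p.grad L b := by
  rw [grad_mul, ha.grad_eq]; ring

theorem DK_const_mul {a : F} (ha : p.IsConst a) (W : F[X]) :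
    p.DK (C a * W) = C a * p.DK W := by
  rw [DK_C_mul, ha.D_eq]; simp

/-- If the total derivative of `a` vanishes then `a` is a constant. -/
theorem isConst_of_D {a : F} (ha : p.D a = 0) : p.IsConst a := by
  obtain ⟨N, hN⟩ := p.exists_bd a
  constructor
  · -- E part
    have key : ∀ n, ∀ i, N ≤ i + n → p.E i a = 0 := by
      intro n
      induction n with
      | zero => intro i hi; exact hN.1 i (by simpa using hi)
      | succ n ih =>
        intro i hi
        have h1 := p.E_succ_D i a
        rw [ha, map_zero, ih (i + 1) (by omega), map_zero, zero_add] at h1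
        exact h1.symm
    intro i; exact key N i (by omega)
  · have key : ∀ n, ∀ i, N ≤ i + n → p.grad i a = 0 := by
      intro n
      induction n with
      | zero => intro i hi; exact p.grad_eq_zero_of_le hN (by simpa using hi)
      | succ n ih =>
        intro i hi
        have h1 := p.grad_succ_D i a
        rw [ha, grad_zero, ih (i + 1) (by omega), map_zero, zero_add] at h1
        exact h1.symm
    intro i j
    rw [p.G_symm, ← coeff_grad, key N i (by omega)]
    simp

end Polar

end Pool.Agent.Lib.MP_4d1bc1_mp
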