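import Pool.Agent.Lib.MP_4d1bc1_mp.Jet

set_option autoImplicit false

/-! The moving frame: `v = u / R` and the vectors `k_i`. -/

namespace Pool.Agent.Lib.MP_4d1bc1_mp

open Finset Polynomial

universe u

variable {F : Type u} [Field F] [Algebra ℝ F]

namespace Jet

/-- a square root of `u_[0,0]` -/
structure IsRoot (J : Jet F) (R : F) : Prop where
  sq : R ^ 2 = J.u 0 0

variable {J : Jet F} {R : F}

theorem charZero (_J : Jet F) : CharZero F :=
  charZero_of_injective_algebraMap (algebraMap ℝ F).injective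

theorem IsRoot.ne (h : J.IsRoot R) : R ≠ 0 := by
  have := J.charZero
  intro h0
  have h1 := h.sq
  rw [h0] at h1
  have h2 := J.Gu_u 0 0 0 0
  rw [← h1] at h2
  simp at h2
  norm_num at h2

theorem grad_u (J : Jet F) (L a b : ℕ) :
    J.grad L (J.u a b) = (if L = b then X ^ a else 0) + (if L = a then X ^ b else 0) := by
  refine Polynomial.ext fun j => ?_
  rw [coeff_grad, Gu_u, coeff_add]
  congr 1
  · by_cases h1 : L = b
    · rw [if_pos h1, coeff_X_pow]
      simp [h1]
    · rw [if_neg h1, coeff_zero, if_neg (fun h => h1 h.2)]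
  · by_cases h1 : L = a
    · rw [if_pos h1, coeff_X_pow]
      simp [h1]
    · rw [if_neg h1, coeff_zero, if_neg (fun h => h1 h.2)]

theorem IsRoot.grad_R (h : J.IsRoot R) (L : ℕ) :
    J.grad L R = if L = 0 then C R⁻¹ else 0 := by
  have := J.charZero
  have h1 := congrArg (J.grad L) h.sq
  rw [pow_two, grad_mul, grad_u] at h1
  have h2 : (2 : F[X]) * C R ≠ 0 := by
    rw [← map_ofNat C 2, ← C_mul, Ne, C_eq_zero]
    exact mul_ne_zero two_ne_zero h.ne
  apply mul_left_cancel₀ h2
  split_ifs with hL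
  · rw [if_pos hL, pow_zero] at h1
    have h3 : (C R * C R⁻¹ : F[X]) = 1 := by rw [← C_mul, mul_inv_cancel₀ h.ne, C_1]
    linear_combination h1 - 2 * h3
  · rw [if_neg hL] at h1
    linear_combination h1

theorem grad_inv (J : Jet F) (L : ℕ) {f : F} (hf : f ≠ 0) :
    J.grad L f⁻¹ = - C (f⁻¹ ^ 2) * J.grad L f := by
  have h1 : J.grad L (f * f⁻¹) = 0 := by
    rw [mul_inv_cancel₀ hf]
    refine Polynomial.ext fun i => ?_
    rw [coeff_grad, coeff_zero]
    exact Derivation.map_one_eq_zero _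
  rw [grad_mul] at h1
  have h3 : (C f * C f⁻¹ : F[X]) = 1 := by rw [← C_mul, mul_inv_cancel₀ hf, C_1]
  rw [C_pow]
  linear_combination C f⁻¹ * h1 - J.grad L f⁻¹ * h3

/-- the unit vector -/
noncomputable def vv (R : F) : F[X] := C R⁻¹

/-- the vectors `k_i` -/
noncomputable def kv (J : Jet F) (R : F) : ℕ → F[X]
  | 0 => J.DM (vv R)
  | i + 1 => J.DM (kv J R i) + C (J.ip (J.DM (vv R)) (kv J R i)) * vv R

theorem kv_zero (J : Jet F) (R : F) : J.kv R 0 = J.DM (vv R) := rfl
theorem kv_succ (J : Jet F) (R : F) (i : ℕ) :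
    J.kv R (i + 1) = J.DM (J.kv R i) + C (J.ip (J.kv R 0) (J.kv R i)) * vv R := rfl

/-- the functions `kap i j` -/
noncomputable def kp (J : Jet F) (R : F) (i j : ℕ) : F := J.ip (J.kv R i) (J.kv R j)

theorem kp_symm (J : Jet F) (R : F) (i j : ℕ) : J.kp R i j = J.kp R j i := J.ip_symm _ _

theorem ip_C_C (J : Jet F) (a b : F) : J.ip (C a) (C b) = a * b * J.u 0 0 := by
  rw [← monomial_zero_left, ← monomial_zero_left, ip_monomial]

theorem IsRoot.vv_vv (h : J.IsRoot R) : J.ip (vv R) (vv R) = 1 := by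
  rw [vv, ip_C_C, ← h.sq]
  have := h.ne
  field_simp

theorem IsRoot.vv_kv (h : J.IsRoot R) (i : ℕ) : J.ip (vv R) (J.kv R i) = 0 := by
  have := J.charZero
  induction i with
  | zero =>
    have h1 := J.D_ip (vv R) (vv R)
    rw [h.vv_vv, J.ip_symm (J.DM (vv R)), Derivation.map_one_eq_zero] at h1
    rw [kv_zero]
    have h2 : 2 * J.ip (vv R) (J.DM (vv R)) = 0 := by linear_combination -h1
    exact (mul_eq_zero.1 h2).resolve_left two_ne_zero
  | succ i ih =>
    have h1 := J.D_ip (vv R) (J.kv R i)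
    rw [ih, map_zero, ← kv_zero] at h1
    rw [kv_succ, ip_add_right, ip_C_mul_right, h.vv_vv]
    linear_combination -h1

theorem DM_kv (J : Jet F) (R : F) (i : ℕ) :
    J.DM (J.kv R i) = J.kv R (i + 1) - C (J.kp R 0 i) * vv R := by
  rw [kv_succ, kp]; ring

theorem IsRoot.D_kp (h : J.IsRoot R) (i j : ℕ) :
    J.D (J.kp R i j) = J.kp R (i + 1) j + J.kp R i (j + 1) := by
  rw [kp, D_ip, DM_kv, DM_kv, ip_sub_left, ip_sub_right, ip_C_mul_left, ip_C_mul_right,
    h.vv_kv, J.ip_symm (J.kv R i) (vv R), h.vv_kv]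
  simp only [kp]
  ring

/-- degrees -/
theorem kv_coeff (J : Jet F) (R : F) (i : ℕ) :
    (∀ a, i + 1 < a → (J.kv R i).coeff a = 0) ∧ (J.kv R i).coeff (i + 1) = R⁻¹ := by
  have hv : ∀ a, (vv R : F[X]).coeff (a + 1) = 0 := fun a => by
    rw [vv, coeff_C, if_neg (by omega)]
  induction i with
  | zero =>
    constructor
    · intro a ha
      obtain ⟨a, rfl⟩ : ∃ a', a = a' + 1 + 1 := ⟨a - 2, by omega⟩
      rw [kv_zero, coeff_DM_succ, hv, hv, map_zero, add_zero]
    · rw [kv_zero, coeff_DM_succ, hv, map_zero, zero_add, vv, coeff_C_zero]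
  | succ i ih =>
    constructor
    · intro a ha
      obtain ⟨a, rfl⟩ : ∃ a', a = a' + 1 := ⟨a - 1, by omega⟩
      rw [kv_succ, coeff_add, coeff_DM_succ, coeff_C_mul, hv, ih.1 _ (by omega),
        ih.1 _ (by omega), map_zero, mul_zero, add_zero, add_zero]
    · rw [kv_succ, coeff_add, coeff_DM_succ, coeff_C_mul, hv, ih.1 _ (by omega), ih.2, map_zero,
        mul_zero, add_zero, zero_add]

/-- contraction with the gradients of the coefficients -/
noncomputable def ctg (J : Jet F) (L : ℕ) (U W : F[X]) : F[X] :=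
  U.sum fun a c => C (J.ip (X ^ a) W) * J.grad L c

theorem grad_zero (J : Jet F) (L : ℕ) : J.grad L 0 = 0 := by
  refine Polynomial.ext fun i => ?_; simp

theorem ctg_add_left (J : Jet F) (L : ℕ) (U U' W : F[X]) :
    J.ctg L (U + U') W = J.ctg L U W + J.ctg L U' W := by
  unfold ctg
  rw [Polynomial.sum_add_index _ _ _ (by intro i; rw [grad_zero, mul_zero])
    (by intro a b c; rw [grad_add, mul_add])]

theorem ctg_add_right (J : Jet F) (L : ℕ) (U W W' : F[X]) :
    J.ctg L U (W + W') = J.ctg L U W + J.ctg L U W' := by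
  unfold ctg
  rw [Polynomial.sum_def, Polynomial.sum_def, Polynomial.sum_def, ← sum_add_distrib]
  exact sum_congr rfl fun i _ => by rw [ip_add_right, C_add, add_mul]

theorem ctg_monomial (J : Jet F) (L a : ℕ) (c : F) (W : F[X]) :
    J.ctg L (monomial a c) W = C (J.ip (X ^ a) W) * J.grad L c := by
  unfold ctg
  rw [Polynomial.sum_monomial_index _ _ (by rw [grad_zero, mul_zero])]

/-- the gradient of a scalar product -/
theorem grad_ip (J : Jet F) (L : ℕ) (U W : F[X]) : J.grad L (J.ip U W)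
    = C (U.coeff L) * W + C (W.coeff L) * U + J.ctg L U W + J.ctg L W U := by
  induction U using Polynomial.induction_on' with
  | add U V hU hV =>
    rw [ip_add_left, grad_add, hU, hV, coeff_add, ctg_add_left, ctg_add_right, C_add]; ring
  | monomial i a =>
    induction W using Polynomial.induction_on' with
    | add U V hU hV =>
      rw [ip_add_right, grad_add, hU, hV, coeff_add, ctg_add_left, ctg_add_right, C_add]; ring
    | monomial j b =>
      rw [ip_monomial, grad_mul, grad_mul, grad_u, ctg_monomial, ctg_monomial, coeff_monomial,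
        coeff_monomial]
      have h1 : J.ip (X ^ i) (monomial j b) = b * J.u i j := by
        rw [← C_mul_X_pow_eq_monomial, ip_C_mul_right, ip_X_pow]
      have h2 : J.ip (X ^ j) (monomial i a) = a * J.u i j := by
        rw [← C_mul_X_pow_eq_monomial, ip_C_mul_right, ip_X_pow, u_symm]
      rw [h1, h2, ← C_mul_X_pow_eq_monomial, ← C_mul_X_pow_eq_monomial]
      have e1 : (if i = L then a else 0) = if L = i then a else 0 := by simp only [eq_comm]
      have e2 : (if j = L then b else 0) = if L = j then b else 0 := by simp only [eq_comm]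
      rw [e1, e2]
      split_ifs <;> simp only [C_mul, C_0] <;> ring

theorem ctg_zero_of (J : Jet F) {L : ℕ} {U : F[X]} (W : F[X])
    (h : ∀ a, J.grad L (U.coeff a) = 0) : J.ctg L U W = 0 := by
  unfold ctg
  rw [Polynomial.sum_def]
  exact sum_eq_zero fun a _ => by rw [h, mul_zero]

theorem ctg_zero_of' (J : Jet F) {L : ℕ} {U : F[X]} {W : F[X]}
    (h : ∀ a, J.grad L (U.coeff (a + 1)) = 0) (h0 : J.ip 1 W = 0) : J.ctg L U W = 0 := by
  unfold ctg
  rw [Polynomial.sum_def]
  refine sum_eq_zero fun a _ => ?_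
  cases a with
  | zero => rw [pow_zero, h0, C_0, zero_mul]
  | succ a => rw [h, mul_zero]

theorem grad_D_zero (J : Jet F) {L : ℕ} {f : F} (h1 : J.grad (L + 1) f = 0)
    (h2 : J.grad L f = 0) : J.grad (L + 1) (J.D f) = 0 := by
  rw [grad_succ_D, h1, h2, map_zero, add_zero]

theorem IsRoot.grad_Ri (h : J.IsRoot R) (L : ℕ) : J.grad (L + 1) R⁻¹ = 0 := by
  rw [J.grad_inv _ h.ne, h.grad_R, if_neg (by omega), mul_zero]

/-- levels of the coefficients of the vectors `k_i` -/
theorem IsRoot.kv_lev (h : J.IsRoot R) (i : ℕ) :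
    (∀ L, i + 1 < L → ∀ a, J.grad L ((J.kv R i).coeff a) = 0) ∧
    ∀ a, J.grad (i + 1) ((J.kv R i).coeff (a + 1)) = 0 := by
  have hv : ∀ a, (vv R : F[X]).coeff (a + 1) = 0 := fun a => by
    rw [vv, coeff_C, if_neg (by omega)]
  have hv0 : (vv R : F[X]).coeff 0 = R⁻¹ := by rw [vv, coeff_C_zero]
  have base1 : ∀ L, 1 < L → ∀ a, J.grad L ((J.kv R 0).coeff a) = 0 := by
    intro L hL a
    obtain ⟨L, rfl⟩ : ∃ L', L = L' + 1 + 1 := ⟨L - 2, by omega⟩
    rcases a with _ | _ | a
    · rw [kv_zero, coeff_DM_zero, hv0]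
      exact J.grad_D_zero (h.grad_Ri _) (h.grad_Ri _)
    · rw [zero_add, kv_zero, coeff_DM_succ, hv, map_zero, zero_add, hv0]
      exact h.grad_Ri _
    · rw [kv_zero, coeff_DM_succ, hv, hv, map_zero, zero_add]
      exact J.grad_zero _
  induction i with
  | zero =>
    refine ⟨fun L hL a => base1 L (by omega) a, fun a => ?_⟩
    cases a with
    | zero =>
      rw [kv_zero, coeff_DM_succ, hv, map_zero, hv0]
      simp only [zero_add]
      exact h.grad_Ri 0
    | succ a =>
      rw [kv_zero, coeff_DM_succ, hv, hv, map_zero]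
      simp only [zero_add]
      exact J.grad_zero _
  | succ i ih =>
    have hkp : ∀ L, i + 1 < L → J.grad L (J.kp R 0 i) = 0 := by
      intro L hL
      rw [kp, grad_ip, (kv_coeff J R 0).1 L (by omega), (kv_coeff J R i).1 L hL,
        J.ctg_zero_of _ (base1 L (by omega)), J.ctg_zero_of _ (ih.1 L hL)]
      simp
    constructor
    · intro L hL a
      obtain ⟨L, rfl⟩ : ∃ L', L = L' + 1 := ⟨L - 1, by omega⟩
      cases a with
      | zero =>
        rw [kv_succ, coeff_add, coeff_DM_zero, coeff_C_mul, hv0, grad_add,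
          J.grad_D_zero (ih.1 _ (by omega) 0) (ih.1 _ (by omega) 0), grad_mul]
        have h3 := hkp (L + 1) (by omega)
        rw [kp] at h3
        rw [h3, h.grad_Ri]
        simp
      | succ a =>
        rw [kv_succ, coeff_add, coeff_DM_succ, coeff_C_mul, hv, mul_zero, add_zero, grad_add,
          J.grad_D_zero (ih.1 _ (by omega) _) (ih.1 _ (by omega) _), ih.1 _ (by omega), add_zero]
    · intro a
      rw [kv_succ, coeff_add, coeff_DM_succ, coeff_C_mul, hv, mul_zero, add_zero, grad_add,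
        J.grad_D_zero (ih.1 _ (by omega) _) (ih.2 a), ih.1 _ (by omega), add_zero]

theorem IsRoot.ip_one_kv (h : J.IsRoot R) (i : ℕ) : J.ip 1 (J.kv R i) = 0 := by
  have h1 : (1 : F[X]) = C R * vv R := by rw [vv, ← C_mul, mul_inv_cancel₀ h.ne, C_1]
  rw [h1, ip_C_mul_left, h.vv_kv, mul_zero]

theorem IsRoot.grad_kp_far (h : J.IsRoot R) {i j : ℕ} (hij : i ≤ j) {L : ℕ} (hL : j + 1 < L) :
    J.grad L (J.kp R i j) = 0 := by
  rw [kp, grad_ip, (kv_coeff J R i).1 L (by omega), (kv_coeff J R j).1 L hL,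
    J.ctg_zero_of _ ((h.kv_lev i).1 L (by omega)), J.ctg_zero_of _ ((h.kv_lev j).1 L hL)]
  simp

theorem IsRoot.grad_kp_lt (h : J.IsRoot R) {i j : ℕ} (hij : i < j) :
    J.grad (j + 1) (J.kp R i j) = C R⁻¹ * J.kv R i := by
  rw [kp, grad_ip, (kv_coeff J R i).1 (j + 1) (by omega), (kv_coeff J R j).2,
    J.ctg_zero_of _ ((h.kv_lev i).1 (j + 1) (by omega)),
    J.ctg_zero_of' (h.kv_lev j).2 (h.ip_one_kv i)]
  simp

theorem IsRoot.grad_kp_eq (h : J.IsRoot R) (j : ℕ) :
    J.grad (j + 1) (J.kp R j j) = C (2 * R⁻¹) * J.kv R j := by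
  rw [kp, grad_ip, (kv_coeff J R j).2,
    J.ctg_zero_of' (h.kv_lev j).2 (h.ip_one_kv j), C_mul, map_ofNat]
  ring

theorem IsRoot.grad_iter (h : J.IsRoot R) (j : ℕ) :
    J.grad j (J.D^[j] R) = C R⁻¹ ∧ ∀ L, j < L → J.grad L (J.D^[j] R) = 0 := by
  induction j with
  | zero =>
    refine ⟨?_, fun L hL => ?_⟩
    · rw [Function.iterate_zero, id_eq, h.grad_R, if_pos rfl]
    · rw [Function.iterate_zero, id_eq, h.grad_R, if_neg (by omega)]
  | succ j ih =>
    rw [Function.iterate_succ_apply']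
    refine ⟨?_, fun L hL => ?_⟩
    · rw [grad_succ_D, ih.2 _ (by omega), ih.1, map_zero, zero_add]
    · obtain ⟨L, rfl⟩ : ∃ L', L = L' + 1 := ⟨L - 1, by omega⟩
      rw [grad_succ_D, ih.2 _ (by omega), ih.2 _ (by omega), map_zero, zero_add]

end Jet

end Pool.Agent.Lib.MP_4d1bc1_mp
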