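import Pool.Agent.Lib.MP_4d1bc1_mp.Polar

set_option autoImplicit false

namespace Pool.Agent.Lib.MP_4d1bc1_mp

open Finset Polynomial

universe u

namespace Frame

variable {I : Type} {F : Type u} [Field F] [Algebra ℝ F] (T : Frame I F)

theorem vf_zero (f : F) : T.vf (fun _ => 0) f = 0 := by
  rw [T.vf_apply]; simp

theorem vf_add (c d : I → F) (f : F) :
    T.vf (fun a => c a + d a) f = T.vf c f + T.vf d f := by
  rw [T.vf_eq_sum _ f _ (T.P_notMem f), T.vf_eq_sum _ f _ (T.P_notMem f),
    T.vf_eq_sum _ f _ (T.P_notMem f), ← sum_add_distrib]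
  exact sum_congr rfl fun a _ => by ring

theorem vf_mul (x : F) (c : I → F) (f : F) :
    T.vf (fun a => x * c a) f = x * T.vf c f := by
  rw [T.vf_eq_sum _ f _ (T.P_notMem f), T.vf_eq_sum _ f _ (T.P_notMem f), mul_sum]
  exact sum_congr rfl fun a _ => by ring

theorem vf_single [DecidableEq I] (b : I) (x : F) (f : F) :
    T.vf (fun a => if a = b then x else 0) f = x * T.P b f := by
  rw [T.vf_eq_sum _ f (insert b (T.fin f).toFinset)
    (fun a ha => T.P_notMem f a (fun h => ha (mem_insert_of_mem h)))]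
  rw [Finset.sum_eq_single b]
  · simp
  · intro a _ hab; simp [hab]
  · intro h; exact absurd (mem_insert_self _ _) h

end Frame

variable {F : Type u} [Field F] [Algebra ℝ F]

namespace Polar

variable (p : Polar F)

/-- bound for the variables on which `f` depends -/
def Bd (f : F) (N : ℕ) : Prop :=
  (∀ i, N ≤ i → p.E i f = 0) ∧ ∀ i j, N ≤ i → p.G i j f = 0

theorem Bd.mono {p : Polar F} {f : F} {N M : ℕ} (h : p.Bd f N) (hNM : N ≤ M) : p.Bd f M :=
  ⟨fun i hi => h.1 i (hNM.trans hi), fun i j hi => h.2 i j (hNM.trans hi)⟩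

theorem exists_bd (f : F) : ∃ N, p.Bd f N := by
  classical
  let s : Finset Idx := (p.T.fin f).toFinset
  let g : Idx → ℕ := fun a => Sum.elim (fun i => i) (fun ij => ij.1) a
  refine ⟨s.sup g + 1, ?_, ?_⟩
  · intro i hi
    apply p.T.P_notMem f
    intro hs
    have : i ≤ s.sup g := Finset.le_sup (f := g) hs
    omega
  · intro i j hi
    apply p.T.P_notMem f
    intro hs
    have : i ≤ s.sup g := Finset.le_sup (f := g) hs
    omega

/-- coefficients of a vector field -/
noncomputable def cf (c : ℕ → F) (e : ℕ → ℕ → F) : Idx → F :=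
  Sum.elim c (fun ij => 2⁻¹ * e ij.1 ij.2)

/-- The vector field with `r i ↦ c i` and `kap i j ↦ e i j`. -/
noncomputable def vfd (c : ℕ → F) (e : ℕ → ℕ → F) : Derivation ℝ F F := p.T.vf (cf c e)

theorem vfd_r (c : ℕ → F) (e : ℕ → ℕ → F) (i : ℕ) : p.vfd c e (p.r i) = c i := by
  rw [vfd, p.T.vf_eq_sum _ _ {Sum.inl i}]
  · simp [cf, p.P_r]
  · intro a ha
    rcases a with j | ⟨j, l⟩
    · rw [p.P_r]
      rw [if_neg]
      rintro rfl
      exact ha (by simp)
    · exact p.G_r j l i

theorem vfd_kap (c : ℕ → F) (e : ℕ → ℕ → F) (he : ∀ i j, e i j = e j i) (i j : ℕ) :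
    p.vfd c e (p.kap i j) = e i j := by
  have := p.charZero
  have h2 : (2 : F) ≠ 0 := two_ne_zero
  rw [vfd, p.T.vf_eq_sum _ _ {Sum.inr (i, j), Sum.inr (j, i)}]
  · by_cases hij : i = j
    · subst hij
      rw [Finset.pair_eq_singleton, Finset.sum_singleton, p.G_kap]
      simp only [cf, Sum.elim_inr, and_self, if_true]
      field_simp
      ring
    · rw [Finset.sum_pair (by simp [hij])]
      rw [p.G_kap, p.G_kap]
      have hji : ¬ j = i := fun h => hij h.symm
      simp only [cf, Sum.elim_inr, hij, hji, and_self, if_true, if_false,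
        add_zero, zero_add, mul_one]
      rw [he j i]
      field_simp
      ring
  · intro a ha
    rcases a with k | ⟨k, l⟩
    · exact p.P_kap k i j
    · rw [p.G_kap]
      rw [if_neg, if_neg, add_zero]
      · rintro ⟨rfl, rfl⟩; exact ha (by simp)
      · rintro ⟨rfl, rfl⟩; exact ha (by simp)

theorem vfd_eq_sum (c : ℕ → F) (e : ℕ → ℕ → F) (f : F) (N : ℕ) (hN : p.Bd f N) :
    p.vfd c e f = ∑ i ∈ range N, c i * p.E i f
      + 2⁻¹ * ∑ i ∈ range N, ∑ j ∈ range N, e i j * p.G i j f := by
  classical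
  rw [vfd, p.T.vf_eq_sum _ _ (disjSum (range N) (range N ×ˢ range N))]
  · rw [Finset.sum_disjSum, Finset.sum_product, mul_sum]
    simp only [cf, Sum.elim_inl, Sum.elim_inr, mul_sum]
    congr 1
    refine sum_congr rfl fun i _ => sum_congr rfl fun j _ => ?_
    rw [mul_assoc]; rfl
  · intro a ha
    rcases a with k | ⟨k, l⟩
    · refine hN.1 k ?_
      by_contra h
      exact ha (by simp; omega)
    · by_cases hk : N ≤ k
      · exact hN.2 k l hk
      · have hl : N ≤ l := by
          by_contra h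
          exact ha (by simp; omega)
        have := hN.2 l k hl
        rw [p.G_symm] at this
        exact this

/-- the total derivative -/
noncomputable def D : Derivation ℝ F F :=
  p.vfd (fun i => p.r (i + 1)) (fun i j => p.kap (i + 1) j + p.kap i (j + 1))

@[simp] theorem D_r (i : ℕ) : p.D (p.r i) = p.r (i + 1) := p.vfd_r _ _ i

theorem D_kap (i j : ℕ) : p.D (p.kap i j) = p.kap (i + 1) j + p.kap i (j + 1) := by
  refine p.vfd_kap _ _ ?_ i j
  intro i j
  rw [p.kap_symm (i + 1) j, p.kap_symm i (j + 1)]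
  ring

end Polar

end Pool.Agent.Lib.MP_4d1bc1_mp
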