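import Pool.Agent.Lib.MP_4d1bc1_mp.LevelsC

set_option autoImplicit false

/-! Necessary conditions. -/

namespace Pool.Agent.Lib.MP_4d1bc1_mp

open Finset Polynomial

universe u

variable {F : Type u} [Field F] [Algebra ℝ F]

namespace Polar

variable {p : Polar F} {q : p.Rad} {V : F[X]} {Y : F} {n : ℕ}

theorem IsFn.G {f : F} (hf : p.IsFn f) (i j : ℕ) : p.G i j f = 0 := by
  rw [← coeff_grad, hf.hG j, coeff_zero]

theorem G00_S (p : Polar F) : p.G 0 0 p.S = 2 := by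
  rw [← coeff_grad, grad_S, if_pos rfl, coeff_C, if_pos rfl]

theorem G01_S (p : Polar F) : p.G 0 1 p.S = 0 := by
  rw [← coeff_grad, grad_S, if_neg (by omega), coeff_zero]

theorem G01_DS (p : Polar F) : p.G 0 1 (p.D p.S) = 2 := by
  rw [← coeff_grad, grad_succ_D, grad_S, if_neg (by omega), map_zero, zero_add, grad_S,
    if_pos rfl, coeff_C, if_pos rfl]

theorem G00_DS (p : Polar F) : p.G 0 0 (p.D p.S) = 0 := by
  rw [← coeff_grad, grad_zero_D, grad_S, if_pos rfl, coeff_DK_zero, coeff_C, if_pos rfl]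
  exact (p.isConst_ofNat 2).D_eq

theorem k1_ne (h : Sym q V Y n) : k1 V n ≠ 0 := by
  have := p.charZero
  unfold k1
  refine mul_ne_zero (div_ne_zero ?_ three_ne_zero) h.ne
  have : ((n + 5 : ℕ) : F) ≠ 0 := Nat.cast_ne_zero.2 (by omega)
  push_cast at this
  exact this

/-- explicit form of the obstruction -/
theorem Rad.rho_eq (q : p.Rad) : q.rho = (-3 * p.E 0 q.ed) * p.r 1 * p.r 2
    + (q.ed * q.b - (p.E 0 (p.E 0 q.ed + 3⁻¹ * q.a * q.ed)
      + 3⁻¹ * q.a * (p.E 0 q.ed + 3⁻¹ * q.a * q.ed))) * p.r 1 ^ 3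
    + (q.c - 3) * q.ed * p.r 1 * p.S + 2⁻¹ * (q.ed - 3) * q.e * p.D p.S := by
  have := p.charZero
  have h3 : p.IsFn (3 : F)⁻¹ := (IsFn.ofNat 3).inv
  have f1 := q.IsFn_ed
  have f2 : p.IsFn (p.E 0 q.ed + 3⁻¹ * q.a * q.ed) := f1.E0.add ((h3.mul q.ha).mul f1)
  have g1 : p.Dh q.w q.e = q.ed * p.r 1 := by
    rw [Dh_apply, q.he.D_eq, Rad.ed, Rad.w]; ring
  have g2 : p.Dh q.w (q.ed * p.r 1) = (p.E 0 q.ed + 3⁻¹ * q.a * q.ed) * p.r 1 * p.r 1
      + q.ed * p.r 2 := by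
    rw [Dh_apply, der_mul, f1.D_eq, D_r, Rad.w]; ring
  have g3 : p.Dh q.w ((p.E 0 q.ed + 3⁻¹ * q.a * q.ed) * p.r 1 * p.r 1 + q.ed * p.r 2)
      = (p.E 0 (p.E 0 q.ed + 3⁻¹ * q.a * q.ed)
      + 3⁻¹ * q.a * (p.E 0 q.ed + 3⁻¹ * q.a * q.ed)) * p.r 1 ^ 3
      + 2 * (p.E 0 q.ed + 3⁻¹ * q.a * q.ed) * p.r 1 * p.r 2
      + (p.E 0 q.ed + 3⁻¹ * q.a * q.ed) * p.r 1 * p.r 2 + q.ed * p.r 3 := by
    rw [Dh_apply, map_add, der_mul, der_mul, der_mul, f1.D_eq, f2.D_eq, D_r, D_r, Rad.w]; ring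
  rw [Rad.rho, g1, g2, g3, Rad.FR]
  field_simp
  ring

theorem Sym.delConst (h : Sym q V Y n) (hh : q.e ≠ 0 ∨ q.c ≠ 0) :
    p.IsConst (del q V Y n - b3 p V n) := by
  by_cases he : q.e = 0
  · have hc : q.c ≠ 0 := hh.resolve_left (fun h => h he)
    exact (h.yblock (h.cM he hc) (h.c3 he hc).2 (h.c2 he hc).2 (h.c1 he hc).2).sub h.vs.constb3
  · exact (h.yblock (h.eM he) (h.e4 he).2 (h.e3 he).2 (h.e2 he).2).sub h.vs.constb3

theorem Sym.eConc (h : Sym q V Y n) (he : q.e ≠ 0) : q.c = 3 ∧ q.ed = 3 ∧ q.J = 0 := by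
  have := p.charZero
  have hz := h.eLast he
  have hk := h.delConst (Or.inl he)
  have hk1 := h.vs.const1
  have hk1n := k1_ne h
  have hr1 := p.r1_ne
  have h3 : p.IsFn (3 : F)⁻¹ := (IsFn.ofNat 3).inv
  have h2' : p.IsFn (2 : F)⁻¹ := (IsFn.ofNat 2).inv
  have f1 := q.IsFn_ed
  have f2 : p.IsFn (p.E 0 q.ed + 3⁻¹ * q.a * q.ed) := f1.E0.add ((h3.mul q.ha).mul f1)
  have f3 : p.IsFn (q.ed * q.b - (p.E 0 (p.E 0 q.ed + 3⁻¹ * q.a * q.ed)
      + 3⁻¹ * q.a * (p.E 0 q.ed + 3⁻¹ * q.a * q.ed))) :=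
    (f1.mul q.hb).sub (f2.E0.add ((h3.mul q.ha).mul f2))
  rw [q.rho_eq] at hz
  obtain ⟨g, hg⟩ : ∃ g, g = q.ed * q.b - (p.E 0 (p.E 0 q.ed + 3⁻¹ * q.a * q.ed)
      + 3⁻¹ * q.a * (p.E 0 q.ed + 3⁻¹ * q.a * q.ed)) := ⟨_, rfl⟩
  rw [← hg] at hz f3
  have z3 : ∀ i, p.E i (3 : F) = 0 := fun i => der_ofNat _ 3
  -- step 1
  have s1 : p.E 0 q.ed = 0 := by
    have e1 := congrArg (p.E 2) hz
    have z0 : p.E 2 (-3 : F) = 0 := ((p.isConst_ofNat 3).neg).1 2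
    simp only [map_add, map_sub, der_mul, pow_succ, pow_zero, one_mul, E_r, hk1.1 2, hk.1 2,
      f1.E0.hE 1, f3.hE 1, q.hc.hE 1, z3, f1.hE 1, E_S, h2'.hE 1, q.he.hE 1, z0,
      p.E_D_eq_zero p.E_S, map_zero] at e1
    norm_num at e1
    exact (e1.resolve_left hk1n).resolve_right hr1
  -- step 2
  have s2 : q.ed = 3 := by
    have e1 := congrArg (p.G 0 1) hz
    have z0 : p.G 0 1 (-3 : F) = 0 := ((p.isConst_ofNat 3).neg).2 0 1
    have z3 : p.G 0 1 (3 : F) = 0 := (p.isConst_ofNat 3).2 0 1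
    simp only [map_add, map_sub, der_mul, pow_succ, pow_zero, one_mul, G_r', hk1.2 0 1, hk.2 0 1,
      f1.E0.G 0 1, f3.G 0 1, q.hc.G 0 1, z3, f1.G 0 1, G01_S, h2'.G 0 1, q.he.G 0 1, z0,
      G01_DS, map_zero] at e1
    have e2 : k1 V n * (q.e * (q.ed - 3)) = 0 := by
      have : (2 : F)⁻¹ * 2 = 1 := inv_mul_cancel₀ two_ne_zero
      linear_combination e1 - k1 V n * q.e * (q.ed - 3) * this
    exact sub_eq_zero.1 ((mul_eq_zero.1 ((mul_eq_zero.1 e2).resolve_left hk1n)).resolve_left he)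
  -- step 3
  have s3 : q.c = 3 := by
    have e1 := congrArg (p.G 0 0) hz
    have z0 : p.G 0 0 (-3 : F) = 0 := ((p.isConst_ofNat 3).neg).2 0 0
    have z3 : p.G 0 0 (3 : F) = 0 := (p.isConst_ofNat 3).2 0 0
    simp only [map_add, map_sub, der_mul, pow_succ, pow_zero, one_mul, G_r', hk1.2 0 0, hk.2 0 0,
      f1.E0.G 0 0, f3.G 0 0, q.hc.G 0 0, z3, f1.G 0 0, G00_S, h2'.G 0 0, q.he.G 0 0, z0,
      G00_DS, map_zero] at e1
    rw [s2] at e1
    have e2 : (6 * k1 V n * p.r 1) * (q.c - 3) = 0 := by linear_combination e1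
    exact sub_eq_zero.1 ((mul_eq_zero.1 e2).resolve_left
      (mul_ne_zero (mul_ne_zero (by norm_num) hk1n) hr1))
  refine ⟨s3, s2, ?_⟩
  -- step 4
  have s4 : g = 0 := by
    rw [s1, s2, s3] at hz
    have e1 := congrArg (p.E 1) hz
    simp only [map_add, map_sub, der_mul, pow_succ, pow_zero, one_mul, E_r, hk1.1 1, hk.1 1,
      f3.hE 0, z3, E_S, h2'.hE 0, q.he.hE 0, p.E_D_eq_zero p.E_S, map_zero] at e1
    have e2 : (3 * k1 V n * p.r 1 * p.r 1) * g = 0 := by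
      norm_num at e1
      rcases e1 with e1 | e1
      · exact absurd e1 hk1n
      · rcases e1 with e1 | e1
        · rw [e1]; ring
        · linear_combination k1 V n * g * e1
    exact (mul_eq_zero.1 e2).resolve_left
      (mul_ne_zero (mul_ne_zero (mul_ne_zero (by norm_num) hk1n) hr1) hr1)
  rw [hg, s1, s2] at s4
  have e3 : (0 : F) + 3⁻¹ * q.a * 3 = q.a := by field_simp; ring
  rw [e3] at s4
  unfold Rad.J
  have e4 : q.b - 3⁻¹ * p.E 0 q.a - 9⁻¹ * q.a ^ 2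
      = 3⁻¹ * (3 * q.b - (p.E 0 q.a + 3⁻¹ * q.a * q.a)) := by
    field_simp
    ring
  rw [e4, s4, mul_zero]

theorem Sym.cConc (h : Sym q V Y n) (he : q.e = 0) (hc : q.c ≠ 0) : False := by
  have := p.charZero
  have hz := h.cLast he hc
  have hk := h.delConst (Or.inr hc)
  have hk1 := h.vs.const1
  have hk1n := k1_ne h
  have hr1 := p.r1_ne
  have hw := q.GFree_w
  have g0 : p.GFree (2 * q.c * p.r 1) := ((IsFn.ofNat 2).hG.mul q.hc.hG).mul (Rad.GFree_r 1)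
  have gD : ∀ f : F, p.GFree f → p.GFree (p.Dh q.w f) := by
    intro f hf
    rw [Dh_apply]
    exact hf.D.add (hw.mul hf)
  have g1 := gD _ g0
  have g2 := gD _ g1
  have g3 := gD _ g2
  have g4 : p.GFree (2 * q.c) := (IsFn.ofNat 2).hG.mul q.hc.hG
  have g5 : p.GFree (3 * (2 * q.c * p.r 1)) := (IsFn.ofNat 3).hG.mul g0
  have g6 : p.GFree (3 * p.Dh q.w (2 * q.c * p.r 1)) := (IsFn.ofNat 3).hG.mul g1
  have hrho : q.rho0 = p.Dh q.w (2 * q.c * q.FR)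
      - (3 * (2 * q.c * p.r 1)) * (2⁻¹ * p.D p.S)
      - p.Dh q.w (p.Dh q.w (p.Dh q.w (2 * q.c * p.r 1)))
      - (3 * p.Dh q.w (2 * q.c * p.r 1)) * p.S := by
    unfold Rad.rho0; ring
  have hcn : ∀ L (c f : F), p.IsConst c → p.grad L (c * f) = C c * p.grad L f :=
    fun L c f hc => p.grad_const_mul hc L f
  have h2c : p.IsConst (2 : F)⁻¹ := (p.isConst_ofNat 2).inv
  -- level one
  have a1 := congrArg (p.grad 1) hz
  have r1 : p.grad 1 q.rho0 = C (2 * q.c * (2 * q.c * p.r 1) - 3 * (2 * q.c * p.r 1)) := by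
    have e1 : p.grad 1 (p.Dh q.w (2 * q.c * q.FR)) = C (2 * q.c) * q.nu := by
      have := grad_succ_Dh hw 0 (2 * q.c * q.FR)
      rw [zero_add] at this
      rw [this, Rad.grad_GFree_mul g4, Rad.grad_GFree_mul g4, q.grad_FR_one, q.grad_FR_zero, he,
        Rad.nu, he]
      simp
    have e2 : p.grad 1 (p.D p.S) = C 2 := by
      have := p.grad_succ_D 0 p.S
      rw [zero_add] at this
      rw [this, grad_S, grad_S, if_pos rfl, if_neg (by omega), map_zero, zero_add]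
    rw [hrho, grad_sub, grad_sub, grad_sub, e1, g3 1, Rad.grad_GFree_mul g5,
      Rad.grad_GFree_mul g6, hcn 1 _ _ h2c, e2, grad_S, if_neg (by omega), q.nu_of_zero he,
      ← C_mul, ← C_mul, ← C_mul, inv_mul_cancel₀ two_ne_zero]
    simp
  have a1' : k1 V n * (2 * q.c * (2 * q.c * p.r 1) - 3 * (2 * q.c * p.r 1)) = 0 := by
    rw [grad_add, hcn 1 _ _ hk1, r1, hcn 1 _ _ hk, g0 1, grad_zero, mul_zero, add_zero,
      ← C_mul, C_eq_zero] at a1
    exact a1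
  have hc2 : q.c = 3 / 2 := by
    have e1 : (k1 V n * (2 * q.c * p.r 1)) * (2 * q.c - 3) = 0 := by linear_combination a1'
    have e2 := (mul_eq_zero.1 e1).resolve_left (mul_ne_zero hk1n (q.n0_ne hc))
    field_simp
    linear_combination e2
  -- level zero
  have a0 := congrArg (fun f => (p.grad 0 f).coeff 0) hz
  have r0 : (p.grad 0 q.rho0).coeff 0 = p.Dh q.w (2 * q.c * (2 * q.c * p.r 1))
      - 6 * p.Dh q.w (2 * q.c * p.r 1) := by
    have e1 : p.grad 0 (p.Dh q.w (2 * q.c * q.FR))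
        = C (p.Dh q.w (2 * q.c * (2 * q.c * p.r 1))) + C (2 * q.c * (2 * q.c * p.r 1)) * X := by
      rw [grad_zero_Dh hw, Rad.grad_GFree_mul g4, q.grad_FR_zero, he, C_0, zero_mul, add_zero,
        ← C_mul, DhK_C]
    have e2 : p.grad 0 (p.D p.S) = C 2 * X := by
      rw [grad_zero_D, grad_S, if_pos rfl, DK_C, (p.isConst_ofNat 2).D_eq]; simp
    rw [hrho, grad_sub, grad_sub, grad_sub, e1, g3 0, Rad.grad_GFree_mul g5,
      Rad.grad_GFree_mul g6, hcn 0 _ _ h2c, e2, grad_S, if_pos rfl]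
    simp only [coeff_sub, coeff_add, coeff_C_mul, coeff_C_zero, coeff_mul_X_zero, coeff_X_zero,
      coeff_zero]
    ring
  have a0' : k1 V n * (p.Dh q.w (2 * q.c * (2 * q.c * p.r 1))
      - 6 * p.Dh q.w (2 * q.c * p.r 1)) = 0 := by
    simp only [grad_add, hcn 0 _ _ hk1, hcn 0 _ _ hk, g0 0, grad_zero, mul_zero, add_zero,
      coeff_C_mul, r0, coeff_zero] at a0
    exact a0
  have b0 := (mul_eq_zero.1 a0').resolve_left hk1n
  have e5 : 2 * q.c = 3 := by rw [hc2]; field_simp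
  rw [e5] at b0
  have hD : ∀ c f : F, p.IsConst c → p.Dh q.w (c * f) = c * p.Dh q.w f := by
    intro c f hc
    rw [Dh_mul, hc.D_eq]; ring
  rw [hD _ _ (p.isConst_ofNat 3), hD _ _ (p.isConst_ofNat 3)] at b0
  have b1 : p.Dh q.w (p.r 1) = 0 := by
    have : (-9 : F) * p.Dh q.w (p.r 1) = 0 := by linear_combination b0
    exact (mul_eq_zero.1 this).resolve_left (by norm_num)
  rw [Dh_apply, D_r, Rad.w] at b1
  have b2 := congrArg (p.E 2) b1
  simp only [map_add, der_mul, E_r, q.ha.hE 1, ((p.isConst_ofNat 3).inv).1 2, map_zero] at b2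
  norm_num at b2

/-- NECESSITY -/
theorem Sym.necessary (h : Sym q V Y n) :
    (q.c = 0 ∧ q.e = 0) ∨ (q.c = 3 ∧ q.ed = 3 ∧ q.J = 0) := by
  by_cases he : q.e = 0
  · by_cases hc : q.c = 0
    · exact Or.inl ⟨hc, he⟩
    · exact absurd (h.cConc he hc) (fun h => h)
  · exact Or.inr (h.eConc he)

end Polar

end Pool.Agent.Lib.MP_4d1bc1_mp
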