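import Pool.Agent.Lib.MP_4d1bc1_mp.TMap
import Pool.Agent.Lib.MP_4d1bc1_mp.Necessary

set_option autoImplicit false

/-! The classification in jet coordinates. -/

namespace Pool.Agent.Lib.MP_4d1bc1_mp

open Finset Polynomial

universe u

variable {F : Type u} [Field F] [Algebra ℝ F]

/-- functions of `u_[0,0]` -/
def Jet.Fn (J : Jet F) (f : F) : Prop := ∀ b, b ≠ mk2 0 0 → J.T.P b f = 0

/-- derivative of functions of `u_[0,0]` -/
noncomputable def Jet.d (J : Jet F) (f : F) : F := J.T.P (mk2 0 0) f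

theorem Jet.Fn.vf {J : Jet F} {f : F} (hf : J.Fn f) (c : Idx2 → F) :
    J.T.vf c f = c (mk2 0 0) * J.d f := by
  rw [J.T.vf_eq_sum c f {mk2 0 0}]
  · simp [Jet.d]
  · intro a ha
    exact hf a (by simpa using ha)

theorem Jet.Fn.isVF {J : Jet F} {f : F} (hf : J.Fn f) {δ : Derivation ℝ F F}
    (h : J.T.IsVF δ) : δ f = δ (J.u 0 0) * J.d f := by
  obtain ⟨c, hc⟩ := h
  rw [hc, hc, hf.vf, Jet.u, J.vf_U]

namespace Link

variable {J : Jet F} {R : F} {p : Polar F} (L : Link J R p)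

include L

theorem der_u00 (δ : Derivation ℝ F F) : δ (J.u 0 0) = 2 * R * δ R := by
  rw [← L.root.sq, pow_two, der_mul]; ring

theorem isFn {f : F} (hf : J.Fn f) : p.IsFn f := by
  constructor
  · intro i
    rw [hf.isVF (L.hE _), L.der_u00, ← L.r0, Polar.E_r, if_neg (by omega)]
    ring
  · intro l
    refine Polynomial.ext fun i => ?_
    rw [Polar.coeff_grad, hf.isVF (L.hG _ _), L.der_u00, ← L.r0, coeff_zero]
    have h := congrArg (fun W => W.coeff i) (p.grad_r l 0)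
    simp only [Polar.coeff_grad, coeff_zero] at h
    rw [h]; ring

theorem E0_fn {f : F} (hf : J.Fn f) : p.E 0 f = 2 * R * J.d f := by
  rw [hf.isVF (L.hE _), L.der_u00, ← L.r0, Polar.E_r, if_pos rfl]
  ring

/-- the radial coefficients -/
noncomputable def rad {a1 a2 a3 a4 : F} (h1 : J.Fn a1) (h2 : J.Fn a2) (h3 : J.Fn a3)
    (h4 : J.Fn a4) : p.Rad where
  a := -6 / R + a1 * R + a2 * R * R * R
  b := 6 / (R * R) + a3 * R * R + a4 * R * R * R * R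
  c := 3 + a1 * R * R - a2 * R * R * R * R + a3 * R * R * R * R
  e := -3 * R + a1 * R * R * R
  ha := by
    have hR : p.IsFn R := by rw [← L.r0]; exact Polar.IsFn.r0
    have g1 := L.isFn h1
    have g2 := L.isFn h2
    have c6 : p.IsFn (-6 : F) := (Polar.IsFn.ofNat 6).neg
    exact ((c6.div hR).add (g1.mul hR)).add (((g2.mul hR).mul hR).mul hR)
  hb := by
    have hR : p.IsFn R := by rw [← L.r0]; exact Polar.IsFn.r0
    have g3 := L.isFn h3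
    have g4 := L.isFn h4
    exact (((Polar.IsFn.ofNat 6).div (hR.mul hR)).add ((g3.mul hR).mul hR)).add
      ((((g4.mul hR).mul hR).mul hR).mul hR)
  hc := by
    have hR : p.IsFn R := by rw [← L.r0]; exact Polar.IsFn.r0
    have g1 := L.isFn h1
    have g2 := L.isFn h2
    have g3 := L.isFn h3
    exact (((Polar.IsFn.ofNat 3).add ((g1.mul hR).mul hR)).sub
      ((((g2.mul hR).mul hR).mul hR).mul hR)).add ((((g3.mul hR).mul hR).mul hR).mul hR)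
  he := by
    have hR : p.IsFn R := by rw [← L.r0]; exact Polar.IsFn.r0
    have g1 := L.isFn h1
    have c3 : p.IsFn (-3 : F) := (Polar.IsFn.ofNat 3).neg
    exact (c3.mul hR).add (((g1.mul hR).mul hR).mul hR)

theorem one_eq : (1 : F[X]) = C R * Jet.vv R := by
  rw [Jet.vv, ← C_mul, mul_inv_cancel₀ L.root.ne, C_1]

theorem X_eq : (X : F[X]) = C (p.r 1) * Jet.vv R + C R * J.kv R 0 := by
  have h1 := J.DM_X_pow 0
  rw [pow_zero, zero_add, pow_one] at h1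
  rw [← h1, L.one_eq, Jet.DM_C_mul, ← Jet.kv_zero, L.D_eq, ← L.r0, Polar.D_r]

theorem X2_eq : (X ^ 2 : F[X]) = C (p.r 2 - R * p.S) * Jet.vv R + C (2 * p.r 1) * J.kv R 0
    + C R * J.kv R 1 := by
  have h1 := J.DM_X_pow 1
  rw [pow_one, one_add_one_eq_two] at h1
  have h2 : J.D R = p.r 1 := by rw [L.D_eq, ← L.r0, Polar.D_r]
  have h3 : J.kp R 0 0 = p.S := by rw [← L.kap]; rfl
  rw [← h1]
  conv_lhs => rw [L.X_eq]
  rw [map_add, Jet.DM_C_mul, Jet.DM_C_mul, ← Jet.kv_zero, Jet.DM_kv, h2, h3, L.D_eq,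
    Polar.D_r]
  simp only [C_mul, C_sub, map_ofNat]
  ring

theorem X3_eq : (X ^ 3 : F[X]) = C (p.r 3 - 3 * p.r 1 * p.S - 3 / 2 * R * p.D p.S) * Jet.vv R
    + C (3 * p.r 2 - R * p.S) * J.kv R 0 + C (3 * p.r 1) * J.kv R 1 + C R * J.kv R 2 := by
  have := p.charZero
  have h1 := J.DM_X_pow 2
  have h2 : J.D R = p.r 1 := by rw [L.D_eq, ← L.r0, Polar.D_r]
  have h3 : J.kp R 0 0 = p.S := by rw [← L.kap]; rfl
  have h4 : J.kp R 0 1 = 2⁻¹ * p.D p.S := by rw [← L.kap, Polar.kap01]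
  have h5 : J.D (p.r 1) = p.r 2 := by rw [L.D_eq, Polar.D_r]
  have h6 : J.D (p.r 2) = p.r 3 := by rw [L.D_eq, Polar.D_r]
  have h7 : J.D (2 : F) = 0 := der_ofNat _ 2
  have h8 : J.D p.S = p.D p.S := L.D_eq _
  have h9 : (3 / 2 : F) = 1 + 2⁻¹ := by field_simp; ring
  rw [← h1]
  conv_lhs => rw [L.X2_eq]
  rw [map_add, map_add, Jet.DM_C_mul, Jet.DM_C_mul, Jet.DM_C_mul, ← Jet.kv_zero, Jet.DM_kv,
    Jet.DM_kv, h2, h3, h4, map_sub, der_mul, der_mul, h2, h5, h6, h7, h8, h9]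
  simp only [C_mul, C_sub, C_add, C_1, map_ofNat, map_zero]
  ring

theorem u01 : J.u 0 1 = R * p.r 1 := by
  have h := J.ip_X_pow 0 1
  rw [pow_zero, pow_one, L.one_eq, L.X_eq, Jet.ip_add_right] at h
  simp only [Jet.ip_C_mul_left, Jet.ip_C_mul_right, L.root.vv_vv, L.root.vv_kv] at h
  rw [← h]; ring

theorem u11 : J.u 1 1 = p.r 1 ^ 2 + R ^ 2 * p.S := by
  have h := J.ip_X_pow 1 1
  have h3 : J.ip (J.kv R 0) (J.kv R 0) = p.S := by rw [← Jet.kp, ← L.kap]; rfl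
  rw [pow_one, L.X_eq] at h
  simp only [Jet.ip_add_left, Jet.ip_add_right, Jet.ip_C_mul_left, Jet.ip_C_mul_right,
    L.root.vv_vv, L.root.vv_kv, J.ip_symm (J.kv R 0) (Jet.vv R), h3] at h
  rw [← h]; ring

theorem u02 : J.u 0 2 = R * (p.r 2 - R * p.S) := by
  have h := J.ip_X_pow 0 2
  rw [pow_zero, L.one_eq, L.X2_eq, Jet.ip_add_right, Jet.ip_add_right] at h
  simp only [Jet.ip_C_mul_left, Jet.ip_C_mul_right, L.root.vv_vv, L.root.vv_kv] at h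
  rw [← h]; ring

theorem u12 : J.u 1 2 = p.r 1 * p.r 2 + R * p.r 1 * p.S + 2⁻¹ * R ^ 2 * p.D p.S := by
  have h := J.ip_X_pow 1 2
  have h3 : J.ip (J.kv R 0) (J.kv R 0) = p.S := by rw [← Jet.kp, ← L.kap]; rfl
  have h4 : J.ip (J.kv R 0) (J.kv R 1) = 2⁻¹ * p.D p.S := by
    rw [← Jet.kp, ← L.kap, Polar.kap01]
  rw [pow_one, L.X2_eq] at h
  conv_lhs at h => rw [L.X_eq]
  simp only [Jet.ip_add_left, Jet.ip_add_right, Jet.ip_C_mul_left, Jet.ip_C_mul_right,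
    L.root.vv_vv, L.root.vv_kv, J.ip_symm (J.kv R 0) (Jet.vv R), h3, h4] at h
  rw [← h]; ring

/-- the equation in the moving frame -/
theorem eqn_eq {a1 a2 a3 a4 : F} (h1 : J.Fn a1) (h2 : J.Fn a2) (h3 : J.Fn a3)
    (h4 : J.Fn a4) :
    X ^ 3 + C (-3 * (J.u 0 1 / J.u 0 0)) * X ^ 2
      + C (6 * (J.u 0 1 ^ 2 / J.u 0 0 ^ 2) - 3 * (J.u 0 2 / J.u 0 0)) * X
      + C (a1 * J.u 1 2 + a2 * J.u 0 1 * J.u 0 2 + a3 * J.u 0 1 * J.u 1 1 + a4 * J.u 0 1 ^ 3)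
    = C (L.rad h1 h2 h3 h4).FR * Jet.vv R + C R * iota J R p.VF := by
  have := p.charZero
  have hR := L.root.ne
  obtain ⟨f2, hf2⟩ : ∃ f, f = -3 * (J.u 0 1 / J.u 0 0) := ⟨_, rfl⟩
  obtain ⟨f1, hf1⟩ : ∃ f, f = 6 * (J.u 0 1 ^ 2 / J.u 0 0 ^ 2) - 3 * (J.u 0 2 / J.u 0 0) :=
    ⟨_, rfl⟩
  obtain ⟨f0, hf0⟩ : ∃ f, f = a1 * J.u 1 2 + a2 * J.u 0 1 * J.u 0 2 + a3 * J.u 0 1 * J.u 1 1
    + a4 * J.u 0 1 ^ 3 := ⟨_, rfl⟩
  rw [← hf2, ← hf1, ← hf0]
  rw [L.u01, ← L.root.sq] at hf2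
  rw [L.u01, L.u02, ← L.root.sq] at hf1
  rw [L.u01, L.u02, L.u11, L.u12] at hf0
  have e1 : 3 * p.r 1 + f2 * R = 0 := by rw [hf2]; field_simp; ring
  have e0 : 3 * p.r 2 - R * p.S + f2 * (2 * p.r 1) + f1 * R = R * (2 * p.S) := by
    rw [hf2, hf1]; field_simp; ring
  have ev : p.r 3 - 3 * p.r 1 * p.S - 3 / 2 * R * p.D p.S + f2 * (p.r 2 - R * p.S)
      + f1 * p.r 1 + f0 * R = (L.rad h1 h2 h3 h4).FR := by
    rw [hf2, hf1, hf0, Polar.Rad.FR, rad]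
    field_simp
    ring
  have hV : iota J R p.VF = J.kv R 2 + C (2 * p.S) * J.kv R 0 := by
    rw [Polar.VF, map_add, iota_X_pow, iota_C]
  have hf0' : (C f0 : F[X]) = C (f0 * R) * Jet.vv R := by
    rw [C_mul, mul_assoc, ← L.one_eq, mul_one]
  rw [hV, ← ev, L.X3_eq, L.X2_eq, hf0']
  have e1' : (C (3 * p.r 1) + C f2 * C R : F[X]) = 0 := by rw [← C_mul, ← C_add, e1, C_0]
  have e0' : (C (3 * p.r 2 - R * p.S) + C f2 * C (2 * p.r 1) + C f1 * C R : F[X])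
      = C R * C (2 * p.S) := by rw [← C_mul, ← C_mul, ← C_mul, ← C_add, ← C_add, e0]
  have e3 : (C f1 * X : F[X]) = C f1 * (C (p.r 1) * Jet.vv R + C R * J.kv R 0) := by
    rw [← L.X_eq]
  rw [e3]
  have e4 : (C (p.r 3 - 3 * p.r 1 * p.S - 3 / 2 * R * p.D p.S + f2 * (p.r 2 - R * p.S)
      + f1 * p.r 1 + f0 * R) : F[X]) = C (p.r 3 - 3 * p.r 1 * p.S - 3 / 2 * R * p.D p.S)
      + C f2 * C (p.r 2 - R * p.S) + C f1 * C (p.r 1) + C (f0 * R) := by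
    rw [← C_mul, ← C_mul, ← C_add, ← C_add, ← C_add]
  rw [e4]
  linear_combination (J.kv R 1) * e1' + (J.kv R 0) * e0'

end Link

end Pool.Agent.Lib.MP_4d1bc1_mp
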