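import Pool.Agent.Lib.MP_4d1bc1_mp.PolarOf

set_option autoImplicit false

/-! Evolutionary vector fields. -/

namespace Pool.Agent.Lib.MP_4d1bc1_mp

open Finset Polynomial

universe u

variable {F : Type u} [Field F] [Algebra ℝ F]

namespace Jet

variable (J : Jet F)

/-- the evolution of scalars under `u_τ = G` -/
noncomputable def evo (G : F[X]) : Derivation ℝ F F :=
  J.fld (fun i j => J.ip (J.DM^[i] G) (X ^ j) + J.ip (X ^ i) (J.DM^[j] G))

theorem evo_u (G : F[X]) (i j : ℕ) : J.evo G (J.u i j)
    = J.ip (J.DM^[i] G) (X ^ j) + J.ip (X ^ i) (J.DM^[j] G) :=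
  J.fld_u _ (fun i j => by rw [J.ip_symm (J.DM^[i] G), J.ip_symm (X ^ i)]; ring) i j

theorem evo_D (G : F[X]) (f : F) : J.evo G (J.D f) = J.D (J.evo G f) := by
  have h1 : J.T.IsVF (fun f => J.evo G (J.D f) - J.D (J.evo G f)) :=
    Frame.IsVF.comm (J.isVF_fld _) (J.isVF_fld _)
  have h2 := J.vf_ext h1 J.T.isVF_zero (fun i j => by
    rw [D_u, map_add, evo_u, evo_u, evo_u, map_add, D_ip, D_ip, DM_X_pow, DM_X_pow,
      Function.iterate_succ_apply', Function.iterate_succ_apply']
    ring) f
  exact sub_eq_zero.1 h2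

/-- the evolution of vectors under `u_τ = G` -/
noncomputable def evoV (G : F[X]) : F[X] →+ F[X] where
  toFun W := cm (J.evo G) W + W.sum fun a c => C c * J.DM^[a] G
  map_zero' := by simp
  map_add' U V := by
    rw [map_add, Polynomial.sum_add_index _ _ _ (by simp) (by intro a b c; rw [C_add, add_mul])]
    ring

theorem evoV_apply (G W : F[X]) :
    J.evoV G W = cm (J.evo G) W + W.sum fun a c => C c * J.DM^[a] G := rfl

theorem evoV_C_mul (G : F[X]) (a : F) (W : F[X]) :
    J.evoV G (C a * W) = C (J.evo G a) * W + C a * J.evoV G W := by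
  rw [evoV_apply, evoV_apply, cm_mul, cm_C]
  have : ((C a * W).sum fun b c => C c * J.DM^[b] G)
      = C a * (W.sum fun b c => C c * J.DM^[b] G) := by
    rw [← smul_eq_C_mul, Polynomial.sum_smul_index _ _ _ (by simp), Polynomial.sum_def,
      Polynomial.sum_def, mul_sum]
    exact sum_congr rfl fun i _ => by rw [C_mul]; ring
  rw [this]
  ring

theorem evoV_X_pow (G : F[X]) (n : ℕ) : J.evoV G (X ^ n) = J.DM^[n] G := by
  rw [evoV_apply, cm_X_pow, ← monomial_one_right_eq_X_pow,
    Polynomial.sum_monomial_index _ _ (by simp)]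
  simp

theorem evoV_one (G : F[X]) : J.evoV G 1 = G := by
  have := J.evoV_X_pow G 0
  rw [pow_zero] at this
  exact this

theorem evoV_DM (G W : F[X]) : J.evoV G (J.DM W) = J.DM (J.evoV G W) := by
  induction W using Polynomial.induction_on' with
  | add U V hU hV => rw [map_add, map_add, hU, hV, map_add, map_add]
  | monomial n a =>
    rw [← C_mul_X_pow_eq_monomial, DM_C_mul, DM_X_pow, map_add, evoV_C_mul, evoV_C_mul,
      evoV_C_mul, evoV_X_pow, evoV_X_pow, map_add, DM_C_mul, DM_X_pow, DM_C_mul, evo_D,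
      Function.iterate_succ_apply']
    ring

theorem evo_ip (G U W : F[X]) :
    J.evo G (J.ip U W) = J.ip (J.evoV G U) W + J.ip U (J.evoV G W) := by
  induction U using Polynomial.induction_on' with
  | add U V hU hV => rw [ip_add_left, map_add, hU, hV, map_add, ip_add_left, ip_add_left]; ring
  | monomial i a =>
    induction W using Polynomial.induction_on' with
    | add U V hU hV => rw [ip_add_right, map_add, hU, hV, map_add, ip_add_right, ip_add_right]; ring
    | monomial j b =>
      rw [← C_mul_X_pow_eq_monomial, ← C_mul_X_pow_eq_monomial, evoV_C_mul, evoV_C_mul,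
        evoV_X_pow, evoV_X_pow]
      simp only [ip_add_left, ip_add_right, ip_C_mul_left, ip_C_mul_right, ip_X_pow, der_mul,
        evo_u]
      ring

end Jet

/-- the polar variables belong to the jet -/
structure Link (J : Jet F) (R : F) (p : Polar F) : Prop where
  root : J.IsRoot R
  r : ∀ i, p.r i = J.D^[i] R
  kap : ∀ i j, p.kap i j = J.kp R i j
  vf : ∀ (c : Idx2 → F) (f : F), J.T.vf c f
    = p.vfd (fun i => J.T.vf c (p.r i)) (fun i j => J.T.vf c (p.kap i j)) f
  hE : ∀ i, J.T.IsVF (p.E i)
  hG : ∀ i j, J.T.IsVF (p.G i j)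

theorem Jet.IsRoot.link {J : Jet F} {R : F} (h : J.IsRoot R) : ∃ p, Link J R p := by
  obtain ⟨p, h1, h2, h3, h4, h5⟩ := Jet.exists_polar h
  exact ⟨p, h, h1, h2, h3, h4, h5⟩

namespace Link

variable {J : Jet F} {R : F} {p : Polar F} (L : Link J R p)

include L

theorem r0 : p.r 0 = R := L.r 0

theorem D_eq (f : F) : J.D f = p.D f := by
  have h := L.vf (fun a => J.u (a.1.1 + 1) a.1.2 + J.u a.1.1 (a.1.2 + 1)) f
  change J.D f = p.vfd (fun i => J.D (p.r i)) (fun i j => J.D (p.kap i j)) f at h
  rw [h]
  refine p.vfd_congr (fun i => ?_) (fun i j => ?_) f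
  · rw [L.r, L.r, Function.iterate_succ_apply']
  · rw [L.kap, L.root.D_kp, L.kap, L.kap]

omit L in
/-- the vector with the components `W` -/
noncomputable def iota (J : Jet F) (R : F) : F[X] →+ F[X] where
  toFun W := W.sum fun i a => C a * J.kv R i
  map_zero' := by simp
  map_add' U V := by
    rw [Polynomial.sum_add_index _ _ _ (by simp) (by intro a b c; rw [C_add, add_mul])]

omit L in
theorem iota_apply (J : Jet F) (R : F) (W : F[X]) :
    iota J R W = W.sum fun i a => C a * J.kv R i := rfl

omit L in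
theorem iota_C_mul (J : Jet F) (R a : F) (W : F[X]) :
    iota J R (C a * W) = C a * iota J R W := by
  rw [iota_apply, iota_apply, ← smul_eq_C_mul, Polynomial.sum_smul_index _ _ _ (by simp),
    Polynomial.sum_def, Polynomial.sum_def, mul_sum]
  exact sum_congr rfl fun i _ => by rw [C_mul]; ring

omit L in
theorem iota_X_pow (J : Jet F) (R : F) (n : ℕ) : iota J R (X ^ n) = J.kv R n := by
  rw [iota_apply, ← monomial_one_right_eq_X_pow, Polynomial.sum_monomial_index _ _ (by simp)]
  simp

omit L in
theorem iota_C (J : Jet F) (R a : F) : iota J R (C a) = C a * J.kv R 0 := by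
  have h := iota_C_mul J R a 1
  have h2 := iota_X_pow J R 0
  rw [pow_zero] at h2
  rwa [mul_one, h2] at h

theorem ip_iota (U W : F[X]) : J.ip (iota J R U) (iota J R W) = p.ip U W := by
  induction U using Polynomial.induction_on' with
  | add U V hU hV => rw [map_add, Jet.ip_add_left, Polar.ip_add_left, hU, hV]
  | monomial i a =>
    induction W using Polynomial.induction_on' with
    | add U V hU hV => rw [map_add, Jet.ip_add_right, Polar.ip_add_right, hU, hV]
    | monomial j b =>
      rw [← C_mul_X_pow_eq_monomial, ← C_mul_X_pow_eq_monomial, iota_C_mul, iota_C_mul,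
        iota_X_pow, iota_X_pow, Jet.ip_C_mul_left, Jet.ip_C_mul_right, Polar.ip_C_mul_left,
        Polar.ip_C_mul_right, Polar.ip_X_pow, L.kap]
      rfl

theorem vv_iota (W : F[X]) : J.ip (Jet.vv R) (iota J R W) = 0 := by
  induction W using Polynomial.induction_on' with
  | add U V hU hV => rw [map_add, Jet.ip_add_right, hU, hV, add_zero]
  | monomial j b =>
    rw [← C_mul_X_pow_eq_monomial, iota_C_mul, iota_X_pow, Jet.ip_C_mul_right,
      L.root.vv_kv, mul_zero]

theorem DM_iota (W : F[X]) :
    J.DM (iota J R W) = iota J R (p.DK W) - C (p.ip 1 W) * Jet.vv R := by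
  induction W using Polynomial.induction_on' with
  | add U V hU hV =>
    rw [map_add, map_add, hU, hV, map_add, map_add, Polar.ip_add_right, C_add]; ring
  | monomial j b =>
    have h1 : p.ip 1 (C b * X ^ j) = b * p.kap 0 j := by
      rw [← pow_zero X, Polar.ip_C_mul_right, Polar.ip_X_pow]
    rw [← C_mul_X_pow_eq_monomial, iota_C_mul, iota_X_pow, Jet.DM_C_mul, Jet.DM_kv,
      Polar.DK_C_mul, Polar.DK_X_pow, map_add, iota_C_mul, iota_C_mul, iota_X_pow, iota_X_pow,
      h1, L.D_eq, L.kap, C_mul]
    ring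

omit L in
theorem iota_top (J : Jet F) (R : F) {V : F[X]} {d : ℕ} (h : ∀ i, d < i → V.coeff i = 0) :
    (iota J R V).coeff (d + 1) = V.coeff d * R⁻¹ := by
  have h1 : V.sum (fun i a => C a * J.kv R i) = ∑ i ∈ range (d + 1), C (V.coeff i) * J.kv R i := by
    rw [Polynomial.sum_def]
    apply sum_subset
    · intro i hi
      by_contra h2
      exact (mem_support_iff.1 hi) (h i (by simpa using h2))
    · intro i _ hi
      rw [notMem_support_iff.1 hi]; simp
  rw [iota_apply, h1, finsetSum_coeff, Finset.sum_eq_single_of_mem d (by simp)]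
  · rw [coeff_C_mul, (Jet.kv_coeff J R d).2]
  · intro i hi hne
    rw [mem_range] at hi
    rw [coeff_C_mul, (Jet.kv_coeff J R i).1 _ (by omega), mul_zero]

theorem iota_inj {V : F[X]} (h : iota J R V = 0) : V = 0 := by
  have h1 := iota_top J R (V := V) (d := V.natDegree)
    (fun i hi => coeff_eq_zero_of_natDegree_lt hi)
  rw [h, coeff_zero] at h1
  have h2 := (mul_eq_zero.1 h1.symm).resolve_right (inv_ne_zero L.root.ne)
  exact leadingCoeff_eq_zero.1 h2

/-- decomposition of vectors -/
theorem decomp (m : ℕ) : ∀ G : F[X], (∀ i, m < i → G.coeff i = 0) → ∃ Y V,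
    G = C Y * Jet.vv R + C R * iota J R V ∧ (∀ i, m ≤ i → V.coeff i = 0)
      ∧ (∀ k, m = k + 1 → V.coeff k = G.coeff m) := by
  have hR : (C R * C R⁻¹ : F[X]) = 1 := by rw [← C_mul, mul_inv_cancel₀ L.root.ne, C_1]
  induction m with
  | zero =>
    intro G hG
    refine ⟨G.coeff 0 * R, 0, ?_, fun i _ => coeff_zero i, fun k hk => by omega⟩
    have h1 : G = C (G.coeff 0) := by
      refine Polynomial.ext fun i => ?_
      rw [coeff_C]
      split_ifs with h
      · rw [h]
      · exact hG i (by omega)
    rw [map_zero, mul_zero, add_zero, Jet.vv]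
    conv_lhs => rw [h1]
    rw [C_mul]
    linear_combination (- C (G.coeff 0)) * hR
  | succ m ih =>
    intro G hG
    obtain ⟨Y, V, h1, h2, h3⟩ := ih (G - C (R * G.coeff (m + 1)) * J.kv R m) (by
      intro i hi
      rw [coeff_sub, coeff_C_mul]
      rcases Nat.lt_or_ge (m + 1) i with h | h
      · rw [hG i h, (Jet.kv_coeff J R m).1 i h, mul_zero, sub_zero]
      · obtain rfl : i = m + 1 := by omega
        rw [(Jet.kv_coeff J R m).2]
        have := L.root.ne
        field_simp
        ring)
    refine ⟨Y, V + C (G.coeff (m + 1)) * X ^ m, ?_, fun i hi => ?_, fun k hk => ?_⟩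
    · rw [map_add, iota_C_mul, iota_X_pow]
      rw [C_mul] at h1
      linear_combination h1
    · rw [coeff_add, h2 i (by omega), coeff_C_mul, coeff_X_pow, if_neg (by omega), mul_zero,
        add_zero]
    · obtain rfl : k = m := by omega
      rw [coeff_add, h2 k le_rfl, coeff_C_mul, coeff_X_pow, if_pos rfl, mul_one, zero_add]

theorem uniq {Y Y' : F} {V V' : F[X]}
    (h : C Y * Jet.vv R + C R * iota J R V = C Y' * Jet.vv R + C R * iota J R V') :
    Y = Y' ∧ V = V' := by
  have h1 := congrArg (J.ip (Jet.vv R)) h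
  simp only [Jet.ip_add_right, Jet.ip_C_mul_right, L.root.vv_vv, L.vv_iota, mul_one,
    mul_zero, add_zero] at h1
  refine ⟨h1, ?_⟩
  rw [h1] at h
  have h2 : C R * iota J R V = C R * iota J R V' := add_left_cancel h
  have h3 := mul_left_cancel₀ (C_ne_zero.2 L.root.ne) h2
  have h4 : iota J R (V - V') = 0 := by rw [map_sub, h3, sub_self]
  exact sub_eq_zero.1 (L.iota_inj h4)

end Link

end Pool.Agent.Lib.MP_4d1bc1_mp
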