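import Pool.Agent.Lib.MP_4d1bc1_mp.Twist

set_option autoImplicit false

/-! The radial equation. -/

namespace Pool.Agent.Lib.MP_4d1bc1_mp

open Finset Polynomial

universe u

variable {F : Type u} [Field F] [Algebra ℝ F]

namespace Polar

variable (p : Polar F)

/-- functions of `r 0` -/
structure IsFn (f : F) : Prop where
  hE : ∀ i, p.E (i + 1) f = 0
  hG : p.GFree f

variable {p}

theorem IsFn.add {f g : F} (hf : p.IsFn f) (hg : p.IsFn g) : p.IsFn (f + g) :=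
  ⟨fun i => by rw [map_add, hf.hE, hg.hE, add_zero], hf.hG.add hg.hG⟩

theorem IsFn.sub {f g : F} (hf : p.IsFn f) (hg : p.IsFn g) : p.IsFn (f - g) :=
  ⟨fun i => by rw [map_sub, hf.hE, hg.hE, sub_zero], hf.hG.sub hg.hG⟩

theorem IsFn.mul {f g : F} (hf : p.IsFn f) (hg : p.IsFn g) : p.IsFn (f * g) :=
  ⟨fun i => der_mul_zero _ (hf.hE i) (hg.hE i), hf.hG.mul hg.hG⟩

theorem IsFn.of_const {f : F} (hf : p.IsConst f) : p.IsFn f :=
  ⟨fun i => hf.1 _, fun L => hf.grad_eq L⟩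

theorem GFree.inv {f : F} (hf : p.GFree f) : p.GFree f⁻¹ := by
  intro L
  refine Polynomial.ext fun i => ?_
  rw [coeff_grad, coeff_zero]
  refine der_inv_zero _ ?_
  rw [← coeff_grad, hf L, coeff_zero]

theorem IsFn.inv {f : F} (hf : p.IsFn f) : p.IsFn f⁻¹ :=
  ⟨fun i => der_inv_zero _ (hf.hE i), hf.hG.inv⟩

theorem IsFn.div {f g : F} (hf : p.IsFn f) (hg : p.IsFn g) : p.IsFn (f / g) := by
  rw [div_eq_mul_inv]; exact hf.mul hg.inv

theorem IsFn.neg {f : F} (hf : p.IsFn f) : p.IsFn (-f) := by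
  rw [← zero_sub]
  exact (IsFn.of_const ⟨fun i => map_zero _, fun i j => map_zero _⟩).sub hf

theorem IsFn.ofNat (n : ℕ) [n.AtLeastTwo] : p.IsFn (OfNat.ofNat n : F) :=
  IsFn.of_const (p.isConst_ofNat n)

theorem IsFn.r0 : p.IsFn (p.r 0) := by
  refine ⟨fun i => ?_, fun L => p.grad_r L 0⟩
  rw [E_r, if_neg (by omega)]

/-- derivative of a function of `r 0` -/
theorem IsFn.E0 {f : F} (hf : p.IsFn f) : p.IsFn (p.E 0 f) := by
  constructor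
  · intro i; rw [E_comm_E, hf.hE, map_zero]
  · intro L
    refine Polynomial.ext fun i => ?_
    rw [coeff_grad, ← E_comm_G, ← coeff_grad, hf.hG L, coeff_zero, map_zero]

theorem IsFn.bd {f : F} (hf : p.IsFn f) : p.Bd f 1 := by
  constructor
  · intro i hi
    obtain ⟨i, rfl⟩ : ∃ i', i = i' + 1 := ⟨i - 1, by omega⟩
    exact hf.hE i
  · intro i j _
    rw [← coeff_grad, hf.hG j, coeff_zero]

theorem IsFn.vfd_eq {f : F} (hf : p.IsFn f) (c : ℕ → F) (e : ℕ → ℕ → F) :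
    p.vfd c e f = c 0 * p.E 0 f := by
  have h : p.G 0 0 f = 0 := by rw [← coeff_grad, hf.hG 0, coeff_zero]
  rw [p.vfd_eq_sum _ _ f 1 hf.bd]
  simp [h]

theorem IsFn.D_eq {f : F} (hf : p.IsFn f) : p.D f = p.E 0 f * p.r 1 := by
  rw [D, hf.vfd_eq]; ring

theorem IsFn.Dt_eq {f : F} (hf : p.IsFn f) (FR : F) : p.Dt FR f = p.E 0 f * FR := by
  rw [Dt, hf.vfd_eq]; simp; ring

variable (p) in
/-- the coefficient functions of the radial equation -/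
structure Rad where
  a : F
  b : F
  c : F
  e : F
  ha : p.IsFn a
  hb : p.IsFn b
  hc : p.IsFn c
  he : p.IsFn e

namespace Rad

variable (q : p.Rad)

/-- right hand side of the radial equation -/
noncomputable def FR : F :=
  p.r 3 + q.a * p.r 1 * p.r 2 + q.b * p.r 1 ^ 3 + q.c * p.r 1 * p.S + 2⁻¹ * q.e * p.D p.S

/-- the twist -/
noncomputable def w : F := 3⁻¹ * q.a * p.r 1

/-- the twist in time -/
noncomputable def gt : F := 3⁻¹ * q.a * q.FR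

/-- the curvature -/
noncomputable def J : F := q.b - 3⁻¹ * p.E 0 q.a - 9⁻¹ * q.a ^ 2

/-- twisted derivative of `e` -/
noncomputable def ed : F := p.E 0 q.e + 3⁻¹ * q.a * q.e

/-- coefficient of the first order term -/
noncomputable def ph : F := 3 * q.J * p.r 1 ^ 2 + q.c * p.S

/-- coefficient of the zero order term -/
noncomputable def rh : F :=
  (p.E 0 q.J - 2 * 3⁻¹ * q.a * q.J) * p.r 1 ^ 3 + p.E 0 q.c * p.r 1 * p.S
    + 2⁻¹ * q.ed * p.D p.S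

theorem IsFn_J : p.IsFn q.J := by
  have h3 : p.IsFn (3 : F)⁻¹ := (IsFn.ofNat 3).inv
  have h9 : p.IsFn (9 : F)⁻¹ := (IsFn.ofNat 9).inv
  unfold J
  rw [sq]
  exact (q.hb.sub (h3.mul q.ha.E0)).sub (h9.mul (q.ha.mul q.ha))

theorem IsFn_ed : p.IsFn q.ed := by
  have h3 : p.IsFn (3 : F)⁻¹ := (IsFn.ofNat 3).inv
  exact q.he.E0.add ((h3.mul q.ha).mul q.he)

theorem E0_J : p.E 0 q.J = p.E 0 q.b - 3⁻¹ * p.E 0 (p.E 0 q.a) - 9⁻¹ * (2 * q.a * p.E 0 q.a) := by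
  have h3 : p.E 0 (3 : F)⁻¹ = 0 := ((p.isConst_ofNat 3).inv).1 0
  have h9 : p.E 0 (9 : F)⁻¹ = 0 := ((p.isConst_ofNat 9).inv).1 0
  rw [J, map_sub, map_sub, der_mul, der_mul, h3, h9, sq, der_mul]
  ring

theorem D_J : p.D q.J = (p.E 0 q.b - 3⁻¹ * p.E 0 (p.E 0 q.a)
    - 9⁻¹ * (2 * q.a * p.E 0 q.a)) * p.r 1 := by
  rw [q.IsFn_J.D_eq, q.E0_J]

theorem GFree_r (i : ℕ) : p.GFree (p.r i) := fun L => p.grad_r L i

theorem GFree_w : p.GFree q.w :=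
  ((IsFn.ofNat 3).inv.hG.mul q.ha.hG).mul (GFree_r 1)

theorem E_FR_three : p.E 3 q.FR = 1 := by
  unfold FR
  have h2 : p.E 3 (2 : F)⁻¹ = 0 := ((p.isConst_ofNat 2).inv).1 3
  simp only [map_add, der_mul, pow_succ, pow_zero, one_mul, E_r, q.ha.hE 2, q.hb.hE 2, q.hc.hE 2,
    q.he.hE 2, E_S, h2, p.E_D_eq_zero p.E_S]
  norm_num

theorem E_FR_two : p.E 2 q.FR = q.a * p.r 1 := by
  unfold FR
  have h2 : p.E 2 (2 : F)⁻¹ = 0 := ((p.isConst_ofNat 2).inv).1 2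
  simp only [map_add, der_mul, pow_succ, pow_zero, one_mul, E_r, q.ha.hE 1, q.hb.hE 1, q.hc.hE 1,
    q.he.hE 1, E_S, h2, p.E_D_eq_zero p.E_S]
  norm_num

theorem E_FR_one : p.E 1 q.FR = q.a * p.r 2 + 3 * q.b * p.r 1 ^ 2 + q.c * p.S := by
  unfold FR
  have h2 : p.E 1 (2 : F)⁻¹ = 0 := ((p.isConst_ofNat 2).inv).1 1
  simp only [map_add, der_mul, pow_succ, pow_zero, one_mul, E_r, q.ha.hE 0, q.hb.hE 0, q.hc.hE 0,
    q.he.hE 0, E_S, h2, p.E_D_eq_zero p.E_S]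
  norm_num
  ring

theorem E_FR_zero : p.E 0 q.FR = p.E 0 q.a * p.r 1 * p.r 2 + p.E 0 q.b * p.r 1 ^ 3
    + p.E 0 q.c * p.r 1 * p.S + 2⁻¹ * p.E 0 q.e * p.D p.S := by
  unfold FR
  have h2 : p.E 0 (2 : F)⁻¹ = 0 := ((p.isConst_ofNat 2).inv).1 0
  simp only [map_add, der_mul, pow_succ, pow_zero, one_mul, E_r, E_S, h2, p.E_D_eq_zero p.E_S]
  norm_num

theorem radTop : p.RadTop q.FR := by
  refine ⟨q.E_FR_three, fun j hj => ?_⟩
  obtain ⟨j, rfl⟩ : ∃ j', j = j' + 4 := ⟨j - 4, by omega⟩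
  unfold FR
  have h2 : p.E (j + 4) (2 : F)⁻¹ = 0 := ((p.isConst_ofNat 2).inv).1 _
  have e1 : ¬ (j + 4 = 1) := by omega
  have e2 : ¬ (j + 4 = 2) := by omega
  have e3 : ¬ (j + 4 = 3) := by omega
  simp only [map_add, der_mul, pow_succ, pow_zero, one_mul, E_r, q.ha.hE, q.hb.hE, q.hc.hE,
    q.he.hE, E_S, h2, p.E_D_eq_zero p.E_S, e1, e2, e3, if_false]
  norm_num

theorem GFree_pow {f : F} (hf : p.GFree f) (n : ℕ) : p.GFree (f ^ n) := by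
  induction n with
  | zero => rw [pow_zero]; exact p.GFree_one
  | succ n ih => rw [pow_succ]; exact ih.mul hf

theorem grad_GFree_mul {f : F} (hf : p.GFree f) (L : ℕ) (g : F) :
    p.grad L (f * g) = C f * p.grad L g := by
  rw [grad_mul, hf L, mul_zero, add_zero]

theorem grad_FR (L : ℕ) : p.grad L q.FR
    = C (q.c * p.r 1) * p.grad L p.S + C (2⁻¹ * q.e) * p.grad L (p.D p.S) := by
  have h1 : p.GFree (p.r 3 + q.a * p.r 1 * p.r 2 + q.b * p.r 1 ^ 3) :=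
    ((GFree_r 3).add ((q.ha.hG.mul (GFree_r 1)).mul (GFree_r 2))).add
      (q.hb.hG.mul (GFree_pow (GFree_r 1) 3))
  have h2 : p.GFree (q.c * p.r 1) := q.hc.hG.mul (GFree_r 1)
  have h3 : p.GFree (2⁻¹ * q.e) := (IsFn.ofNat 2).inv.hG.mul q.he.hG
  rw [FR, grad_add, grad_add, h1 L, zero_add, grad_GFree_mul h2, grad_GFree_mul h3]

theorem grad_FR_zero : p.grad 0 q.FR = C (2 * q.c * p.r 1) + C q.e * X := by
  have := p.charZero
  have h2 : p.DK (C 2) = C 2 * X := by rw [DK_C, (p.isConst_ofNat 2).D_eq]; simp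
  have e1 : q.c * p.r 1 * 2 = 2 * q.c * p.r 1 := by ring
  have e2 : 2⁻¹ * q.e * 2 = q.e := by field_simp
  rw [grad_FR, grad_zero_D, grad_S, if_pos rfl, h2, ← C_mul, ← mul_assoc, ← C_mul, e1, e2]

theorem grad_FR_one : p.grad 1 q.FR = C q.e := by
  have := p.charZero
  rw [grad_FR, grad_succ_D, grad_S, grad_S, if_pos rfl, if_neg (by omega), map_zero, zero_add,
    mul_zero, zero_add, ← C_mul]
  congr 1
  field_simp

theorem grad_FR_far (L : ℕ) : p.grad (L + 2) q.FR = 0 := by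
  rw [grad_FR, grad_DS_far, grad_S, if_neg (by omega)]; simp

theorem Dt_w : p.Dt q.FR q.w = p.D q.gt := by
  have h3 : p.IsConst (3 : F)⁻¹ := (p.isConst_ofNat 3).inv
  have e1 : p.Dt q.FR (p.r 1) = p.D q.FR := by rw [Dt_r]; rfl
  have e2 : p.Dt q.FR (3 : F)⁻¹ = 0 := h3.vfd_eq _ _
  rw [w, gt, der_mul, der_mul, der_mul, der_mul, e1, e2, h3.D_eq, q.ha.D_eq, q.ha.Dt_eq]
  ring

/-- the radial part of the equation of a symmetry -/
def YEq (Y Z : F) : Prop :=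
  p.Dt q.FR Y = p.D (p.D (p.D Y)) + q.a * p.r 1 * p.D (p.D Y)
    + (q.a * p.r 2 + 3 * q.b * p.r 1 ^ 2 + q.c * p.S) * p.D Y
    + (p.E 0 q.a * p.r 1 * p.r 2 + p.E 0 q.b * p.r 1 ^ 3
      + p.E 0 q.c * p.r 1 * p.S + 2⁻¹ * p.E 0 q.e * p.D p.S) * Y
    + q.c * p.r 1 * Z + 2⁻¹ * q.e * p.D Z

theorem D_w : p.D q.w = 3⁻¹ * (p.E 0 q.a * p.r 1 ^ 2 + q.a * p.r 2) := by
  have h3 : p.IsConst (3 : F)⁻¹ := (p.isConst_ofNat 3).inv
  rw [w, der_mul, der_mul, h3.D_eq, q.ha.D_eq, D_r]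
  ring

theorem D_D_w : p.D (p.D q.w) = 3⁻¹ * (p.E 0 (p.E 0 q.a) * p.r 1 ^ 3
    + 3 * p.E 0 q.a * p.r 1 * p.r 2 + q.a * p.r 3) := by
  have h3 : p.IsConst (3 : F)⁻¹ := (p.isConst_ofNat 3).inv
  rw [D_w, p.D_const_mul h3, map_add, der_mul, der_mul, q.ha.D_eq, q.ha.E0.D_eq, sq, der_mul, D_r,
    D_r]
  ring

/-- the twisted form -/
theorem YEq.twist {q : p.Rad} {Y Z : F} (h : q.YEq Y Z) :
    p.Dt q.FR Y + q.gt * Y = p.Dh q.w (p.Dh q.w (p.Dh q.w Y)) + q.ph * p.Dh q.w Y + q.rh * Y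
      + q.c * p.r 1 * Z + 2⁻¹ * q.e * p.D Z := by
  have := p.charZero
  have h1 : p.Dh q.w (p.Dh q.w (p.Dh q.w Y)) = p.D (p.D (p.D Y)) + 3 * q.w * p.D (p.D Y)
      + 3 * (p.D q.w + q.w ^ 2) * p.D Y + (p.D (p.D q.w) + 3 * q.w * p.D q.w + q.w ^ 3) * Y := by
    simp only [Dh_apply, map_add, der_mul]
    ring
  rw [h1, q.D_D_w, q.D_w, Dh_apply, h, gt, ph, rh, q.E0_J, FR, w, J, ed]
  field_simp
  ring

end Rad

end Polar

end Pool.Agent.Lib.MP_4d1bc1_mp
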