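import Pool.Agent.Lib.MP_4d1bc1_mp.Flow
import Pool.Agent.Lib.MP_4d1bc1_mp.Radial

set_option autoImplicit false

/-! Evolutionary vector fields in the moving frame. -/

namespace Pool.Agent.Lib.MP_4d1bc1_mp

open Finset Polynomial

universe u

variable {F : Type u} [Field F] [Algebra ℝ F]

/-- the covariant evolution of `k_i` under `v_τ = V` -/
noncomputable def Polar.Nv (p : Polar F) (V : F[X]) : ℕ → F[X]
  | 0 => p.DK V
  | i + 1 => p.DK (Nv p V i) + C (p.kap 0 i) * V - C (p.ip V (X ^ i))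

namespace Link

variable {J : Jet F} {R : F} {p : Polar F} (L : Link J R p)

include L

theorem evo_R {G : F[X]} {Y : F} {V : F[X]}
    (hG : G = C Y * Jet.vv R + C R * iota J R V) : J.evo G R = Y := by
  have := p.charZero
  have h1 := congrArg (J.evo G) L.root.sq
  rw [pow_two, der_mul, J.evo_u, Function.iterate_zero, id_eq, pow_zero, J.ip_symm 1] at h1
  have h2 : (1 : F[X]) = C R * Jet.vv R := by
    rw [Jet.vv, ← C_mul, mul_inv_cancel₀ L.root.ne, C_1]
  have h3 : J.ip G 1 = R * Y := by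
    rw [h2, Jet.ip_C_mul_right, hG, Jet.ip_add_left, Jet.ip_C_mul_left, Jet.ip_C_mul_left,
      L.root.vv_vv, J.ip_symm (iota J R V), L.vv_iota]
    ring
  rw [h3] at h1
  have h4 : 2 * R * (J.evo G R - Y) = 0 := by linear_combination h1
  exact sub_eq_zero.1 ((mul_eq_zero.1 h4).resolve_left (mul_ne_zero two_ne_zero L.root.ne))

theorem evoV_vv {G : F[X]} {Y : F} {V : F[X]}
    (hG : G = C Y * Jet.vv R + C R * iota J R V) : J.evoV G (Jet.vv R) = iota J R V := by
  have hR := L.root.ne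
  have h0 : Jet.vv R = C R⁻¹ * 1 := by rw [Jet.vv, mul_one]
  have h1 : J.evo G R⁻¹ = - R⁻¹ ^ 2 * Y := by
    have h2 : J.evo G (R * R⁻¹) = 0 := by
      rw [mul_inv_cancel₀ hR]; exact Derivation.map_one_eq_zero _
    rw [der_mul, L.evo_R hG] at h2
    have h3 : R * R⁻¹ = 1 := mul_inv_cancel₀ hR
    linear_combination R⁻¹ * h2 - J.evo G R⁻¹ * h3
  have hC : (C R⁻¹ * C R : F[X]) = 1 := by rw [← C_mul, inv_mul_cancel₀ hR, C_1]
  rw [h0, Jet.evoV_C_mul, Jet.evoV_one, h1]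
  conv_lhs => rw [hG]
  rw [Jet.vv]
  simp only [C_mul, C_neg, C_pow, mul_one]
  linear_combination (iota J R V) * hC

theorem evoV_kv {G : F[X]} {Y : F} {V : F[X]}
    (hG : G = C Y * Jet.vv R + C R * iota J R V) (i : ℕ) :
    J.evoV G (J.kv R i) = iota J R (p.Nv V i) - C (p.ip V (X ^ i)) * Jet.vv R := by
  -- the component along `v`
  have hv : ∀ i, J.ip (Jet.vv R) (J.evoV G (J.kv R i)) = - p.ip V (X ^ i) := by
    intro i
    have h1 := congrArg (J.evo G) (L.root.vv_kv i)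
    rw [J.evo_ip, L.evoV_vv hG, map_zero, ← iota_X_pow, L.ip_iota] at h1
    rw [← iota_X_pow]
    linear_combination h1
  have key : ∀ i (z : F) (N : F[X]), J.evoV G (J.kv R i) = iota J R N + C z * Jet.vv R →
      J.evoV G (J.kv R i) = iota J R N - C (p.ip V (X ^ i)) * Jet.vv R := by
    intro i z N h
    have h1 := hv i
    rw [h, Jet.ip_add_right, Jet.ip_C_mul_right, L.root.vv_vv, L.vv_iota] at h1
    rw [h]
    have h2 : z = - p.ip V (X ^ i) := by linear_combination h1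
    rw [h2, C_neg]; ring
  induction i with
  | zero =>
    apply key 0 (- p.ip 1 V)
    rw [Jet.kv_zero, Jet.evoV_DM, L.evoV_vv hG, L.DM_iota, C_neg]
    change _ = iota J R (p.DK V) + _
    ring
  | succ i ih =>
    apply key (i + 1) (- p.ip 1 (p.Nv V i) - J.D (p.ip V (X ^ i)) + J.evo G (J.kp R 0 i))
    have h1 : J.DM (Jet.vv R) = J.kv R 0 := rfl
    rw [Jet.kv_succ, map_add, Jet.evoV_DM, ih, map_sub, L.DM_iota, Jet.evoV_C_mul,
      L.evoV_vv hG, Jet.DM_C_mul, h1, ← Jet.kp, ← L.kap]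
    change _ = iota J R (p.DK (p.Nv V i) + C (p.kap 0 i) * V - C (p.ip V (X ^ i))) + _
    rw [map_sub, map_add, iota_C_mul, iota_C]
    simp only [C_add, C_sub, C_neg]
    ring

theorem evo_kap {G : F[X]} {Y : F} {V : F[X]}
    (hG : G = C Y * Jet.vv R + C R * iota J R V) (i j : ℕ) :
    J.evo G (p.kap i j) = p.ip (p.Nv V i) (X ^ j) + p.ip (X ^ i) (p.Nv V j) := by
  rw [L.kap, Jet.kp, J.evo_ip, L.evoV_kv hG, L.evoV_kv hG, Jet.ip_sub_left, Jet.ip_sub_right,
    Jet.ip_C_mul_left, Jet.ip_C_mul_right, L.root.vv_kv, J.ip_symm (J.kv R i) (Jet.vv R),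
    L.root.vv_kv, ← iota_X_pow J R i, ← iota_X_pow J R j, L.ip_iota, L.ip_iota]
  ring

theorem evo_r {G : F[X]} {Y : F} {V : F[X]}
    (hG : G = C Y * Jet.vv R + C R * iota J R V) (i : ℕ) :
    J.evo G (p.r i) = p.D^[i] Y := by
  rw [L.r]
  induction i with
  | zero => exact L.evo_R hG
  | succ i ih =>
    rw [Function.iterate_succ_apply', Jet.evo_D, ih, L.D_eq, Function.iterate_succ_apply']

theorem evo_eq {G : F[X]} {Y : F} {V : F[X]}
    (hG : G = C Y * Jet.vv R + C R * iota J R V) (f : F) :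
    J.evo G f = p.vfd (fun i => p.D^[i] Y)
      (fun i j => p.ip (p.Nv V i) (X ^ j) + p.ip (X ^ i) (p.Nv V j)) f := by
  have h := L.vf (fun a => J.ip (J.DM^[a.1.1] G) (X ^ a.1.2) + J.ip (X ^ a.1.1) (J.DM^[a.1.2] G)) f
  change J.evo G f = p.vfd (fun i => J.evo G (p.r i)) (fun i j => J.evo G (p.kap i j)) f at h
  rw [h]
  exact p.vfd_congr (fun i => L.evo_r hG i) (fun i j => L.evo_kap hG i j) f

/-- covariant evolution of tangent vectors -/
theorem evoV_iota {G : F[X]} {Y : F} {V : F[X]}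
    (hG : G = C Y * Jet.vv R + C R * iota J R V) (W : F[X]) :
    J.evoV G (iota J R W) = iota J R (cm (J.evo G) W + W.sum fun a c => C c * p.Nv V a)
      - C (p.ip V W) * Jet.vv R := by
  induction W using Polynomial.induction_on' with
  | add U W hU hW =>
    rw [map_add, map_add, hU, hW, map_add, Polynomial.sum_add_index _ _ _ (by simp)
      (by intro a b c; rw [C_add, add_mul]), Polar.ip_add_right, C_add]
    simp only [map_add]
    ring
  | monomial n a =>
    rw [Polynomial.sum_monomial_index _ _ (by simp), ← C_mul_X_pow_eq_monomial, iota_C_mul,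
      iota_X_pow, Jet.evoV_C_mul, L.evoV_kv hG, cm_mul, cm_C, cm_X_pow, mul_zero, add_zero,
      map_add, iota_C_mul, iota_C_mul, iota_X_pow, Polar.ip_C_mul_right, C_mul]
    ring

end Link

namespace Polar

variable (p : Polar F)

/-- the tangent part of the equation: `v_t = k_2 + 2 S k_0` -/
noncomputable def VF : F[X] := X ^ 2 + C (2 * p.S)

theorem Nv_VF (i : ℕ) : p.Nv p.VF i = p.W i - C (p.kap 0 i) * X + C (p.kap 1 i) := by
  have := p.charZero
  have hD : ∀ a : F, p.D (2 * a) = 2 * p.D a := fun a => p.D_const_mul (p.isConst_ofNat 2) a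
  induction i with
  | zero =>
    change p.DK p.VF = _
    have h1 : p.kap 1 0 = 2⁻¹ * p.D p.S := by rw [p.kap_symm, kap01]
    have h2 : (C (3 / 2 * p.D p.S) : F[X]) = C (2 * p.D p.S) - C (2⁻¹ * p.D p.S) := by
      rw [← C_sub]; congr 1; field_simp; ring
    rw [VF, map_add, DK_X_pow, DK_C, hD, W_zero, Fv, h1, h2]
    simp only [C_mul, map_ofNat, S]
    ring
  | succ i ih =>
    have h1 : p.ip p.VF (X ^ i) = p.kap 2 i + 2 * p.S * p.kap 0 i := by
      have h2 : (C (2 * p.S) : F[X]) = C (2 * p.S) * X ^ 0 := by rw [pow_zero, mul_one]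
      rw [VF, h2, ip_add_left, ip_C_mul_left, ip_X_pow, ip_X_pow]
    have h3 : p.D (p.kap 0 i) = p.kap 1 i + p.kap 0 (i + 1) := p.D_kap 0 i
    have h4 : p.D (p.kap 1 i) = p.kap 2 i + p.kap 1 (i + 1) := p.D_kap 1 i
    change p.DK (p.Nv p.VF i) + C (p.kap 0 i) * p.VF - C (p.ip p.VF (X ^ i)) = _
    rw [ih, h1, map_add, map_sub, DK_C_mul, DK_X, DK_C, h3, h4, W_succ, VF]
    simp only [C_mul, C_add, map_ofNat]
    ring

theorem sum_Nv_VF (W : F[X]) : (W.sum fun a c => C c * p.Nv p.VF a)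
    = (W.sum fun a c => C c * p.W a) - C (p.ip 1 W) * X + C (p.ip X W) := by
  induction W using Polynomial.induction_on' with
  | add U W hU hW =>
    rw [Polynomial.sum_add_index _ _ _ (by simp) (by intro a b c; rw [C_add, add_mul]), hU, hW,
      Polynomial.sum_add_index _ _ _ (by simp) (by intro a b c; rw [C_add, add_mul]),
      ip_add_right, ip_add_right, C_add, C_add]
    ring
  | monomial n a =>
    rw [Polynomial.sum_monomial_index _ _ (by simp), Polynomial.sum_monomial_index _ _ (by simp),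
      Nv_VF, ← C_mul_X_pow_eq_monomial, ip_C_mul_right, ip_C_mul_right]
    have h1 : p.ip 1 (X ^ n) = p.kap 0 n := by rw [← pow_zero X, ip_X_pow]
    have h2 : p.ip X (X ^ n) = p.kap 1 n := by
      have := p.ip_X_pow 1 n
      rwa [pow_one] at this
    rw [h1, h2, C_mul, C_mul]
    ring

end Polar

namespace Link

variable {J : Jet F} {R : F} {p : Polar F} (L : Link J R p)

include L

/-- the flow of the equation is the time derivative -/
theorem evo_F {G : F[X]} {FR : F}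
    (hG : G = C FR * Jet.vv R + C R * iota J R p.VF) (f : F) : J.evo G f = p.Dt FR f := by
  rw [L.evo_eq hG]
  refine p.vfd_congr (fun i => rfl) (fun i j => ?_) f
  have h1 : ∀ i j, p.ip (p.Nv p.VF i) (X ^ j) = p.ip (p.W i) (X ^ j)
      - p.kap 0 i * p.kap 1 j + p.kap 1 i * p.kap 0 j := by
    intro i j
    have h2 : (C (p.kap 1 i) : F[X]) = C (p.kap 1 i) * X ^ 0 := by rw [pow_zero, mul_one]
    have h3 : (C (p.kap 0 i) * X : F[X]) = C (p.kap 0 i) * X ^ 1 := by rw [pow_one]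
    rw [p.Nv_VF, h2, h3, Polar.ip_add_left, Polar.ip_sub_left, Polar.ip_C_mul_left,
      Polar.ip_C_mul_left, Polar.ip_X_pow, Polar.ip_X_pow]
  rw [p.ip_symm (X ^ i) (p.Nv p.VF j), h1, h1, p.ip_symm (X ^ i) (p.W j)]
  ring

theorem evoV_F {G : F[X]} {FR : F}
    (hG : G = C FR * Jet.vv R + C R * iota J R p.VF) (W : F[X]) :
    J.evoV G (iota J R W) = iota J R (p.DtK FR W - C (p.ip 1 W) * X + C (p.ip X W))
      - C (p.ip p.VF W) * Jet.vv R := by
  have h1 : cm (J.evo G) W = cm (p.Dt FR) W := by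
    refine Polynomial.ext fun i => ?_
    rw [coeff_cm, coeff_cm, L.evo_F hG]
  rw [L.evoV_iota hG, p.sum_Nv_VF, h1, Polar.DtK_apply]
  congr 2
  ring

/-- evolution of `S` -/
theorem evo_S {G : F[X]} {Y : F} {V : F[X]}
    (hG : G = C Y * Jet.vv R + C R * iota J R V) : J.evo G p.S = p.Zf V := by
  rw [Polar.S, L.evo_kap hG, Polar.Zf, pow_zero, p.ip_symm (p.Nv V 0)]
  change p.ip 1 (p.DK V) + p.ip 1 (p.DK V) = _
  ring

theorem evo_DS {G : F[X]} {Y : F} {V : F[X]}
    (hG : G = C Y * Jet.vv R + C R * iota J R V) : J.evo G (p.D p.S) = p.D (p.Zf V) := by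
  rw [← L.D_eq, Jet.evo_D, L.evo_S hG, L.D_eq]

theorem evo_fn {G : F[X]} {Y : F} {V : F[X]}
    (hG : G = C Y * Jet.vv R + C R * iota J R V) {f : F} (hf : p.IsFn f) :
    J.evo G f = p.E 0 f * Y := by
  rw [L.evo_eq hG, hf.vfd_eq]
  simp
  ring

/-- evolution of the radial right hand side -/
theorem evo_FR {G : F[X]} {Y : F} {V : F[X]} (q : p.Rad)
    (hG : G = C Y * Jet.vv R + C R * iota J R V) : J.evo G q.FR
    = p.D (p.D (p.D Y)) + q.a * p.r 1 * p.D (p.D Y)
    + (q.a * p.r 2 + 3 * q.b * p.r 1 ^ 2 + q.c * p.S) * p.D Y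
    + (p.E 0 q.a * p.r 1 * p.r 2 + p.E 0 q.b * p.r 1 ^ 3
      + p.E 0 q.c * p.r 1 * p.S + 2⁻¹ * p.E 0 q.e * p.D p.S) * Y
    + q.c * p.r 1 * p.Zf V + 2⁻¹ * q.e * p.D (p.Zf V) := by
  have h2 : J.evo G (2 : F)⁻¹ = 0 := by
    rw [L.evo_eq hG]; exact ((p.isConst_ofNat 2).inv).vfd_eq _ _
  rw [Polar.Rad.FR]
  simp only [map_add, der_mul, pow_succ, pow_zero, one_mul, L.evo_r hG, L.evo_fn hG q.ha,
    L.evo_fn hG q.hb, L.evo_fn hG q.hc, L.evo_fn hG q.he, L.evo_S hG, L.evo_DS hG, h2,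
    Function.iterate_succ_apply, Function.iterate_zero, id_eq]
  ring

/-- covariant evolution of the tangent right hand side -/
theorem evoV_VF {G : F[X]} {Y : F} {V : F[X]}
    (hG : G = C Y * Jet.vv R + C R * iota J R V) :
    J.evoV G (iota J R p.VF) = iota J R (p.DK (p.DK (p.DK V)) + C (3 * p.S) * p.DK V
      + C (3 / 2 * p.D p.S) * V + C (3 * (p.ip 1 (p.DK V) - p.ip X V))
      - C (p.ip 1 V) * X + C (p.ip X V))
      - C (p.ip V p.VF) * Jet.vv R := by
  have := p.charZero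
  rw [L.evoV_iota hG]
  congr 2
  have h1 : (p.VF.sum fun a c => C c * p.Nv V a) = p.Nv V 2 + C (2 * p.S) * p.Nv V 0 := by
    rw [Polar.VF, Polynomial.sum_add_index _ _ _ (by simp)
      (by intro a b c; rw [C_add, add_mul]), Polynomial.sum_C_index (by simp),
      ← monomial_one_right_eq_X_pow, Polynomial.sum_monomial_index _ _ (by simp)]
    simp
  have h2 : cm (J.evo G) p.VF = C (2 * p.Zf V) := by
    have h3 : J.evo G (2 : F) = 0 := der_ofNat _ 2
    rw [Polar.VF, map_add, cm_X_pow, cm_C, der_mul, h3, L.evo_S hG]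
    ring
  have h4 : p.Nv V 0 = p.DK V := rfl
  have h5 : p.Nv V 1 = p.DK (p.DK V) + C p.S * V - C (p.ip V 1) := by
    change p.DK (p.Nv V 0) + C (p.kap 0 0) * V - C (p.ip V (X ^ 0)) = _
    rw [pow_zero]; rfl
  have h6 : p.Nv V 2 = p.DK (p.Nv V 1) + C (2⁻¹ * p.D p.S) * V - C (p.ip V X) := by
    change p.DK (p.Nv V 1) + C (p.kap 0 1) * V - C (p.ip V (X ^ 1)) = _
    rw [pow_one, Polar.kap01]
  have h7 : p.D (p.ip V 1) = p.ip (p.DK V) 1 + p.ip V X := by
    rw [p.D_ip, Polar.DK_one]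
  rw [h1, h2, h6, h5, h4, map_sub, map_add, Polar.DK_C_mul, Polar.DK_C, h7, Polar.Zf,
    p.ip_symm 1 (p.DK V), p.ip_symm X V, p.ip_symm 1 V]
  have h8 : (C (3 / 2 * p.D p.S) : F[X]) = C (p.D p.S) + C (2⁻¹ * p.D p.S) := by
    rw [← C_add]; congr 1; field_simp; ring
  rw [h8]
  simp only [C_mul, C_add, C_sub, map_ofNat]
  ring

/-- THE SYMMETRY CONDITION -/
theorem commute_iff {G FF : F[X]} {Y : F} {V : F[X]} (q : p.Rad)
    (hG : G = C Y * Jet.vv R + C R * iota J R V)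
    (hF : FF = C q.FR * Jet.vv R + C R * iota J R p.VF) :
    J.evoV FF G = J.evoV G FF ↔ p.VEq q.FR V ∧ q.YEq Y (p.Zf V) := by
  have e1 : J.evoV FF G = C (p.Dt q.FR Y - R * p.ip p.VF V) * Jet.vv R
      + C R * iota J R (p.DtK q.FR V - C (p.ip 1 V) * X + C (p.ip X V))
      + (C Y * iota J R p.VF + C q.FR * iota J R V) := by
    conv_lhs => rw [hG]
    rw [map_add, Jet.evoV_C_mul, Jet.evoV_C_mul, L.evoV_vv hF, L.evo_R hF, L.evoV_F hF,
      L.evo_F hF, C_sub, C_mul]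
    ring
  have e2 : J.evoV G FF = C (J.evo G q.FR - R * p.ip p.VF V) * Jet.vv R
      + C R * iota J R (p.DK (p.DK (p.DK V)) + C (3 * p.S) * p.DK V
      + C (3 / 2 * p.D p.S) * V + C (3 * (p.ip 1 (p.DK V) - p.ip X V))
      - C (p.ip 1 V) * X + C (p.ip X V))
      + (C Y * iota J R p.VF + C q.FR * iota J R V) := by
    have e3 : (C (J.evo G q.FR - R * p.ip p.VF V) : F[X])
        = C (J.evo G q.FR) - C R * C (p.ip p.VF V) := by rw [C_sub, C_mul]
    conv_lhs => rw [hF]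
    rw [map_add, Jet.evoV_C_mul, Jet.evoV_C_mul, L.evoV_vv hG, L.evo_R hG, L.evoV_VF hG, e3,
      p.ip_symm V p.VF]
    ring
  rw [e1, e2, add_left_inj]
  constructor
  · intro h
    obtain ⟨h1, h2⟩ := L.uniq h
    refine ⟨?_, ?_⟩
    · unfold Polar.VEq
      linear_combination h2
    · unfold Polar.Rad.YEq
      rw [← L.evo_FR q hG]
      linear_combination h1
  · rintro ⟨h1, h2⟩
    unfold Polar.VEq at h1
    unfold Polar.Rad.YEq at h2
    rw [← L.evo_FR q hG] at h2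
    rw [h1, h2]

end Link

end Pool.Agent.Lib.MP_4d1bc1_mp
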