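import Mathlib

set_option autoImplicit false

/-! Families of commuting, locally finite derivations of a field (partial derivatives), and the
vector fields with given coefficients. -/

namespace Pool.Agent.Lib.MP_4d1bc1_mp

open Finset

universe u

/-- A locally finite family of commuting derivations (the partial derivatives). -/
structure Frame (I : Type) (F : Type u) [Field F] [Algebra ℝ F] where
  P : I → Derivation ℝ F F
  comm : ∀ a b f, P a (P b f) = P b (P a f)
  fin : ∀ f, {a | P a f ≠ 0}.Finite

variable {I : Type} {F : Type u} [Field F] [Algebra ℝ F]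

namespace Frame

variable (T : Frame I F)

theorem support_mul_subset (c : I → F) (f : F) :
    (Function.support fun a => c a * T.P a f) ⊆ {a | T.P a f ≠ 0} := by
  intro a ha
  simp only [Function.mem_support, ne_eq, mul_eq_zero, not_or] at ha
  exact ha.2

theorem finite_support_mul (c : I → F) (f : F) :
    (Function.support fun a => c a * T.P a f).Finite :=
  (T.fin f).subset (T.support_mul_subset c f)

/-- The vector field with coefficients `c`. -/
noncomputable def vf (c : I → F) : Derivation ℝ F F :=
  Derivation.mk'
    { toFun := fun f => ∑ᶠ a, c a * T.P a f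
      map_add' := by
        intro f g
        rw [← finsum_add_distrib (T.finite_support_mul c f) (T.finite_support_mul c g)]
        exact finsum_congr fun a => by rw [map_add, mul_add]
      map_smul' := by
        intro r f
        rw [RingHom.id_apply, smul_finsum' r (T.finite_support_mul c f)]
        exact finsum_congr fun a => by
          rw [Derivation.map_smul, mul_smul_comm] }
    (by
      intro f g
      change ∑ᶠ a, c a * T.P a (f * g) = f • ∑ᶠ a, c a * T.P a g + g • ∑ᶠ a, c a * T.P a f
      rw [smul_finsum' f (T.finite_support_mul c g), smul_finsum' g (T.finite_support_mul c f),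
        ← finsum_add_distrib]
      · exact finsum_congr fun a => by
          rw [Derivation.leibniz]; simp only [smul_eq_mul]; ring
      · exact (T.finite_support_mul c g).subset (by
          intro a ha
          simp only [Function.mem_support, ne_eq, smul_eq_mul, mul_eq_zero, not_or] at ha ⊢
          exact ha.2)
      · exact (T.finite_support_mul c f).subset (by
          intro a ha
          simp only [Function.mem_support, ne_eq, smul_eq_mul, mul_eq_zero, not_or] at ha ⊢
          exact ha.2))

theorem vf_apply (c : I → F) (f : F) : T.vf c f = ∑ᶠ a, c a * T.P a f := rfl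

theorem vf_eq_sum (c : I → F) (f : F) (s : Finset I) (hs : ∀ a, a ∉ s → T.P a f = 0) :
    T.vf c f = ∑ a ∈ s, c a * T.P a f := by
  rw [vf_apply]
  apply finsum_eq_sum_of_support_subset
  intro a ha
  by_contra h
  have := hs a (by simpa using h)
  simp [this] at ha

theorem P_notMem (f : F) (a : I) (ha : a ∉ (T.fin f).toFinset) : T.P a f = 0 := by
  by_contra h
  exact ha (by simpa using h)

theorem P_vf (b : I) (c : I → F) (f : F) :
    T.P b (T.vf c f) = T.vf c (T.P b f) + T.vf (fun a => T.P b (c a)) f := by
  have h1 := T.vf_eq_sum c f _ (T.P_notMem f)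
  have h2 := T.vf_eq_sum c (T.P b f) (T.fin f).toFinset (fun a ha => by
    rw [T.comm, T.P_notMem f a ha, map_zero])
  have h3 := T.vf_eq_sum (fun a => T.P b (c a)) f _ (T.P_notMem f)
  rw [h1, h2, h3, map_sum, ← sum_add_distrib]
  refine sum_congr rfl fun a _ => ?_
  rw [Derivation.leibniz, T.comm b a]
  simp only [smul_eq_mul]
  ring

theorem vf_comm (c d : I → F) (f : F) :
    T.vf c (T.vf d f) = T.vf d (T.vf c f) + T.vf (fun a => T.vf c (d a) - T.vf d (c a)) f := by
  have key : ∀ (c d : I → F), T.vf c (T.vf d f) =
      T.vf (fun a => T.vf c (d a)) f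
        + ∑ a ∈ (T.fin f).toFinset, ∑ b ∈ (T.fin f).toFinset,
          d a * (c b * T.P b (T.P a f)) := by
    intro c d
    have h1 := T.vf_eq_sum d f _ (T.P_notMem f)
    have h3 := T.vf_eq_sum (fun a => T.vf c (d a)) f _ (T.P_notMem f)
    rw [h1, h3, map_sum, ← sum_add_distrib]
    refine sum_congr rfl fun a _ => ?_
    have h2 := T.vf_eq_sum c (T.P a f) (T.fin f).toFinset (fun b hb => by
      rw [T.comm, T.P_notMem f b hb, map_zero])
    rw [Derivation.leibniz, h2, ← mul_sum]
    simp only [smul_eq_mul]
    ring
  rw [key c d, key d c]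
  have h4 : ∑ a ∈ (T.fin f).toFinset, ∑ b ∈ (T.fin f).toFinset,
        d a * (c b * T.P b (T.P a f))
      = ∑ a ∈ (T.fin f).toFinset, ∑ b ∈ (T.fin f).toFinset,
        c a * (d b * T.P b (T.P a f)) := by
    rw [sum_comm]
    refine sum_congr rfl fun a _ => sum_congr rfl fun b _ => ?_
    rw [T.comm a b]
    ring
  rw [h4]
  have h5 : T.vf (fun a => T.vf c (d a) - T.vf d (c a)) f
      = T.vf (fun a => T.vf c (d a)) f - T.vf (fun a => T.vf d (c a)) f := by
    rw [T.vf_eq_sum _ f _ (T.P_notMem f), T.vf_eq_sum _ f _ (T.P_notMem f),
      T.vf_eq_sum _ f _ (T.P_notMem f), ← sum_sub_distrib]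
    exact sum_congr rfl fun a _ => by ring
  rw [h5]
  ring

theorem vf_congr {c d : I → F} (h : ∀ a, c a = d a) (f : F) : T.vf c f = T.vf d f := by
  have : c = d := funext h
  rw [this]

/-- Two vector fields whose coefficients commute, commute. -/
theorem vf_comm_of (c d : I → F) (h : ∀ a, T.vf c (d a) = T.vf d (c a)) (f : F) :
    T.vf c (T.vf d f) = T.vf d (T.vf c f) := by
  have h0 : T.vf (fun _ => (0 : F)) f = 0 := by
    rw [vf_apply]; simp
  have h1 : T.vf (fun a => T.vf c (d a) - T.vf d (c a)) f = 0 := by
    rw [← h0]
    exact T.vf_congr (fun a => by rw [h a, sub_self]) f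
  rw [T.vf_comm c d f, h1, add_zero]

end Frame

end Pool.Agent.Lib.MP_4d1bc1_mp
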