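import Pool.Agent.Lib.MP_4d1bc1_mp.Frame

set_option autoImplicit false

/-! Triangular changes of variables. -/

namespace Pool.Agent.Lib.MP_4d1bc1_mp

open Finset

universe u

variable {F : Type u} [Field F] [Algebra ℝ F]

/-- solution of a triangular system -/
noncomputable def solveC (J : ℕ → ℕ → F) (t : ℕ → F) : ℕ → F
  | l => (t l - ∑ m : Fin l, solveC J t m * J m l) / J l l
termination_by l => l
decreasing_by exact m.2

theorem solveC_eq (J : ℕ → ℕ → F) (t : ℕ → F) (l : ℕ) :
    solveC J t l = (t l - ∑ m ∈ range l, solveC J t m * J m l) / J l l := by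
  rw [solveC, Finset.sum_range]

theorem solveC_zero (J : ℕ → ℕ → F) (t : ℕ → F) (n : ℕ) (ht : ∀ l, l < n → t l = 0) (l : ℕ)
    (hl : l < n) : solveC J t l = 0 := by
  induction l using Nat.strong_induction_on with
  | _ l ih =>
    rw [solveC_eq, ht l hl, sum_eq_zero, sub_zero, zero_div]
    intro m hm
    rw [mem_range] at hm
    rw [ih m hm (by omega), zero_mul]

/-- the hypothesis on the new variables -/
structure Tri (T : Frame ℕ F) (y : ℕ → F) : Prop where
  up : ∀ m l, l < m → T.P m (y l) = 0
  diag : ∀ l, T.P l (y l) ≠ 0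

variable {T : Frame ℕ F} {y : ℕ → F}

theorem Tri.vf_y (h : Tri T y) (c : ℕ → F) (l : ℕ) :
    T.vf c (y l) = ∑ m ∈ range l, c m * T.P m (y l) + c l * T.P l (y l) := by
  rw [T.vf_eq_sum c (y l) (range (l + 1)), sum_range_succ]
  intro a ha
  exact h.up a l (by simpa using ha)

theorem Tri.eq_zero (h : Tri T y) {c : ℕ → F} (hc : ∀ l, T.vf c (y l) = 0) (l : ℕ) :
    c l = 0 := by
  induction l using Nat.strong_induction_on with
  | _ l ih =>
    have h1 := hc l
    rw [h.vf_y, sum_eq_zero, zero_add] at h1
    · exact (mul_eq_zero.1 h1).resolve_right (h.diag l)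
    · intro m hm
      rw [mem_range] at hm
      rw [ih m hm, zero_mul]

theorem Frame.vf_sub {I : Type} (T : Frame I F) (c d : I → F) (f : F) :
    T.vf (fun a => c a - d a) f = T.vf c f - T.vf d f := by
  rw [T.vf_eq_sum _ f _ (T.P_notMem f), T.vf_eq_sum _ f _ (T.P_notMem f),
    T.vf_eq_sum _ f _ (T.P_notMem f), ← sum_sub_distrib]
  exact sum_congr rfl fun a _ => by ring

theorem Tri.ext (h : Tri T y) {c d : ℕ → F} (hc : ∀ l, T.vf c (y l) = T.vf d (y l)) (f : F) :
    T.vf c f = T.vf d f := by
  have h1 : ∀ l, c l - d l = 0 := h.eq_zero (c := fun l => c l - d l) (fun l => by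
    rw [T.vf_sub, hc, sub_self])
  have h2 : c = d := funext fun l => sub_eq_zero.1 (h1 l)
  rw [h2]

theorem Tri.solve (h : Tri T y) (t : ℕ → F) (l : ℕ) :
    T.vf (solveC (fun m l => T.P m (y l)) t) (y l) = t l := by
  rw [h.vf_y, solveC_eq _ _ l]
  have := h.diag l
  field_simp
  ring

/-- the new partial derivatives -/
noncomputable def Tri.Q (_h : Tri T y) (n : ℕ) : Derivation ℝ F F :=
  T.vf (solveC (fun m l => T.P m (y l)) (fun l => if n = l then 1 else 0))

theorem Tri.Q_y (h : Tri T y) (n l : ℕ) : h.Q n (y l) = if n = l then 1 else 0 := h.solve _ l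

theorem exists_bound (T : Frame ℕ F) (f : F) : ∃ N, ∀ n, N ≤ n → T.P n f = 0 := by
  refine ⟨(T.fin f).toFinset.sup id + 1, fun n hn => ?_⟩
  apply T.P_notMem f
  intro hs
  have : n ≤ (T.fin f).toFinset.sup id := Finset.le_sup (f := id) hs
  omega

theorem Tri.Q_far (h : Tri T y) {f : F} {N : ℕ} (hN : ∀ n, N ≤ n → T.P n f = 0) {n : ℕ}
    (hn : N ≤ n) : h.Q n f = 0 := by
  rw [Tri.Q, T.vf_eq_sum _ f (range N) (fun a ha => hN a (by simpa using ha))]
  refine sum_eq_zero fun m hm => ?_
  rw [mem_range] at hm
  rw [solveC_zero _ _ n (fun l hl => if_neg (by omega)) m (by omega), zero_mul]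

/-- the new frame -/
noncomputable def Tri.frame (h : Tri T y) : Frame ℕ F where
  P := h.Q
  comm := by
    intro a b f
    change T.vf _ (T.vf _ f) = T.vf _ (T.vf _ f)
    rw [T.vf_comm]
    have h1 := h.ext (c := fun m =>
        T.vf (solveC (fun m l => T.P m (y l)) (fun l => if a = l then 1 else 0))
          (solveC (fun m l => T.P m (y l)) (fun l => if b = l then 1 else 0) m)
        - T.vf (solveC (fun m l => T.P m (y l)) (fun l => if b = l then 1 else 0))
          (solveC (fun m l => T.P m (y l)) (fun l => if a = l then 1 else 0) m))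
      (d := fun _ => 0) (fun l => by
        have h2 := T.vf_comm
          (solveC (fun m l => T.P m (y l)) (fun l => if a = l then 1 else 0))
          (solveC (fun m l => T.P m (y l)) (fun l => if b = l then 1 else 0)) (y l)
        rw [h.solve, h.solve] at h2
        have h3 : T.vf (fun _ => (0 : F)) (y l) = 0 := by rw [T.vf_apply]; simp
        rw [h3]
        have h4 : ∀ (c : ℕ → F) (P : Prop) [Decidable P],
            T.vf c (if P then (1 : F) else 0) = 0 := by
          intro c P _
          split_ifs
          · exact Derivation.map_one_eq_zero _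
          · exact map_zero _
        rw [h4, h4, zero_add] at h2
        exact h2.symm) f
    rw [h1]
    have h3 : T.vf (fun _ => (0 : F)) f = 0 := by rw [T.vf_apply]; simp
    rw [h3, add_zero]
  fin := by
    intro f
    obtain ⟨N, hN⟩ := exists_bound T f
    refine (Set.finite_Iio N).subset fun n hn => ?_
    by_contra h1
    exact hn (h.Q_far hN (by simpa using h1))

theorem Tri.frame_vf (h : Tri T y) (c : ℕ → F) (f : F) :
    T.vf c f = h.frame.vf (fun n => T.vf c (y n)) f := by
  -- any vector field of the new frame is one of the old frame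
  have key : ∀ (d : ℕ → F), ∃ e : ℕ → F, ∀ f, h.frame.vf d f = T.vf e f := by
    intro d
    refine ⟨fun m => ∑ n ∈ range (m + 1), d n
      * solveC (fun m l => T.P m (y l)) (fun l => if n = l then 1 else 0) m, fun f => ?_⟩
    obtain ⟨N, hN⟩ := exists_bound T f
    rw [h.frame.vf_eq_sum d f (range N)
      (fun a ha => h.Q_far hN (by simpa using ha)),
      T.vf_eq_sum _ f (range N) (fun a ha => hN a (by simpa using ha))]
    have h1 : ∀ n ∈ range N, d n * h.frame.P n f = ∑ m ∈ range N, d n
        * solveC (fun m l => T.P m (y l)) (fun l => if n = l then 1 else 0) m * T.P m f := by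
      intro n _
      change d n * h.Q n f = _
      rw [Tri.Q, T.vf_eq_sum _ f (range N) (fun a ha => hN a (by simpa using ha)), mul_sum]
      exact sum_congr rfl fun m _ => by ring
    rw [sum_congr rfl h1, sum_comm]
    refine sum_congr rfl fun m hm => ?_
    rw [sum_mul]
    symm
    apply sum_subset
    · apply range_subset_range.2
      simpa using hm
    · intro n _ hn
      rw [mem_range, not_lt] at hn
      rw [solveC_zero _ _ n (fun l hl => if_neg (by omega)) m (by omega)]
      ring
  obtain ⟨e, he⟩ := key (fun n => T.vf c (y n))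
  rw [he]
  refine h.ext (fun l => ?_) f
  rw [← he, h.frame.vf_eq_sum _ (y l) {l}]
  · rw [sum_singleton]
    change T.vf c (y l) = T.vf c (y l) * h.Q l (y l)
    rw [h.Q_y, if_pos rfl, mul_one]
  · intro a ha
    change h.Q a (y l) = 0
    rw [h.Q_y, if_neg]
    simpa using ha

/-! ### general index sets -/

/-- transport of a frame -/
noncomputable def Frame.map {I J : Type} (T : Frame I F) (e : J ≃ I) : Frame J F where
  P := fun a => T.P (e a)
  comm := fun a b f => T.comm _ _ f
  fin := fun f => (T.fin f).preimage e.injective.injOn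

theorem Frame.map_vf {I J : Type} (T : Frame I F) (e : J ≃ I) (c : J → F) (f : F) :
    (T.map e).vf c f = T.vf (fun a => c (e.symm a)) f := by
  rw [Frame.vf_apply, Frame.vf_apply, ← finsum_comp_equiv e]
  exact finsum_congr fun a => by rw [Equiv.symm_apply_apply]; rfl

/-- CHANGE OF VARIABLES for an index set with a rank function -/
theorem exists_frame {I : Type} [Infinite I] [DecidableEq I] (T : Frame I F) (y : I → F)
    (rank : I → ℕ) (hr : Function.Injective rank)
    (up : ∀ a b, rank b < rank a → T.P a (y b) = 0) (diag : ∀ a, T.P a (y a) ≠ 0) :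
    ∃ T2 : Frame I F, (∀ a b, T2.P a (y b) = if a = b then 1 else 0)
      ∧ (∀ c f, T.vf c f = T2.vf (fun a => T.vf c (y a)) f)
      ∧ (∀ c : I → F, (∀ a, T.vf c (y a) = 0) → ∀ f, T.vf c f = 0)
      ∧ (∀ a, ∃ c, ∀ f, T2.P a f = T.vf c f) := by
  classical
  have hinf : (Set.range rank).Infinite := Set.infinite_range_of_injective hr
  haveI : Infinite (Set.range rank) := hinf.to_subtype
  let o : ℕ ≃o Set.range rank := Nat.Subtype.orderIsoOfNat (Set.range rank)
  let e : ℕ ≃ I := o.toEquiv.trans (Equiv.ofInjective rank hr).symm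
  have he : ∀ n, rank (e n) = (o n : ℕ) := by
    intro n
    have h1 : Equiv.ofInjective rank hr (e n) = o n := by
      change Equiv.ofInjective rank hr ((Equiv.ofInjective rank hr).symm (o n)) = o n
      rw [Equiv.apply_symm_apply]
    have h2 := congrArg Subtype.val h1
    exact h2
  have hmono : ∀ m l, l < m → rank (e l) < rank (e m) := by
    intro m l h
    rw [he, he]
    exact o.strictMono h
  have ht : Tri (T.map e) (fun n => y (e n)) := by
    refine ⟨fun m l h => ?_, fun l => ?_⟩
    · exact up _ _ (hmono m l h)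
    · exact diag _
  have hvf : ∀ (c : I → F) f, T.vf c f = (T.map e).vf (fun n => c (e n)) f := by
    intro c f
    rw [Frame.map_vf]
    exact T.vf_congr (fun a => by rw [Equiv.apply_symm_apply]) f
  refine ⟨ht.frame.map e.symm, fun a b => ?_, fun c f => ?_, fun c hc f => ?_, fun a => ?_⟩
  · change ht.Q (e.symm a) (y b) = _
    have h1 := ht.Q_y (e.symm a) (e.symm b)
    simp only [Equiv.apply_symm_apply] at h1
    rw [h1]
    simp
  · rw [hvf, ht.frame_vf, Frame.map_vf]
    refine ht.frame.vf_congr (fun n => ?_) f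
    rw [Equiv.symm_symm, hvf]
  · rw [hvf]
    have h1 := ht.eq_zero (c := fun n => c (e n)) (fun l => by rw [← hvf]; exact hc _)
    have h2 : (fun n => c (e n)) = fun _ => 0 := funext h1
    rw [h2, Frame.vf_apply]
    simp
  · refine ⟨fun b => solveC (fun m l => (T.map e).P m (y (e l)))
      (fun l => if e.symm a = l then 1 else 0) (e.symm b), fun f => ?_⟩
    rw [hvf]
    change ht.Q (e.symm a) f = _
    rw [Tri.Q]
    refine (T.map e).vf_congr (fun n => ?_) f
    rw [Equiv.symm_apply_apply]

end Pool.Agent.Lib.MP_4d1bc1_mp
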