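import Pool.Agent.Lib.MP_4d1bc1_mp.VGrad

set_option autoImplicit false

/-! Top gradients of `⟨vₓ, vₓ⟩_τ`. -/

namespace Pool.Agent.Lib.MP_4d1bc1_mp

open Finset Polynomial

universe u

variable {F : Type u} [Field F] [Algebra ℝ F]

namespace Polar

variable (p : Polar F)

/-- `Z = 2 ⟨k_0, D V⟩` -/
noncomputable def Zf (V : F[X]) : F := 2 * p.ip 1 (p.DK V)

theorem kap01 : p.kap 0 1 = 2⁻¹ * p.D p.S := by
  have := p.charZero
  rw [S, D_kap, p.kap_symm 1 0]
  field_simp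
  ring

variable {p} {FR : F} {V : F[X]} {n : ℕ}

theorem grad_Zf (V : F[X]) (L : ℕ) : p.grad (L + 1) (p.Zf V)
    = 2 * (C ((p.DK V).coeff (L + 1)) + p.ct (p.DKt (p.gV (L + 1) V) + p.gV L V)) := by
  rw [Zf, p.grad_const_mul (p.isConst_ofNat 2), grad_ip_one, gV_succ_DK, map_ofNat]

theorem VSym.z_far (h : p.VSym FR V n) (L : ℕ) (hL : n + 6 ≤ L) : p.grad L (p.Zf V) = 0 := by
  obtain ⟨l, rfl⟩ : ∃ l, L = l + 1 := ⟨L - 1, by omega⟩
  rw [grad_Zf, h.gV_far _ (by omega), h.gV_far _ (by omega), coeff_DK_succ,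
    h.deg _ (by omega), h.deg _ (by omega)]
  simp

theorem VSym.z5 (h : p.VSym FR V n) : p.grad (n + 5) (p.Zf V) = C (2 * V.coeff (n + 4)) := by
  rw [grad_Zf, h.gV_far _ (by omega), h.gV_far _ (by omega), coeff_DK_succ,
    h.deg _ (by omega), C_mul, map_ofNat C 2]
  simp

theorem VSym.z4 (h : p.VSym FR V n) : p.grad (n + 4) (p.Zf V) = C (2 * V.coeff (n + 3)) := by
  rw [grad_Zf, h.gV_far _ (by omega), h.gV_far _ (by omega), coeff_DK_succ,
    h.lead.D_eq, C_mul, map_ofNat C 2]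
  simp

theorem VSym.z3 (h : p.VSym FR V n) : p.grad (n + 3) (p.Zf V)
    = C (2 * ((2 * n + 10) * V.coeff (n + 4) * p.S
      + (V.coeff (n + 2) - (n + 4) * V.coeff (n + 4) * p.S))) := by
  rw [grad_Zf, h.gV_far _ (by omega), h.gV_two, coeff_DK_succ, h.sub.D_eq]
  simp only [map_zero, zero_add]
  rw [ct_C, ← C_mul, ← C_add, ← map_ofNat C 2, ← C_mul]
  congr 1
  ring

theorem VSym.D_third (h : p.VSym FR V n) :
    p.D (V.coeff (n + 2)) = (n + 4) * V.coeff (n + 4) * p.D p.S := by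
  have hc : p.IsConst ((n + 4 : F) * V.coeff (n + 4)) :=
    ((p.isConst_natCast n).add (p.isConst_ofNat 4)).mul h.lead
  have h6 := h.third.D_eq
  rw [map_sub, p.D_const_mul hc] at h6
  linear_combination h6

theorem VSym.z2 (h : p.VSym FR V n) : p.grad (n + 2) (p.Zf V)
    = C (2 * (3 / 4 * (n + 5) * (n + 4) * V.coeff (n + 4) * p.D p.S
      + 2 * (n + 4) * V.coeff (n + 3) * p.S
      + (V.coeff (n + 1) - (n + 3) * V.coeff (n + 3) * p.S
      - (n + 4) * (n + 2) / 2 * V.coeff (n + 4) * p.D p.S)))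
      + C ((n + 5) * (n + 4) * V.coeff (n + 4) * p.S) * X := by
  have := p.charZero
  have hc : p.IsConst ((n + 6 : F) * V.coeff (n + 4)) :=
    ((p.isConst_natCast n).add (p.isConst_ofNat 6)).mul h.lead
  rw [grad_Zf, h.gV_two, h.gV_one, coeff_DK_succ, h.D_third, p.DKt_const hc]
  have e1 : C (C ((n + 6 : F) * V.coeff (n + 4))) * (C X + X)
      + (C (C ((((n : F) + 4) ^ 2 - (n + 4) - 4) / 2 * V.coeff (n + 4))) * C X
      + C (C ((((n : F) + 4) ^ 2 + (n + 4) - 4) / 2 * V.coeff (n + 4))) * X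
      + C (C ((n + 5) * V.coeff (n + 3))))
      = C (C ((n + 5) * V.coeff (n + 3))
        + C ((n + 6 : F) * V.coeff (n + 4)
          + (((n : F) + 4) ^ 2 - (n + 4) - 4) / 2 * V.coeff (n + 4)) * X)
        + C (C ((n + 6 : F) * V.coeff (n + 4)
          + (((n : F) + 4) ^ 2 + (n + 4) - 4) / 2 * V.coeff (n + 4))) * X := by
    simp only [C_add, C_mul]
    ring
  have e2 : ∀ a s b c k d : F, (2 : F[X]) * (C a + (C s * (C b + C c * X) + C k * C d))
      = C (2 * (a + s * b + k * d)) + C (2 * (s * c)) * X := by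
    intro a s b c k d
    simp only [C_add, C_mul, map_ofNat]
    ring
  rw [e1, ct_add, ct_C, ct_C_mul_X, kap01, e2]
  congr 2
  · field_simp
    ring
  · field_simp
    ring_nf

theorem VSym.E_Z (h : p.VSym FR V n) (k : ℕ) : p.E k (p.Zf V) = 0 := by
  have h0 : cm (p.E k) (p.DK V) = 0 := by
    rw [E_DK, h.eq.E_free h.rad, map_zero, zero_add]
    cases k with
    | zero => rfl
    | succ k => exact h.eq.E_free h.rad k
  rw [Zf, der_const_mul _ (der_ofNat _ 2), E_ip, h0, ← C_1, cm_C]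
  simp

end Polar

end Pool.Agent.Lib.MP_4d1bc1_mp
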