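import Pool.Agent.Lib.MP_4d1bc1_mp.Series
import Pool.Agent.Lib.MP_4d1bc1_mp.ZGrad

set_option autoImplicit false

/-! The generating series of the symmetries. -/

namespace Pool.Agent.Lib.MP_4d1bc1_mp

open Finset Polynomial

universe u

variable {F : Type u} [Field F] [Algebra ℝ F]

/-- a derivation as an additive map -/
noncomputable def aD (δ : Derivation ℝ F F) : F →+ F :=
  ⟨⟨fun f => δ f, map_zero _⟩, map_add _⟩

theorem aD_apply (δ : Derivation ℝ F F) (f : F) : aD δ f = δ f := rfl

/-- the parameter with a sign -/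
noncomputable def eta (s : ℤ) : PowerSeries F[X] := (s : PowerSeries F[X]) * PowerSeries.X
/-- the parameter with a sign, scalar -/
noncomputable def etaL (s : ℤ) : PowerSeries F := (s : PowerSeries F) * PowerSeries.X

theorem cS_etaL (s : ℤ) : cS (etaL s : PowerSeries F) = eta s := by
  rw [etaL, eta, map_mul, map_intCast, cS_X]

theorem sm_intCast_mul {A : Type u} [CommRing A] (φ : A →+ A) (s : ℤ) (U : PowerSeries A) :
    sm φ ((s : PowerSeries A) * U) = (s : PowerSeries A) * sm φ U := by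
  rw [← zsmul_eq_mul, map_zsmul, zsmul_eq_mul]

theorem sm_eta_mul (φ : F[X] →+ F[X]) (s : ℤ) (U : PowerSeries F[X]) :
    sm φ (eta s * U) = eta s * sm φ U := by
  rw [eta, mul_assoc, sm_intCast_mul, sm_X_mul, mul_assoc]

theorem sm_etaL_mul (φ : F →+ F) (s : ℤ) (U : PowerSeries F) :
    sm φ (etaL s * U) = etaL s * sm φ U := by
  rw [etaL, mul_assoc, sm_intCast_mul, sm_X_mul, mul_assoc]

theorem sm_eta_pow_mul (φ : F[X] →+ F[X]) (s : ℤ) (k : ℕ) (U : PowerSeries F[X]) :
    sm φ (eta s ^ k * U) = eta s ^ k * sm φ U := by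
  induction k with
  | zero => simp
  | succ k ih => rw [pow_succ', mul_assoc, sm_eta_mul, ih, mul_assoc]

theorem sm_etaL_pow_mul (φ : F →+ F) (s : ℤ) (k : ℕ) (U : PowerSeries F) :
    sm φ (etaL s ^ k * U) = etaL s ^ k * sm φ U := by
  induction k with
  | zero => simp
  | succ k ih => rw [pow_succ', mul_assoc, sm_etaL_mul, ih, mul_assoc]

namespace Polar

variable (p : Polar F)

theorem DtK_DK (FR : F) (U : F[X]) : p.DtK FR (p.DK U) = p.DK (p.DtK FR U) := by
  induction U using Polynomial.induction_on' with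
  | add U V hU hV => rw [map_add, map_add, hU, hV, map_add, map_add]
  | monomial n a =>
    rw [← C_mul_X_pow_eq_monomial, DK_C_mul, DK_X_pow, map_add, DtK_C_mul, DtK_C_mul, DtK_C_mul,
      DtK_X_pow, DtK_X_pow, map_add, DK_C_mul, DK_X_pow, DK_C_mul, D_Dt, W_succ]
    ring

theorem Dt_ip (FR : F) (U W : F[X]) :
    p.Dt FR (p.ip U W) = p.ip (p.DtK FR U) W + p.ip U (p.DtK FR W) := by
  induction U using Polynomial.induction_on' with
  | add U V hU hV => rw [ip_add_left, map_add, hU, hV, map_add, ip_add_left, ip_add_left]; ring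
  | monomial i a =>
    induction W using Polynomial.induction_on' with
    | add U V hU hV => rw [ip_add_right, map_add, hU, hV, map_add, ip_add_right, ip_add_right]; ring
    | monomial j b =>
      rw [← C_mul_X_pow_eq_monomial, ← C_mul_X_pow_eq_monomial, DtK_C_mul, DtK_C_mul, DtK_X_pow,
        DtK_X_pow]
      simp only [ip_add_left, ip_add_right, ip_C_mul_left, ip_C_mul_right, ip_X_pow, der_mul,
        Dt_kap]
      ring

/-- total derivative of scalar series -/
noncomputable def dS : PowerSeries F →+ PowerSeries F := sm (aD p.D)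
/-- total derivative of tangent series -/
noncomputable def dK : PowerSeries F[X] →+ PowerSeries F[X] := sm p.DK
/-- time derivative of scalar series -/
noncomputable def tS (FR : F) : PowerSeries F →+ PowerSeries F := sm (aD (p.Dt FR))
/-- time derivative of tangent series -/
noncomputable def tK (FR : F) : PowerSeries F[X] →+ PowerSeries F[X] := sm (p.DtK FR)

theorem dS_mul (a b : PowerSeries F) : p.dS (a * b) = p.dS a * b + a * p.dS b :=
  sm_mul _ (fun a b => by rw [aD_apply, aD_apply, aD_apply, der_mul]) a b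

theorem tS_mul (FR : F) (a b : PowerSeries F) :
    p.tS FR (a * b) = p.tS FR a * b + a * p.tS FR b :=
  sm_mul _ (fun a b => by rw [aD_apply, aD_apply, aD_apply, der_mul]) a b

theorem dK_cS_mul (a : PowerSeries F) (U : PowerSeries F[X]) :
    p.dK (cS a * U) = cS (p.dS a) * U + cS a * p.dK U :=
  sm_cS_mul (aD p.D) p.DK (fun a U => p.DK_C_mul a U) a U

theorem tK_cS_mul (FR : F) (a : PowerSeries F) (U : PowerSeries F[X]) :
    p.tK FR (cS a * U) = cS (p.tS FR a) * U + cS a * p.tK FR U :=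
  sm_cS_mul (aD (p.Dt FR)) (p.DtK FR) (fun a U => p.DtK_C_mul FR a U) a U

theorem dS_ipS (U W : PowerSeries F[X]) :
    p.dS (p.ipS U W) = p.ipS (p.dK U) W + p.ipS U (p.dK W) :=
  p.sm_ipS (aD p.D) p.DK (fun U W => p.D_ip U W) U W

theorem tS_ipS (FR : F) (U W : PowerSeries F[X]) :
    p.tS FR (p.ipS U W) = p.ipS (p.tK FR U) W + p.ipS U (p.tK FR W) :=
  p.sm_ipS (aD (p.Dt FR)) (p.DtK FR) (fun U W => p.Dt_ip FR U W) U W

theorem tK_dK (FR : F) (U : PowerSeries F[X]) : p.tK FR (p.dK U) = p.dK (p.tK FR U) :=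
  sm_comm _ _ (fun a => p.DtK_DK FR a) U

/-- the vector `k_i` as a series -/
noncomputable def xK : PowerSeries F[X] := PowerSeries.C (X : F[X])

/-- scalar constants in the parameter -/
noncomputable def sc (a : F) : PowerSeries F[X] := cS (PowerSeries.C a)

theorem sc_eq (a : F) : (sc a : PowerSeries F[X]) = PowerSeries.C (C a) := by
  rw [sc, cS, PowerSeries.map_C]

theorem dK_C (U : F[X]) : p.dK (PowerSeries.C U) = PowerSeries.C (p.DK U) := sm_C _ _
theorem tK_C (FR : F) (U : F[X]) : p.tK FR (PowerSeries.C U) = PowerSeries.C (p.DtK FR U) :=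
  sm_C _ _
theorem dS_C (a : F) : p.dS (PowerSeries.C a) = PowerSeries.C (p.D a) := sm_C _ _

theorem dK_one : p.dK 1 = xK := by
  rw [← map_one PowerSeries.C, dK_C, DK_one]; rfl

theorem dK_x : p.dK xK = xK ^ 2 := by
  rw [xK, dK_C, DK_X, map_pow]

theorem dK_x2 : p.dK (xK ^ 2) = xK ^ 3 := by
  rw [xK, ← map_pow, dK_C, DK_X_pow, map_pow]

theorem dK_sc (a : F) : p.dK (sc a) = sc (p.D a) + sc a * xK := by
  have h := p.dK_cS_mul (PowerSeries.C a) 1
  rw [mul_one, mul_one, dK_one, dS_C] at h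
  exact h

theorem dK_cS (a : PowerSeries F) : p.dK (cS a) = cS (p.dS a) + cS a * xK := by
  have h := p.dK_cS_mul a 1
  rw [mul_one, mul_one, dK_one] at h
  exact h

theorem tK_one (FR : F) : p.tK FR 1 = PowerSeries.C p.Fv := by
  rw [← map_one PowerSeries.C, tK_C]
  have h2 := p.DtK_X_pow FR 0
  rw [pow_zero] at h2
  rw [h2, W_zero]

theorem ipS_one_one : p.ipS 1 1 = PowerSeries.C p.S := by
  rw [← map_one PowerSeries.C, ipS_C, ← pow_zero X, ip_X_pow]; rfl

theorem ipS_pow (i j : ℕ) : p.ipS (xK ^ i) (xK ^ j) = PowerSeries.C (p.kap i j) := by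
  rw [xK, ← map_pow, ← map_pow, ipS_C, ip_X_pow]

/-- the generating series with sign `s` -/
structure IsG (s : ℤ) (G : PowerSeries F[X]) : Prop where
  eq : G = eta s * (1 + p.dK G + cS (p.ipS 1 G) * G)

theorem exists_G (s : ℤ) : ∃ G, p.IsG s G := by
  obtain ⟨G, hG⟩ := exists_fix (A := F[X])
    (fun U => (s : PowerSeries F[X]) * (1 + p.dK U + cS (p.ipS 1 U) * U)) (by
      intro n U V h
      exact (Eqn.refl n _).mul (((Eqn.refl n _).add (h.sm _)).add
        ((((Eqn.refl n _).ipS p h).cS).mul h)))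
  refine ⟨G, ⟨?_⟩⟩
  rw [eta]
  conv_lhs => rw [hG]
  ring

end Polar

end Pool.Agent.Lib.MP_4d1bc1_mp
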