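import Pool.Agent.Lib.MP_4d1bc1_mp.Gen

set_option autoImplicit false

/-! The time derivative of the generating series. -/

namespace Pool.Agent.Lib.MP_4d1bc1_mp

open Finset Polynomial

universe u

variable {F : Type u} [Field F] [Algebra ℝ F]

namespace Polar

variable (p : Polar F)

/-- `g_k = ⟨k_k, G⟩` -/
noncomputable def gk (G : PowerSeries F[X]) (k : ℕ) : PowerSeries F := p.ipS (xK ^ k) G

theorem dK_x_pow (k : ℕ) : p.dK (xK ^ k) = xK ^ (k + 1) := by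
  rw [xK, ← map_pow, dK_C, DK_X_pow, map_pow]

theorem ipS_eta_left (s : ℤ) (U W : PowerSeries F[X]) :
    p.ipS (eta s * U) W = etaL s * p.ipS U W := by
  rw [← cS_etaL, ipS_cS_mul_left]

theorem ipS_eta_right (s : ℤ) (U W : PowerSeries F[X]) :
    p.ipS U (eta s * W) = etaL s * p.ipS U W := by
  rw [← cS_etaL, ipS_cS_mul_right]

theorem ipS_eta_pow_right (s : ℤ) (k : ℕ) (U W : PowerSeries F[X]) :
    p.ipS U (eta s ^ k * W) = etaL s ^ k * p.ipS U W := by
  rw [← cS_etaL, ← map_pow, ipS_cS_mul_right]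

theorem ipS_sc_right (a : F) (U W : PowerSeries F[X]) :
    p.ipS U (sc a * W) = PowerSeries.C a * p.ipS U W := by
  rw [sc, ipS_cS_mul_right]

theorem ipS_cS_right (a : PowerSeries F) (U : PowerSeries F[X]) :
    p.ipS U (cS a) = a * p.ipS U 1 := by
  have h := p.ipS_cS_mul_right a U 1
  rwa [mul_one] at h

variable {p} {s : ℤ} {G : PowerSeries F[X]}

theorem gk_zero (p : Polar F) (G : PowerSeries F[X]) : p.gk G 0 = p.ipS 1 G := by
  rw [gk, pow_zero]

theorem IsG.rG (h : p.IsG s G) :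
    eta s * p.dK G = G - eta s - eta s * cS (p.gk G 0) * G := by
  rw [gk_zero]
  have h1 := h.eq
  linear_combination -h1

theorem IsG.rgL (h : p.IsG s G) (k : ℕ) :
    etaL s * p.dS (p.gk G k) = etaL s * p.gk G (k + 1) + p.gk G k
      - etaL s * PowerSeries.C (p.kap k 0) - etaL s * p.gk G 0 * p.gk G k := by
  rw [gk, dS_ipS, dK_x_pow, mul_add, ← p.ipS_eta_right s _ (p.dK G), h.rG, ipS_sub_right,
    ipS_sub_right, mul_assoc (eta s), ipS_eta_right, ipS_cS_mul_right, ← mul_one (eta s),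
    ipS_eta_right]
  have h2 : p.ipS (xK ^ k) 1 = PowerSeries.C (p.kap k 0) := by
    have := p.ipS_pow k 0
    rwa [pow_zero] at this
  rw [h2]
  unfold gk
  ring

theorem IsG.rg (h : p.IsG s G) (k : ℕ) :
    eta s * cS (p.dS (p.gk G k)) = eta s * cS (p.gk G (k + 1)) + cS (p.gk G k)
      - eta s * sc (p.kap k 0) - eta s * cS (p.gk G 0) * cS (p.gk G k) := by
  have h1 := congrArg cS (h.rgL k)
  simp only [map_sub, map_add, map_mul, cS_etaL] at h1
  exact h1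

variable (p) in
/-- the scalar in the time derivative of `G` -/
noncomputable def bL (s : ℤ) (G : PowerSeries F[X]) : PowerSeries F :=
  etaL s * p.gk G 0 - etaL s ^ 2 * p.gk G 1
    + etaL s ^ 3 * (p.gk G 2 + 2 * PowerSeries.C p.S * p.gk G 0)

variable (p) in
/-- `η^3` times the time derivative of `G` -/
noncomputable def BK (s : ℤ) (G : PowerSeries F[X]) : PowerSeries F[X] :=
  G - eta s * 1 - eta s ^ 2 * xK - eta s ^ 3 * (xK ^ 2 + (sc p.S + sc p.S))
    + eta s ^ 2 * cS (p.gk G 0) + eta s ^ 3 * (cS (p.gk G 0) * xK - cS (p.gk G 1))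
    + eta s ^ 2 * (sc p.S * G) - cS (p.bL s G) * G

theorem dS_two (p : Polar F) : p.dS 2 = 0 := by
  have h : (2 : PowerSeries F) = PowerSeries.C 2 := (map_ofNat PowerSeries.C 2).symm
  rw [h, dS_C, (p.isConst_ofNat 2).D_eq, map_zero]

theorem dS_bL (p : Polar F) (s : ℤ) (G : PowerSeries F[X]) : p.dS (p.bL s G)
    = etaL s * p.dS (p.gk G 0) - etaL s ^ 2 * p.dS (p.gk G 1)
    + etaL s ^ 3 * (p.dS (p.gk G 2) + 2 * (PowerSeries.C (p.D p.S) * p.gk G 0
      + PowerSeries.C p.S * p.dS (p.gk G 0))) := by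
  have h1 : ∀ U : PowerSeries F, p.dS (etaL s * U) = etaL s * p.dS U :=
    fun U => sm_etaL_mul _ s U
  have h2 : ∀ (k : ℕ) (U : PowerSeries F), p.dS (etaL s ^ k * U) = etaL s ^ k * p.dS U :=
    fun k U => sm_etaL_pow_mul _ s k U
  rw [bL, map_add, map_sub, h1, h2, h2, map_add, mul_assoc, dS_mul, dS_mul, dS_C, dS_two]
  ring

theorem dK_BK (p : Polar F) (s : ℤ) (G : PowerSeries F[X]) : p.dK (p.BK s G)
    = p.dK G - eta s * xK - eta s ^ 2 * xK ^ 2
    - eta s ^ 3 * (xK ^ 3 + 2 * (sc (p.D p.S) + sc p.S * xK))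
    + eta s ^ 2 * (cS (p.dS (p.gk G 0)) + cS (p.gk G 0) * xK)
    + eta s ^ 3 * (cS (p.dS (p.gk G 0)) * xK + cS (p.gk G 0) * xK ^ 2
      - (cS (p.dS (p.gk G 1)) + cS (p.gk G 1) * xK))
    + eta s ^ 2 * (sc (p.D p.S) * G + sc p.S * p.dK G)
    - (cS (p.dS (p.bL s G)) * G + cS (p.bL s G) * p.dK G) := by
  have h1 : ∀ U : PowerSeries F[X], p.dK (eta s * U) = eta s * p.dK U :=
    fun U => sm_eta_mul _ s U
  have h2 : ∀ (k : ℕ) (U : PowerSeries F[X]), p.dK (eta s ^ k * U) = eta s ^ k * p.dK U :=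
    fun k U => sm_eta_pow_mul _ s k U
  have h3 : ∀ (a : F) (U : PowerSeries F[X]), p.dK (sc a * U) = sc (p.D a) * U + sc a * p.dK U := by
    intro a U
    rw [sc, dK_cS_mul, dS_C]; rfl
  rw [BK]
  simp only [map_add, map_sub, h1, h2, h3, dK_cS_mul, dK_cS, dK_one, dK_x, dK_x2, dK_sc]
  ring

theorem ip_BK (p : Polar F) (s : ℤ) (G : PowerSeries F[X]) : p.ipS 1 (p.BK s G)
    = p.gk G 0 - etaL s * PowerSeries.C p.S - etaL s ^ 2 * PowerSeries.C (p.kap 0 1)
    - etaL s ^ 3 * (PowerSeries.C (p.kap 0 2) + 2 * (PowerSeries.C p.S * PowerSeries.C p.S))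
    + etaL s ^ 2 * (p.gk G 0 * PowerSeries.C p.S)
    + etaL s ^ 3 * (p.gk G 0 * PowerSeries.C (p.kap 0 1) - p.gk G 1 * PowerSeries.C p.S)
    + etaL s ^ 2 * (PowerSeries.C p.S * p.gk G 0) - p.bL s G * p.gk G 0 := by
  have e1 : p.ipS 1 xK = PowerSeries.C (p.kap 0 1) := by
    have := p.ipS_pow 0 1
    rwa [pow_zero, pow_one] at this
  have e2 : p.ipS 1 (xK ^ 2) = PowerSeries.C (p.kap 0 2) := by
    have := p.ipS_pow 0 2
    rwa [pow_zero] at this
  have e3 : ∀ a : F, p.ipS 1 (sc a) = PowerSeries.C a * PowerSeries.C p.S := by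
    intro a
    have := p.ipS_sc_right a 1 1
    rwa [mul_one, ipS_one_one] at this
  have e4 : p.ipS 1 G = p.gk G 0 := (gk_zero p G).symm
  rw [BK]
  simp only [ipS_add_right, ipS_sub_right, ipS_eta_right, ipS_eta_pow_right, ipS_cS_mul_right,
    ipS_cS_right, ipS_sc_right, ipS_one_one, e1, e2, e3, e4]
  ring

theorem C_Fv (p : Polar F) {s1 : F} (hs : p.D p.S = 2 * s1) :
    PowerSeries.C p.Fv = xK ^ 3 + 3 * (sc p.S * xK) + 3 * sc s1 := by
  have := p.charZero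
  have h1 : p.Fv = X ^ 3 + C (3 : F) * (C p.S * X) + C (3 : F) * C s1 := by
    have e1 : (3 : F) / 2 * (2 * s1) = 3 * s1 := by field_simp
    rw [Fv, hs, e1, C_mul, C_mul]; ring
  rw [h1, map_add, map_add, map_mul, map_mul, map_mul, map_pow, sc_eq, sc_eq, map_ofNat C 3,
    map_ofNat PowerSeries.C 3]
  rfl

theorem IsG.BK_eq (h : p.IsG s G) {s1 : F} (hs : p.D p.S = 2 * s1) : p.BK s G
    = eta s * (eta s ^ 3 * PowerSeries.C p.Fv + p.dK (p.BK s G)
      + cS (etaL s ^ 3 * (p.gk G 3 + 3 * (PowerSeries.C p.S * p.gk G 1)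
          + 3 * (PowerSeries.C s1 * p.gk G 0))) * G
      + cS (p.ipS 1 (p.BK s G)) * G + cS (p.gk G 0) * p.BK s G) := by
  have := p.charZero
  have rG := h.rG
  have r0 := h.rg 0
  have r1 := h.rg 1
  have r2 := h.rg 2
  have hk01 : p.kap 0 1 = s1 := by rw [kap01, hs]; field_simp
  have hk00 : p.kap 0 0 = p.S := rfl
  have hk10 : p.kap 1 0 = s1 := by rw [p.kap_symm, hk01]
  have hk20 : p.kap 2 0 = p.kap 0 2 := p.kap_symm 2 0
  rw [C_Fv p hs, dK_BK, ip_BK, dS_bL, hs, BK, bL, hk01]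
  rw [hk00] at r0
  rw [hk10] at r1
  rw [hk20] at r2
  have t2 : (sc (2 * s1) : PowerSeries F[X]) = 2 * sc s1 := by
    rw [sc, map_mul, map_mul, map_ofNat, map_ofNat]; rfl
  have t3 : (PowerSeries.C (2 * s1) : PowerSeries F) = 2 * PowerSeries.C s1 := by
    rw [map_mul, map_ofNat]
  have c2 : cS (2 : PowerSeries F) = 2 := map_ofNat _ 2
  have c3 : cS (3 : PowerSeries F) = 3 := map_ofNat _ 3
  have csc : ∀ a : F, cS (PowerSeries.C a) = sc a := fun a => rfl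
  simp only [map_add, map_sub, map_mul, map_pow, cS_etaL, t2, t3, c2, c3, csc]
  simp only [zero_add, show (1 : ℕ) + 1 = 2 by rfl, show (2 : ℕ) + 1 = 3 by rfl] at r0 r1 r2
  linear_combination
    (-(1 + eta s ^ 2 * sc p.S - (eta s * cS (p.gk G 0) - eta s ^ 2 * cS (p.gk G 1)
      + eta s ^ 3 * (cS (p.gk G 2) + 2 * sc p.S * cS (p.gk G 0))))) * rG
    - (eta s ^ 2 + eta s ^ 3 * xK - eta s * G - 2 * eta s ^ 3 * sc p.S * G) * r0
    - (- eta s ^ 3 + eta s ^ 2 * G) * r1 + eta s ^ 3 * G * r2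

end Polar

end Pool.Agent.Lib.MP_4d1bc1_mp
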