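import Pool.Agent.Lib.MP_4d1bc1_mp.Gen2

set_option autoImplicit false

/-! The time derivative of the generating series, second part. -/

namespace Pool.Agent.Lib.MP_4d1bc1_mp

open Finset Polynomial

universe u

variable {F : Type u} [Field F] [Algebra ℝ F]

namespace Polar

variable {p : Polar F} {s : ℤ} {G : PowerSeries F[X]}

theorem tK_eta_mul (p : Polar F) (FR : F) (s : ℤ) (U : PowerSeries F[X]) :
    p.tK FR (eta s * U) = eta s * p.tK FR U := sm_eta_mul _ s U

theorem dK_eta_pow_mul (p : Polar F) (s : ℤ) (k : ℕ) (U : PowerSeries F[X]) :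
    p.dK (eta s ^ k * U) = eta s ^ k * p.dK U := sm_eta_pow_mul _ s k U

theorem ipS_Fv (p : Polar F) (G : PowerSeries F[X]) {s1 : F} (hs : p.D p.S = 2 * s1) :
    p.ipS (PowerSeries.C p.Fv) G = p.gk G 3 + 3 * (PowerSeries.C p.S * p.gk G 1)
          + 3 * (PowerSeries.C s1 * p.gk G 0) := by
  have e1 : (3 : PowerSeries F[X]) = cS 3 := (map_ofNat _ 3).symm
  have e2 : ∀ a : F, p.ipS (sc a) G = PowerSeries.C a * p.gk G 0 := by
    intro a
    rw [p.ipS_symm, sc, ipS_cS_right, p.ipS_symm, gk_zero]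
  have e3 : p.ipS xK G = p.gk G 1 := by rw [gk, pow_one]
  have e4 : p.ipS (xK ^ 3) G = p.gk G 3 := rfl
  rw [C_Fv p hs, ipS_add_left, ipS_add_left, e1, ipS_cS_mul_left, ipS_cS_mul_left, sc,
    ipS_cS_mul_left, e2, e3, e4]

theorem IsG.time_eq (h : p.IsG s G) (FR : F) {s1 : F} (hs : p.D p.S = 2 * s1) :
    eta s ^ 3 * p.tK FR G = eta s * (eta s ^ 3 * PowerSeries.C p.Fv
      + p.dK (eta s ^ 3 * p.tK FR G)
      + cS (etaL s ^ 3 * (p.gk G 3 + 3 * (PowerSeries.C p.S * p.gk G 1)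
          + 3 * (PowerSeries.C s1 * p.gk G 0))) * G
      + cS (p.ipS 1 (eta s ^ 3 * p.tK FR G)) * G
      + cS (p.gk G 0) * (eta s ^ 3 * p.tK FR G)) := by
  have h1 := congrArg (p.tK FR) h.eq
  rw [tK_eta_mul, map_add, map_add, tK_one, tK_dK, tK_cS_mul, tS_ipS, tK_one,
    ipS_Fv p G hs] at h1
  rw [dK_eta_pow_mul, ipS_eta_pow_right]
  simp only [map_mul, map_add, map_pow, cS_etaL, gk_zero] at h1 ⊢
  linear_combination eta s ^ 3 * h1

/-- the time derivative of the generating series -/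
theorem IsG.time (h : p.IsG s G) (FR : F) : eta s ^ 3 * p.tK FR G = p.BK s G := by
  have := p.charZero
  obtain ⟨s1, hs⟩ : ∃ s1, p.D p.S = 2 * s1 := ⟨2⁻¹ * p.D p.S, by field_simp⟩
  have h1 := h.time_eq FR hs
  have h2 := h.BK_eq hs
  refine sub_eq_zero.1 (fix_zero (A := F[X]) (fun U => (s : PowerSeries F[X])
    * (p.dK U + cS (p.ipS 1 U) * G + cS (p.gk G 0) * U)) ?_ ?_)
  · intro n U hU
    have e1 : Eqn n (p.dK U) 0 := by
      have := hU.sm p.DK
      rwa [map_zero] at this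
    have e2 : Eqn n (p.ipS 1 U) 0 := by
      have := (Eqn.refl n (1 : PowerSeries F[X])).ipS p hU
      rwa [ipS_zero_right] at this
    have e3 := ((Eqn.refl n (s : PowerSeries F[X])).mul ((e1.add (e2.cS.mul (Eqn.refl n G))).add
      ((Eqn.refl n (cS (p.gk G 0))).mul hU)))
    simpa using e3
  · have e1 : p.dK (eta s ^ 3 * p.tK FR G - p.BK s G)
        = p.dK (eta s ^ 3 * p.tK FR G) - p.dK (p.BK s G) := map_sub _ _ _
    have e2 : (PowerSeries.X : PowerSeries F[X]) * ((s : PowerSeries F[X])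
        * (p.dK (eta s ^ 3 * p.tK FR G - p.BK s G)
          + cS (p.ipS 1 (eta s ^ 3 * p.tK FR G - p.BK s G)) * G
          + cS (p.gk G 0) * (eta s ^ 3 * p.tK FR G - p.BK s G)))
        = eta s * (p.dK (eta s ^ 3 * p.tK FR G - p.BK s G)
          + cS (p.ipS 1 (eta s ^ 3 * p.tK FR G - p.BK s G)) * G
          + cS (p.gk G 0) * (eta s ^ 3 * p.tK FR G - p.BK s G)) := by
      rw [eta]; ring
    rw [e2, e1, ipS_sub_right, map_sub cS]
    linear_combination h1 - h2

end Polar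

end Pool.Agent.Lib.MP_4d1bc1_mp
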