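import Pool.Agent.Lib.MP_4d1bc1_mp.Gen3

set_option autoImplicit false

/-! The generating series of the symmetries. -/

namespace Pool.Agent.Lib.MP_4d1bc1_mp

open Finset Polynomial

universe u

variable {F : Type u} [Field F] [Algebra ℝ F]

theorem eta_one : (eta 1 : PowerSeries F[X]) = PowerSeries.X := by rw [eta]; simp
theorem eta_neg : (eta (-1) : PowerSeries F[X]) = -PowerSeries.X := by rw [eta]; simp
theorem etaL_one : (etaL 1 : PowerSeries F) = PowerSeries.X := by rw [etaL]; simp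
theorem etaL_neg : (etaL (-1) : PowerSeries F) = -PowerSeries.X := by rw [etaL]; simp

namespace Polar

variable {p : Polar F} {G H : PowerSeries F[X]}

/-- the normalisation -/
noncomputable def NN (p : Polar F) (G H : PowerSeries F[X]) : PowerSeries F := 1 + p.ipS G H

theorem XL_ne (p : Polar F) : (PowerSeries.X : PowerSeries F) ≠ 0 := PowerSeries.X_ne_zero

theorem dS_one (p : Polar F) : p.dS 1 = 0 := by
  rw [← map_one PowerSeries.C, dS_C, p.isConst_one.D_eq, map_zero]

theorem tS_one (p : Polar F) (FR : F) : p.tS FR 1 = 0 := by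
  have : p.tS FR (PowerSeries.C 1) = PowerSeries.C (p.Dt FR 1) := sm_C _ _
  rw [← map_one PowerSeries.C, this, Dt, p.isConst_one.vfd_eq, map_zero]

theorem dS_NN (hG : p.IsG 1 G) (hH : p.IsG (-1) H) :
    p.dS (NN p G H) = -(NN p G H * (p.gk G 0 + p.gk H 0)) := by
  have h1 := hG.rG
  have h2 := hH.rG
  rw [eta_one] at h1
  rw [eta_neg] at h2
  have h3 : (PowerSeries.X : PowerSeries F) * p.dS (NN p G H)
      = PowerSeries.X * (-(NN p G H * (p.gk G 0 + p.gk H 0))) := by
    have h2' : PowerSeries.X * p.dK H = -H - PowerSeries.X * 1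
        - PowerSeries.X * (cS (p.gk H 0) * H) := by linear_combination -h2
    have h1' : PowerSeries.X * p.dK G = G - PowerSeries.X * 1
        - PowerSeries.X * (cS (p.gk G 0) * G) := by linear_combination h1
    rw [NN, map_add, dS_one, zero_add, dS_ipS, mul_add, ← ipS_X_mul_left, ← ipS_X_mul_right, h1',
      h2', ipS_sub_left, ipS_sub_left, ipS_sub_right, ipS_sub_right, ipS_X_mul_left,
      ipS_X_mul_left, ipS_X_mul_right, ipS_X_mul_right, ipS_cS_mul_left, ipS_cS_mul_right,
      p.ipS_symm G (-H), ipS_neg_left, p.ipS_symm H G, p.ipS_symm G 1, ← gk_zero, ← gk_zero]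
    ring
  exact mul_left_cancel₀ p.XL_ne h3

theorem tS_NN (hG : p.IsG 1 G) (hH : p.IsG (-1) H) (FR : F) :
    PowerSeries.X ^ 3 * p.tS FR (NN p G H) = NN p G H * (p.bL (-1) H - p.bL 1 G) := by
  have h1 := hG.time FR
  have h2 := hH.time FR
  rw [eta_one] at h1
  rw [eta_neg] at h2
  have h2' : PowerSeries.X ^ 3 * p.tK FR H = - p.BK (-1) H := by linear_combination -h2
  have hX : ∀ U W : PowerSeries F[X], PowerSeries.X ^ 3 * p.ipS U W
      = p.ipS (PowerSeries.X ^ 3 * U) W := by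
    intro U W
    rw [← cS_X, ← map_pow, ipS_cS_mul_left]
  rw [NN, map_add, tS_one, zero_add, tS_ipS, mul_add, hX, h1, p.ipS_symm G (p.tK FR H), hX, h2',
    BK, BK, ipS_neg_left]
  have e0 : p.ipS (1 : PowerSeries F[X]) H = p.gk H 0 := (gk_zero p H).symm
  have e0' : p.ipS (1 : PowerSeries F[X]) G = p.gk G 0 := (gk_zero p G).symm
  have e1 : p.ipS xK H = p.gk H 1 := by rw [gk, pow_one]
  have e1' : p.ipS xK G = p.gk G 1 := by rw [gk, pow_one]
  have e2 : p.ipS (xK ^ 2) H = p.gk H 2 := rfl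
  have e2' : p.ipS (xK ^ 2) G = p.gk G 2 := rfl
  have hs : ∀ (a : F) (W : PowerSeries F[X]), p.ipS (sc a) W = PowerSeries.C a * p.ipS 1 W := by
    intro a W
    rw [p.ipS_symm, sc, ipS_cS_right, p.ipS_symm]
  have hs' : ∀ (a : F) (U W : PowerSeries F[X]), p.ipS (sc a * U) W
      = PowerSeries.C a * p.ipS U W := by
    intro a U W
    rw [sc, ipS_cS_mul_left]
  have hc : ∀ (a : PowerSeries F) (W : PowerSeries F[X]), p.ipS (cS a) W = a * p.ipS 1 W := by
    intro a W
    rw [p.ipS_symm, ipS_cS_right, p.ipS_symm]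
  have hp : ∀ (s : ℤ) (k : ℕ) (U W : PowerSeries F[X]), p.ipS (eta s ^ k * U) W
      = etaL s ^ k * p.ipS U W := by
    intro s k U W
    rw [← cS_etaL, ← map_pow, ipS_cS_mul_left]
  simp only [ipS_add_left, ipS_sub_left, ipS_eta_left, hp, hs, hs', hc, ipS_cS_mul_left, e0, e0',
    e1, e1', e2, e2', p.ipS_symm H G]
  rw [bL, bL]
  simp only [etaL_one, etaL_neg]
  ring

/-- the generating series of the symmetries -/
structure IsV (p : Polar F) (G H V : PowerSeries F[X]) : Prop where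
  hG : p.IsG 1 G
  hH : p.IsG (-1) H
  hV : cS (NN p G H) * V = G - H

variable {V : PowerSeries F[X]}

theorem IsV.r1 (h : IsV p G H V) : PowerSeries.X * cS (NN p G H) * p.dK V
    = G + H + PowerSeries.X * (cS (p.gk H 0) * G - cS (p.gk G 0) * H) := by
  have h1 := h.hG.rG
  have h2 := h.hH.rG
  rw [eta_one] at h1
  rw [eta_neg] at h2
  have h0 := h.hV
  have h3 := congrArg p.dK h.hV
  rw [dK_cS_mul, dS_NN h.hG h.hH, map_sub] at h3
  simp only [map_neg, map_mul, map_add] at h3
  linear_combination PowerSeries.X * h3 + h1 + h2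
    + PowerSeries.X * (cS (p.gk G 0) + cS (p.gk H 0)) * h0

theorem dK_X_mul (p : Polar F) (U : PowerSeries F[X]) :
    p.dK (PowerSeries.X * U) = PowerSeries.X * p.dK U := sm_X_mul _ U

theorem IsV.r2 (h : IsV p G H V) : PowerSeries.X ^ 2 * cS (NN p G H) * p.dK (p.dK V)
    = G - H - 2 * PowerSeries.X
      + PowerSeries.X * (cS (p.gk H 0) * G + cS (p.gk G 0) * H)
      + PowerSeries.X ^ 2 * (cS (p.gk H 1) * G - cS (p.gk G 1) * H - sc p.S * (G - H)
        + (cS (p.gk G 0) - cS (p.gk H 0))) := by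
  have h1 := h.hG.rG
  have h2 := h.hH.rG
  have g0 := h.hG.rg 0
  have k0 := h.hH.rg 0
  rw [eta_one] at h1 g0
  rw [eta_neg] at h2 k0
  have hk : p.kap 0 0 = p.S := rfl
  rw [hk] at g0 k0
  simp only [zero_add] at g0 k0
  have r1 := h.r1
  have r1' : PowerSeries.X * (cS (NN p G H) * p.dK V)
    = G + H + PowerSeries.X * (cS (p.gk H 0) * G - cS (p.gk G 0) * H) := by
    rw [← r1]; ring
  have h3 := congrArg p.dK r1'
  rw [dK_X_mul, dK_cS_mul, dS_NN h.hG h.hH, map_add, map_add, dK_X_mul, map_sub, dK_cS_mul,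
    dK_cS_mul] at h3
  simp only [map_neg, map_mul, map_add] at h3
  linear_combination PowerSeries.X * h3
    + PowerSeries.X * (cS (p.gk G 0) + cS (p.gk H 0)) * r1'
    + (1 + PowerSeries.X * cS (p.gk H 0)) * h1 - (1 - PowerSeries.X * cS (p.gk G 0)) * h2
    - PowerSeries.X * G * k0 - PowerSeries.X * H * g0

end Polar

end Pool.Agent.Lib.MP_4d1bc1_mp
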