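import Pool.Agent.Lib.MP_4d1bc1_mp.Gen4

set_option autoImplicit false

/-! The generating series solves the equation of the symmetries. -/

namespace Pool.Agent.Lib.MP_4d1bc1_mp

open Finset Polynomial

universe u

variable {F : Type u} [Field F] [Algebra ℝ F]

namespace Polar

variable {p : Polar F} {G H V : PowerSeries F[X]}

theorem sc_mul (a b : F) : (sc (a * b) : PowerSeries F[X]) = sc a * sc b := by
  rw [sc, map_mul, map_mul]; rfl

theorem sc_two_mul (b : F) : (sc (2 * b) : PowerSeries F[X]) = 2 * sc b := by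
  rw [sc_mul, sc, map_ofNat PowerSeries.C 2, map_ofNat cS 2]

theorem dK_sc_mul (p : Polar F) (a : F) (U : PowerSeries F[X]) :
    p.dK (sc a * U) = sc (p.D a) * U + sc a * p.dK U := by
  rw [sc, dK_cS_mul, dS_C]; rfl

theorem IsV.r3 (h : IsV p G H V) {s1 : F} (hs : p.D p.S = 2 * s1) :
    PowerSeries.X ^ 3 * cS (NN p G H) * p.dK (p.dK (p.dK V))
    = G + H + PowerSeries.X * (cS (p.gk H 0) * G - cS (p.gk G 0) * H)
      + PowerSeries.X ^ 2 * (cS (p.gk H 1) * G + cS (p.gk G 1) * H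
        - 2 * sc p.S * (G + H) - 2 * (cS (p.gk G 0) + cS (p.gk H 0)) - 2 * xK)
      + PowerSeries.X ^ 3 * (cS (p.gk H 2) * G - cS (p.gk G 2) * H
        - 3 * sc s1 * (G - H) - sc p.S * (cS (p.gk H 0) * G - cS (p.gk G 0) * H)
        + 2 * (cS (p.gk G 1) - cS (p.gk H 1)) + (cS (p.gk G 0) - cS (p.gk H 0)) * xK) := by
  have := p.charZero
  have h1 := h.hG.rG
  have h2 := h.hH.rG
  have g0 := h.hG.rg 0
  have k0 := h.hH.rg 0
  have g1 := h.hG.rg 1
  have k1 := h.hH.rg 1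
  rw [eta_one] at h1 g0 g1
  rw [eta_neg] at h2 k0 k1
  have hk : p.kap 0 0 = p.S := rfl
  have hk10 : p.kap 1 0 = s1 := by rw [p.kap_symm, kap01, hs]; field_simp
  rw [hk] at g0 k0
  rw [hk10] at g1 k1
  simp only [zero_add, show (1 : ℕ) + 1 = 2 by rfl] at g0 k0 g1 k1
  have r2 := h.r2
  have r2' : PowerSeries.X * (PowerSeries.X * (cS (NN p G H) * p.dK (p.dK V)))
    = G - H - PowerSeries.X * 1 - PowerSeries.X * 1
      + PowerSeries.X * (cS (p.gk H 0) * G + cS (p.gk G 0) * H)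
      + PowerSeries.X * (PowerSeries.X * (cS (p.gk H 1) * G - cS (p.gk G 1) * H
        - sc p.S * (G - H)
        + (cS (p.gk G 0) - cS (p.gk H 0)))) := by
    linear_combination r2
  have h3 := congrArg p.dK r2'
  rw [dK_X_mul, dK_X_mul, dK_cS_mul, dS_NN h.hG h.hH] at h3
  simp only [map_add p.dK, map_sub p.dK, dK_X_mul, dK_cS_mul, dK_one, dK_sc_mul, dK_cS, hs,
    sc_two_mul] at h3
  simp only [map_neg, map_mul, map_add] at h3
  linear_combination PowerSeries.X * h3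
    + PowerSeries.X * (cS (p.gk G 0) + cS (p.gk H 0)) * r2'
    + (1 + PowerSeries.X * cS (p.gk H 0)
      + PowerSeries.X ^ 2 * (cS (p.gk H 1) - sc p.S)) * h1
    - (-1 + PowerSeries.X * cS (p.gk G 0)
      + PowerSeries.X ^ 2 * (-cS (p.gk G 1) + sc p.S)) * h2
    + (PowerSeries.X * H + PowerSeries.X ^ 2) * g0
    - (PowerSeries.X * G - PowerSeries.X ^ 2) * k0
    - PowerSeries.X ^ 2 * H * g1 - PowerSeries.X ^ 2 * G * k1

theorem IsV.tV (h : IsV p G H V) (FR : F) :
    PowerSeries.X ^ 3 * cS (NN p G H) * p.tK FR V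
    = p.BK 1 G + p.BK (-1) H - (cS (p.bL (-1) H) - cS (p.bL 1 G)) * (G - H) := by
  have h1 := h.hG.time FR
  have h2 := h.hH.time FR
  rw [eta_one] at h1
  rw [eta_neg] at h2
  have h3 := congrArg (p.tK FR) h.hV
  rw [tK_cS_mul, map_sub] at h3
  have h4 := congrArg cS (tS_NN h.hG h.hH FR)
  simp only [map_mul, map_pow, cS_X, map_sub] at h4
  linear_combination PowerSeries.X ^ 3 * h3 + h1 + h2 - V * h4
    - (cS (p.bL (-1) H) - cS (p.bL 1 G)) * h.hV

/-- the generating series solves the equation -/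
theorem IsV.main (h : IsV p G H V) (FR : F) {s1 : F} (hs : p.D p.S = 2 * s1) :
    p.tK FR V = p.dK (p.dK (p.dK V)) + 3 * sc p.S * p.dK V + 3 * sc s1 * V
      + 3 * cS (p.ipS 1 (p.dK V) - p.ipS xK V) := by
  have hX : (PowerSeries.X : PowerSeries F[X]) ≠ 0 := PowerSeries.X_ne_zero
  have hN : cS (NN p G H) ≠ 0 := by
    intro h0
    have h1 := congrArg (PowerSeries.coeff 0) h0
    have hg : PowerSeries.coeff 0 G = 0 := by
      rw [h.hG.eq, eta_one, PowerSeries.coeff_zero_X_mul]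
    rw [coeff_cS, NN, map_add, coeff_ipS, map_zero, C_eq_zero] at h1
    simp [hg] at h1
  have hpsi : PowerSeries.X * NN p G H * (p.ipS 1 (p.dK V) - p.ipS xK V)
      = p.gk G 0 + p.gk H 0 - PowerSeries.X * (p.gk G 1 - p.gk H 1) := by
    have e1 : PowerSeries.X * NN p G H * p.ipS 1 (p.dK V)
        = p.ipS 1 (PowerSeries.X * cS (NN p G H) * p.dK V) := by
      rw [mul_assoc, mul_assoc, ipS_X_mul_right, ipS_cS_mul_right]
    have e2 : PowerSeries.X * NN p G H * p.ipS xK V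
        = PowerSeries.X * p.ipS xK (cS (NN p G H) * V) := by
      rw [ipS_cS_mul_right]; ring
    rw [mul_sub, e1, e2, h.r1, h.hV, ipS_add_right, ipS_add_right, ipS_X_mul_right, ipS_sub_right,
      ipS_sub_right, ipS_cS_mul_right, ipS_cS_mul_right, ← gk_zero, ← gk_zero]
    have e3 : ∀ W, p.ipS xK W = p.gk W 1 := fun W => by rw [gk, pow_one]
    rw [e3, e3]
    ring
  have hpsi' := congrArg cS hpsi
  simp only [map_mul, map_sub, map_add, cS_X] at hpsi'
  have r0 := h.hV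
  have r1 := h.r1
  have r3 := h.r3 hs
  have rt := h.tV FR
  have key : (PowerSeries.X ^ 3 * cS (NN p G H)) * p.tK FR V
      = (PowerSeries.X ^ 3 * cS (NN p G H)) * (p.dK (p.dK (p.dK V)) + 3 * sc p.S * p.dK V
        + 3 * sc s1 * V + 3 * cS (p.ipS 1 (p.dK V) - p.ipS xK V)) := by
    rw [rt, BK, BK, bL, bL]
    simp only [eta_one, eta_neg, etaL_one, etaL_neg, map_sub, map_add, map_mul, map_pow, cS_X,
      map_neg]
    have csc : cS (PowerSeries.C p.S) = sc p.S := rfl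
    have c2 : cS (2 : PowerSeries F) = 2 := map_ofNat _ 2
    rw [csc, c2]
    linear_combination -r3 - 3 * sc p.S * PowerSeries.X ^ 2 * r1
      - 3 * sc s1 * PowerSeries.X ^ 3 * r0 - 3 * PowerSeries.X ^ 2 * hpsi'
  exact mul_left_cancel₀ (mul_ne_zero (pow_ne_zero 3 hX) hN) key

end Polar

end Pool.Agent.Lib.MP_4d1bc1_mp
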