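import Pool.Agent.Lib.MP_4d1bc1_mp.Gen5

set_option autoImplicit false

/-! Symmetries of the tangent equation of every odd order. -/

namespace Pool.Agent.Lib.MP_4d1bc1_mp

open Finset Polynomial

universe u

variable {F : Type u} [Field F] [Algebra ℝ F]

namespace Polar

variable {p : Polar F} {G H V : PowerSeries F[X]} {s : ℤ}

theorem IsG.c0 (h : p.IsG s G) : PowerSeries.coeff 0 G = 0 := by
  rw [h.eq, eta, mul_assoc, mul_comm (s : PowerSeries F[X]), mul_assoc,
    PowerSeries.coeff_zero_X_mul]

theorem IsG.cS' (h : p.IsG s G) (m : ℕ) : PowerSeries.coeff (m + 1) G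
    = (s : F[X]) * ((if m = 0 then 1 else 0) + p.DK (PowerSeries.coeff m G)
      + ∑ ij ∈ HasAntidiagonal.antidiagonal m, C (PowerSeries.coeff ij.1 (p.ipS 1 G))
        * PowerSeries.coeff ij.2 G) := by
  have h1 : G = PowerSeries.X * (PowerSeries.C (s : F[X])
      * (1 + p.dK G + cS (p.ipS 1 G) * G)) := by
    conv_lhs => rw [h.eq, eta]
    rw [map_intCast]; ring
  conv_lhs => rw [h1]
  rw [PowerSeries.coeff_succ_X_mul, PowerSeries.coeff_C_mul, map_add, map_add,
    PowerSeries.coeff_one, dK, coeff_sm, PowerSeries.coeff_mul]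
  simp only [coeff_cS]

/-- degrees and leading coefficients -/
theorem IsG.degree (h : p.IsG s G) (m : ℕ) : (∀ i, m ≤ i → (PowerSeries.coeff m G).coeff i = 0)
    ∧ (∀ k, m = k + 1 → (PowerSeries.coeff m G).coeff k = (s : F) ^ m) := by
  induction m using Nat.strong_induction_on with
  | _ m ih =>
    rcases m with _ | m
    · rw [h.c0]
      exact ⟨fun i _ => Polynomial.coeff_zero i, fun k hk => by omega⟩
    · have hsum : ∀ i, m ≤ i → (∑ ij ∈ HasAntidiagonal.antidiagonal m,
          C (PowerSeries.coeff ij.1 (p.ipS 1 G)) * PowerSeries.coeff ij.2 G).coeff i = 0 := by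
        intro i hi
        rw [finsetSum_coeff]
        refine sum_eq_zero fun x hx => ?_
        rw [HasAntidiagonal.mem_antidiagonal] at hx
        rw [coeff_C_mul, (ih x.2 (by omega)).1 i (by omega), mul_zero]
      have hs : ∀ (P : F[X]) (i : ℕ), ((s : F[X]) * P).coeff i = (s : F) * P.coeff i := by
        intro P i
        rw [← map_intCast (C : F →+* F[X]), coeff_C_mul]
      rw [h.cS']
      refine ⟨fun i hi => ?_, fun k hk => ?_⟩
      · obtain ⟨i, rfl⟩ : ∃ i', i = i' + 1 := ⟨i - 1, by omega⟩
        rw [hs, coeff_add, coeff_add, hsum _ (by omega), coeff_DK_succ, (ih m (by omega)).1 (i + 1)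
          (by omega), (ih m (by omega)).1 i (by omega)]
        have : (if m = 0 then (1 : F[X]) else 0).coeff (i + 1) = 0 := by
          split_ifs
          · rw [coeff_one, if_neg (by omega)]
          · exact Polynomial.coeff_zero _
        rw [this]
        simp
      · obtain rfl : k = m := by omega
        rw [hs, coeff_add, coeff_add, hsum _ le_rfl]
        rcases k with _ | k
        · rw [h.c0]
          simp
        · rw [coeff_DK_succ, (ih (k + 1) (by omega)).1 _ le_rfl,
            (ih (k + 1) (by omega)).2 k rfl, if_neg (by omega)]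
          simp only [map_zero, Polynomial.coeff_zero, zero_add, add_zero]
          ring

/-- symmetries of the tangent equation: for every odd order `m` -/
theorem exists_V (p : Polar F) (m : ℕ) (hm : Odd m) : ∃ V : F[X],
    (∀ i, m ≤ i → V.coeff i = 0) ∧ V.coeff (m - 1) = 2 ∧ ∀ FR : F, p.VEq FR V := by
  have := p.charZero
  obtain ⟨G, hG⟩ := p.exists_G 1
  obtain ⟨H, hH⟩ := p.exists_G (-1)
  have hg : PowerSeries.coeff 0 G = 0 := hG.c0
  have hN0 : PowerSeries.constantCoeff (NN p G H) = 1 := by
    rw [← PowerSeries.coeff_zero_eq_constantCoeff_apply, NN, map_add, coeff_ipS]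
    simp [hg]
  have hN : NN p G H * (NN p G H)⁻¹ = 1 :=
    PowerSeries.mul_inv_cancel _ (by rw [hN0]; exact one_ne_zero)
  have hn0 : PowerSeries.coeff 0 (NN p G H)⁻¹ = 1 := by
    have h1 := congrArg PowerSeries.constantCoeff hN
    rw [map_mul, hN0, one_mul, map_one] at h1
    rw [PowerSeries.coeff_zero_eq_constantCoeff_apply, h1]
  let V : PowerSeries F[X] := cS (NN p G H)⁻¹ * (G - H)
  have hV : IsV p G H V := by
    refine ⟨hG, hH, ?_⟩
    change cS (NN p G H) * (cS (NN p G H)⁻¹ * (G - H)) = G - H
    rw [← mul_assoc, ← map_mul, hN, map_one, one_mul]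
  obtain ⟨s1, hs⟩ : ∃ s1, p.D p.S = 2 * s1 := ⟨2⁻¹ * p.D p.S, by field_simp⟩
  obtain ⟨k, rfl⟩ : ∃ k, m = k + 1 := ⟨m - 1, by
    have := hm.pos
    omega⟩
  refine ⟨PowerSeries.coeff (k + 1) V, ?_, ?_, ?_⟩
  · intro i hi
    change (PowerSeries.coeff (k + 1) (cS (NN p G H)⁻¹ * (G - H))).coeff i = 0
    rw [PowerSeries.coeff_mul, finsetSum_coeff]
    refine sum_eq_zero fun x hx => ?_
    rw [HasAntidiagonal.mem_antidiagonal] at hx
    rw [coeff_cS, coeff_C_mul, map_sub, coeff_sub, (hG.degree x.2).1 i (by omega),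
      (hH.degree x.2).1 i (by omega), sub_zero, mul_zero]
  · change (PowerSeries.coeff (k + 1) (cS (NN p G H)⁻¹ * (G - H))).coeff (k + 1 - 1) = 2
    rw [Nat.add_sub_cancel, PowerSeries.coeff_mul, finsetSum_coeff,
      Finset.sum_eq_single_of_mem (0, k + 1) (by simp)]
    · rw [coeff_cS, coeff_C_mul, map_sub, coeff_sub, (hG.degree (k + 1)).2 k rfl,
        (hH.degree (k + 1)).2 k rfl, hn0]
      push_cast
      rw [one_pow, hm.neg_one_pow]
      ring
    · intro x hx hne
      rw [HasAntidiagonal.mem_antidiagonal] at hx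
      have hx2 : x.2 ≤ k := by
        by_contra h1
        apply hne
        ext
        · change x.1 = 0; omega
        · change x.2 = k + 1; omega
      rw [coeff_cS, coeff_C_mul, map_sub, coeff_sub, (hG.degree x.2).1 k (by omega),
        (hH.degree x.2).1 k (by omega), sub_zero, mul_zero]
  · intro FR
    have h1 := congrArg (PowerSeries.coeff (k + 1)) (hV.main FR hs)
    have hc : ∀ (a : F) (U : PowerSeries F[X]), PowerSeries.coeff (k + 1) (3 * sc a * U)
        = C (3 * a) * PowerSeries.coeff (k + 1) U := by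
      intro a U
      have : (3 * sc a : PowerSeries F[X]) = PowerSeries.C (C (3 * a)) := by
        rw [sc_eq, C_mul, map_mul, map_ofNat C 3, map_ofNat PowerSeries.C 3]
      rw [this, PowerSeries.coeff_C_mul]
    have hc3 : ∀ (U : PowerSeries F), PowerSeries.coeff (k + 1) (3 * cS U)
        = C (3 * PowerSeries.coeff (k + 1) U) := by
      intro U
      have : (3 : PowerSeries F[X]) = PowerSeries.C (C (3 : F)) := by
        rw [map_ofNat C 3, map_ofNat PowerSeries.C 3]
      rw [this, PowerSeries.coeff_C_mul, coeff_cS, ← C_mul]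
    have hi1 : ∀ U : PowerSeries F[X], PowerSeries.coeff (k + 1) (p.ipS 1 U)
        = p.ip 1 (PowerSeries.coeff (k + 1) U) := by
      intro U
      rw [coeff_ipS, Finset.sum_eq_single_of_mem (0, k + 1) (by simp)]
      · simp
      · intro x hx hne
        rw [HasAntidiagonal.mem_antidiagonal] at hx
        have : x.1 ≠ 0 := by
          intro h0
          apply hne
          ext
          · exact h0
          · change x.2 = k + 1; omega
        rw [PowerSeries.coeff_one, if_neg this, ip_zero_left]
    have hi2 : ∀ U : PowerSeries F[X], PowerSeries.coeff (k + 1) (p.ipS xK U)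
        = p.ip X (PowerSeries.coeff (k + 1) U) := by
      intro U
      rw [coeff_ipS, Finset.sum_eq_single_of_mem (0, k + 1) (by simp)]
      · simp [xK]
      · intro x hx hne
        rw [HasAntidiagonal.mem_antidiagonal] at hx
        have : x.1 ≠ 0 := by
          intro h0
          apply hne
          ext
          · exact h0
          · change x.2 = k + 1; omega
        rw [xK, PowerSeries.coeff_C, if_neg this, ip_zero_left]
    rw [tK, coeff_sm, map_add, map_add, map_add, hc, hc, hc3, map_sub, hi1, hi2] at h1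
    simp only [dK, coeff_sm] at h1
    unfold VEq
    rw [h1]
    have e1 : (3 : F) / 2 * p.D p.S = 3 * s1 := by rw [hs]; field_simp
    rw [e1]

end Polar

end Pool.Agent.Lib.MP_4d1bc1_mp
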