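import Pool.Agent.Lib.MP_4d1bc1_mp.FrameChange
import Pool.Agent.Lib.MP_4d1bc1_mp.Gen6

set_option autoImplicit false

/-! Fields of functions of the scalar products `u_[i,j]`. -/

namespace Pool.Agent.Lib.MP_4d1bc1_mp

open Finset Polynomial

universe u

/-- pairs `i ≤ j` -/
abbrev Idx2 : Type := {a : ℕ × ℕ // a.1 ≤ a.2}

/-- the ordered pair -/
def mk2 (i j : ℕ) : Idx2 := ⟨(min i j, max i j), by simp⟩

theorem mk2_comm (i j : ℕ) : mk2 i j = mk2 j i := by
  apply Subtype.ext
  simp [mk2, min_comm, max_comm]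

theorem mk2_of_le {i j : ℕ} (h : i ≤ j) : mk2 i j = ⟨(i, j), h⟩ := by
  apply Subtype.ext
  simp [mk2, h]

theorem mk2_val (a : Idx2) : mk2 a.1.1 a.1.2 = a := mk2_of_le a.2

theorem mk2_eq_iff (i j k l : ℕ) : mk2 i j = mk2 k l ↔ (i = k ∧ j = l) ∨ (i = l ∧ j = k) := by
  constructor
  · intro h
    have h1 : min i j = min k l := congrArg (fun a : Idx2 => a.1.1) h
    have h2 : max i j = max k l := congrArg (fun a : Idx2 => a.1.2) h
    omega
  · rintro (⟨rfl, rfl⟩ | ⟨rfl, rfl⟩)
    · rfl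
    · exact mk2_comm _ _

/-- A field of functions of the independent variables `U a`. -/
structure Jet (F : Type u) [Field F] [Algebra ℝ F] where
  T : Frame Idx2 F
  U : Idx2 → F
  P_U : ∀ a b, T.P a (U b) = if a = b then 1 else 0

variable {F : Type u} [Field F] [Algebra ℝ F]

/-- being a vector field -/
def Frame.IsVF {I : Type} (T : Frame I F) (δ : F → F) : Prop := ∃ c, ∀ f, δ f = T.vf c f

theorem Frame.isVF_vf {I : Type} (T : Frame I F) (c : I → F) : T.IsVF (T.vf c) := ⟨c, fun _ => rfl⟩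

theorem Frame.isVF_P {I : Type} [DecidableEq I] (T : Frame I F) (b : I) : T.IsVF (T.P b) :=
  ⟨fun a => if a = b then 1 else 0, fun f => by rw [T.vf_single, one_mul]⟩

theorem Frame.IsVF.add {I : Type} {T : Frame I F} {δ ε : F → F} (h1 : T.IsVF δ)
    (h2 : T.IsVF ε) : T.IsVF (fun f => δ f + ε f) := by
  obtain ⟨c, hc⟩ := h1
  obtain ⟨d, hd⟩ := h2
  exact ⟨fun a => c a + d a, fun f => by change δ f + ε f = _; rw [T.vf_add, hc, hd]⟩

theorem Frame.IsVF.sub {I : Type} {T : Frame I F} {δ ε : F → F} (h1 : T.IsVF δ)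
    (h2 : T.IsVF ε) : T.IsVF (fun f => δ f - ε f) := by
  obtain ⟨c, hc⟩ := h1
  obtain ⟨d, hd⟩ := h2
  exact ⟨fun a => c a - d a, fun f => by change δ f - ε f = _; rw [T.vf_sub, hc, hd]⟩

theorem Frame.IsVF.mul {I : Type} {T : Frame I F} {δ : F → F} (h1 : T.IsVF δ) (x : F) :
    T.IsVF (fun f => x * δ f) := by
  obtain ⟨c, hc⟩ := h1
  exact ⟨fun a => x * c a, fun f => by change x * δ f = _; rw [T.vf_mul, hc]⟩

theorem Frame.isVF_zero {I : Type} (T : Frame I F) : T.IsVF (fun _ => 0) :=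
  ⟨fun _ => 0, fun f => by rw [T.vf_zero]⟩

theorem Frame.IsVF.sum {I ι : Type} {T : Frame I F} (s : Finset ι) {δ : ι → F → F}
    (h : ∀ i ∈ s, T.IsVF (δ i)) : T.IsVF (fun f => ∑ i ∈ s, δ i f) := by
  classical
  induction s using Finset.induction_on with
  | empty => simpa using T.isVF_zero
  | insert a s ha ih =>
    have h1 := (h a (mem_insert_self _ _)).add (ih fun i hi => h i (mem_insert_of_mem hi))
    obtain ⟨c, hc⟩ := h1
    exact ⟨c, fun f => by rw [← hc]; change ∑ i ∈ insert a s, δ i f = _; rw [sum_insert ha]⟩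

theorem Frame.IsVF.comm {I : Type} {T : Frame I F} {δ ε : F → F} (h1 : T.IsVF δ)
    (h2 : T.IsVF ε) : T.IsVF (fun f => δ (ε f) - ε (δ f)) := by
  obtain ⟨c, hc⟩ := h1
  obtain ⟨d, hd⟩ := h2
  exact ⟨fun a => T.vf c (d a) - T.vf d (c a), fun f => by
    change δ (ε f) - ε (δ f) = _
    rw [hd f, hc f, hc, hd, T.vf_comm]; ring⟩

namespace Jet

variable (J : Jet F)

/-- the scalar product `u_[i,j]` -/
noncomputable def u (i j : ℕ) : F := J.U (mk2 i j)

theorem u_symm (i j : ℕ) : J.u i j = J.u j i := by rw [u, u, mk2_comm]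

theorem vf_U (c : Idx2 → F) (b : Idx2) : J.T.vf c (J.U b) = c b := by
  rw [J.T.vf_eq_sum c (J.U b) {b}]
  · simp [J.P_U]
  · intro a ha
    rw [J.P_U, if_neg]
    simpa using ha

theorem vf_ext {δ ε : F → F} (h1 : J.T.IsVF δ) (h2 : J.T.IsVF ε)
    (h : ∀ i j, δ (J.u i j) = ε (J.u i j)) (f : F) : δ f = ε f := by
  obtain ⟨c, hc⟩ := h1
  obtain ⟨d, hd⟩ := h2
  have : c = d := by
    funext b
    have h3 := h b.1.1 b.1.2
    rw [u, mk2_val, hc, hd, J.vf_U, J.vf_U] at h3
    exact h3
  rw [hc, hd, this]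

/-- the field with `u_[i,j] ↦ e i j` -/
noncomputable def fld (e : ℕ → ℕ → F) : Derivation ℝ F F := J.T.vf (fun a => e a.1.1 a.1.2)

theorem isVF_fld (e : ℕ → ℕ → F) : J.T.IsVF (J.fld e) := J.T.isVF_vf _

theorem fld_u (e : ℕ → ℕ → F) (he : ∀ i j, e i j = e j i) (i j : ℕ) :
    J.fld e (J.u i j) = e i j := by
  rw [fld, u, J.vf_U]
  change e (min i j) (max i j) = e i j
  rcases le_total i j with h | h
  · rw [min_eq_left h, max_eq_right h]
  · rw [min_eq_right h, max_eq_left h, he]

/-- doubled partial derivatives -/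
noncomputable def Gu (i j : ℕ) : Derivation ℝ F F :=
  (if i = j then (2 : ℝ) else 1) • J.T.P (mk2 i j)

theorem Gu_apply (i j : ℕ) (f : F) :
    J.Gu i j f = (if i = j then (2 : F) else 1) * J.T.P (mk2 i j) f := by
  have h : algebraMap ℝ F (if i = j then (2 : ℝ) else 1) = if i = j then 2 else 1 := by
    split_ifs
    · exact map_ofNat _ 2
    · exact map_one _
  rw [Gu, Derivation.smul_apply, Algebra.smul_def, h]

theorem Gu_symm (i j : ℕ) (f : F) : J.Gu i j f = J.Gu j i f := by
  rw [Gu_apply, Gu_apply, mk2_comm]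
  simp only [eq_comm]

theorem Gu_u (j l a b : ℕ) : J.Gu j l (J.u a b)
    = (if j = a ∧ l = b then 1 else 0) + (if j = b ∧ l = a then 1 else 0) := by
  rw [Gu_apply, u, J.P_U]
  simp only [mk2_eq_iff]
  by_cases hjl : j = l
  · subst hjl
    by_cases h1 : j = a ∧ j = b
    · obtain ⟨rfl, rfl⟩ := h1
      simp
      norm_num
    · have h2 : ¬ (j = b ∧ j = a) := fun h => h1 ⟨h.2, h.1⟩
      rw [if_neg h1, if_neg h2, if_neg (not_or.2 ⟨h1, h2⟩)]
      ring
  · rw [if_neg hjl, one_mul]
    by_cases h1 : j = a ∧ l = b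
    · have h2 : ¬ (j = b ∧ l = a) := by omega
      rw [if_pos h1, if_neg h2, if_pos (Or.inl h1)]; ring
    · by_cases h2 : j = b ∧ l = a
      · rw [if_neg h1, if_pos h2, if_pos (Or.inr h2)]; ring
      · rw [if_neg h1, if_neg h2, if_neg (not_or.2 ⟨h1, h2⟩)]; ring

theorem isVF_Gu (i j : ℕ) : J.T.IsVF (J.Gu i j) := by
  obtain ⟨c, hc⟩ := (J.T.isVF_P (mk2 i j)).mul (if i = j then (2 : F) else 1)
  exact ⟨c, fun f => by rw [Gu_apply]; exact hc f⟩

/-- the total derivative -/
noncomputable def D : Derivation ℝ F F := J.fld (fun i j => J.u (i + 1) j + J.u i (j + 1))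

theorem D_u (i j : ℕ) : J.D (J.u i j) = J.u (i + 1) j + J.u i (j + 1) :=
  J.fld_u _ (fun i j => by rw [J.u_symm (i + 1) j, J.u_symm i (j + 1)]; ring) i j

/-- shifted -/
noncomputable def Gum (j l : ℕ) (f : F) : F :=
  match j with
  | 0 => 0
  | j + 1 => J.Gu j l f

theorem isVF_Gum (j l : ℕ) : J.T.IsVF (J.Gum j l) := by
  cases j with
  | zero => exact J.T.isVF_zero
  | succ j => exact J.isVF_Gu j l

theorem Gum_u (j l a b : ℕ) : J.Gum j l (J.u a b)
    = (if j = a + 1 ∧ l = b then 1 else 0) + (if j = b + 1 ∧ l = a then 1 else 0) := by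
  cases j with
  | zero => simp [Gum]
  | succ j =>
    change J.Gu j l (J.u a b) = _
    rw [Gu_u]
    simp only [Nat.add_right_cancel_iff]

theorem der_ite (δ : Derivation ℝ F F) (P : Prop) [Decidable P] :
    δ (if P then (1 : F) else 0) = 0 := by
  split_ifs
  · exact Derivation.map_one_eq_zero _
  · exact map_zero _

theorem Gu_D (j l : ℕ) (f : F) :
    J.Gu j l (J.D f) = J.D (J.Gu j l f) + J.Gum j l f + J.Gum l j f := by
  have h1 : J.T.IsVF (fun f => J.Gu j l (J.D f) - J.D (J.Gu j l f)) :=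
    (J.isVF_Gu j l).comm (J.isVF_fld _)
  have h2 := (J.isVF_Gum j l).add (J.isVF_Gum l j)
  have h3 := J.vf_ext h1 h2 (fun a b => by
    rw [D_u, map_add, Gu_u, Gu_u, Gu_u, map_add, der_ite, der_ite, Gum_u, Gum_u]
    have e1 : (if j = a + 1 ∧ l = b then (1 : F) else 0) = if j = a + 1 ∧ l = b then 1 else 0 := rfl
    have e2 : (if j = b ∧ l = a + 1 then (1 : F) else 0)
        = if l = a + 1 ∧ j = b then 1 else 0 := by simp only [and_comm]
    have e3 : (if j = a ∧ l = b + 1 then (1 : F) else 0)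
        = if l = b + 1 ∧ j = a then 1 else 0 := by simp only [and_comm]
    rw [e2, e3]
    ring) f
  have h4 : J.Gu j l (J.D f) - J.D (J.Gu j l f) = J.Gum j l f + J.Gum l j f := h3
  linear_combination h4

/-! ### vectors -/

/-- total derivative of vectors -/
noncomputable def DM : F[X] →+ F[X] where
  toFun W := cm J.D W + X * W
  map_zero' := by simp
  map_add' U W := by rw [map_add]; ring

theorem DM_apply (W : F[X]) : J.DM W = cm J.D W + X * W := rfl

theorem coeff_DM_zero (W : F[X]) : (J.DM W).coeff 0 = J.D (W.coeff 0) := by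
  rw [DM_apply, coeff_add, coeff_cm]; simp

theorem coeff_DM_succ (W : F[X]) (n : ℕ) :
    (J.DM W).coeff (n + 1) = J.D (W.coeff (n + 1)) + W.coeff n := by
  rw [DM_apply, coeff_add, coeff_cm, coeff_X_mul]

theorem DM_C_mul (a : F) (W : F[X]) : J.DM (C a * W) = C (J.D a) * W + C a * J.DM W := by
  rw [DM_apply, DM_apply, cm_mul, cm_C]; ring

theorem DM_X_pow (n : ℕ) : J.DM (X ^ n) = X ^ (n + 1) := by
  rw [DM_apply, cm_X_pow]; ring

/-- scalar product of vectors -/
noncomputable def ipL : F[X] →ₗ[F] F[X] →ₗ[F] F :=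
  Polynomial.lsum fun i => LinearMap.toSpanSingleton F _
    (Polynomial.lsum fun j => LinearMap.toSpanSingleton F F (J.u i j))

/-- scalar product of vectors -/
noncomputable def ip (U W : F[X]) : F := J.ipL U W

theorem ip_monomial (i j : ℕ) (a b : F) :
    J.ip (monomial i a) (monomial j b) = a * b * J.u i j := by
  rw [ip, ipL, Polynomial.lsum_apply, Polynomial.sum_monomial_index _ _ (by simp)]
  rw [LinearMap.toSpanSingleton_apply, LinearMap.smul_apply, Polynomial.lsum_apply,
    Polynomial.sum_monomial_index _ _ (by simp), LinearMap.toSpanSingleton_apply]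
  simp only [smul_eq_mul]
  ring

theorem ip_add_left (U V W : F[X]) : J.ip (U + V) W = J.ip U W + J.ip V W := by
  simp [ip]
theorem ip_add_right (U V W : F[X]) : J.ip U (V + W) = J.ip U V + J.ip U W := by
  simp [ip]
theorem ip_sub_left (U V W : F[X]) : J.ip (U - V) W = J.ip U W - J.ip V W := by
  simp [ip]
theorem ip_sub_right (U V W : F[X]) : J.ip U (V - W) = J.ip U V - J.ip U W := by
  simp [ip]
@[simp] theorem ip_zero_left (W : F[X]) : J.ip 0 W = 0 := by simp [ip]
@[simp] theorem ip_zero_right (W : F[X]) : J.ip W 0 = 0 := by simp [ip]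
theorem ip_C_mul_left (a : F) (U W : F[X]) : J.ip (C a * U) W = a * J.ip U W := by
  rw [ip, ip, ← smul_eq_C_mul, map_smul, LinearMap.smul_apply, smul_eq_mul]
theorem ip_C_mul_right (a : F) (U W : F[X]) : J.ip U (C a * W) = a * J.ip U W := by
  rw [ip, ip, ← smul_eq_C_mul, map_smul, smul_eq_mul]

theorem ip_X_pow (i j : ℕ) : J.ip (X ^ i) (X ^ j) = J.u i j := by
  rw [← monomial_one_right_eq_X_pow, ← monomial_one_right_eq_X_pow, ip_monomial]; ring

theorem ip_symm (U W : F[X]) : J.ip U W = J.ip W U := by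
  induction U using Polynomial.induction_on' with
  | add U V hU hV => rw [ip_add_left, ip_add_right, hU, hV]
  | monomial i a =>
    induction W using Polynomial.induction_on' with
    | add U V hU hV => rw [ip_add_left, ip_add_right, hU, hV]
    | monomial j b => rw [ip_monomial, ip_monomial, J.u_symm]; ring

theorem ip_sum_left {ι : Type} (s : Finset ι) (f : ι → F[X]) (W : F[X]) :
    J.ip (∑ i ∈ s, f i) W = ∑ i ∈ s, J.ip (f i) W := by
  rw [ip, map_sum, LinearMap.sum_apply]; rfl

/-- compatibility of the scalar product and the total derivative -/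
theorem D_ip (U W : F[X]) : J.D (J.ip U W) = J.ip (J.DM U) W + J.ip U (J.DM W) := by
  induction U using Polynomial.induction_on' with
  | add U V hU hV => rw [ip_add_left, map_add, hU, hV, map_add, ip_add_left, ip_add_left]; ring
  | monomial i a =>
    induction W using Polynomial.induction_on' with
    | add U V hU hV => rw [ip_add_right, map_add, hU, hV, map_add, ip_add_right, ip_add_right]; ring
    | monomial j b =>
      rw [← C_mul_X_pow_eq_monomial, ← C_mul_X_pow_eq_monomial, DM_C_mul, DM_C_mul, DM_X_pow,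
        DM_X_pow]
      simp only [ip_add_left, ip_add_right, ip_C_mul_left, ip_C_mul_right, ip_X_pow, der_mul,
        D_u]
      ring

/-- gradient with respect to `u_L` -/
noncomputable def grad (L : ℕ) (f : F) : F[X] :=
  ∑ j ∈ range ((J.T.fin f).toFinset.sup (fun a => a.1.2) + 1), monomial j (J.Gu j L f)

@[simp] theorem coeff_grad (L : ℕ) (f : F) (j : ℕ) : (J.grad L f).coeff j = J.Gu j L f := by
  rw [grad, finsetSum_coeff]
  simp only [coeff_monomial]
  rw [Finset.sum_ite_eq' (range _) j (fun i => J.Gu i L f)]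
  split_ifs with h
  · rfl
  · rw [Gu_apply, J.T.P_notMem f, mul_zero]
    intro hs
    have h1 : (mk2 j L).1.2 ≤ (J.T.fin f).toFinset.sup (fun a => a.1.2) :=
      Finset.le_sup (f := fun a : Idx2 => a.1.2) hs
    have h2 : j ≤ (mk2 j L).1.2 := le_max_left j L
    rw [mem_range, not_lt] at h
    omega

theorem grad_add (L : ℕ) (f g : F) : J.grad L (f + g) = J.grad L f + J.grad L g := by
  refine Polynomial.ext fun j => ?_; simp
theorem grad_mul (L : ℕ) (f g : F) :
    J.grad L (f * g) = C f * J.grad L g + C g * J.grad L f := by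
  refine Polynomial.ext fun j => ?_
  simp only [coeff_grad, Derivation.leibniz, smul_eq_mul, coeff_add, coeff_C_mul]

/-- shifted gradient -/
noncomputable def gradm (L : ℕ) (f : F) : F[X] :=
  match L with
  | 0 => 0
  | L + 1 => J.grad L f

theorem grad_D' (L : ℕ) (f : F) : J.grad L (J.D f) = J.DM (J.grad L f) + J.gradm L f := by
  refine Polynomial.ext fun j => ?_
  rw [coeff_grad, J.Gu_D, coeff_add]
  congr 1
  · cases j with
    | zero => rw [coeff_DM_zero, coeff_grad]; simp [Gum]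
    | succ j => rw [coeff_DM_succ, coeff_grad, coeff_grad]; simp [Gum]
  · cases L with
    | zero => simp [Gum, gradm]
    | succ L => simp [Gum, gradm, J.Gu_symm L j]

theorem grad_zero_D (f : F) : J.grad 0 (J.D f) = J.DM (J.grad 0 f) := by
  rw [J.grad_D']; simp [gradm]

theorem grad_succ_D (L : ℕ) (f : F) :
    J.grad (L + 1) (J.D f) = J.DM (J.grad (L + 1) f) + J.grad L f := by
  rw [J.grad_D']; rfl

end Jet

end Pool.Agent.Lib.MP_4d1bc1_mp
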