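import Pool.Agent.Lib.MP_4d1bc1_mp.Comm

set_option autoImplicit false

/-! The module `K = F[X]` of tangent vectors, `X ^ i = k_i`. -/

namespace Pool.Agent.Lib.MP_4d1bc1_mp

open Finset Polynomial

universe u

variable {F : Type u} [Field F] [Algebra ℝ F]

/-- a derivation acting on the coefficients of a polynomial -/
noncomputable def cmFun (δ : Derivation ℝ F F) (W : F[X]) : F[X] :=
  W.sum fun i a => monomial i (δ a)

theorem coeff_cmFun (δ : Derivation ℝ F F) (W : F[X]) (n : ℕ) :
    (cmFun δ W).coeff n = δ (W.coeff n) := by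
  unfold cmFun
  rw [Polynomial.sum_def, finsetSum_coeff]
  simp only [coeff_monomial]
  rw [Finset.sum_ite_eq' W.support n (fun i => δ (W.coeff i))]
  split_ifs with h
  · rfl
  · rw [notMem_support_iff.1 h, map_zero]

/-- a derivation acting on the coefficients of a polynomial, as a derivation -/
noncomputable def cm (δ : Derivation ℝ F F) : Derivation ℝ F[X] F[X] :=
  Derivation.mk'
    { toFun := cmFun δ
      map_add' := by
        intro U W
        ext n
        rw [coeff_add, coeff_cmFun, coeff_cmFun, coeff_cmFun, coeff_add, map_add]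
      map_smul' := by
        intro r U
        ext n
        rw [RingHom.id_apply, coeff_smul, coeff_cmFun, coeff_cmFun, coeff_smul,
          Derivation.map_smul] }
    (by
      intro U W
      change cmFun δ (U * W) = U • cmFun δ W + W • cmFun δ U
      ext n
      rw [coeff_cmFun, coeff_mul, map_sum, coeff_add, smul_eq_mul, smul_eq_mul, coeff_mul,
        mul_comm W, coeff_mul, ← sum_add_distrib]
      refine sum_congr rfl fun x _ => ?_
      rw [Derivation.leibniz, coeff_cmFun, coeff_cmFun]
      simp only [smul_eq_mul]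
      ring)

theorem cm_apply (δ : Derivation ℝ F F) (W : F[X]) : cm δ W = cmFun δ W := rfl

@[simp] theorem coeff_cm (δ : Derivation ℝ F F) (W : F[X]) (n : ℕ) :
    (cm δ W).coeff n = δ (W.coeff n) := coeff_cmFun δ W n

@[simp] theorem cm_C (δ : Derivation ℝ F F) (a : F) : cm δ (C a) = C (δ a) := by
  ext n
  rw [coeff_cm, coeff_C, coeff_C]
  split_ifs <;> simp

@[simp] theorem cm_X (δ : Derivation ℝ F F) : cm δ (X : F[X]) = 0 := by
  ext n
  rw [coeff_cm, coeff_X, coeff_zero]
  split_ifs <;> simp

theorem cm_mul (δ : Derivation ℝ F F) (U W : F[X]) :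
    cm δ (U * W) = cm δ U * W + U * cm δ W := by
  rw [Derivation.leibniz]; simp only [smul_eq_mul]; ring

theorem cm_monomial (δ : Derivation ℝ F F) (n : ℕ) (a : F) :
    cm δ (monomial n a) = monomial n (δ a) := by
  ext k
  rw [coeff_cm, coeff_monomial, coeff_monomial]
  split_ifs <;> simp

@[simp] theorem cm_X_pow (δ : Derivation ℝ F F) (n : ℕ) : cm δ ((X : F[X]) ^ n) = 0 := by
  rw [← monomial_one_right_eq_X_pow, cm_monomial]
  simp

namespace Polar

variable (p : Polar F)

/-- covariant derivative of tangent vectors -/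
noncomputable def DK : F[X] →+ F[X] where
  toFun W := cm p.D W + X * W
  map_zero' := by simp
  map_add' U W := by rw [map_add]; ring

theorem DK_apply (W : F[X]) : p.DK W = cm p.D W + X * W := rfl

theorem coeff_DK_zero (W : F[X]) : (p.DK W).coeff 0 = p.D (W.coeff 0) := by
  rw [DK_apply, coeff_add, coeff_cm]; simp

theorem coeff_DK_succ (W : F[X]) (n : ℕ) :
    (p.DK W).coeff (n + 1) = p.D (W.coeff (n + 1)) + W.coeff n := by
  rw [DK_apply, coeff_add, coeff_cm, coeff_X_mul]

theorem DK_C_mul (a : F) (W : F[X]) : p.DK (C a * W) = C (p.D a) * W + C a * p.DK W := by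
  rw [DK_apply, DK_apply, cm_mul, cm_C]; ring

theorem DK_C (a : F) : p.DK (C a) = C (p.D a) + C a * X := by
  rw [DK_apply, cm_C]; ring

theorem DK_X_pow (n : ℕ) : p.DK (X ^ n) = X ^ (n + 1) := by
  rw [DK_apply, cm_X_pow]; ring

theorem DK_one : p.DK 1 = X := by
  have := p.DK_X_pow 0
  simpa using this

theorem DK_X : p.DK X = X ^ 2 := by
  have := p.DK_X_pow 1
  simpa using this

theorem DK_mul_X (W : F[X]) : p.DK (W * X) = p.DK W * X := by
  rw [DK_apply, DK_apply, cm_mul, cm_X]; ring

theorem DK_mul_X_pow (W : F[X]) (n : ℕ) : p.DK (W * X ^ n) = p.DK W * X ^ n := by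
  rw [DK_apply, DK_apply, cm_mul, cm_X_pow]; ring

/-- scalar product of tangent vectors -/
noncomputable def ipL : F[X] →ₗ[F] F[X] →ₗ[F] F :=
  Polynomial.lsum fun i => LinearMap.toSpanSingleton F _
    (Polynomial.lsum fun j => LinearMap.toSpanSingleton F F (p.kap i j))

/-- scalar product of tangent vectors -/
noncomputable def ip (U W : F[X]) : F := p.ipL U W

theorem ip_monomial (i j : ℕ) (a b : F) :
    p.ip (monomial i a) (monomial j b) = a * b * p.kap i j := by
  rw [ip, ipL, Polynomial.lsum_apply, Polynomial.sum_monomial_index _ _ (by simp)]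
  rw [LinearMap.toSpanSingleton_apply, LinearMap.smul_apply, Polynomial.lsum_apply,
    Polynomial.sum_monomial_index _ _ (by simp), LinearMap.toSpanSingleton_apply]
  simp only [smul_eq_mul]
  ring

theorem ip_add_left (U V W : F[X]) : p.ip (U + V) W = p.ip U W + p.ip V W := by
  simp [ip]
theorem ip_add_right (U V W : F[X]) : p.ip U (V + W) = p.ip U V + p.ip U W := by
  simp [ip]
theorem ip_sub_left (U V W : F[X]) : p.ip (U - V) W = p.ip U W - p.ip V W := by
  simp [ip]
theorem ip_sub_right (U V W : F[X]) : p.ip U (V - W) = p.ip U V - p.ip U W := by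
  simp [ip]
theorem ip_neg_left (U W : F[X]) : p.ip (-U) W = - p.ip U W := by
  simp [ip]
theorem ip_neg_right (U W : F[X]) : p.ip U (-W) = - p.ip U W := by
  simp [ip]
@[simp] theorem ip_zero_left (W : F[X]) : p.ip 0 W = 0 := by simp [ip]
@[simp] theorem ip_zero_right (W : F[X]) : p.ip W 0 = 0 := by simp [ip]
theorem ip_C_mul_left (a : F) (U W : F[X]) : p.ip (C a * U) W = a * p.ip U W := by
  rw [ip, ip, ← smul_eq_C_mul, map_smul, LinearMap.smul_apply, smul_eq_mul]
theorem ip_C_mul_right (a : F) (U W : F[X]) : p.ip U (C a * W) = a * p.ip U W := by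
  rw [ip, ip, ← smul_eq_C_mul, map_smul, smul_eq_mul]

theorem ip_X_pow (i j : ℕ) : p.ip (X ^ i) (X ^ j) = p.kap i j := by
  rw [← monomial_one_right_eq_X_pow, ← monomial_one_right_eq_X_pow, ip_monomial]; ring

theorem ip_symm (U W : F[X]) : p.ip U W = p.ip W U := by
  induction U using Polynomial.induction_on' with
  | add U V hU hV => rw [ip_add_left, ip_add_right, hU, hV]
  | monomial i a =>
    induction W using Polynomial.induction_on' with
    | add U V hU hV => rw [ip_add_left, ip_add_right, hU, hV]
    | monomial j b => rw [ip_monomial, ip_monomial, p.kap_symm]; ring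

theorem ip_sum_left {ι : Type} (s : Finset ι) (f : ι → F[X]) (W : F[X]) :
    p.ip (∑ i ∈ s, f i) W = ∑ i ∈ s, p.ip (f i) W := by
  rw [ip, map_sum, LinearMap.sum_apply]; rfl

theorem ip_sum_right {ι : Type} (s : Finset ι) (f : ι → F[X]) (W : F[X]) :
    p.ip W (∑ i ∈ s, f i) = ∑ i ∈ s, p.ip W (f i) := by
  rw [ip, map_sum]; rfl

/-- compatibility of the scalar product and the total derivative -/
theorem D_ip (U W : F[X]) : p.D (p.ip U W) = p.ip (p.DK U) W + p.ip U (p.DK W) := by
  induction U using Polynomial.induction_on' with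
  | add U V hU hV => rw [ip_add_left, map_add, hU, hV, map_add, ip_add_left, ip_add_left]; ring
  | monomial i a =>
    induction W using Polynomial.induction_on' with
    | add U V hU hV => rw [ip_add_right, map_add, hU, hV, map_add, ip_add_right, ip_add_right]; ring
    | monomial j b =>
      have h1 : ∀ (n : ℕ) (c : F), p.DK (monomial n c)
          = monomial n (p.D c) + monomial (n + 1) c := by
        intro n c
        rw [DK_apply, cm_monomial, X_mul_monomial]
      rw [h1, h1, ip_add_left, ip_add_right, ip_monomial, ip_monomial, ip_monomial, ip_monomial,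
        ip_monomial, Derivation.leibniz, Derivation.leibniz, D_kap]
      simp only [smul_eq_mul]
      ring

/-- bound -/
noncomputable def bd (f : F) : ℕ := Classical.choose (p.exists_bd f)

theorem bd_spec (f : F) : p.Bd f (p.bd f) := Classical.choose_spec (p.exists_bd f)

/-- gradient with respect to `k_L` -/
noncomputable def grad (L : ℕ) (f : F) : F[X] :=
  ∑ j ∈ range (p.bd f), monomial j (p.G j L f)

@[simp] theorem coeff_grad (L : ℕ) (f : F) (j : ℕ) : (p.grad L f).coeff j = p.G j L f := by
  rw [grad, finsetSum_coeff]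
  simp only [coeff_monomial]
  rw [Finset.sum_ite_eq' (range (p.bd f)) j (fun i => p.G i L f)]
  split_ifs with h
  · rfl
  · rw [(p.bd_spec f).2 j L (by simpa using h)]

theorem grad_eq_zero_of_le {f : F} {N : ℕ} (h : p.Bd f N) {L : ℕ} (hL : N ≤ L) :
    p.grad L f = 0 := by
  ext j
  rw [coeff_grad, p.G_symm, h.2 L j hL, coeff_zero]

theorem grad_add (L : ℕ) (f g : F) : p.grad L (f + g) = p.grad L f + p.grad L g := by
  ext j; simp
theorem grad_sub (L : ℕ) (f g : F) : p.grad L (f - g) = p.grad L f - p.grad L g := by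
  ext j; simp
theorem grad_neg (L : ℕ) (f : F) : p.grad L (-f) = -p.grad L f := by
  ext j; simp
@[simp] theorem grad_zero (L : ℕ) : p.grad L 0 = 0 := by
  ext j; simp
theorem grad_sum {ι : Type} (s : Finset ι) (L : ℕ) (f : ι → F) :
    p.grad L (∑ i ∈ s, f i) = ∑ i ∈ s, p.grad L (f i) := by
  ext j; simp [finsetSum_coeff]
theorem grad_mul (L : ℕ) (f g : F) :
    p.grad L (f * g) = C f * p.grad L g + C g * p.grad L f := by
  ext j
  simp only [coeff_grad, Derivation.leibniz, smul_eq_mul, coeff_add, coeff_C_mul]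
@[simp] theorem grad_r (L i : ℕ) : p.grad L (p.r i) = 0 := by
  ext j; simp

/-- shifted gradient -/
noncomputable def gradm (L : ℕ) (f : F) : F[X] :=
  match L with
  | 0 => 0
  | L + 1 => p.grad L f

theorem grad_D' (L : ℕ) (f : F) : p.grad L (p.D f) = p.DK (p.grad L f) + p.gradm L f := by
  ext j
  rw [coeff_grad, p.G_D, coeff_add]
  congr 1
  · cases j with
    | zero => rw [coeff_DK_zero, coeff_grad]; simp [Gm]
    | succ j => rw [coeff_DK_succ, coeff_grad, coeff_grad]; simp [Gm]
  · cases L with
    | zero => simp [Gm, gradm]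
    | succ L => simp [Gm, gradm, p.G_symm L j]

theorem grad_zero_D (f : F) : p.grad 0 (p.D f) = p.DK (p.grad 0 f) := by
  rw [p.grad_D']; simp [gradm]

theorem grad_succ_D (L : ℕ) (f : F) :
    p.grad (L + 1) (p.D f) = p.DK (p.grad (L + 1) f) + p.grad L f := by
  rw [p.grad_D']; rfl

end Polar

end Pool.Agent.Lib.MP_4d1bc1_mp
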