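import Pool.Agent.Lib.MP_4d1bc1_mp.Radial

set_option autoImplicit false

/-! The commutator of the twisted partial derivatives and the time derivative. -/

namespace Pool.Agent.Lib.MP_4d1bc1_mp

open Finset Polynomial

universe u

variable {F : Type u} [Field F] [Algebra ℝ F]

namespace Polar

variable {p : Polar F}

namespace Rad

variable (q : p.Rad)

/-- coefficients of the commutator -/
noncomputable def lam : ℕ → ℕ → F
  | 0, k => p.Eh q.w k q.FR
  | l + 1, 0 => p.D (lam l 0) + (if l = 0 then p.D q.gt else 0)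
  | l + 1, k + 1 => p.D (lam l (k + 1)) + lam l k + (if l = k + 1 then p.D q.gt else 0)

theorem lam_zero (k : ℕ) : q.lam 0 k = p.Eh q.w k q.FR := rfl
theorem lam_succ_zero (l : ℕ) : q.lam (l + 1) 0
    = p.D (q.lam l 0) + (if l = 0 then p.D q.gt else 0) := rfl
theorem lam_succ_succ (l k : ℕ) : q.lam (l + 1) (k + 1)
    = p.D (q.lam l (k + 1)) + q.lam l k + (if l = k + 1 then p.D q.gt else 0) := rfl

/-- shifted -/
noncomputable def lamm (l k : ℕ) : F :=
  match k with
  | 0 => 0
  | k + 1 => q.lam l k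

theorem lam_succ (l k : ℕ) : q.lam (l + 1) k
    = p.D (q.lam l k) + q.lamm l k + (if l = k then p.D q.gt else 0) := by
  cases k with
  | zero => rw [lam_succ_zero]; simp [lamm]
  | succ k => rw [lam_succ_succ]; rfl

/-- shifted twisted partial derivatives -/
noncomputable def Ehm (k : ℕ) (f : F) : F :=
  match k with
  | 0 => 0
  | k + 1 => p.Eh q.w k f

theorem Eh_D (k : ℕ) (f : F) :
    p.Eh q.w k (p.D f) = p.D (p.Eh q.w k f) + q.Ehm k f - q.w * p.Eh q.w k f := by
  cases k with
  | zero => rw [Eh_zero_D]; simp [Ehm]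
  | succ k => rw [Eh_succ_D]; rfl

theorem tc_one (l k : ℕ) : p.tc q.w (l + 1) k
    = p.D (p.tc q.w l k) + (match k with | 0 => 0 | k + 1 => p.tc q.w l k)
      - q.w * p.tc q.w l k := by
  cases k with
  | zero => rw [tc_succ_zero]; simp
  | succ k => rw [tc_succ_succ]

theorem comm_r (i : ℕ) : ∀ k, p.Eh q.w k (p.Dt q.FR (p.r i))
    = p.Dt q.FR (p.Eh q.w k (p.r i)) + ∑ l ∈ range (i + 1), q.lam l k * p.tc q.w i l := by
  induction i with
  | zero =>
    intro k
    rw [Dt_r, Eh_r, Function.iterate_zero, id_eq]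
    have h1 : p.Dt q.FR (p.tc q.w 0 k) = 0 := by
      cases k with
      | zero => rw [tc_zero_zero]; exact p.isConst_one.vfd_eq _ _
      | succ k => rw [tc_zero_succ, map_zero]
    rw [h1, zero_add, zero_add, sum_range_one, tc_zero_zero, lam_zero, mul_one]
  | succ i ih =>
    intro k
    have hm : q.Ehm k (p.Dt q.FR (p.r i)) = p.Dt q.FR (q.Ehm k (p.r i))
        + ∑ l ∈ range (i + 1), q.lamm l k * p.tc q.w i l := by
      cases k with
      | zero => simp [Ehm, lamm]
      | succ k => exact ih k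
    have h1 : p.r (i + 1) = p.D (p.r i) := (p.D_r i).symm
    rw [h1, D_Dt, q.Eh_D, q.Eh_D, ih k, hm, map_sub, map_add, map_add, der_mul, q.Dt_w, D_Dt,
      Eh_r, map_sum]
    have h2 : ∀ l, p.D (q.lam l k * p.tc q.w i l)
        = p.D (q.lam l k) * p.tc q.w i l + q.lam l k * p.D (p.tc q.w i l) := fun l => der_mul _ _ _
    simp only [h2, sum_add_distrib]
    have h3 : ∑ l ∈ range (i + 1 + 1), q.lam l k * p.tc q.w (i + 1) l
        = ∑ l ∈ range (i + 1), q.lam l k * p.D (p.tc q.w i l)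
          - q.w * ∑ l ∈ range (i + 1), q.lam l k * p.tc q.w i l
          + ∑ l ∈ range (i + 1), q.lam (l + 1) k * p.tc q.w i l := by
      have e0 : p.tc q.w i (i + 1) = 0 := p.tc_gt q.w (by omega)
      have h4 : ∑ l ∈ range (i + 1), q.lam l k * p.D (p.tc q.w i l)
          = ∑ l ∈ range (i + 1 + 1), q.lam l k * p.D (p.tc q.w i l) := by
        rw [sum_range_succ _ (i + 1), e0]; simp
      have h5 : ∑ l ∈ range (i + 1), q.lam l k * p.tc q.w i l
          = ∑ l ∈ range (i + 1 + 1), q.lam l k * p.tc q.w i l := by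
        rw [sum_range_succ _ (i + 1), e0]; simp
      have h6 : ∑ l ∈ range (i + 1), q.lam (l + 1) k * p.tc q.w i l
          = ∑ l ∈ range (i + 1 + 1), q.lam l k
            * (match l with | 0 => 0 | l + 1 => p.tc q.w i l) := by
        rw [sum_range_succ' _ (i + 1)]; simp
      rw [h4, h5, h6, mul_sum, ← sum_sub_distrib, ← sum_add_distrib]
      refine sum_congr rfl fun l _ => ?_
      rw [q.tc_one]
      ring
    rw [h3]
    have h7 : ∑ l ∈ range (i + 1), q.lam (l + 1) k * p.tc q.w i l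
        = ∑ l ∈ range (i + 1), p.D (q.lam l k) * p.tc q.w i l
          + ∑ l ∈ range (i + 1), q.lamm l k * p.tc q.w i l + p.D q.gt * p.tc q.w i k := by
      simp only [lam_succ, add_mul, sum_add_distrib, ite_mul, zero_mul]
      congr 1
      rw [Finset.sum_ite_eq' (range (i + 1)) k (fun l => p.D q.gt * p.tc q.w i l)]
      split_ifs with h8
      · rfl
      · rw [p.tc_gt q.w (by simpa using h8), mul_zero]
    rw [h7]
    ring

/-- the commutator of the twisted partial derivatives and the time derivative -/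
theorem comm (k : ℕ) (f : F) {N : ℕ} (hN : p.Bd f N) :
    p.Eh q.w k (p.Dt q.FR f) = p.Dt q.FR (p.Eh q.w k f)
      + ∑ l ∈ range N, q.lam l k * p.Eh q.w l f := by
  have h := p.vfd_vfd (fun j => p.tc q.w j k) (fun i => p.D^[i] q.FR) (fun _ _ => 0)
    (fun i j => p.ip (p.W i) (X ^ j) + p.ip (X ^ i) (p.W j)) f
  have h1 := p.vfd_congr
    (c := fun i => p.vfd (fun j => p.tc q.w j k) (fun _ _ => 0) (p.D^[i] q.FR)
      - p.vfd (fun i => p.D^[i] q.FR)
        (fun i j => p.ip (p.W i) (X ^ j) + p.ip (X ^ i) (p.W j)) (p.tc q.w i k))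
    (c' := fun i => ∑ l ∈ range (i + 1), q.lam l k * p.tc q.w i l)
    (e := fun i j => p.vfd (fun j => p.tc q.w j k) (fun _ _ => 0)
        (p.ip (p.W i) (X ^ j) + p.ip (X ^ i) (p.W j))
      - p.vfd (fun i => p.D^[i] q.FR)
        (fun i j => p.ip (p.W i) (X ^ j) + p.ip (X ^ i) (p.W j)) 0)
    (e' := fun _ _ => 0)
    (fun i => by
      have h2 := q.comm_r i k
      rw [Dt_r, Eh_r] at h2
      change p.Eh q.w k (p.D^[i] q.FR) - p.Dt q.FR (p.tc q.w i k) = _
      rw [h2]; ring)
    (fun i j => by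
      change p.Eh q.w k (p.ip (p.W i) (X ^ j) + p.ip (X ^ i) (p.W j)) - _ = _
      rw [map_zero, sub_zero]
      refine p.Eh_of_E (fun l => ?_) k
      rw [map_add, E_ip, E_ip, cm_E_W, cm_E_W, cm_X_pow, cm_X_pow]
      simp) f
  rw [h1] at h
  change p.Eh q.w k (p.Dt q.FR f) = p.Dt q.FR (p.Eh q.w k f) + _ at h
  rw [h]
  congr 1
  rw [p.vfd_eq_sum _ _ f N hN]
  simp only [zero_mul, sum_const_zero, mul_zero, add_zero, sum_mul]
  have h3 : ∀ i ∈ range N, ∑ l ∈ range (i + 1), q.lam l k * p.tc q.w i l * p.E i f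
      = ∑ l ∈ range N, q.lam l k * p.tc q.w i l * p.E i f := by
    intro i hi
    apply sum_subset (range_subset_range.2 (by simpa using hi))
    intro l _ hl
    rw [p.tc_gt q.w (by simpa using hl)]; ring
  rw [sum_congr rfl h3, sum_comm]
  refine sum_congr rfl fun l _ => ?_
  rw [p.Eh_eq_sum q.w l hN, mul_sum]
  exact sum_congr rfl fun i _ => by ring

theorem tc10 : p.tc q.w 1 0 = - q.w := by
  rw [tc_succ_zero, tc_zero_zero, p.isConst_one.D_eq]; ring
theorem tc20 : p.tc q.w 2 0 = - p.D q.w + q.w ^ 2 := by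
  rw [tc_succ_zero, tc10, map_neg]; ring
theorem tc30 : p.tc q.w 3 0 = - p.D (p.D q.w) + 3 * q.w * p.D q.w - q.w ^ 3 := by
  rw [tc_succ_zero, tc20, map_add, map_neg, sq, der_mul]; ring
theorem tc21 : p.tc q.w 2 1 = - 2 * q.w := by
  rw [tc_succ_succ, tc_diag, tc10, p.isConst_one.D_eq]; ring
theorem tc31 : p.tc q.w 3 1 = - 3 * p.D q.w + 3 * q.w ^ 2 := by
  have h2 : p.D (-2 * q.w) = -2 * p.D q.w := p.D_const_mul ((p.isConst_ofNat 2).neg) _
  rw [tc_succ_succ, tc21, tc20, h2]; ring
theorem tc32 : p.tc q.w 3 2 = - 3 * q.w := by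
  rw [tc_succ_succ, tc_diag, tc21, p.isConst_one.D_eq]; ring

theorem bd_FR : ∃ N, p.Bd q.FR (N + 4) := by
  obtain ⟨N, hN⟩ := p.exists_bd q.FR
  exact ⟨N, hN.mono (by omega)⟩

theorem Eh_FR (k : ℕ) : p.Eh q.w k q.FR = ∑ j ∈ range 4, p.tc q.w j k * p.E j q.FR := by
  obtain ⟨N, hN⟩ := q.bd_FR
  rw [p.Eh_eq_sum q.w k hN]
  symm
  apply sum_subset (range_subset_range.2 (by omega))
  intro j _ hj
  rw [q.radTop.E4 j (by simpa using hj), mul_zero]

theorem lam_far (l : ℕ) : ∀ k, l + 4 ≤ k → q.lam l k = 0 := by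
  induction l with
  | zero =>
    intro k hk
    rw [lam_zero]
    exact p.Eh_of_far q.radTop.E4 (by omega)
  | succ l ih =>
    intro k hk
    obtain ⟨k, rfl⟩ : ∃ k', k = k' + 1 := ⟨k - 1, by omega⟩
    rw [lam_succ_succ, ih (k + 1) (by omega), ih k (by omega), if_neg (by omega)]
    simp

theorem lam_three (l : ℕ) : q.lam l (l + 3) = 1 := by
  induction l with
  | zero =>
    rw [lam_zero, Eh_FR]
    simp only [sum_range_succ, sum_range_zero, zero_add]
    rw [p.tc_gt q.w (by omega : 0 < 3), p.tc_gt q.w (by omega : 1 < 3),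
      p.tc_gt q.w (by omega : 2 < 3), tc_diag, E_FR_three]
    ring
  | succ l ih =>
    rw [show l + 1 + 3 = l + 3 + 1 by rfl, lam_succ_succ, q.lam_far l _ (by omega), ih,
      if_neg (by omega)]
    simp

theorem lam_two (l : ℕ) : q.lam l (l + 2) = 0 := by
  have := p.charZero
  induction l with
  | zero =>
    rw [lam_zero, Eh_FR]
    simp only [sum_range_succ, sum_range_zero, zero_add]
    rw [p.tc_gt q.w (by omega : 0 < 2), p.tc_gt q.w (by omega : 1 < 2), tc_diag, tc32,
      E_FR_three, E_FR_two, w]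
    field_simp
    ring
  | succ l ih =>
    rw [show l + 1 + 2 = l + 2 + 1 by rfl, lam_succ_succ, q.lam_three l, ih,
      if_neg (by omega), p.isConst_one.D_eq]
    simp

theorem lam_one (l : ℕ) : q.lam l (l + 1) = q.ph := by
  have := p.charZero
  induction l with
  | zero =>
    rw [lam_zero, Eh_FR]
    simp only [sum_range_succ, sum_range_zero, zero_add]
    rw [p.tc_gt q.w (by omega : 0 < 1), tc_diag, tc21, tc31,
      E_FR_three, E_FR_two, E_FR_one, D_w, w, ph, J]
    field_simp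
    ring
  | succ l ih =>
    rw [show l + 1 + 1 = l + 1 + 1 by rfl, lam_succ_succ, q.lam_two l, ih,
      if_neg (by omega)]
    simp

theorem lam_same (l : ℕ) : q.lam l l = l * p.D q.ph + q.rh - q.gt := by
  have := p.charZero
  induction l with
  | zero =>
    rw [lam_zero, Eh_FR]
    simp only [sum_range_succ, sum_range_zero, zero_add]
    rw [tc_diag, tc10, tc20, tc30, E_FR_three, E_FR_two, E_FR_one, E_FR_zero, D_D_w, D_w, w, rh,
      gt, FR, q.E0_J, J, ed]
    push_cast
    field_simp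
    ring
  | succ l ih =>
    rw [lam_succ_succ, q.lam_one l, ih, if_neg (by omega)]
    push_cast
    ring

theorem lam_neg (l : ℕ) : q.lam (l + 1) l
    = ((l + 1).choose 2 : ℕ) * p.D (p.D q.ph) + (l + 1) * p.D q.rh := by
  have := p.charZero
  induction l with
  | zero =>
    rw [lam_succ_zero, lam_same, if_pos rfl]
    have : (0 + 1).choose 2 = 0 := rfl
    rw [this]
    push_cast
    rw [zero_mul, zero_add, map_sub]
    ring
  | succ l ih =>
    have hl : p.IsConst (((l + 1 : ℕ) : F)) := p.isConst_natCast _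
    rw [lam_succ_succ, q.lam_same, ih, if_pos rfl, Nat.choose_succ_succ (l + 1) 1,
      Nat.choose_one_right, map_sub, map_add, p.D_const_mul hl]
    push_cast
    ring

end Rad

end Polar

end Pool.Agent.Lib.MP_4d1bc1_mp
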