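import Pool.Agent.Lib.MP_4d1bc1_mp.Star

set_option autoImplicit false

/-! Descending through the levels of the gradient of the radial equation. -/

namespace Pool.Agent.Lib.MP_4d1bc1_mp

open Finset Polynomial

universe u

variable {F : Type u} [Field F] [Algebra ℝ F]

namespace Polar

variable {p : Polar F}

theorem DhK_three (w : F) (U : F[X]) : p.DhK w (3 * U) = 3 * p.DhK w U := by
  have h := p.DhK_const_mul w (p.isConst_ofNat 3) U
  rw [map_ofNat C 3] at h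
  exact h

theorem DhK_solve {w z : F} {U X0 : F[X]} (h : 3 * p.DhK w U = p.DhK w X0 + C z) :
    3 * U = X0 ∧ z = 0 := by
  have h1 : p.DhK w (3 * U - X0) = C z := by
    rw [map_sub, DhK_three, h]; ring
  obtain ⟨h2, h3⟩ := p.DhK_inj h1
  exact ⟨sub_eq_zero.1 h2, h3⟩

theorem three_ne_K (p : Polar F) : (3 : F[X]) ≠ 0 := by
  have := p.charZero
  rw [← map_ofNat C 3, Ne, C_eq_zero]; exact three_ne_zero

theorem DhK_solve' {w z : F} {U X0 : F[X]} (h : 3 * p.DhK w U = 3 * p.DhK w X0 + C z) :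
    U = X0 ∧ z = 0 := by
  rw [← DhK_three w X0] at h
  obtain ⟨h1, h2⟩ := DhK_solve h
  exact ⟨mul_left_cancel₀ p.three_ne_K h1, h2⟩

namespace Rad

variable (q : p.Rad) (Y : F) (l : ℕ)

theorem Sg1 : q.Sg Y (l + 1) l = 0 := by
  refine sum_eq_zero fun k hk => ?_
  rw [Nat.choose_eq_zero_of_lt (by simp only [mem_range] at hk; omega),
    Nat.choose_eq_zero_of_lt (by simp only [mem_range] at hk; omega)]
  simp

theorem Sg_succ (M : ℕ) : q.Sg Y (M + 1) l = q.Sg Y M l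
    + C (p.Eh q.w M Y) * (C ((M.choose (l + 2) : ℕ) : F) * q.nuI (M - (l + 2))
      + C ((M.choose (l + 1) : ℕ) : F) * q.eI (M - (l + 1))) := by
  rw [Sg, sum_range_succ]; rfl

theorem Sg2 : q.Sg Y (l + 2) l = C (p.Eh q.w (l + 1) Y) * C q.e := by
  rw [Sg_succ, Sg1, Nat.choose_succ_self, Nat.choose_self, Nat.sub_self, eI_zero]
  simp

theorem Sg3 : q.Sg Y (l + 3) l = C (p.Eh q.w (l + 1) Y) * C q.e
    + C (p.Eh q.w (l + 2) Y) * (q.nu + ((l : F[X]) + 2) * q.eI 1) := by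
  rw [Sg_succ, Sg2, Nat.choose_self, Nat.sub_self, nuI_zero,
    Nat.choose_succ_self_right (l + 1), show l + 2 - (l + 1) = 1 by omega]
  simp only [map_natCast]
  push_cast
  ring

theorem Sg4 : q.Sg Y (l + 4) l = C (p.Eh q.w (l + 1) Y) * C q.e
    + C (p.Eh q.w (l + 2) Y) * (q.nu + ((l : F[X]) + 2) * q.eI 1)
    + C (p.Eh q.w (l + 3) Y) * (((l : F[X]) + 3) * q.nuI 1
      + (((l + 3).choose 2 : ℕ) : F[X]) * q.eI 2) := by
  have h1 : (l + 3).choose (l + 1) = (l + 3).choose 2 := by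
    rw [show l + 3 = l + 1 + 2 by rfl]; exact Nat.choose_symm_add
  rw [Sg_succ, Sg3, show l + 3 - (l + 2) = 1 by omega, show l + 3 - (l + 1) = 2 by omega,
    Nat.choose_succ_self_right (l + 2), h1]
  simp only [map_natCast]
  push_cast
  ring

theorem Sg5 : q.Sg Y (l + 5) l = C (p.Eh q.w (l + 1) Y) * C q.e
    + C (p.Eh q.w (l + 2) Y) * (q.nu + ((l : F[X]) + 2) * q.eI 1)
    + C (p.Eh q.w (l + 3) Y) * (((l : F[X]) + 3) * q.nuI 1
      + (((l + 3).choose 2 : ℕ) : F[X]) * q.eI 2)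
    + C (p.Eh q.w (l + 4) Y) * ((((l + 4).choose 2 : ℕ) : F[X]) * q.nuI 2
      + (((l + 4).choose 3 : ℕ) : F[X]) * q.eI 3) := by
  have h1 : (l + 4).choose (l + 1) = (l + 4).choose 3 := by
    rw [show l + 4 = l + 1 + 3 by rfl]; exact Nat.choose_symm_add
  have h2 : (l + 4).choose (l + 2) = (l + 4).choose 2 := by
    rw [show l + 4 = l + 2 + 2 by rfl]; exact Nat.choose_symm_add
  rw [Sg_succ, Sg4, show l + 4 - (l + 2) = 2 by omega, show l + 4 - (l + 1) = 3 by omega,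
    h1, h2]
  simp only [map_natCast]

theorem Sg6 : q.Sg Y (l + 6) l = C (p.Eh q.w (l + 1) Y) * C q.e
    + C (p.Eh q.w (l + 2) Y) * (q.nu + ((l : F[X]) + 2) * q.eI 1)
    + C (p.Eh q.w (l + 3) Y) * (((l : F[X]) + 3) * q.nuI 1
      + (((l + 3).choose 2 : ℕ) : F[X]) * q.eI 2)
    + C (p.Eh q.w (l + 4) Y) * ((((l + 4).choose 2 : ℕ) : F[X]) * q.nuI 2
      + (((l + 4).choose 3 : ℕ) : F[X]) * q.eI 3)
    + C (p.Eh q.w (l + 5) Y) * ((((l + 5).choose 3 : ℕ) : F[X]) * q.nuI 3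
      + (((l + 5).choose 4 : ℕ) : F[X]) * q.eI 4) := by
  have h1 : (l + 5).choose (l + 1) = (l + 5).choose 4 := by
    rw [show l + 5 = l + 1 + 4 by rfl]; exact Nat.choose_symm_add
  have h2 : (l + 5).choose (l + 2) = (l + 5).choose 3 := by
    rw [show l + 5 = l + 2 + 3 by rfl]; exact Nat.choose_symm_add
  rw [Sg_succ, Sg5, show l + 5 - (l + 2) = 3 by omega, show l + 5 - (l + 1) = 4 by omega,
    h1, h2]
  simp only [map_natCast]

end Rad

/-- A symmetry of order `n + 5`: the tangent part `V` and the radial part `Y`. -/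
structure Sym (q : p.Rad) (V : F[X]) (Y : F) (n : ℕ) : Prop where
  vs : p.VSym q.FR V n
  ye : q.YEq Y (p.Zf V)
  ne : V.coeff (n + 4) ≠ 0

variable {q : p.Rad} {V : F[X]} {Y : F} {n : ℕ}

theorem Sym.eFar (h : Sym q V Y n) (he : q.e ≠ 0) (l : ℕ) (hl : n + 5 ≤ l) :
    p.grad l Y = 0 ∧ p.Eh q.w (l + 1) Y = 0 := by
  have := p.charZero
  obtain ⟨N, hN⟩ := p.exists_bd Y
  have key : ∀ s, ∀ l, n + 5 ≤ l → N ≤ l + s →
      p.grad l Y = 0 ∧ p.Eh q.w (l + 1) Y = 0 := by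
    intro s
    induction s with
    | zero =>
      intro l _ hl
      exact ⟨p.grad_eq_zero_of_le hN (by omega), p.Eh_of_far hN.1 (by omega)⟩
    | succ s ih =>
      intro l hl1 hl2
      have hq : ∀ a, l < a → p.grad a Y = 0 := fun a ha => (ih a (by omega) (by omega)).1
      have hM : ∀ k, l + 2 ≤ k → p.Eh q.w k Y = 0 := by
        intro k hk
        obtain ⟨k, rfl⟩ : ∃ k', k = k' + 1 := ⟨k - 1, by omega⟩
        exact (ih k (by omega) (by omega)).2
      have h1 := h.ye.star l (fun a ha => hq a (by omega)) hM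
      rw [hq (l + 2) (by omega), hq (l + 1) (by omega), h.vs.z_far (l + 2) (by omega),
        h.vs.z_far (l + 1) (by omega), Rad.Sg2] at h1
      simp only [map_zero, mul_zero, zero_mul, add_zero, zero_add, ip_zero_left] at h1
      have h2 : 3 * p.DhK q.w (p.grad l Y) = p.DhK q.w 0 + C (p.Eh q.w (l + 1) Y * q.e) := by
        rw [← h1, map_zero, C_mul]; ring
      obtain ⟨h3, h4⟩ := DhK_solve h2
      exact ⟨(mul_eq_zero.1 h3).resolve_left p.three_ne_K, (mul_eq_zero.1 h4).resolve_right he⟩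
  exact key N l hl (by omega)

theorem Sym.e4 (h : Sym q V Y n) (he : q.e ≠ 0) :
    p.grad (n + 4) Y = 0 ∧ p.Eh q.w (n + 5) Y = V.coeff (n + 4) := by
  have := p.charZero
  have hq : ∀ a, n + 4 < a → p.grad a Y = 0 := fun a ha => (h.eFar he a (by omega)).1
  have hM : ∀ k, n + 6 ≤ k → p.Eh q.w k Y = 0 := by
    intro k hk
    obtain ⟨k, rfl⟩ : ∃ k', k = k' + 1 := ⟨k - 1, by omega⟩
    exact (h.eFar he k (by omega)).2
  have h1 := h.ye.star (n + 4) (fun a ha => hq a (by omega)) hM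
  rw [show n + 4 + 2 = n + 6 by rfl, show n + 4 + 1 = n + 5 by rfl, hq (n + 6) (by omega),
    hq (n + 5) (by omega), h.vs.z_far (n + 6) le_rfl, h.vs.z5, show n + 6 = n + 4 + 2 by rfl,
    Rad.Sg2] at h1
  simp only [map_zero, mul_zero, zero_mul, add_zero, zero_add, ip_zero_left] at h1
  have h2 : 3 * p.DhK q.w (p.grad (n + 4) Y) = p.DhK q.w 0
      + C ((p.Eh q.w (n + 5) Y - V.coeff (n + 4)) * q.e) := by
    have h3 : (C (2⁻¹ * q.e) * C (2 * V.coeff (n + 4)) : F[X]) = C (V.coeff (n + 4)) * C q.e := by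
      rw [← C_mul, ← C_mul]; congr 1; field_simp
    rw [h3] at h1
    rw [map_zero, C_mul, C_sub]
    linear_combination -h1
  obtain ⟨h3, h4⟩ := DhK_solve h2
  exact ⟨(mul_eq_zero.1 h3).resolve_left p.three_ne_K,
    sub_eq_zero.1 ((mul_eq_zero.1 h4).resolve_right he)⟩

end Polar

end Pool.Agent.Lib.MP_4d1bc1_mp
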