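import Pool.Agent.Lib.MP_4d1bc1_mp.LevelsE3

set_option autoImplicit false

/-! Descending through the levels: the case `e = 0`, `c ≠ 0`. -/

namespace Pool.Agent.Lib.MP_4d1bc1_mp

open Finset Polynomial

universe u

variable {F : Type u} [Field F] [Algebra ℝ F]

namespace Polar

variable {p : Polar F} {q : p.Rad} {V : F[X]} {Y : F} {n : ℕ}

theorem r1_ne (p : Polar F) : p.r 1 ≠ 0 := by
  intro h0
  have h1 := p.E_r 1 1
  rw [h0, map_zero, if_pos rfl] at h1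
  exact zero_ne_one h1

theorem Rad.eI_of_zero (q : p.Rad) (he : q.e = 0) (i : ℕ) : q.eI i = 0 := by
  induction i with
  | zero => rw [Rad.eI_zero, he, C_0]
  | succ i ih => rw [Rad.eI_succ, ih, map_zero]

theorem Rad.nu_of_zero (q : p.Rad) (he : q.e = 0) : q.nu = C (2 * q.c * p.r 1) := by
  rw [Rad.nu, he]; simp

theorem Rad.n0_ne (q : p.Rad) (hc : q.c ≠ 0) : 2 * q.c * p.r 1 ≠ 0 := by
  have := p.charZero
  exact mul_ne_zero (mul_ne_zero two_ne_zero hc) p.r1_ne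

theorem Sym.cFar (h : Sym q V Y n) (he : q.e = 0) (hc : q.c ≠ 0) (l : ℕ) (hl : n + 4 ≤ l) :
    p.grad l Y = 0 ∧ p.Eh q.w (l + 2) Y = 0 := by
  have := p.charZero
  obtain ⟨N, hN⟩ := p.exists_bd Y
  have key : ∀ s, ∀ l, n + 4 ≤ l → N ≤ l + s →
      p.grad l Y = 0 ∧ p.Eh q.w (l + 2) Y = 0 := by
    intro s
    induction s with
    | zero =>
      intro l _ hl
      exact ⟨p.grad_eq_zero_of_le hN (by omega), p.Eh_of_far hN.1 (by omega)⟩
    | succ s ih =>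
      intro l hl1 hl2
      have hq : ∀ a, l < a → p.grad a Y = 0 := fun a ha => (ih a (by omega) (by omega)).1
      have hM : ∀ k, l + 3 ≤ k → p.Eh q.w k Y = 0 := by
        intro k hk
        obtain ⟨k, rfl⟩ : ∃ k', k = k' + 2 := ⟨k - 2, by omega⟩
        exact (ih k (by omega) (by omega)).2
      have h1 := h.ye.star l (fun a ha => hq a (by omega)) hM
      rw [hq (l + 2) (by omega), hq (l + 1) (by omega), h.vs.z_far (l + 2) (by omega),
        Rad.Sg3, q.eI_of_zero he, q.nu_of_zero he, he] at h1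
      simp only [map_zero, mul_zero, zero_mul, add_zero, zero_add, ip_zero_left] at h1
      have h2 : 3 * p.DhK q.w (p.grad l Y) = p.DhK q.w 0
          + C (p.Eh q.w (l + 2) Y * (2 * q.c * p.r 1)) := by
        rw [← h1, map_zero]; simp only [C_mul]; ring
      obtain ⟨h3, h4⟩ := DhK_solve h2
      exact ⟨(mul_eq_zero.1 h3).resolve_left p.three_ne_K,
        (mul_eq_zero.1 h4).resolve_right (q.n0_ne hc)⟩
  exact key N l hl (by omega)

theorem Sym.cM (h : Sym q V Y n) (he : q.e = 0) (hc : q.c ≠ 0) (k : ℕ) (hk : n + 6 ≤ k) :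
    p.Eh q.w k Y = 0 := by
  obtain ⟨k, rfl⟩ : ∃ k', k = k' + 2 := ⟨k - 2, by omega⟩
  exact (h.cFar he hc k (by omega)).2

theorem Sym.c3 (h : Sym q V Y n) (he : q.e = 0) (hc : q.c ≠ 0) :
    p.grad (n + 3) Y = 0 ∧ p.Eh q.w (n + 5) Y = V.coeff (n + 4) := by
  have := p.charZero
  have hq : ∀ a, n + 3 < a → p.grad a Y = 0 := fun a ha => (h.cFar he hc a (by omega)).1
  have h1 := h.ye.star (n + 3) (fun a ha => hq a (by omega)) (h.cM he hc)
  rw [show n + 3 + 2 = n + 5 by rfl, show n + 3 + 1 = n + 4 by rfl, hq (n + 5) (by omega),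
    hq (n + 4) (by omega), h.vs.z5, show n + 6 = n + 3 + 3 by rfl,
    Rad.Sg3, show n + 3 + 2 = n + 5 by rfl, q.eI_of_zero he, q.nu_of_zero he, he] at h1
  simp only [map_zero, mul_zero, zero_mul, add_zero, zero_add, ip_zero_left] at h1
  have h2 : 3 * p.DhK q.w (p.grad (n + 3) Y) = p.DhK q.w 0
      + C ((p.Eh q.w (n + 5) Y - V.coeff (n + 4)) * (2 * q.c * p.r 1)) := by
    rw [map_zero]
    simp only [C_mul, C_sub, map_ofNat] at h1 ⊢
    linear_combination -h1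
  obtain ⟨h3, h4⟩ := DhK_solve h2
  exact ⟨(mul_eq_zero.1 h3).resolve_left p.three_ne_K,
    sub_eq_zero.1 ((mul_eq_zero.1 h4).resolve_right (q.n0_ne hc))⟩

theorem Sym.cQ (h : Sym q V Y n) (he : q.e = 0) (hc : q.c ≠ 0) (a : ℕ) (ha : n + 3 ≤ a) :
    p.grad a Y = 0 := by
  rcases eq_or_lt_of_le ha with h1 | h1
  · rw [← h1]; exact (h.c3 he hc).1
  · exact (h.cFar he hc a (by omega)).1

theorem Sym.c2 (h : Sym q V Y n) (he : q.e = 0) (hc : q.c ≠ 0) :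
    p.grad (n + 2) Y = C (k1 V n) * q.nu ∧ p.Eh q.w (n + 4) Y = V.coeff (n + 3) := by
  have := p.charZero
  have h1 := h.ye.star (n + 2) (fun a ha => h.cQ he hc a (by omega)) (h.cM he hc)
  rw [show n + 2 + 2 = n + 4 by rfl, show n + 2 + 1 = n + 3 by rfl, h.cQ he hc (n + 4) (by omega),
    h.cQ he hc (n + 3) (by omega), h.vs.z4, show n + 6 = n + 2 + 4 by rfl,
    Rad.Sg4, show n + 2 + 3 = n + 5 by rfl, show n + 2 + 2 = n + 4 by rfl,
    show n + 2 + 1 = n + 3 by rfl, q.eI_of_zero he, q.eI_of_zero he, he, (h.c3 he hc).2] at h1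
  simp only [map_zero, mul_zero, zero_mul, add_zero, zero_add, ip_zero_left] at h1
  have R1 := rel1 p V n
  have h2 : 3 * p.DhK q.w (p.grad (n + 2) Y)
      = 3 * p.DhK q.w (C (k1 V n) * q.nu)
      + C ((p.Eh q.w (n + 4) Y - V.coeff (n + 3)) * (2 * q.c * p.r 1)) := by
    rw [p.DhK_const_mul _ h.vs.const1, ← Rad.nuI_zero, ← Rad.nuI_succ]
    rw [q.nu_of_zero he] at h1
    push_cast at h1
    simp only [C_mul, C_sub, C_add, map_ofNat, zero_add] at h1 ⊢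
    linear_combination -h1 - q.nuI 1 * R1
  obtain ⟨h3, h4⟩ := DhK_solve' h2
  exact ⟨h3, sub_eq_zero.1 ((mul_eq_zero.1 h4).resolve_right (q.n0_ne hc))⟩

theorem Sym.c1 (h : Sym q V Y n) (he : q.e = 0) (hc : q.c ≠ 0) :
    p.grad (n + 1) Y = C (k2 V n) * q.nuI 1 + C (k3 V n) * q.nu
      ∧ p.Eh q.w (n + 3) Y = k1 V n * q.ph + b2 p V n := by
  have := p.charZero
  have h1 := h.ye.star (n + 1) (fun a ha => h.cQ he hc a (by omega)) (h.cM he hc)
  have hz3 : p.grad (n + 3) (p.Zf V)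
      = C (2 * ((2 * n + 10) * V.coeff (n + 4) * p.S + b2 p V n)) := h.vs.z3
  have hip : p.ip (C (k1 V n) * q.nu) 1 = k1 V n * (2 * q.c * p.r 1 * p.S) := by
    rw [q.nu_of_zero he, ip_C_mul_left, ip_C_one]
  rw [show n + 1 + 2 = n + 3 by rfl, show n + 1 + 1 = n + 2 by rfl,
    h.cQ he hc (n + 3) (by omega), (h.c2 he hc).1, hip, hz3, show n + 6 = n + 1 + 5 by rfl,
    Rad.Sg5, show n + 1 + 4 = n + 5 by rfl, show n + 1 + 3 = n + 4 by rfl,
    show n + 1 + 2 = n + 3 by rfl, show n + 1 + 1 = n + 2 by rfl, q.eI_of_zero he,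
    q.eI_of_zero he, q.eI_of_zero he, he, (h.c3 he hc).2, (h.c2 he hc).2,
    p.DhK_const_mul _ h.vs.const1, p.DhK_const_mul _ h.vs.const1, ← Rad.nuI_zero,
    ← Rad.nuI_succ, ← Rad.nuI_succ] at h1
  simp only [map_zero, mul_zero, zero_mul, add_zero, zero_add, ip_zero_left] at h1
  have R1 := rel1 p V n
  have R3 := rel3 p V n
  have R4 := rel4 p V n
  have h2 : 3 * p.DhK q.w (p.grad (n + 1) Y)
      = 3 * p.DhK q.w (C (k2 V n) * q.nuI 1 + C (k3 V n) * q.nu)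
      + C ((p.Eh q.w (n + 3) Y - (k1 V n * q.ph + b2 p V n)) * (2 * q.c * p.r 1)) := by
    rw [map_add, p.DhK_const_mul _ h.vs.const2, p.DhK_const_mul _ h.vs.const3,
      ← Rad.nuI_zero, ← Rad.nuI_succ, ← Rad.nuI_succ]
    rw [Rad.nuI_zero, q.nu_of_zero he] at h1
    push_cast at h1
    simp only [C_mul, C_sub, C_add, map_ofNat, map_natCast, zero_add] at h1 ⊢
    linear_combination -h1 + (4 * C q.c * C (p.r 1) * C p.S - q.nuI 2) * R1
      - q.nuI 2 * R4 - q.nuI 1 * R3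
  obtain ⟨h3, h4⟩ := DhK_solve' h2
  exact ⟨h3, sub_eq_zero.1 ((mul_eq_zero.1 h4).resolve_right (q.n0_ne hc))⟩

/-- the obstruction -/
noncomputable def Rad.rho0 (q : p.Rad) : F :=
  p.Dh q.w (2 * q.c * q.FR) - 3 * (2⁻¹ * p.D p.S) * (2 * q.c * p.r 1)
    - p.Dh q.w (p.Dh q.w (p.Dh q.w (2 * q.c * p.r 1))) - 3 * p.S * p.Dh q.w (2 * q.c * p.r 1)

theorem Sym.cLast (h : Sym q V Y n) (he : q.e = 0) (hc : q.c ≠ 0) :
    k1 V n * q.rho0 + (del q V Y n - b3 p V n) * (2 * q.c * p.r 1) = 0 := by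
  have := p.charZero
  have h1 := h.ye.star n (fun a ha => h.cQ he hc a (by omega)) (h.cM he hc)
  obtain ⟨s, hs⟩ : ∃ s, p.D p.S = 2 * s := ⟨2⁻¹ * p.D p.S, by field_simp⟩
  have hs' : 2⁻¹ * p.D p.S = s := by rw [hs]; field_simp
  have hz2 : p.grad (n + 2) (p.Zf V)
      = C (3 * (n + 5) * (n + 4) * V.coeff (n + 4) * s
        + 2 * (2 * (n + 4) * V.coeff (n + 3) * p.S + b3 p V n))
        + C ((n + 5) * (n + 4) * V.coeff (n + 4) * p.S) * X := by
    have h2 := h.vs.z2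
    rw [h2]
    congr 2
    unfold b3
    rw [hs]
    field_simp
    ring
  have hdel : p.Eh q.w (n + 2) Y
      = k2 V n * p.D q.ph + k1 V n * q.rh + k3 V n * q.ph + del q V Y n := by
    unfold del; ring
  obtain ⟨n0, hn0⟩ : ∃ x, x = 2 * q.c * p.r 1 := ⟨_, rfl⟩
  have hnu : q.nu = C n0 := by rw [hn0]; exact q.nu_of_zero he
  have hnu1 : q.nuI 1 = C (p.Dh q.w n0) + C n0 * X := by
    rw [Rad.nuI_succ, Rad.nuI_zero, hnu, DhK_C]
  have c1 := h.vs.const1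
  have c2 := h.vs.const2
  have c3 := h.vs.const3
  have cb := h.vs.lead
  have cb' := h.vs.sub
  have cb2 := h.vs.constb2
  have hdt1 : p.Dt q.FR (k1 V n) = 0 := c1.vfd_eq _ _
  have hdt0 : p.Dt q.FR n0 + q.gt * n0 = p.Dh q.w (2 * q.c * q.FR) := by
    have e1 : p.Dt q.FR (p.r 1) = p.D q.FR := by rw [Dt_r]; rfl
    have e2 : p.Dt q.FR (2 : F) = 0 := (p.isConst_ofNat 2).vfd_eq _ _
    rw [hn0, Dh_apply, der_mul, der_mul, der_mul, der_mul, e1, e2, (p.isConst_ofNat 2).D_eq,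
      q.hc.Dt_eq, q.hc.D_eq, Rad.gt, Rad.w]
    ring
  have t1 : p.DtK q.FR (C (k1 V n) * C n0) = C (k1 V n) * (C (p.Dt q.FR n0)
      + C n0 * (X ^ 3 + C (3 * p.S) * X + C (3 * s))) := by
    have e1 : (3 : F) / 2 * p.D p.S = 3 * s := by rw [hs]; field_simp
    rw [DtK_C_mul, hdt1, DtK_C, Fv, e1]; simp
  have u0 : p.DhK q.w (C (k1 V n) * q.nuI 0) = C (k1 V n) * q.nuI 1 := by
    rw [p.DhK_const_mul _ c1, ← Rad.nuI_succ]
  have u1 : p.DhK q.w (p.DhK q.w (C (k1 V n) * q.nuI 1)) = C (k1 V n) * q.nuI 3 := by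
    rw [p.DhK_const_mul _ c1, ← Rad.nuI_succ, p.DhK_const_mul _ c1, ← Rad.nuI_succ]
  have u2 : p.DhK q.w (p.DhK q.w (C (k2 V n) * q.nuI 1 + C (k3 V n) * q.nuI 0))
      = C (k2 V n) * q.nuI 3 + C (k3 V n) * q.nuI 2 := by
    simp only [map_add, p.DhK_const_mul _ c2, p.DhK_const_mul _ c3, ← Rad.nuI_succ]
  have hXX : p.ip X 1 = s := by rw [ip_X_one, hs']
  have i1 : p.ip (C (k1 V n) * C n0) 1 = k1 V n * (n0 * p.S) := by
    rw [ip_C_mul_left, ip_C_one]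
  have i2 : p.ip (C (k1 V n) * C n0) X = k1 V n * (n0 * s) := by
    rw [ip_C_mul_left, ip_C_X, hs']
  have i3 : p.ip (C (k2 V n) * q.nuI 1 + C (k3 V n) * C n0) 1
      = k2 V n * (p.Dh q.w n0 * p.S + n0 * s) + k3 V n * (n0 * p.S) := by
    rw [hnu1]
    simp only [ip_add_left, ip_C_mul_left, ip_C_one, hXX]
  have a1 : (3 * ((n : F) + 2) + 3 / 2) * p.D p.S = (6 * (n + 2) + 3) * s := by
    rw [hs]; field_simp; ring
  rw [(h.c2 he hc).1, (h.c1 he hc).1, hz2, Rad.Sg6, q.eI_of_zero he,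
    q.eI_of_zero he, q.eI_of_zero he, q.eI_of_zero he, he, (h.c3 he hc).2, (h.c2 he hc).2,
    (h.c1 he hc).2, hdel, ← Rad.nuI_zero, u0, u1, u2, Rad.nuI_zero, hnu, t1, i1, i2, i3, a1] at h1
  simp only [C_0, mul_zero, zero_mul, add_zero] at h1
  have hcK : ∀ (a : F), p.IsConst a → ∀ U : F[X], p.DhK q.w (C a * U) = C a * p.DhK q.w U :=
    fun a ha U => p.DhK_const_mul _ ha U
  have R1 := rel1 p V n
  have R2 := rel2 p V n
  have R3 := rel3 p V n
  have cn : ∀ k : ℕ, p.IsConst (k : F) := fun k => p.isConst_natCast k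
  have d2 : p.IsConst (((n + 5).choose 3 : ℕ) * V.coeff (n + 4) - k1 V n - 3 * k2 V n) :=
    (((cn _).mul cb).sub c1).sub ((p.isConst_ofNat 3).mul c2)
  have d3 : p.IsConst ((n + 5) * (n + 2) * V.coeff (n + 4)) :=
    (((cn n).add (p.isConst_ofNat 5)).mul ((cn n).add (p.isConst_ofNat 2))).mul cb
  have d4 : p.IsConst ((n + 3) * b2 p V n) := ((cn n).add (p.isConst_ofNat 3)).mul cb2
  have d6 : p.IsConst ((((n + 4).choose 2 : ℕ) - (n + 4)) * V.coeff (n + 3)) :=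
    ((cn _).sub ((cn n).add (p.isConst_ofNat 4))).mul cb'
  have v1 : p.DhK q.w (C (p.Dh q.w (p.Dh q.w n0)) - C (p.Dh q.w n0) * X + C n0 * X * X
      + C (3 * n0 * p.S)) = C (p.Dh q.w (p.Dh q.w (p.Dh q.w n0))) + C n0 * X ^ 3
        + C (3 * (p.Dh q.w n0 * p.S + n0 * (2 * s))) + C (3 * n0 * p.S) * X := by
    have e1 : p.Dh q.w (3 * n0 * p.S) = 3 * (p.Dh q.w n0 * p.S + n0 * (2 * s)) := by
      have e2 : p.D (3 * (n0 * p.S)) = 3 * p.D (n0 * p.S) :=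
        p.D_const_mul (p.isConst_ofNat 3) _
      rw [mul_assoc, Dh_apply, Dh_apply, e2, der_mul, hs]; ring
    rw [map_add, map_add, map_sub, DhK_mul_X, DhK_mul_X, DhK_mul_X, DhK_C, DhK_C, DhK_C, DhK_C,
      e1]
    ring
  have v2 : p.DhK q.w (C (n0 * p.S)) = C (p.Dh q.w n0 * p.S + n0 * (2 * s))
      + C (n0 * p.S) * X := by
    rw [DhK_C, Dh_apply, der_mul, hs, Dh_apply]
    congr 2
    ring
  have v3 : p.DhK q.w (C (q.ph * n0)) = C (p.D q.ph * n0 + q.ph * p.Dh q.w n0)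
      + C (q.ph * n0) * X := by
    rw [DhK_C, Dh_mul]
  have h2 : 3 * p.DhK q.w (p.grad n Y) = p.DhK q.w
      (C (k1 V n) * (C (p.Dh q.w (p.Dh q.w n0)) - C (p.Dh q.w n0) * X + C n0 * X * X
        + C (3 * n0 * p.S))
      + C (((n + 5).choose 3 : ℕ) * V.coeff (n + 4) - k1 V n - 3 * k2 V n) * q.nuI 2
      + C ((n + 5) * (n + 2) * V.coeff (n + 4)) * C (n0 * p.S)
      + C (k2 V n) * C (q.ph * n0)
      + C ((n + 3) * b2 p V n) * q.nuI 0
      + C ((((n + 4).choose 2 : ℕ) - (n + 4)) * V.coeff (n + 3)) * q.nuI 1)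
      + C (k1 V n * q.rho0 + (del q V Y n - b3 p V n) * n0) := by
    simp only [map_add (p.DhK q.w), hcK _ c1, hcK _ c2, hcK _ d2, hcK _ d3, hcK _ d4,
      hcK _ d6, ← Rad.nuI_succ]
    rw [v2, v3]
    have v1' := v1
    simp only [map_add (p.DhK q.w)] at v1'
    rw [v1']
    unfold Rad.rho0
    rw [hs', ← hn0, ← hdt0, zero_add, hnu1]
    rw [hnu1] at h1
    have hcr : (C n0 : F[X]) = 2 * C q.c * C (p.r 1) := by
      rw [hn0, C_mul, C_mul, map_ofNat]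
    push_cast at h1 ⊢
    simp only [Rad.nuI_zero, hnu, C_mul, C_sub, C_add, map_ofNat, map_natCast, zero_add] at h1 ⊢
    rw [hcr] at h1 ⊢
    linear_combination -h1 + ((3 * (n : F[X]) + 8) * C q.c * C (p.r 1) * C p.S * X
        + ((n : F[X]) + 2) * C p.S * C (p.Dh q.w n0)
        + (7 * (n : F[X]) + 20) * C q.c * C (p.r 1) * C s) * R1
      + (3 * C q.c * C (p.r 1) * C p.S * X + 3 * C p.S * C (p.Dh q.w n0)
        + 3 * C q.c * C (p.r 1) * C s
        - C q.ph * (C (p.Dh q.w n0) + 2 * C q.c * C (p.r 1) * X)) * R2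
      + (-q.nuI 2 + 4 * C q.c * C (p.r 1) * C p.S) * R3
  rw [← hn0]
  exact (DhK_solve h2).2

end Polar

end Pool.Agent.Lib.MP_4d1bc1_mp
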