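import Pool.Agent.Lib.MP_4d1bc1_mp.Levels

set_option autoImplicit false

/-! Descending through the levels: the case `e ≠ 0`. -/

namespace Pool.Agent.Lib.MP_4d1bc1_mp

open Finset Polynomial

universe u

variable {F : Type u} [Field F] [Algebra ℝ F]

namespace Polar

variable {p : Polar F} {q : p.Rad} {V : F[X]} {Y : F} {n : ℕ}

theorem DK_C_const {a : F} (ha : p.IsConst a) : p.DK (C a) = C a * X := by
  rw [DK_C, ha.D_eq]; simp

theorem Rad.eI_one (q : p.Rad) : q.eI 1 = C (p.Dh q.w q.e) + C q.e * X := by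
  rw [Rad.eI_succ, Rad.eI_zero, DhK_C]

theorem Sym.eM (h : Sym q V Y n) (he : q.e ≠ 0) (k : ℕ) (hk : n + 6 ≤ k) :
    p.Eh q.w k Y = 0 := by
  obtain ⟨k, rfl⟩ : ∃ k', k = k' + 1 := ⟨k - 1, by omega⟩
  exact (h.eFar he k (by omega)).2

theorem Sym.eQ (h : Sym q V Y n) (he : q.e ≠ 0) (a : ℕ) (ha : n + 4 ≤ a) :
    p.grad a Y = 0 := by
  rcases eq_or_lt_of_le ha with h1 | h1
  · rw [← h1]; exact (h.e4 he).1
  · exact (h.eFar he a (by omega)).1

theorem Sym.e3 (h : Sym q V Y n) (he : q.e ≠ 0) :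
    p.grad (n + 3) Y = C ((n + 5) / 3 * V.coeff (n + 4)) * C q.e
      ∧ p.Eh q.w (n + 4) Y = V.coeff (n + 3) := by
  have := p.charZero
  have h1 := h.ye.star (n + 3) (fun a ha => h.eQ he a (by omega)) (h.eM he)
  rw [show n + 3 + 2 = n + 5 by rfl, show n + 3 + 1 = n + 4 by rfl, h.eQ he (n + 5) (by omega),
    h.eQ he (n + 4) (by omega), h.vs.z5, h.vs.z4, show n + 6 = n + 3 + 3 by rfl,
    Rad.Sg3, show n + 3 + 2 = n + 5 by rfl, show n + 3 + 1 = n + 4 by rfl, (h.e4 he).2] at h1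
  simp only [map_zero, mul_zero, zero_mul, add_zero, zero_add, ip_zero_left] at h1
  have hk1 : p.IsConst ((n + 5 : F) / 3 * V.coeff (n + 4)) :=
    (((p.isConst_natCast n).add (p.isConst_ofNat 5)).div (p.isConst_ofNat 3)).mul h.vs.lead
  have hz : p.IsConst (2 * V.coeff (n + 4)) := (p.isConst_ofNat 2).mul h.vs.lead
  have e1 : (C (2⁻¹ * q.e) * (p.DK (C (2 * V.coeff (n + 4))) + C (2 * V.coeff (n + 3))) : F[X])
      = C q.e * (C (V.coeff (n + 4)) * X + C (V.coeff (n + 3))) := by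
    rw [DK_C_const hz]
    have e2 : (C (2⁻¹ * q.e) * (C (2 * V.coeff (n + 4)) * X + C (2 * V.coeff (n + 3))) : F[X])
      = C (2⁻¹ * 2 : F) * (C q.e * (C (V.coeff (n + 4)) * X + C (V.coeff (n + 3)))) := by
      simp only [C_mul]; ring
    rw [e2, inv_mul_cancel₀ two_ne_zero]; simp
  rw [e1] at h1
  have h2 : 3 * p.DhK q.w (p.grad (n + 3) Y)
      = 3 * p.DhK q.w (C ((n + 5) / 3 * V.coeff (n + 4)) * C q.e)
      + C ((p.Eh q.w (n + 4) Y - V.coeff (n + 3)) * q.e) := by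
    rw [p.DhK_const_mul _ hk1, ← Rad.eI_zero, ← Rad.eI_succ]
    have e3 : (3 * (C ((n + 5 : F) / 3 * V.coeff (n + 4)) * q.eI (0 + 1)) : F[X])
        = ((n : F[X]) + 5) * (C (V.coeff (n + 4)) * q.eI 1) := by
      have e4 : (C (3 * ((n + 5 : F) / 3 * V.coeff (n + 4))) : F[X])
          = ((n : F[X]) + 5) * C (V.coeff (n + 4)) := by
        have e5 : 3 * ((n + 5 : F) / 3 * V.coeff (n + 4)) = (n + 5) * V.coeff (n + 4) := by
          field_simp
        rw [e5, C_mul, C_add, map_natCast, map_ofNat]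
      rw [C_mul, map_ofNat] at e4
      linear_combination (q.eI 1) * e4
    rw [e3]
    unfold Rad.nu at h1
    push_cast at h1
    simp only [C_mul, C_sub, map_ofNat] at h1 ⊢
    linear_combination -h1
  obtain ⟨h3, h4⟩ := DhK_solve' h2
  exact ⟨h3, sub_eq_zero.1 ((mul_eq_zero.1 h4).resolve_right he)⟩

end Polar

end Pool.Agent.Lib.MP_4d1bc1_mp
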