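import Pool.Agent.Lib.MP_4d1bc1_mp.LevelsE

set_option autoImplicit false

/-! Descending through the levels: the case `e ≠ 0`, second part. -/

namespace Pool.Agent.Lib.MP_4d1bc1_mp

open Finset Polynomial

universe u

variable {F : Type u} [Field F] [Algebra ℝ F]

namespace Polar

variable {p : Polar F}

/-- first constant -/
noncomputable def k1 (V : F[X]) (n : ℕ) : F := (n + 5) / 3 * V.coeff (n + 4)
/-- second constant -/
noncomputable def k2 (V : F[X]) (n : ℕ) : F := (n + 5) * (n + 2) / 6 * V.coeff (n + 4)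
/-- third constant -/
noncomputable def k3 (V : F[X]) (n : ℕ) : F := (n + 4) / 3 * V.coeff (n + 3)
/-- integration constant -/
noncomputable def b2 (p : Polar F) (V : F[X]) (n : ℕ) : F :=
  V.coeff (n + 2) - (n + 4) * V.coeff (n + 4) * p.S
/-- integration constant -/
noncomputable def b3 (p : Polar F) (V : F[X]) (n : ℕ) : F :=
  V.coeff (n + 1) - (n + 3) * V.coeff (n + 3) * p.S
      - (n + 4) * (n + 2) / 2 * V.coeff (n + 4) * p.D p.S

variable {q : p.Rad} {V : F[X]} {Y : F} {n : ℕ}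

theorem rel1 (p : Polar F) (V : F[X]) (n : ℕ) :
    (3 : F[X]) * C (k1 V n) = ((n : F[X]) + 5) * C (V.coeff (n + 4)) := by
  have := p.charZero
  have e5 : 3 * k1 V n = (n + 5) * V.coeff (n + 4) := by unfold k1; field_simp
  rw [← map_ofNat C 3, ← C_mul, e5, C_mul, C_add, map_natCast, map_ofNat]

theorem rel2 (p : Polar F) (V : F[X]) (n : ℕ) :
    (2 : F[X]) * C (k2 V n) = ((n : F[X]) + 2) * C (k1 V n) := by
  have := p.charZero
  have e5 : 2 * k2 V n = (n + 2) * k1 V n := by unfold k1 k2; field_simp; ring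
  rw [← map_ofNat C 2, ← C_mul, e5, C_mul, C_add, map_natCast, map_ofNat]

theorem rel3 (p : Polar F) (V : F[X]) (n : ℕ) :
    (3 : F[X]) * C (k3 V n) = ((n : F[X]) + 4) * C (V.coeff (n + 3)) := by
  have := p.charZero
  have e5 : 3 * k3 V n = (n + 4) * V.coeff (n + 3) := by unfold k3; field_simp
  rw [← map_ofNat C 3, ← C_mul, e5, C_mul, C_add, map_natCast, map_ofNat]

theorem rel4 (p : Polar F) (V : F[X]) (n : ℕ) :
    (3 : F[X]) * C (k2 V n) = (((n + 5).choose 2 : ℕ) : F[X]) * C (V.coeff (n + 4))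
      - ((n : F[X]) + 5) * C (V.coeff (n + 4)) := by
  have := p.charZero
  have h2 := two_mul_choose_two (F := F) (n + 5)
  have e5 : 3 * k2 V n = (((n + 5).choose 2 : ℕ) : F) * V.coeff (n + 4)
      - (n + 5) * V.coeff (n + 4) := by
    unfold k2
    push_cast at h2
    field_simp
    linear_combination (-3 * V.coeff (n + 4)) * h2
  rw [← map_ofNat C 3, ← C_mul, e5, C_sub, C_mul, C_mul, C_add, map_natCast, map_natCast,
    map_ofNat]

theorem VSym.const1 (h : p.VSym q.FR V n) : p.IsConst (k1 V n) :=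
  (((p.isConst_natCast n).add (p.isConst_ofNat 5)).div (p.isConst_ofNat 3)).mul h.lead

theorem VSym.const2 (h : p.VSym q.FR V n) : p.IsConst (k2 V n) :=
  ((((p.isConst_natCast n).add (p.isConst_ofNat 5)).mul
    ((p.isConst_natCast n).add (p.isConst_ofNat 2))).div (p.isConst_ofNat 6)).mul h.lead

theorem VSym.const3 (h : p.VSym q.FR V n) : p.IsConst (k3 V n) :=
  (((p.isConst_natCast n).add (p.isConst_ofNat 4)).div (p.isConst_ofNat 3)).mul h.sub

theorem VSym.constb2 (h : p.VSym q.FR V n) : p.IsConst (b2 p V n) := h.third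
theorem VSym.constb3 (h : p.VSym q.FR V n) : p.IsConst (b3 p V n) := h.fourth

theorem ip_C_one (p : Polar F) (a : F) : p.ip (C a) 1 = a * p.S := by
  have := p.ip_C_mul_left a 1 1
  rw [mul_one] at this
  rw [this, ← pow_zero X, ip_X_pow]; rfl

theorem ip_X_one (p : Polar F) : p.ip X 1 = 2⁻¹ * p.D p.S := by
  rw [← kap01, p.ip_symm]
  have := p.ip_X_pow 0 1
  rw [pow_zero, pow_one] at this
  exact this

theorem ip_C_X (p : Polar F) (a : F) : p.ip (C a) X = a * (2⁻¹ * p.D p.S) := by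
  have := p.ip_C_mul_left a 1 X
  rw [mul_one] at this
  rw [this, p.ip_symm, ip_X_one]

theorem Sym.e2 (h : Sym q V Y n) (he : q.e ≠ 0) :
    p.grad (n + 2) Y = C (k1 V n) * q.nu + C (k2 V n) * q.eI 1 + C (k3 V n) * C q.e
      ∧ p.Eh q.w (n + 3) Y = k1 V n * q.ph + b2 p V n := by
  have := p.charZero
  have h1 := h.ye.star (n + 2) (fun a ha => h.eQ he a (by omega)) (h.eM he)
  have hz3 : p.grad (n + 3) (p.Zf V)
      = C (2 * ((2 * n + 10) * V.coeff (n + 4) * p.S + b2 p V n)) := h.vs.z3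
  have hq3 : p.grad (n + 3) Y = C (k1 V n) * C q.e := (h.e3 he).1
  rw [show n + 2 + 2 = n + 4 by rfl, show n + 2 + 1 = n + 3 by rfl, h.eQ he (n + 4) (by omega),
    h.vs.z4, hz3, show n + 6 = n + 2 + 4 by rfl,
    Rad.Sg4, show n + 2 + 3 = n + 5 by rfl, show n + 2 + 2 = n + 4 by rfl,
    show n + 2 + 1 = n + 3 by rfl, (h.e4 he).2, (h.e3 he).2, hq3,
    p.DhK_const_mul _ h.vs.const1, p.DhK_const_mul _ h.vs.const1, ← Rad.eI_zero, ← Rad.eI_succ,
    ← Rad.eI_succ] at h1
  simp only [map_zero, mul_zero, zero_mul, add_zero, zero_add, ip_zero_left] at h1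
  have hip : p.ip (C (k1 V n) * q.eI 0) 1 = k1 V n * (q.e * p.S) := by
    rw [Rad.eI_zero, ip_C_mul_left, ip_C_one]
  have hz : p.IsConst (2 * V.coeff (n + 3)) := (p.isConst_ofNat 2).mul h.vs.sub
  have e1 : (C (2⁻¹ * q.e) * (p.DK (C (2 * V.coeff (n + 3)))
      + C (2 * ((2 * n + 10) * V.coeff (n + 4) * p.S + b2 p V n))) : F[X])
      = C q.e * (C (V.coeff (n + 3)) * X
        + C ((2 * n + 10) * V.coeff (n + 4) * p.S + b2 p V n)) := by
    rw [DK_C_const hz]
    have e2 : (C (2⁻¹ * q.e) * (C (2 * V.coeff (n + 3)) * X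
        + C (2 * ((2 * n + 10) * V.coeff (n + 4) * p.S + b2 p V n))) : F[X])
      = C (2⁻¹ * 2 : F) * (C q.e * (C (V.coeff (n + 3)) * X
        + C ((2 * n + 10) * V.coeff (n + 4) * p.S + b2 p V n))) := by
      simp only [C_mul]; ring
    rw [e2, inv_mul_cancel₀ two_ne_zero]; simp
  rw [e1, hip] at h1
  have R1 := rel1 p V n
  have R3 := rel3 p V n
  have R4 := rel4 p V n
  have h2 : 3 * p.DhK q.w (p.grad (n + 2) Y)
      = 3 * p.DhK q.w (C (k1 V n) * q.nu + C (k2 V n) * q.eI 1 + C (k3 V n) * C q.e)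
      + C ((p.Eh q.w (n + 3) Y - (k1 V n * q.ph + b2 p V n)) * q.e) := by
    rw [map_add, map_add, p.DhK_const_mul _ h.vs.const1, p.DhK_const_mul _ h.vs.const2,
      p.DhK_const_mul _ h.vs.const3, ← Rad.eI_zero, ← Rad.nuI_zero, ← Rad.eI_succ,
      ← Rad.nuI_succ, ← Rad.eI_succ]
    unfold Rad.nu at h1
    rw [Rad.eI_zero] at h1
    push_cast at h1
    simp only [C_mul, C_sub, C_add, map_ofNat, map_natCast, zero_add] at h1 ⊢
    linear_combination -h1 + (2 * C q.e * C p.S - q.nuI 1 - q.eI 2) * R1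
      - q.eI 2 * R4 - q.eI 1 * R3
  obtain ⟨h3, h4⟩ := DhK_solve' h2
  exact ⟨h3, sub_eq_zero.1 ((mul_eq_zero.1 h4).resolve_right he)⟩

end Polar

end Pool.Agent.Lib.MP_4d1bc1_mp
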