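import Pool.Agent.Lib.MP_4d1bc1_mp.YBlock

set_option autoImplicit false

/-! Descending through the levels: the case `e ≠ 0`, last level. -/

namespace Pool.Agent.Lib.MP_4d1bc1_mp

open Finset Polynomial

universe u

variable {F : Type u} [Field F] [Algebra ℝ F]

namespace Polar

variable {p : Polar F} {q : p.Rad} {V : F[X]} {Y : F} {n : ℕ}

/-- integration constant of the radial block -/
noncomputable def del (q : p.Rad) (V : F[X]) (Y : F) (n : ℕ) : F :=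
  p.Eh q.w (n + 2) Y - (k2 V n * p.D q.ph + k1 V n * q.rh + k3 V n * q.ph)

/-- the obstruction -/
noncomputable def Rad.rho (q : p.Rad) : F :=
  q.ed * q.FR - 3 * (2⁻¹ * p.D p.S) * q.e - p.Dh q.w (p.Dh q.w (p.Dh q.w q.e))
    - 3 * p.S * p.Dh q.w q.e

theorem DtK_C (FR a : F) : p.DtK FR (C a) = C (p.Dt FR a) + C a * p.Fv := by
  have h := p.DtK_C_mul FR a 1
  rw [mul_one, mul_one] at h
  rw [h]
  have h2 := p.DtK_X_pow FR 0
  rw [pow_zero] at h2
  rw [h2, W_zero]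

theorem Sym.eLast (h : Sym q V Y n) (he : q.e ≠ 0) :
    k1 V n * q.rho + (del q V Y n - b3 p V n) * q.e = 0 := by
  have := p.charZero
  have h1 := h.ye.star (n + 1) (fun a ha => h.eQ he a (by omega)) (h.eM he)
  have hz3 : p.grad (n + 3) (p.Zf V)
      = C (2 * ((2 * n + 10) * V.coeff (n + 4) * p.S + b2 p V n)) := h.vs.z3
  obtain ⟨s, hs⟩ : ∃ s, p.D p.S = 2 * s := ⟨2⁻¹ * p.D p.S, by field_simp⟩
  obtain ⟨ε, hε⟩ : ∃ ε, q.e = 2 * ε := ⟨2⁻¹ * q.e, by field_simp⟩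
  have hs' : 2⁻¹ * p.D p.S = s := by rw [hs]; field_simp
  have hε' : 2⁻¹ * q.e = ε := by rw [hε]; field_simp
  have hz2 : p.grad (n + 2) (p.Zf V)
      = C (3 * (n + 5) * (n + 4) * V.coeff (n + 4) * s
        + 2 * (2 * (n + 4) * V.coeff (n + 3) * p.S + b3 p V n))
        + C ((n + 5) * (n + 4) * V.coeff (n + 4) * p.S) * X := by
    have h2 := h.vs.z2
    rw [h2]
    congr 2
    unfold b3
    rw [hs]
    field_simp
    ring
  have hq3 : p.grad (n + 3) Y = C (k1 V n) * C q.e := (h.e3 he).1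
  have hdel : p.Eh q.w (n + 2) Y
      = k2 V n * p.D q.ph + k1 V n * q.rh + k3 V n * q.ph + del q V Y n := by
    unfold del; ring
  rw [show n + 1 + 2 = n + 3 by rfl, show n + 1 + 1 = n + 2 by rfl, hq3, (h.e2 he).1,
    hz3, hz2, show n + 6 = n + 1 + 5 by rfl, Rad.Sg5, show n + 1 + 4 = n + 5 by rfl,
    show n + 1 + 3 = n + 4 by rfl, show n + 1 + 2 = n + 3 by rfl,
    show n + 1 + 1 = n + 2 by rfl, (h.e4 he).2, (h.e3 he).2, (h.e2 he).2, hdel] at h1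
  have c1 := h.vs.const1
  have c2 := h.vs.const2
  have c3 := h.vs.const3
  have cb := h.vs.lead
  have cb' := h.vs.sub
  have cb2 := h.vs.constb2
  have hdt1 : p.Dt q.FR (k1 V n) = 0 := c1.vfd_eq _ _
  have t1 : p.DtK q.FR (C (k1 V n) * C q.e) = C (k1 V n) * (C (p.E 0 q.e * q.FR)
      + C q.e * (X ^ 3 + C (3 * p.S) * X + C (3 * s))) := by
    have e1 : (3 : F) / 2 * p.D p.S = 3 * s := by rw [hs]; field_simp
    rw [DtK_C_mul, hdt1, DtK_C, q.he.Dt_eq, Fv, e1]; simp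
  have u0 : p.DhK q.w (C (k1 V n) * C q.e) = C (k1 V n) * q.eI 1 := by
    rw [p.DhK_const_mul _ c1, ← Rad.eI_zero, ← Rad.eI_succ]
  have u1 : p.DhK q.w (p.DhK q.w (C (k1 V n) * q.eI 1)) = C (k1 V n) * q.eI 3 := by
    rw [p.DhK_const_mul _ c1, ← Rad.eI_succ, p.DhK_const_mul _ c1, ← Rad.eI_succ]
  have u2 : p.DhK q.w (p.DhK q.w (C (k1 V n) * q.nu + C (k2 V n) * q.eI 1
      + C (k3 V n) * C q.e))
      = C (k1 V n) * q.nuI 2 + C (k2 V n) * q.eI 3 + C (k3 V n) * q.eI 2 := by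
    rw [← Rad.eI_zero, ← Rad.nuI_zero]
    simp only [map_add, p.DhK_const_mul _ c1, p.DhK_const_mul _ c2, p.DhK_const_mul _ c3,
      ← Rad.eI_succ, ← Rad.nuI_succ]
  have hXX : p.ip X 1 = s := by rw [ip_X_one, hs']
  have i1 : p.ip (C (k1 V n) * C q.e) 1 = k1 V n * (q.e * p.S) := by
    rw [ip_C_mul_left, ip_C_one]
  have i2 : p.ip (C (k1 V n) * C q.e) X = k1 V n * (q.e * s) := by
    rw [ip_C_mul_left, ip_C_X, hs']
  have i3 : p.ip (C (k1 V n) * q.nu + C (k2 V n) * q.eI 1 + C (k3 V n) * C q.e) 1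
      = k1 V n * (2 * q.c * p.r 1 * p.S + q.e * s)
        + k2 V n * (p.Dh q.w q.e * p.S + q.e * s) + k3 V n * (q.e * p.S) := by
    rw [Rad.eI_one, Rad.nu]
    simp only [ip_add_left, ip_C_mul_left, ip_C_one, hXX]
  have i4 : p.DK (C (2 * ((2 * n + 10) * V.coeff (n + 4) * p.S + b2 p V n)))
      = C (4 * (2 * n + 10) * V.coeff (n + 4) * s)
        + C (2 * ((2 * n + 10) * V.coeff (n + 4) * p.S + b2 p V n)) * X := by
    have cc1 : p.IsConst ((2 * n + 10) * V.coeff (n + 4)) :=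
      (((p.isConst_ofNat 2).mul (p.isConst_natCast n)).add (p.isConst_ofNat 10)).mul cb
    rw [DK_C, p.D_const_mul (p.isConst_ofNat 2), map_add, p.D_const_mul cc1, cb2.D_eq, hs]
    congr 2
    ring
  have a1 : (3 * (((n + 1 : ℕ) : F) + 2) + 3 / 2) * p.D p.S = (6 * (n + 3) + 3) * s := by
    rw [hs]; push_cast; field_simp; ring
  have a2 : (3 * (((n + 1 : ℕ) : F) + 3)) = 3 * (n + 4) := by push_cast; ring
  have a3 : (3 * (((n + 1 : ℕ) : F) + 2) + 6) = 3 * (n + 3) + 6 := by push_cast; ring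
  rw [t1, u0, u1, u2, i1, i2, i3, i4, a1, a2, a3, hε'] at h1
  -- the exact part
  have hcK : ∀ (a : F), p.IsConst a → ∀ U : F[X], p.DhK q.w (C a * U) = C a * p.DhK q.w U :=
    fun a ha U => p.DhK_const_mul _ ha U
  have R1 := rel1 p V n
  have R2 := rel2 p V n
  have R3 := rel3 p V n
  have cn : ∀ k : ℕ, p.IsConst (k : F) := fun k => p.isConst_natCast k
  have d1 : p.IsConst (((n + 5).choose 2 : ℕ) * V.coeff (n + 4) - 3 * k1 V n) :=
    ((cn _).mul cb).sub ((p.isConst_ofNat 3).mul c1)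
  have d2 : p.IsConst (((n + 5).choose 3 : ℕ) * V.coeff (n + 4) - k1 V n - 3 * k2 V n) :=
    (((cn _).mul cb).sub c1).sub ((p.isConst_ofNat 3).mul c2)
  have d3 : p.IsConst ((n + 5) * (n + 2) * V.coeff (n + 4)) :=
    (((cn n).add (p.isConst_ofNat 5)).mul ((cn n).add (p.isConst_ofNat 2))).mul cb
  have d4 : p.IsConst ((n + 3) * b2 p V n) := ((cn n).add (p.isConst_ofNat 3)).mul cb2
  have d5 : p.IsConst ((n + 4) * V.coeff (n + 3)) := ((cn n).add (p.isConst_ofNat 4)).mul cb'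
  have d6 : p.IsConst ((((n + 4).choose 2 : ℕ) - (n + 4)) * V.coeff (n + 3)) :=
    ((cn _).sub ((cn n).add (p.isConst_ofNat 4))).mul cb'
  have v1 : p.DhK q.w (C (p.Dh q.w (p.Dh q.w q.e)) - C (p.Dh q.w q.e) * X + C q.e * X * X
      + C (3 * q.e * p.S)) = C (p.Dh q.w (p.Dh q.w (p.Dh q.w q.e))) + C q.e * X ^ 3
        + C (3 * (p.Dh q.w q.e * p.S + q.e * (2 * s))) + C (3 * q.e * p.S) * X := by
    have e1 : p.Dh q.w (3 * q.e * p.S) = 3 * (p.Dh q.w q.e * p.S + q.e * (2 * s)) := by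
      have e2 : p.D (3 * (q.e * p.S)) = 3 * p.D (q.e * p.S) :=
        p.D_const_mul (p.isConst_ofNat 3) _
      rw [mul_assoc, Dh_apply, Dh_apply, e2, der_mul, hs]; ring
    rw [map_add, map_add, map_sub, DhK_mul_X, DhK_mul_X, DhK_mul_X, DhK_C, DhK_C, DhK_C, DhK_C,
      e1]
    ring
  have v2 : p.DhK q.w (C (q.e * p.S)) = C (p.Dh q.w q.e * p.S + q.e * (2 * s))
      + C (q.e * p.S) * X := by
    rw [DhK_C, Dh_apply, der_mul, hs, Dh_apply]
    congr 2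
    ring
  have v3 : p.DhK q.w (C (q.ph * q.e)) = C (p.D q.ph * q.e + q.ph * p.Dh q.w q.e)
      + C (q.ph * q.e) * X := by
    rw [DhK_C, Dh_mul]
  have h2 : 3 * p.DhK q.w (p.grad (n + 1) Y) = p.DhK q.w
      (C (k1 V n) * (C (p.Dh q.w (p.Dh q.w q.e)) - C (p.Dh q.w q.e) * X + C q.e * X * X
        + C (3 * q.e * p.S))
      + C (((n + 5).choose 2 : ℕ) * V.coeff (n + 4) - 3 * k1 V n) * q.nuI 1
      + C (((n + 5).choose 3 : ℕ) * V.coeff (n + 4) - k1 V n - 3 * k2 V n) * q.eI 2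
      + C ((n + 5) * (n + 2) * V.coeff (n + 4)) * C (q.e * p.S)
      + C (k2 V n) * C (q.ph * q.e)
      + C ((n + 3) * b2 p V n) * q.eI 0
      + C ((n + 4) * V.coeff (n + 3)) * q.nuI 0
      + C ((((n + 4).choose 2 : ℕ) - (n + 4)) * V.coeff (n + 3)) * q.eI 1)
      + C (k1 V n * q.rho + (del q V Y n - b3 p V n) * q.e) := by
    simp only [map_add (p.DhK q.w), hcK _ c1, hcK _ c2, hcK _ d1, hcK _ d2, hcK _ d3, hcK _ d4,
      hcK _ d5, hcK _ d6, ← Rad.eI_succ, ← Rad.nuI_succ]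
    rw [v2, v3]
    have v1' := v1
    simp only [map_add (p.DhK q.w)] at v1'
    rw [v1']
    unfold Rad.rho Rad.ed
    unfold Rad.nu Rad.gt at h1
    rw [hs'] 
    rw [Rad.eI_one] at h1 ⊢
    push_cast at h1 ⊢
    have hE : (C q.e : F[X]) = 2 * C ε := by rw [hε, C_mul, map_ofNat]
    simp only [Rad.eI_zero, Rad.nuI_zero, Rad.nu, C_mul, C_sub, C_add, map_ofNat, map_natCast,
      zero_add] at h1 ⊢
    rw [hE] at h1 ⊢
    linear_combination -h1 + (4 * C q.c * C (p.r 1) * C p.S + (3 * (n : F[X]) + 12) * C ε * C p.S * X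
      + ((n : F[X]) + 2) * C p.S * C (p.Dh q.w q.e) + (7 * (n : F[X]) + 28) * C ε * C s) * R1
      + (-C q.ph * (C (p.Dh q.w q.e) + 2 * C ε * X) + 3 * C ε * C p.S * X
        + 3 * C p.S * C (p.Dh q.w q.e) + 3 * C ε * C s) * R2
      + (-q.eI 2 + 4 * C ε * C p.S) * R3
  exact (DhK_solve h2).2

end Polar

end Pool.Agent.Lib.MP_4d1bc1_mp
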