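import Pool.Agent.Lib.MP_4d1bc1_mp.Final

set_option autoImplicit false

/-! The classification in jet coordinates. -/

namespace Pool.Agent.Lib.MP_4d1bc1_mp

open Finset Polynomial

universe u

variable {F : Type u} [Field F] [Algebra ℝ F]

/-- first case -/
def Case1 (w a1 a2 a3 : F) : Prop := a1 * w = 3 ∧ (a3 - a2) * w ^ 2 = -6

/-- second case -/
def Case2 (w a1 a2 a3 a4 a1' a2' : F) : Prop :=
  a1 + (a3 - a2) * w = 0 ∧ 6 * a1' = 3 * a2 - a1 * (a1 + a2 * w) ∧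
    9 * w * a4 = 6 * a1' + 6 * w * a2' - 12 * a2 + (a1 + a2 * w) ^ 2

namespace Link

variable {J : Jet F} {R : F} {p : Polar F} (L : Link J R p)
variable {a1 a2 a3 a4 : F} (h1 : J.Fn a1) (h2 : J.Fn a2) (h3 : J.Fn a3) (h4 : J.Fn a4)

include L

omit L in
theorem d_ofNat (J : Jet F) (n : ℕ) [n.AtLeastTwo] : J.d (OfNat.ofNat n : F) = 0 := der_ofNat _ n

theorem E0_R : p.E 0 R = 1 := by rw [← L.r0, Polar.E_r, if_pos rfl]

theorem case1_iff : ((L.rad h1 h2 h3 h4).c = 0 ∧ (L.rad h1 h2 h3 h4).e = 0)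
    ↔ Case1 (J.u 0 0) a1 a2 a3 := by
  have := p.charZero
  have hR := L.root.ne
  unfold Case1
  rw [← L.root.sq]
  change (3 + a1 * R * R - a2 * R * R * R * R + a3 * R * R * R * R = 0
    ∧ -3 * R + a1 * R * R * R = 0) ↔ _
  constructor
  · rintro ⟨hc, he⟩
    have e1 : a1 * R ^ 2 = 3 := by
      have : R * (a1 * R ^ 2 - 3) = 0 := by linear_combination he
      exact sub_eq_zero.1 ((mul_eq_zero.1 this).resolve_left hR)
    exact ⟨e1, by linear_combination hc - e1⟩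
  · rintro ⟨e1, e2⟩
    exact ⟨by linear_combination e2 + e1, by linear_combination R * e1⟩

theorem der_R_inv : p.E 0 R⁻¹ = - R⁻¹ ^ 2 := by
  have hR := L.root.ne
  have h : p.E 0 (R * R⁻¹) = 0 := by
    rw [mul_inv_cancel₀ hR]; exact Derivation.map_one_eq_zero _
  rw [der_mul, L.E0_R] at h
  have h3 : R * R⁻¹ = 1 := mul_inv_cancel₀ hR
  linear_combination R⁻¹ * h - p.E 0 R⁻¹ * h3

theorem ed_eq : (L.rad h1 h2 h3 h4).ed = 3 + (R ^ 2) ^ 2 * (2 * J.d a1 - a2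
    + 3⁻¹ * a1 * (a1 + a2 * R ^ 2)) := by
  have := p.charZero
  have hR := L.root.ne
  have c3 : p.E 0 (-3 : F) = 0 := by rw [map_neg, der_ofNat, neg_zero]
  rw [Polar.Rad.ed]
  change p.E 0 (-3 * R + a1 * R * R * R) + 3⁻¹ * (-6 / R + a1 * R + a2 * R * R * R)
    * (-3 * R + a1 * R * R * R) = _
  rw [map_add]
  simp only [der_mul, L.E0_R, L.E0_fn h1, c3]
  field_simp
  ring

theorem J_eq : (L.rad h1 h2 h3 h4).J = R ^ 2 * (a3 + a4 * R ^ 2 + 3⁻¹ * a2 - 2 / 3 * J.d a1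
    - 2 / 3 * R ^ 2 * J.d a2 - 9⁻¹ * (a1 + a2 * R ^ 2) ^ 2) + a1 := by
  have := p.charZero
  have hR := L.root.ne
  have c6 : p.E 0 (-6 : F) = 0 := by rw [map_neg, der_ofNat, neg_zero]
  rw [Polar.Rad.J]
  change 6 / (R * R) + a3 * R * R + a4 * R * R * R * R
    - 3⁻¹ * p.E 0 (-6 / R + a1 * R + a2 * R * R * R)
    - 9⁻¹ * (-6 / R + a1 * R + a2 * R * R * R) ^ 2 = _
  rw [map_add, map_add, div_eq_mul_inv (-6) R]
  simp only [der_mul, L.E0_R, L.E0_fn h1, L.E0_fn h2, c6, L.der_R_inv]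
  field_simp
  ring

theorem case2_iff : ((L.rad h1 h2 h3 h4).c = 3 ∧ (L.rad h1 h2 h3 h4).ed = 3
    ∧ (L.rad h1 h2 h3 h4).J = 0) ↔ Case2 (J.u 0 0) a1 a2 a3 a4 (J.d a1) (J.d a2) := by
  have := p.charZero
  have hR := L.root.ne
  have hR2 : R ^ 2 ≠ 0 := pow_ne_zero _ hR
  rw [L.ed_eq, L.J_eq]
  unfold Case2
  rw [← L.root.sq]
  change (3 + a1 * R * R - a2 * R * R * R * R + a3 * R * R * R * R = 3 ∧ _) ↔ _
  constructor
  · rintro ⟨hc, he, hJ⟩
    have e1 : a1 + (a3 - a2) * R ^ 2 = 0 := by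
      have : R ^ 2 * (a1 + (a3 - a2) * R ^ 2) = 0 := by linear_combination hc
      exact (mul_eq_zero.1 this).resolve_left hR2
    have e2 : 2 * J.d a1 - a2 + 3⁻¹ * a1 * (a1 + a2 * R ^ 2) = 0 := by
      have : (R ^ 2) ^ 2 * (2 * J.d a1 - a2 + 3⁻¹ * a1 * (a1 + a2 * R ^ 2)) = 0 := by
        linear_combination he
      exact (mul_eq_zero.1 this).resolve_left (pow_ne_zero _ hR2)
    refine ⟨e1, ?_, ?_⟩
    · field_simp at e2
      linear_combination e2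
    · have e3 : R ^ 2 * (a3 + a4 * R ^ 2 + 3⁻¹ * a2 - 2 / 3 * J.d a1
        - 2 / 3 * R ^ 2 * J.d a2 - 9⁻¹ * (a1 + a2 * R ^ 2) ^ 2 - a3 + a2) = 0 := by
        linear_combination hJ - e1
      have e4 := (mul_eq_zero.1 e3).resolve_left hR2
      field_simp at e4
      apply mul_left_cancel₀ (three_ne_zero : (3 : F) ≠ 0)
      linear_combination e4
  · rintro ⟨e1, e2, e3⟩
    have i3 : (3 : F) * 3⁻¹ = 1 := mul_inv_cancel₀ (by norm_num)
    have i9 : (9 : F) * 9⁻¹ = 1 := mul_inv_cancel₀ (by norm_num)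
    refine ⟨by linear_combination R ^ 2 * e1, ?_, ?_⟩
    · have e4 : 2 * J.d a1 - a2 + 3⁻¹ * a1 * (a1 + a2 * R ^ 2) = 0 := by
        field_simp
        linear_combination e2
      rw [e4]; ring
    · have e4 : (a3 + a4 * R ^ 2 + 3⁻¹ * a2 - 2 / 3 * J.d a1
        - 2 / 3 * R ^ 2 * J.d a2 - 9⁻¹ * (a1 + a2 * R ^ 2) ^ 2 - a3 + a2) = 0 := by
        field_simp
        linear_combination 3 * e3
      linear_combination R ^ 2 * e4 + e1

omit L in
/-- the equation -/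
noncomputable def eqn (J : Jet F) (a1 a2 a3 a4 : F) : F[X] :=
  X ^ 3 + C (-3 * (J.u 0 1 / J.u 0 0)) * X ^ 2
      + C (6 * (J.u 0 1 ^ 2 / J.u 0 0 ^ 2) - 3 * (J.u 0 2 / J.u 0 0)) * X
      + C (a1 * J.u 1 2 + a2 * J.u 0 1 * J.u 0 2 + a3 * J.u 0 1 * J.u 1 1 + a4 * J.u 0 1 ^ 3)

include h1 h2 h3 h4

theorem necessary {m : ℕ} (hm : 5 ≤ m) {G : F[X]} (hG : G.natDegree = m)
    (hc : J.evoV (eqn J a1 a2 a3 a4) G = J.evoV G (eqn J a1 a2 a3 a4)) :
    Case1 (J.u 0 0) a1 a2 a3 ∨ Case2 (J.u 0 0) a1 a2 a3 a4 (J.d a1) (J.d a2) := by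
  obtain ⟨n, rfl⟩ : ∃ n, m = n + 5 := ⟨m - 5, by omega⟩
  obtain ⟨Y, V, e1, e2, e3⟩ := L.decomp (n + 5) G
    (fun i hi => coeff_eq_zero_of_natDegree_lt (by omega))
  have h0 := (L.commute_iff (L.rad h1 h2 h3 h4) e1 (L.eqn_eq h1 h2 h3 h4)).1 hc
  have hs : Polar.Sym (L.rad h1 h2 h3 h4) V Y n := by
    refine ⟨⟨(L.rad h1 h2 h3 h4).radTop, h0.1, e2⟩, h0.2, ?_⟩
    rw [e3 (n + 4) rfl, ← hG]
    have hne : G ≠ 0 := by
      intro h
      rw [h, natDegree_zero] at hG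
      omega
    exact leadingCoeff_ne_zero.2 hne
  rcases hs.necessary with h | h
  · exact Or.inl ((L.case1_iff h1 h2 h3 h4).1 h)
  · exact Or.inr ((L.case2_iff h1 h2 h3 h4).1 h)

theorem sufficient (h : Case1 (J.u 0 0) a1 a2 a3 ∨
    Case2 (J.u 0 0) a1 a2 a3 a4 (J.d a1) (J.d a2)) {m : ℕ} (hm : Odd m) :
    ∃ G : F[X], G.natDegree = m ∧
      J.evoV (eqn J a1 a2 a3 a4) G = J.evoV G (eqn J a1 a2 a3 a4) := by
  have := p.charZero
  have hR := L.root.ne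
  obtain ⟨V, v1, v2, v3⟩ := p.exists_V m hm
  have hm1 : m - 1 + 1 = m := by have := hm.pos; omega
  have key : ∀ Y, (L.rad h1 h2 h3 h4).YEq Y (p.Zf V) → ∃ G : F[X], G.natDegree = m ∧
      J.evoV (eqn J a1 a2 a3 a4) G = J.evoV G (eqn J a1 a2 a3 a4) := by
    intro Y hY
    refine ⟨C Y * Jet.vv R + C R * iota J R V, ?_, (L.commute_iff (L.rad h1 h2 h3 h4) rfl
      (L.eqn_eq h1 h2 h3 h4)).2 ⟨v3 _, hY⟩⟩
    have hco : ∀ i, m ≤ i → (C Y * Jet.vv R + C R * iota J R V).coeff i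
        = if i = m then 2 else 0 := by
      intro i hi
      obtain ⟨i, rfl⟩ : ∃ i', i = i' + 1 := ⟨i - 1, by omega⟩
      have h5 := iota_top J R (V := V) (d := i) (fun j hj => v1 j (by omega))
      rw [coeff_add, coeff_C_mul, coeff_C_mul, h5, Jet.vv, coeff_C, if_neg (by omega)]
      by_cases h6 : i + 1 = m
      · rw [if_pos h6]
        have h7 : i = m - 1 := by omega
        rw [h7, v2]
        field_simp
        ring
      · rw [if_neg h6, v1 i (by omega)]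
        ring
    apply le_antisymm
    · rw [natDegree_le_iff_coeff_eq_zero]
      intro i hi
      rw [hco i (by omega), if_neg (by omega)]
    · apply le_natDegree_of_ne_zero
      rw [hco m le_rfl, if_pos rfl]
      exact two_ne_zero
  rcases h with h | h
  · apply key 0
    have h5 := (L.case1_iff h1 h2 h3 h4).2 h
    unfold Polar.Rad.YEq
    rw [h5.1, h5.2]
    simp
  · have h5 := (L.case2_iff h1 h2 h3 h4).2 h
    exact key _ (L.TT_YEq (L.rad h1 h2 h3 h4) h5.1 h5.2.1 h5.2.2 (v3 _))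

end Link

end Pool.Agent.Lib.MP_4d1bc1_mp
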