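import Pool.Agent.Lib.MP_4d1bc1_mp.Frame

set_option autoImplicit false

/-! Fields of differential functions of the jet of a vector `u = R v`, `|v| = 1`, in the
variables `r i = ∂ₓ^i R` and `kap i j = ⟨∇^i vₓ, ∇^j vₓ⟩`. -/

namespace Pool.Agent.Lib.MP_4d1bc1_mp

open Finset Polynomial

universe u

/-- index of a variable -/
abbrev Idx : Type := ℕ ⊕ (ℕ × ℕ)

/-- A field of differential functions in the independent variables `r i` and `kap i j`. The
derivation `T.P (inl i)` is the partial derivative by `r i`, and `T.P (inr (i, j))` is the partial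
derivative by `kap i j`, times two if `i = j`. -/
structure Polar (F : Type u) [Field F] [Algebra ℝ F] where
  T : Frame Idx F
  r : ℕ → F
  kap : ℕ → ℕ → F
  kap_symm : ∀ i j, kap i j = kap j i
  P_symm : ∀ i j f, T.P (Sum.inr (i, j)) f = T.P (Sum.inr (j, i)) f
  P_r : ∀ i j, T.P (Sum.inl i) (r j) = if i = j then 1 else 0
  P_kap : ∀ i j l, T.P (Sum.inl i) (kap j l) = 0
  G_r : ∀ j l i, T.P (Sum.inr (j, l)) (r i) = 0
  G_kap : ∀ j l a b, T.P (Sum.inr (j, l)) (kap a b)
    = (if j = a ∧ l = b then 1 else 0) + (if j = b ∧ l = a then 1 else 0)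
  r_ne : r 0 ≠ 0

variable {F : Type u} [Field F] [Algebra ℝ F]

namespace Polar

variable (p : Polar F)

/-- partial derivative by `r i` -/
noncomputable def E (i : ℕ) : Derivation ℝ F F := p.T.P (Sum.inl i)

/-- (doubled on the diagonal) partial derivative by `kap i j` -/
noncomputable def G (i j : ℕ) : Derivation ℝ F F := p.T.P (Sum.inr (i, j))

theorem G_symm (i j : ℕ) (f : F) : p.G i j f = p.G j i f := p.P_symm i j f

@[simp] theorem E_r (i j : ℕ) : p.E i (p.r j) = if i = j then 1 else 0 := p.P_r i j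
@[simp] theorem E_kap (i j l : ℕ) : p.E i (p.kap j l) = 0 := p.P_kap i j l
@[simp] theorem G_r' (j l i : ℕ) : p.G j l (p.r i) = 0 := p.G_r j l i
theorem G_kap' (j l a b : ℕ) : p.G j l (p.kap a b)
    = (if j = a ∧ l = b then 1 else 0) + (if j = b ∧ l = a then 1 else 0) := p.G_kap j l a b

theorem charZero (_p : Polar F) : CharZero F := by
  exact charZero_of_injective_algebraMap (algebraMap ℝ F).injective

end Polar

end Pool.Agent.Lib.MP_4d1bc1_mp
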