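import Pool.Agent.Lib.MP_4d1bc1_mp.Dep

set_option autoImplicit false

/-! The polar variables as independent variables. -/

namespace Pool.Agent.Lib.MP_4d1bc1_mp

open Finset Polynomial

universe u

variable {F : Type u} [Field F] [Algebra ℝ F]

namespace Jet

variable {J : Jet F} {R : F}

/-- rank of a variable -/
def rk (a : Idx2) : ℕ := a.1.2 ^ 2 + a.1.1

theorem rk_lt {a b : Idx2} (h : rk b < rk a) :
    b.1.2 < a.1.2 ∨ (b.1.2 = a.1.2 ∧ b.1.1 < a.1.1) := by
  unfold rk at h
  have ha := a.2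
  have hb := b.2
  rcases lt_trichotomy b.1.2 a.1.2 with h1 | h1 | h1
  · exact Or.inl h1
  · refine Or.inr ⟨h1, ?_⟩
    rw [h1] at h
    omega
  · exfalso
    nlinarith

theorem rk_inj : Function.Injective rk := by
  intro a b h
  unfold rk at h
  have ha := a.2
  have hb := b.2
  have h1 : a.1.2 = b.1.2 := by
    rcases lt_trichotomy b.1.2 a.1.2 with h1 | h1 | h1
    · nlinarith
    · exact h1.symm
    · nlinarith
  have h2 : a.1.1 = b.1.1 := by rw [h1] at h; omega
  exact Subtype.ext (Prod.ext h2 h1)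

instance : Infinite Idx2 :=
  Infinite.of_injective (fun n : ℕ => (⟨(0, n), Nat.zero_le _⟩ : Idx2)) (by
    intro a b h
    exact congrArg (fun a : Idx2 => a.1.2) h)

/-- the new variables -/
noncomputable def yy (J : Jet F) (R : F) (a : Idx2) : F :=
  match a.1.1 with
  | 0 => J.D^[a.1.2] R
  | i + 1 => J.kp R i (a.1.2 - 1)

theorem yy_zero (J : Jet F) (R : F) (j : ℕ) :
    J.yy R ⟨(0, j), Nat.zero_le _⟩ = J.D^[j] R := rfl

theorem yy_succ (J : Jet F) (R : F) (i j : ℕ) (h : i + 1 ≤ j + 1) :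
    J.yy R ⟨(i + 1, j + 1), h⟩ = J.kp R i j := rfl

theorem P_eq (J : Jet F) (a : Idx2) (f : F) : J.T.P a f
    = (if a.1.1 = a.1.2 then (2 : F)⁻¹ else 1) * (J.grad a.1.2 f).coeff a.1.1 := by
  have := J.charZero
  rw [coeff_grad, Gu_apply, mk2_val]
  split_ifs
  · field_simp
  · ring

theorem IsRoot.tri_up (h : J.IsRoot R) (a b : Idx2) (hab : rk b < rk a) :
    J.T.P a (J.yy R b) = 0 := by
  rw [P_eq]
  obtain ⟨⟨i, j⟩, hij⟩ := b
  obtain ⟨⟨k, l⟩, hkl⟩ := a
  have h1 := rk_lt hab
  simp only at h1 hij hkl ⊢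
  cases i with
  | zero =>
    rw [yy_zero]
    rcases h1 with h1 | ⟨rfl, h1⟩
    · rw [(h.grad_iter j).2 l h1]; simp
    · have hk : k ≠ 0 := by omega
      rw [(h.grad_iter _).1, coeff_C, if_neg hk, mul_zero]
  | succ i =>
    obtain ⟨j, rfl⟩ : ∃ j', j = j' + 1 := ⟨j - 1, by omega⟩
    rw [yy_succ]
    rcases h1 with h1 | ⟨rfl, h1⟩
    · rw [h.grad_kp_far (by omega) h1]; simp
    · rcases Nat.lt_or_ge i j with h2 | h2
      · rw [h.grad_kp_lt h2, coeff_C_mul, (kv_coeff J R i).1 k h1]; simp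
      · obtain rfl : i = j := by omega
        rw [h.grad_kp_eq, coeff_C_mul, (kv_coeff J R i).1 k h1]; simp

theorem IsRoot.tri_diag (h : J.IsRoot R) (a : Idx2) : J.T.P a (J.yy R a) ≠ 0 := by
  have := J.charZero
  have hR := inv_ne_zero h.ne
  rw [P_eq]
  obtain ⟨⟨i, j⟩, hij⟩ := a
  simp only at hij ⊢
  apply mul_ne_zero
  · split_ifs
    · exact inv_ne_zero two_ne_zero
    · exact one_ne_zero
  cases i with
  | zero =>
    rw [yy_zero, (h.grad_iter j).1, coeff_C, if_pos rfl]
    exact hR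
  | succ i =>
    obtain ⟨j, rfl⟩ : ∃ j', j = j' + 1 := ⟨j - 1, by omega⟩
    rw [yy_succ]
    rcases Nat.lt_or_ge i j with h2 | h2
    · rw [h.grad_kp_lt h2, coeff_C_mul, (kv_coeff J R i).2]
      exact mul_ne_zero hR hR
    · obtain rfl : i = j := by omega
      rw [h.grad_kp_eq, coeff_C_mul, (kv_coeff J R i).2]
      exact mul_ne_zero (mul_ne_zero two_ne_zero hR) hR

/-- THE POLAR VARIABLES -/
theorem exists_polar (h : J.IsRoot R) : ∃ p : Polar F, (∀ i, p.r i = J.D^[i] R)
    ∧ (∀ i j, p.kap i j = J.kp R i j)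
    ∧ (∀ (c : Idx2 → F) (f : F), J.T.vf c f
      = p.vfd (fun i => J.T.vf c (p.r i)) (fun i j => J.T.vf c (p.kap i j)) f)
    ∧ (∀ i, J.T.IsVF (p.E i)) ∧ ∀ i j, J.T.IsVF (p.G i j) := by
  classical
  have := J.charZero
  obtain ⟨T2, hy, -, hz, hvf⟩ := exists_frame J.T (J.yy R) rk rk_inj h.tri_up h.tri_diag
  have bound : ∀ f : F, ∃ N, ∀ a : Idx2, N ≤ a.1.2 → T2.P a f = 0 := by
    intro f
    refine ⟨(T2.fin f).toFinset.sup (fun a => a.1.2) + 1, fun a ha => ?_⟩
    apply T2.P_notMem f
    intro hs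
    have : a.1.2 ≤ (T2.fin f).toFinset.sup (fun a => a.1.2) :=
      Finset.le_sup (f := fun a : Idx2 => a.1.2) hs
    omega
  let P : Idx → Derivation ℝ F F := Sum.elim (fun i => T2.P ⟨(0, i), Nat.zero_le _⟩)
    (fun ij => (if ij.1 = ij.2 then (2 : ℝ) else 1) • T2.P (mk2 (ij.1 + 1) (ij.2 + 1)))
  have hPr : ∀ i, P (Sum.inl i) = T2.P ⟨(0, i), Nat.zero_le _⟩ := fun i => rfl
  have hPk : ∀ i j f, P (Sum.inr (i, j)) f
      = (if i = j then (2 : F) else 1) * T2.P (mk2 (i + 1) (j + 1)) f := by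
    intro i j f
    change ((if i = j then (2 : ℝ) else 1) • T2.P (mk2 (i + 1) (j + 1))) f = _
    have h1 : algebraMap ℝ F (if i = j then (2 : ℝ) else 1) = if i = j then 2 else 1 := by
      split_ifs
      · exact map_ofNat _ 2
      · exact map_one _
    rw [Derivation.smul_apply, Algebra.smul_def, h1]
  have hPk' : ∀ i j f, P (Sum.inr (i, j)) f
      = (if i = j then (2 : ℝ) else 1) • T2.P (mk2 (i + 1) (j + 1)) f := by
    intro i j f
    rfl
  let T3 : Frame Idx F :=
    { P := P
      comm := by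
        intro a b f
        rcases a with i | ⟨i, j⟩ <;> rcases b with k | ⟨k, l⟩
        · exact T2.comm _ _ _
        · rw [hPk', hPk', hPr, Derivation.map_smul, T2.comm]
        · rw [hPk', hPk', hPr, Derivation.map_smul, T2.comm]
        · rw [hPk', hPk', hPk', hPk', Derivation.map_smul, Derivation.map_smul, T2.comm,
            smul_comm]
      fin := by
        intro f
        obtain ⟨N, hN⟩ := bound f
        refine (disjSum (range N) (range N ×ˢ range N)).finite_toSet.subset fun a ha => ?_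
        rcases a with i | ⟨i, j⟩
        · rw [Finset.mem_coe, inl_mem_disjSum, mem_range]
          by_contra h1
          exact ha (hN _ (by simpa using h1))
        · rw [Finset.mem_coe, inr_mem_disjSum, mem_product, mem_range, mem_range]
          by_contra h1
          apply ha
          rw [hPk, hN _ ?_, mul_zero]
          change N ≤ max (i + 1) (j + 1)
          simp only [not_and_or, not_lt] at h1
          omega }
  have hkk : ∀ i j, J.kp R i j = J.yy R (mk2 (i + 1) (j + 1)) := by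
    intro i j
    rcases le_total i j with h1 | h1
    · rw [mk2_of_le (by omega : i + 1 ≤ j + 1), yy_succ]
    · rw [mk2_comm, mk2_of_le (by omega : j + 1 ≤ i + 1), yy_succ, kp_symm]
  let p : Polar F :=
    { T := T3
      r := fun i => J.D^[i] R
      kap := J.kp R
      kap_symm := J.kp_symm R
      P_symm := by
        intro i j f
        change P _ f = P _ f
        rw [hPk, hPk, mk2_comm]
        simp only [eq_comm]
      P_r := by
        intro i j
        change T2.P ⟨(0, i), Nat.zero_le _⟩ (J.D^[j] R) = _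
        rw [← yy_zero, hy]
        congr 1
        simp
      P_kap := by
        intro i j l
        change T2.P ⟨(0, i), Nat.zero_le _⟩ (J.kp R j l) = _
        rw [hkk, hy, if_neg]
        intro h1
        have h2 : (0 : ℕ) = min (j + 1) (l + 1) := congrArg (fun a : Idx2 => a.1.1) h1
        omega
      G_r := by
        intro j l i
        change P _ (J.D^[i] R) = _
        have hne : mk2 (j + 1) (l + 1) ≠ ⟨(0, i), Nat.zero_le _⟩ := by
          intro h1
          have h2 : min (j + 1) (l + 1) = 0 := congrArg (fun a : Idx2 => a.1.1) h1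
          omega
        rw [hPk, ← yy_zero, hy, if_neg hne, mul_zero]
      G_kap := by
        intro j l a b
        change P _ (J.kp R a b) = _
        rw [hPk, hkk, hy]
        simp only [mk2_eq_iff, Nat.add_right_cancel_iff]
        by_cases hjl : j = l
        · subst hjl
          by_cases h1 : j = a ∧ j = b
          · obtain ⟨rfl, rfl⟩ := h1
            simp
            norm_num
          · have h2 : ¬ (j = b ∧ j = a) := fun h => h1 ⟨h.2, h.1⟩
            rw [if_neg h1, if_neg h2, if_neg (not_or.2 ⟨h1, h2⟩)]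
            ring
        · rw [if_neg hjl, one_mul]
          by_cases h1 : j = a ∧ l = b
          · have h2 : ¬ (j = b ∧ l = a) := by omega
            rw [if_pos h1, if_neg h2, if_pos (Or.inl h1)]; ring
          · by_cases h2 : j = b ∧ l = a
            · rw [if_neg h1, if_pos h2, if_pos (Or.inr h2)]; ring
            · rw [if_neg h1, if_neg h2, if_neg (not_or.2 ⟨h1, h2⟩)]; ring
      r_ne := h.ne }
  -- vector fields
  have hE : ∀ i, J.T.IsVF (p.E i) := fun i => hvf _
  have hG : ∀ i j, J.T.IsVF (p.G i j) := by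
    intro i j
    obtain ⟨c, hc⟩ := hvf (mk2 (i + 1) (j + 1))
    refine ⟨fun a => (if i = j then (2 : F) else 1) * c a, fun f => ?_⟩
    rw [J.T.vf_mul, ← hc]
    exact hPk i j f
  refine ⟨p, fun i => rfl, fun i j => rfl, fun c f => ?_, hE, hG⟩
  have hvfd : ∀ (c : ℕ → F) (e : ℕ → ℕ → F), J.T.IsVF (p.vfd c e) := by
    intro c e
    refine ⟨fun a => p.vfd c e (J.U a), fun f => ?_⟩
    obtain ⟨N, hN⟩ := p.exists_bd f
    let A := (J.T.fin f).toFinset
    let M := N + ∑ a ∈ A, p.bd (J.U a)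
    have hδ : J.T.IsVF (fun g => ∑ i ∈ range M, c i * p.E i g
        + 2⁻¹ * ∑ i ∈ range M, ∑ j ∈ range M, e i j * p.G i j g) := by
      refine Frame.IsVF.add (Frame.IsVF.sum _ fun i _ => (hE i).mul _)
        (Frame.IsVF.mul ?_ _)
      exact Frame.IsVF.sum _ fun i _ => Frame.IsVF.sum _ fun j _ => (hG i j).mul _
    obtain ⟨d, hd⟩ := hδ
    have h1 : p.vfd c e f = J.T.vf d f := by
      rw [← hd, p.vfd_eq_sum c e f M (hN.mono (Nat.le_add_right _ _))]
    have h2 : ∀ a ∈ A, d a = p.vfd c e (J.U a) := by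
      intro a ha
      have h3 : p.Bd (J.U a) M := (p.bd_spec (J.U a)).mono
        ((Finset.single_le_sum (f := fun a => p.bd (J.U a)) (fun _ _ => Nat.zero_le _) ha).trans
          (Nat.le_add_left _ _))
      rw [← J.vf_U d a, ← hd, p.vfd_eq_sum c e _ M h3]
    rw [h1, J.T.vf_eq_sum _ f A (J.T.P_notMem f), J.T.vf_eq_sum _ f A (J.T.P_notMem f)]
    exact sum_congr rfl fun a ha => by rw [h2 a ha]
  obtain ⟨d, hd⟩ := hvfd (fun i => J.T.vf c (p.r i)) (fun i j => J.T.vf c (p.kap i j))
  rw [hd]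
  have h1 := hz (fun a => c a - d a) (fun a => by
    rw [J.T.vf_sub, ← hd]
    obtain ⟨⟨i, j⟩, hij⟩ := a
    simp only at hij
    cases i with
    | zero =>
      have e1 : J.yy R ⟨(0, j), hij⟩ = p.r j := rfl
      rw [e1, p.vfd_r, sub_self]
    | succ i =>
      obtain ⟨j, rfl⟩ : ∃ j', j = j' + 1 := ⟨j - 1, by omega⟩
      have e1 : J.yy R ⟨(i + 1, j + 1), hij⟩ = p.kap i j := rfl
      rw [e1, p.vfd_kap _ _ (fun i j => by rw [p.kap_symm]), sub_self]) f
  rw [J.T.vf_sub] at h1
  exact sub_eq_zero.1 h1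

end Jet

end Pool.Agent.Lib.MP_4d1bc1_mp
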