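import Pool.Agent.Lib.MP_4d1bc1_mp.TimeGrad

set_option autoImplicit false

/-! Power series in a parameter. -/

namespace Pool.Agent.Lib.MP_4d1bc1_mp

open Finset Polynomial

universe u

/-- an additive map acting on the coefficients of a power series -/
noncomputable def sm {A : Type u} [CommRing A] (φ : A →+ A) : PowerSeries A →+ PowerSeries A where
  toFun U := PowerSeries.mk fun n => φ (PowerSeries.coeff n U)
  map_zero' := by ext n; simp
  map_add' U W := by ext n; simp

@[simp] theorem coeff_sm {A : Type u} [CommRing A] (φ : A →+ A) (U : PowerSeries A) (n : ℕ) :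
    PowerSeries.coeff n (sm φ U) = φ (PowerSeries.coeff n U) := by
  change PowerSeries.coeff n (PowerSeries.mk fun n => φ (PowerSeries.coeff n U)) = _
  rw [PowerSeries.coeff_mk]

theorem sm_X_mul {A : Type u} [CommRing A] (φ : A →+ A) (U : PowerSeries A) :
    sm φ (PowerSeries.X * U) = PowerSeries.X * sm φ U := by
  ext n
  cases n with
  | zero => rw [coeff_sm, PowerSeries.coeff_zero_X_mul, PowerSeries.coeff_zero_X_mul, map_zero]
  | succ n =>
    rw [coeff_sm, PowerSeries.coeff_succ_X_mul, PowerSeries.coeff_succ_X_mul, coeff_sm]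

theorem sm_C {A : Type u} [CommRing A] (φ : A →+ A) (a : A) :
    sm φ (PowerSeries.C a) = PowerSeries.C (φ a) := by
  ext n
  rw [coeff_sm, PowerSeries.coeff_C, PowerSeries.coeff_C]
  split_ifs <;> simp

theorem sm_comm {A : Type u} [CommRing A] (φ ψ : A →+ A) (h : ∀ a, φ (ψ a) = ψ (φ a))
    (U : PowerSeries A) : sm φ (sm ψ U) = sm ψ (sm φ U) := by
  ext n
  simp only [coeff_sm, h]

variable {F : Type u} [Field F] [Algebra ℝ F]

/-- scalar series as tangent series -/
noncomputable def cS : PowerSeries F →+* PowerSeries F[X] := PowerSeries.map (C : F →+* F[X])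

@[simp] theorem coeff_cS (a : PowerSeries F) (n : ℕ) :
    PowerSeries.coeff n (cS a) = C (PowerSeries.coeff n a) := PowerSeries.coeff_map _ _ _

theorem cS_X : (cS (PowerSeries.X : PowerSeries F)) = PowerSeries.X := PowerSeries.map_X _

theorem sm_cS (δ : F →+ F) (a : PowerSeries F) (φ : F[X] →+ F[X]) (h : ∀ a, φ (C a) = C (δ a)) :
    sm φ (cS a) = cS (sm δ a) := by
  ext n
  rw [coeff_sm, coeff_cS, coeff_cS, coeff_sm, h]

theorem sm_mul (δ : F →+ F) (h : ∀ a b, δ (a * b) = δ a * b + a * δ b) (a b : PowerSeries F) :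
    sm δ (a * b) = sm δ a * b + a * sm δ b := by
  ext n
  rw [coeff_sm, PowerSeries.coeff_mul, map_sum, map_add, PowerSeries.coeff_mul,
    PowerSeries.coeff_mul, ← sum_add_distrib]
  exact sum_congr rfl fun x _ => by rw [h, coeff_sm, coeff_sm]

theorem sm_cS_mul (δ : F →+ F) (φ : F[X] →+ F[X])
    (h : ∀ a U, φ (C a * U) = C (δ a) * U + C a * φ U) (a : PowerSeries F)
    (U : PowerSeries F[X]) : sm φ (cS a * U) = cS (sm δ a) * U + cS a * sm φ U := by
  ext1 n
  rw [coeff_sm, PowerSeries.coeff_mul, map_sum, map_add, PowerSeries.coeff_mul,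
    PowerSeries.coeff_mul, ← sum_add_distrib]
  exact sum_congr rfl fun x _ => by
    rw [coeff_cS, h, coeff_sm, coeff_cS, coeff_sm]

namespace Polar

variable (p : Polar F)

/-- scalar product of tangent series -/
noncomputable def ipS (U W : PowerSeries F[X]) : PowerSeries F :=
  PowerSeries.mk fun n => ∑ ij ∈ antidiagonal n,
    p.ip (PowerSeries.coeff ij.1 U) (PowerSeries.coeff ij.2 W)

theorem coeff_ipS (U W : PowerSeries F[X]) (n : ℕ) : PowerSeries.coeff n (p.ipS U W)
    = ∑ ij ∈ antidiagonal n, p.ip (PowerSeries.coeff ij.1 U) (PowerSeries.coeff ij.2 W) := by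
  rw [ipS, PowerSeries.coeff_mk]

theorem ipS_add_left (U V W : PowerSeries F[X]) :
    p.ipS (U + V) W = p.ipS U W + p.ipS V W := by
  ext n
  rw [coeff_ipS, map_add, coeff_ipS, coeff_ipS, ← sum_add_distrib]
  exact sum_congr rfl fun x _ => by rw [map_add, ip_add_left]

theorem ipS_symm (U W : PowerSeries F[X]) : p.ipS U W = p.ipS W U := by
  ext n
  rw [coeff_ipS, coeff_ipS, ← Finset.Nat.sum_antidiagonal_swap]
  exact sum_congr rfl fun x _ => by rw [ip_symm]; rfl

theorem ipS_add_right (U V W : PowerSeries F[X]) :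
    p.ipS U (V + W) = p.ipS U V + p.ipS U W := by
  rw [ipS_symm, ipS_add_left, ipS_symm, p.ipS_symm W]

@[simp] theorem ipS_zero_left (W : PowerSeries F[X]) : p.ipS 0 W = 0 := by
  ext n
  rw [coeff_ipS]
  simp

@[simp] theorem ipS_zero_right (W : PowerSeries F[X]) : p.ipS W 0 = 0 := by
  rw [ipS_symm, ipS_zero_left]

theorem ipS_neg_left (U W : PowerSeries F[X]) : p.ipS (-U) W = - p.ipS U W := by
  have h := p.ipS_add_left U (-U) W
  rw [add_neg_cancel, ipS_zero_left] at h
  exact (neg_eq_of_add_eq_zero_right h.symm).symm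

theorem ipS_sub_left (U V W : PowerSeries F[X]) :
    p.ipS (U - V) W = p.ipS U W - p.ipS V W := by
  rw [sub_eq_add_neg, ipS_add_left, ipS_neg_left, sub_eq_add_neg]

theorem ipS_sub_right (U V W : PowerSeries F[X]) :
    p.ipS U (V - W) = p.ipS U V - p.ipS U W := by
  rw [ipS_symm, ipS_sub_left, ipS_symm, p.ipS_symm W]

theorem ipS_cS_mul_left (a : PowerSeries F) (U W : PowerSeries F[X]) :
    p.ipS (cS a * U) W = a * p.ipS U W := by
  ext1 n
  simp only [coeff_ipS, PowerSeries.coeff_mul, Finset.mul_sum, ip_sum_left, coeff_cS,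
    ip_C_mul_left, Finset.sum_sigma']
  apply Finset.sum_nbij' (fun ⟨⟨_i, j⟩, ⟨k, l⟩⟩ ↦ ⟨(k, l + j), (l, j)⟩)
    (fun ⟨⟨i, _j⟩, ⟨k, l⟩⟩ ↦ ⟨(i + k, l), (i, k)⟩) <;> aesop (add simp [add_assoc, mul_assoc])

theorem ipS_cS_mul_right (a : PowerSeries F) (U W : PowerSeries F[X]) :
    p.ipS U (cS a * W) = a * p.ipS U W := by
  rw [ipS_symm, ipS_cS_mul_left, ipS_symm]

theorem ipS_X_mul_left (U W : PowerSeries F[X]) :
    p.ipS (PowerSeries.X * U) W = PowerSeries.X * p.ipS U W := by
  rw [← cS_X, ipS_cS_mul_left]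

theorem ipS_X_mul_right (U W : PowerSeries F[X]) :
    p.ipS U (PowerSeries.X * W) = PowerSeries.X * p.ipS U W := by
  rw [← cS_X, ipS_cS_mul_right]

theorem ipS_C (U W : F[X]) :
    p.ipS (PowerSeries.C U) (PowerSeries.C W) = PowerSeries.C (p.ip U W) := by
  ext n
  rw [coeff_ipS, PowerSeries.coeff_C]
  split_ifs with h
  · subst h
    simp
  · apply sum_eq_zero
    intro x hx
    rw [HasAntidiagonal.mem_antidiagonal] at hx
    rw [PowerSeries.coeff_C, PowerSeries.coeff_C]
    by_cases h1 : x.1 = 0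
    · rw [if_pos h1, if_neg (fun h2 => h (by omega))]; simp
    · rw [if_neg h1]; simp

theorem sm_ipS (δ : F →+ F) (φ : F[X] →+ F[X])
    (h : ∀ U W, δ (p.ip U W) = p.ip (φ U) W + p.ip U (φ W)) (U W : PowerSeries F[X]) :
    sm δ (p.ipS U W) = p.ipS (sm φ U) W + p.ipS U (sm φ W) := by
  ext n
  rw [coeff_sm, coeff_ipS, map_sum, map_add, coeff_ipS, coeff_ipS, ← sum_add_distrib]
  exact sum_congr rfl fun x _ => by rw [h, coeff_sm, coeff_sm]

end Polar

/-! ### Fixed points -/

/-- equality of the first coefficients -/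
def Eqn {A : Type u} [CommRing A] (n : ℕ) (U W : PowerSeries A) : Prop :=
  ∀ k, k < n → PowerSeries.coeff k U = PowerSeries.coeff k W

theorem Eqn.trans {A : Type u} [CommRing A] {n : ℕ} {U V W : PowerSeries A} (h1 : Eqn n U V)
    (h2 : Eqn n V W) : Eqn n U W := fun k hk => (h1 k hk).trans (h2 k hk)

theorem Eqn.symm {A : Type u} [CommRing A] {n : ℕ} {U V : PowerSeries A} (h1 : Eqn n U V) :
    Eqn n V U := fun k hk => (h1 k hk).symm

theorem Eqn.mono {A : Type u} [CommRing A] {n m : ℕ} {U V : PowerSeries A} (h1 : Eqn n U V)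
    (h : m ≤ n) : Eqn m U V := fun k hk => h1 k (by omega)

theorem Eqn.eq {A : Type u} [CommRing A] {U V : PowerSeries A} (h1 : ∀ n, Eqn n U V) :
    U = V := by
  ext k
  exact h1 (k + 1) k (by omega)

theorem Eqn.add {A : Type u} [CommRing A] {n : ℕ} {U V U' V' : PowerSeries A} (h1 : Eqn n U V)
    (h2 : Eqn n U' V') : Eqn n (U + U') (V + V') := fun k hk => by
  rw [map_add, map_add, h1 k hk, h2 k hk]

theorem Eqn.mul {A : Type u} [CommRing A] {n : ℕ} {U V U' V' : PowerSeries A} (h1 : Eqn n U V)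
    (h2 : Eqn n U' V') : Eqn n (U * U') (V * V') := fun k hk => by
  rw [PowerSeries.coeff_mul, PowerSeries.coeff_mul]
  refine sum_congr rfl fun x hx => ?_
  rw [HasAntidiagonal.mem_antidiagonal] at hx
  rw [h1 _ (by omega), h2 _ (by omega)]

theorem Eqn.sm {A : Type u} [CommRing A] {n : ℕ} {U V : PowerSeries A} (h1 : Eqn n U V)
    (φ : A →+ A) : Eqn n (sm φ U) (sm φ V) := fun k hk => by
  rw [coeff_sm, coeff_sm, h1 k hk]

theorem Eqn.X_mul {A : Type u} [CommRing A] {n : ℕ} {U V : PowerSeries A} (h1 : Eqn n U V) :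
    Eqn (n + 1) (PowerSeries.X * U) (PowerSeries.X * V) := fun k hk => by
  cases k with
  | zero => rw [PowerSeries.coeff_zero_X_mul, PowerSeries.coeff_zero_X_mul]
  | succ k =>
    rw [PowerSeries.coeff_succ_X_mul, PowerSeries.coeff_succ_X_mul, h1 k (by omega)]

theorem Eqn.cS {n : ℕ} {U V : PowerSeries F} (h1 : Eqn n U V) : Eqn n (cS U) (cS V) :=
  fun k hk => by rw [coeff_cS, coeff_cS, h1 k hk]

theorem Eqn.ipS (p : Polar F) {n : ℕ} {U V U' V' : PowerSeries F[X]} (h1 : Eqn n U V)
    (h2 : Eqn n U' V') : Eqn n (p.ipS U U') (p.ipS V V') := fun k hk => by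
  rw [p.coeff_ipS, p.coeff_ipS]
  refine sum_congr rfl fun x hx => ?_
  rw [HasAntidiagonal.mem_antidiagonal] at hx
  rw [h1 _ (by omega), h2 _ (by omega)]

theorem Eqn.refl {A : Type u} [CommRing A] (n : ℕ) (U : PowerSeries A) : Eqn n U U :=
  fun _ _ => rfl

/-- existence of a fixed point of `U = X Φ(U)` -/
theorem exists_fix {A : Type u} [CommRing A] (Φ : PowerSeries A → PowerSeries A)
    (hΦ : ∀ n U V, Eqn n U V → Eqn n (Φ U) (Φ V)) : ∃ G, G = PowerSeries.X * Φ G := by
  let H : ℕ → PowerSeries A := fun n => (fun U => PowerSeries.X * Φ U)^[n] 0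
  have hH : ∀ n, H (n + 1) = PowerSeries.X * Φ (H n) := fun n =>
    Function.iterate_succ_apply' _ _ _
  have h1 : ∀ n, Eqn n (H n) (H (n + 1)) := by
    intro n
    induction n with
    | zero => intro k hk; omega
    | succ n ih => rw [hH n, hH (n + 1)]; exact (hΦ n _ _ ih).X_mul
  have h2 : ∀ m n, n ≤ m → Eqn n (H n) (H m) := by
    intro m
    induction m with
    | zero => intro n hn; obtain rfl : n = 0 := by omega
              exact Eqn.refl _ _
    | succ m ih =>
      intro n hn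
      rcases Nat.lt_or_ge m n with h | h
      · obtain rfl : n = m + 1 := by omega
        exact Eqn.refl _ _
      · exact (ih n h).trans ((h1 m).mono h)
  let G : PowerSeries A := PowerSeries.mk fun k => PowerSeries.coeff k (H (k + 1))
  have h3 : ∀ n, Eqn n G (H n) := by
    intro n k hk
    rw [PowerSeries.coeff_mk]
    exact h2 n (k + 1) (by omega) k (by omega)
  refine ⟨G, Eqn.eq fun n => ?_⟩
  cases n with
  | zero => intro k hk; omega
  | succ n =>
    have h4 := (hΦ n _ _ (h3 n)).X_mul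
    rw [← hH n] at h4
    exact (h3 (n + 1)).trans h4.symm

/-- uniqueness -/
theorem fix_zero {A : Type u} [CommRing A] (Φ : PowerSeries A → PowerSeries A)
    (hΦ : ∀ n U, Eqn n U 0 → Eqn n (Φ U) 0) {U : PowerSeries A} (hU : U = PowerSeries.X * Φ U) :
    U = 0 := by
  refine Eqn.eq fun n => ?_
  induction n with
  | zero => intro k hk; omega
  | succ n ih =>
    rw [hU]
    have h := (hΦ n U ih).X_mul
    rw [mul_zero] at h
    exact h

end Pool.Agent.Lib.MP_4d1bc1_mp
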