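import Pool.Agent.Lib.MP_4d1bc1_mp.Lam

set_option autoImplicit false

/-! The gradient of the radial equation. -/

namespace Pool.Agent.Lib.MP_4d1bc1_mp

open Finset Polynomial

universe u

variable {F : Type u} [Field F] [Algebra ℝ F]

namespace Polar

variable {p : Polar F}

theorem grad_succ_Dh {w : F} (hw : p.GFree w) (L : ℕ) (f : F) :
    p.grad (L + 1) (p.Dh w f) = p.DhK w (p.grad (L + 1) f) + p.grad L f := by
  rw [Dh_apply, DhK_apply, grad_add, grad_succ_D, Rad.grad_GFree_mul hw]; ring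

theorem grad_zero_Dh {w : F} (hw : p.GFree w) (f : F) :
    p.grad 0 (p.Dh w f) = p.DhK w (p.grad 0 f) := by
  rw [Dh_apply, DhK_apply, grad_add, grad_zero_D, Rad.grad_GFree_mul hw]

theorem grad_Dh {w : F} (hw : p.GFree w) (L : ℕ) (f : F) :
    p.grad L (p.Dh w f) = p.DhK w (p.grad L f) + p.gradm L f := by
  cases L with
  | zero => rw [grad_zero_Dh hw]; simp [gradm]
  | succ L => rw [grad_succ_Dh hw]; rfl

namespace Rad

variable (q : p.Rad)

/-- the gradient of `FR` at level `0` -/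
noncomputable def nu : F[X] := C (2 * q.c * p.r 1) + C q.e * X

/-- iterated twisted derivatives of `nu` -/
noncomputable def nuI (i : ℕ) : F[X] := (p.DhK q.w)^[i] q.nu

/-- iterated twisted derivatives of `e` -/
noncomputable def eI (i : ℕ) : F[X] := (p.DhK q.w)^[i] (C q.e)

theorem nuI_succ (i : ℕ) : q.nuI (i + 1) = p.DhK q.w (q.nuI i) := by
  rw [nuI, nuI, Function.iterate_succ_apply']
theorem eI_succ (i : ℕ) : q.eI (i + 1) = p.DhK q.w (q.eI i) := by
  rw [eI, eI, Function.iterate_succ_apply']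
theorem nuI_zero : q.nuI 0 = q.nu := rfl
theorem eI_zero : q.eI 0 = C q.e := rfl

theorem grad_iter_zero (k : ℕ) : p.grad 0 ((p.Dh q.w)^[k] q.FR) = q.nuI k := by
  induction k with
  | zero => exact q.grad_FR_zero
  | succ k ih => rw [Function.iterate_succ_apply', grad_zero_Dh q.GFree_w, ih, nuI_succ]

theorem grad_iter (k L : ℕ) : p.grad (L + 1) ((p.Dh q.w)^[k] q.FR)
    = C ((k.choose (L + 1) : ℕ) : F) * q.nuI (k - (L + 1))
      + C ((k.choose L : ℕ) : F) * q.eI (k - L) := by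
  induction k generalizing L with
  | zero =>
    cases L with
    | zero => simp [grad_FR_one, eI_zero]
    | succ L => simp [grad_FR_far]
  | succ k ih =>
    rw [Function.iterate_succ_apply', grad_succ_Dh q.GFree_w, ih L, map_add,
      p.DhK_const_mul _ (p.isConst_natCast _), p.DhK_const_mul _ (p.isConst_natCast _),
      ← nuI_succ, ← eI_succ]
    have h1 : (C ((k.choose (L + 1) : ℕ) : F) : F[X]) * q.nuI (k - (L + 1) + 1)
        = C ((k.choose (L + 1) : ℕ) : F) * q.nuI (k + 1 - (L + 1)) := by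
      by_cases h : L + 1 ≤ k
      · congr 2; omega
      · rw [Nat.choose_eq_zero_of_lt (by omega)]; simp
    have h2 : (C ((k.choose L : ℕ) : F) : F[X]) * q.eI (k - L + 1)
        = C ((k.choose L : ℕ) : F) * q.eI (k + 1 - L) := by
      by_cases h : L ≤ k
      · congr 2; omega
      · rw [Nat.choose_eq_zero_of_lt (by omega)]; simp
    rw [h1, h2, Nat.choose_succ_succ k L]
    cases L with
    | zero =>
      rw [grad_iter_zero]
      simp only [Nat.choose_zero_right, zero_add, Nat.add_sub_cancel, Nat.sub_zero]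
      push_cast
      simp only [C_add, C_1]
      ring
    | succ L =>
      rw [ih L, Nat.choose_succ_succ k L, show k + 1 - (L + 1 + 1) = k - (L + 1) by omega,
        show k + 1 - (L + 1) = k - L by omega]
      push_cast
      simp only [C_add]
      ring

theorem grad_ph (l : ℕ) : p.grad (l + 1) q.ph = 0 := by
  have h1 : p.GFree (3 * q.J * p.r 1 ^ 2) :=
    ((IsFn.ofNat 3).hG.mul q.IsFn_J.hG).mul (GFree_pow (GFree_r 1) 2)
  rw [ph, grad_add, h1, grad_GFree_mul q.hc.hG, grad_S, if_neg (by omega)]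
  simp

theorem grad_rh (l : ℕ) : p.grad (l + 2) q.rh = 0 := by
  have h3 : p.IsFn (3 : F)⁻¹ := (IsFn.ofNat 3).inv
  have h2 : p.IsFn (2 : F)⁻¹ := (IsFn.ofNat 2).inv
  have h1 : p.GFree ((p.E 0 q.J - 2 * 3⁻¹ * q.a * q.J) * p.r 1 ^ 3) :=
    ((q.IsFn_J.E0.hG.sub ((((IsFn.ofNat 2).mul h3).mul q.ha).mul q.IsFn_J).hG)).mul
      (GFree_pow (GFree_r 1) 3)
  have h4 : p.GFree (p.E 0 q.c * p.r 1) := q.hc.E0.hG.mul (GFree_r 1)
  have h5 : p.GFree (2⁻¹ * q.ed) := (h2.mul q.IsFn_ed).hG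
  rw [rh, grad_add, grad_add, h1, grad_GFree_mul h4, grad_GFree_mul h5, grad_S,
    if_neg (by omega), grad_DS_far]
  simp

theorem grad_gt (l : ℕ) : p.grad (l + 2) q.gt = 0 := by
  have h3 : p.IsFn (3 : F)⁻¹ := (IsFn.ofNat 3).inv
  rw [gt, grad_GFree_mul (h3.mul q.ha).hG, grad_FR_far, mul_zero]

theorem grad_mul_of_zero {L : ℕ} {f : F} (hf : p.grad L f = 0) (g : F) :
    p.grad L (f * g) = C f * p.grad L g := by
  rw [grad_mul, hf, mul_zero, add_zero]

/-- the sum of the radial terms at level `l + 2` -/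
noncomputable def Sg (Y : F) (M l : ℕ) : F[X] :=
  ∑ k ∈ range M, C (p.Eh q.w k Y) * (C ((k.choose (l + 2) : ℕ) : F) * q.nuI (k - (l + 2))
      + C ((k.choose (l + 1) : ℕ) : F) * q.eI (k - (l + 1)))

theorem Sg_eq {Y : F} {M N l : ℕ} (hMN : M ≤ N) (hM : ∀ k, M ≤ k → p.Eh q.w k Y = 0) :
    q.Sg Y N l = q.Sg Y M l := by
  symm
  apply sum_subset (range_subset_range.2 hMN)
  intro k _ hk
  rw [hM k (by simpa using hk)]; simp

/-- the gradient of the radial equation -/
theorem YEq.star {q : p.Rad} {Y Z : F} (h : q.YEq Y Z) (l : ℕ)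
    (hq : ∀ a, l + 2 < a → p.grad a Y = 0) {M : ℕ} (hM : ∀ k, M ≤ k → p.Eh q.w k Y = 0) :
    p.DtK q.FR (p.grad (l + 2) Y) + C q.gt * p.grad (l + 2) Y + q.Sg Y M l
      + (C (3 * p.S) * p.grad (l + 1) Y + C (3 * p.ip (p.grad (l + 1) Y) 1))
      + (C ((3 * (l + 2) + 3 / 2) * p.D p.S) * p.grad (l + 2) Y
        + C (3 * (l + 3) * p.ip (p.grad (l + 2) Y) 1) * X
        + C ((3 * (l + 2) + 6) * p.ip (p.grad (l + 2) Y) X))
    = p.DhK q.w (p.DhK q.w (p.DhK q.w (p.grad (l + 2) Y)))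
      + 3 * p.DhK q.w (p.DhK q.w (p.grad (l + 1) Y)) + 3 * p.DhK q.w (p.grad l Y)
      + C q.ph * (p.DhK q.w (p.grad (l + 2) Y) + p.grad (l + 1) Y)
      + C q.rh * p.grad (l + 2) Y
      + C (q.c * p.r 1) * p.grad (l + 2) Z
      + C (2⁻¹ * q.e) * (p.DK (p.grad (l + 2) Z) + p.grad (l + 1) Z) := by
  obtain ⟨N, hN⟩ := p.exists_bd Y
  have hN' := hN.mono (Nat.le_add_right N M)
  have hw := q.GFree_w
  -- left side
  have hL : p.grad (l + 2) (p.Dt q.FR Y) = p.DtK q.FR (p.grad (l + 2) Y) + q.Sg Y M l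
      + p.gradm l Y
      + (C (3 * p.S) * p.grad (l + 1) Y + C (3 * p.ip (p.grad (l + 1) Y) 1))
      + (C ((3 * (l + 2) + 3 / 2) * p.D p.S) * p.grad (l + 2) Y
        + C (3 * (l + 3) * p.ip (p.grad (l + 2) Y) 1) * X
        + C ((3 * (l + 2) + 6) * p.ip (p.grad (l + 2) Y) X)) := by
    have hs : ∑ i ∈ range (N + M), C (p.E i Y) * p.grad (l + 2) (p.D^[i] q.FR)
        = q.Sg Y M l := by
      rw [p.sum_E_iter hw hN' (l + 2) q.FR, ← q.Sg_eq (Nat.le_add_left M N) hM, Sg]
      exact sum_congr rfl fun k _ => by rw [show l + 2 = l + 1 + 1 by rfl, grad_iter]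
    cases l with
    | zero =>
      have h1 := p.grad_Dt_two q.FR Y hN' (fun a ha => hq a (by omega))
      rw [hs] at h1
      rw [h1]
      simp only [gradm]
      push_cast
      norm_num
    | succ l =>
      have h1 := p.grad_Dt_top q.FR Y (n := l) hN' (fun a ha => hq a (by omega))
      rw [show l + 1 + 2 = l + 3 by rfl] at hs ⊢
      rw [hs] at h1
      rw [h1]
      simp only [gradm]
      push_cast
      rw [show l + 1 + 1 = l + 2 by rfl, show (l : F) + 1 + 2 = l + 3 by ring,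
        show (l : F) + 1 + 3 = l + 4 by ring]
  have hR := congrArg (fun f => p.grad (l + 2) f) h.twist
  simp only [grad_add] at hR
  rw [hL, grad_mul_of_zero (q.grad_gt l), grad_succ_Dh hw (l + 1), grad_succ_Dh hw (l + 1),
    grad_succ_Dh hw l, grad_succ_Dh hw (l + 1), grad_succ_Dh hw l, grad_Dh hw l,
    grad_succ_Dh hw l,
    grad_mul_of_zero (q.grad_ph (l + 1)), grad_succ_Dh hw (l + 1),
    grad_mul_of_zero (q.grad_rh l), grad_GFree_mul (q.hc.hG.mul (GFree_r 1)),
    grad_GFree_mul (((IsFn.ofNat 2).inv.mul q.he).hG), grad_succ_D] at hR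
  simp only [map_add, show l + 1 + 1 = l + 2 by rfl] at hR ⊢
  linear_combination hR

end Rad

end Polar

end Pool.Agent.Lib.MP_4d1bc1_mp
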