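import Pool.Agent.Lib.MP_4d1bc1_mp.Flow2

set_option autoImplicit false

/-! The linearisable case. -/

namespace Pool.Agent.Lib.MP_4d1bc1_mp

open Finset Polynomial

universe u

variable {F : Type u} [Field F] [Algebra ℝ F]

namespace Link

variable {J : Jet F} {R : F} {p : Polar F}

/-- the map `T` -/
noncomputable def TT (q : p.Rad) (W : F[X]) : F :=
  W.sum fun i a => a * (p.Dh q.w)^[i] (p.r 0 * (3⁻¹ * q.e))

theorem TT_add (q : p.Rad) (U W : F[X]) : TT q (U + W) = TT q U + TT q W := by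
  unfold TT
  rw [Polynomial.sum_add_index _ _ _ (by simp) (by intro a b c; rw [add_mul])]

theorem TT_C_mul (q : p.Rad) (a : F) (W : F[X]) : TT q (C a * W) = a * TT q W := by
  unfold TT
  rw [← smul_eq_C_mul, Polynomial.sum_smul_index _ _ _ (by simp), Polynomial.sum_def,
    Polynomial.sum_def, mul_sum]
  exact sum_congr rfl fun i _ => by ring

theorem TT_X_pow (q : p.Rad) (n : ℕ) :
    TT q (X ^ n) = (p.Dh q.w)^[n] (p.r 0 * (3⁻¹ * q.e)) := by
  unfold TT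
  rw [← monomial_one_right_eq_X_pow, Polynomial.sum_monomial_index _ _ (by simp), one_mul]

theorem TT_sub (q : p.Rad) (U W : F[X]) : TT q (U - W) = TT q U - TT q W := by
  have h := TT_add q U (C (-1) * W)
  rw [TT_C_mul] at h
  have h2 : U - W = U + C (-1) * W := by rw [C_neg, C_1]; ring
  rw [h2, h]; ring

variable (L : Link J R p)

include L

theorem TT_DM (q : p.Rad) (W : F[X]) : TT q (J.DM W) = p.Dh q.w (TT q W) := by
  induction W using Polynomial.induction_on' with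
  | add U V hU hV => rw [map_add, TT_add, hU, hV, TT_add, map_add]
  | monomial n a =>
    rw [← C_mul_X_pow_eq_monomial, Jet.DM_C_mul, Jet.DM_X_pow, TT_add, TT_C_mul, TT_C_mul,
      TT_C_mul, TT_X_pow, TT_X_pow, Function.iterate_succ_apply', Polar.Dh_mul, L.D_eq]

theorem TT_iter (q : p.Rad) (W : F[X]) (n : ℕ) :
    TT q (J.DM^[n] W) = (p.Dh q.w)^[n] (TT q W) := by
  induction n with
  | zero => rfl
  | succ n ih => rw [Function.iterate_succ_apply', L.TT_DM, ih, Function.iterate_succ_apply']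

theorem TT_vv (q : p.Rad) : TT q (Jet.vv R) = 3⁻¹ * q.e := by
  have h1 : (Jet.vv R : F[X]) = C R⁻¹ * X ^ 0 := by rw [Jet.vv, pow_zero, mul_one]
  have h2 := L.root.ne
  rw [h1, TT_C_mul, TT_X_pow, Function.iterate_zero, id_eq, L.r0]
  field_simp

theorem TT_kv_zero (q : p.Rad) (hed : q.ed = 3) : TT q (J.kv R 0) = p.r 1 := by
  have := p.charZero
  have h3 : p.D (3 : F)⁻¹ = 0 := ((p.isConst_ofNat 3).inv).D_eq
  have h4 : q.ed = 3 := hed
  unfold Polar.Rad.ed at h4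
  rw [Jet.kv_zero, L.TT_DM, L.TT_vv, Polar.Dh_apply, der_mul, h3, q.he.D_eq, Polar.Rad.w]
  have h5 : (3 : F)⁻¹ * 3 = 1 := inv_mul_cancel₀ three_ne_zero
  linear_combination 3⁻¹ * p.r 1 * h4 + p.r 1 * h5

theorem TT_kv_succ (q : p.Rad) (i : ℕ) : TT q (J.kv R (i + 1))
    = p.Dh q.w (TT q (J.kv R i)) + p.kap 0 i * (3⁻¹ * q.e) := by
  rw [Jet.kv_succ, TT_add, L.TT_DM, TT_C_mul, L.TT_vv, L.kap]
  rfl

theorem TT_VF (q : p.Rad) (hc : q.c = 3) (hed : q.ed = 3) (hJ : q.J = 0) :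
    TT q (iota J R p.VF) = q.FR := by
  have := p.charZero
  have h3 : p.D (3 : F)⁻¹ = 0 := ((p.isConst_ofNat 3).inv).D_eq
  have h5 : (3 : F)⁻¹ * 3 = 1 := inv_mul_cancel₀ three_ne_zero
  have h0 := L.TT_kv_zero q hed
  have h1 := L.TT_kv_succ q 0
  have h2 := L.TT_kv_succ q 1
  rw [zero_add, h0] at h1
  rw [show 1 + 1 = 2 by rfl, h1] at h2
  have hk0 : p.kap 0 0 = p.S := rfl
  have hy : p.D (3⁻¹ * q.e) + q.w * (3⁻¹ * q.e) = p.r 1 := by
    have h4 : q.ed = 3 := hed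
    unfold Polar.Rad.ed at h4
    rw [der_mul, h3, q.he.D_eq, Polar.Rad.w]
    linear_combination 3⁻¹ * p.r 1 * h4 + p.r 1 * h5
  have hw : p.D q.w = 3⁻¹ * (p.E 0 q.a * p.r 1 ^ 2 + q.a * p.r 2) := q.D_w
  have hb : q.b = 3⁻¹ * p.E 0 q.a + 9⁻¹ * q.a ^ 2 := by
    unfold Polar.Rad.J at hJ
    linear_combination hJ
  have e1 : iota J R p.VF = J.kv R 2 + C (2 * p.S) * J.kv R 0 := by
    rw [Polar.VF, map_add, iota_X_pow, iota_C]
  rw [e1, TT_add, TT_C_mul, h0, h2, hk0, Polar.kap01, Polar.Rad.FR, hc, hb, map_add]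
  have e2 : p.Dh q.w (p.Dh q.w (p.r 1)) = p.r 3 + q.a * p.r 1 * p.r 2
      + (3⁻¹ * p.E 0 q.a + 9⁻¹ * q.a ^ 2) * p.r 1 ^ 3 := by
    rw [Polar.Dh_apply, Polar.Dh_apply, map_add, der_mul, Polar.D_r, Polar.D_r, hw, Polar.Rad.w]
    field_simp
    ring
  have e3 : p.Dh q.w (p.S * (3⁻¹ * q.e)) = p.D p.S * (3⁻¹ * q.e) + p.S * p.r 1 := by
    rw [Polar.Dh_mul, Polar.Dh_apply, hy]
  rw [e2, e3]
  field_simp
  ring

/-- the twisted evolution of `T` -/
theorem TT_evo (q : p.Rad) (hed : q.ed = 3) {G : F[X]} {Y : F} {V : F[X]}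
    (hG : G = C Y * Jet.vv R + C R * iota J R V) (hY : TT q (iota J R V) = Y) (W : F[X]) :
    TT q (J.evoV G W) = J.evo G (TT q W) + 3⁻¹ * q.a * Y * TT q W := by
  have := p.charZero
  have h3 : J.evo G (3 : F)⁻¹ = 0 := by
    rw [L.evo_eq hG]; exact ((p.isConst_ofNat 3).inv).vfd_eq _ _
  have h3' : p.D (3 : F)⁻¹ = 0 := ((p.isConst_ofNat 3).inv).D_eq
  have h5 : (3 : F)⁻¹ * 3 = 1 := inv_mul_cancel₀ three_ne_zero
  have h4 : q.ed = 3 := hed
  unfold Polar.Rad.ed at h4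
  have hr0 : J.evo G (p.r 0) = Y := by rw [L.evo_r hG]; rfl
  have hr1 : J.evo G (p.r 1) = p.D Y := by rw [L.evo_r hG]; rfl
  -- `T G`
  have hTG : TT q G = J.evo G (p.r 0 * (3⁻¹ * q.e))
      + 3⁻¹ * q.a * Y * (p.r 0 * (3⁻¹ * q.e)) := by
    conv_lhs => rw [hG]
    rw [TT_add, TT_C_mul, TT_C_mul, L.TT_vv, hY, der_mul, der_mul, h3, hr0, L.evo_fn hG q.he,
      L.r0]
    linear_combination (-(3⁻¹ * R * Y)) * h4 - R * Y * h5
  -- commutation
  have hcomm : ∀ f, J.evo G (p.Dh q.w f) + 3⁻¹ * q.a * Y * p.Dh q.w f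
      = p.Dh q.w (J.evo G f + 3⁻¹ * q.a * Y * f) := by
    intro f
    have hw : J.evo G q.w = p.D (3⁻¹ * q.a * Y) := by
      rw [Polar.Rad.w, der_mul, der_mul, h3, hr1, L.evo_fn hG q.ha, der_mul, der_mul, h3',
        q.ha.D_eq]
      ring
    rw [Polar.Dh_apply, Polar.Dh_apply, map_add, map_add, der_mul (J.evo G), der_mul p.D, hw,
      ← L.D_eq f, J.evo_D, L.D_eq, L.D_eq]
    ring
  have hiter : ∀ n, TT q (J.DM^[n] G) = J.evo G ((p.Dh q.w)^[n] (p.r 0 * (3⁻¹ * q.e)))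
      + 3⁻¹ * q.a * Y * (p.Dh q.w)^[n] (p.r 0 * (3⁻¹ * q.e)) := by
    intro n
    rw [L.TT_iter]
    induction n with
    | zero => exact hTG
    | succ n ih => rw [Function.iterate_succ_apply', ih, Function.iterate_succ_apply', ← hcomm]
  induction W using Polynomial.induction_on' with
  | add U V hU hV => rw [map_add, TT_add, hU, hV, TT_add, map_add]; ring
  | monomial n a =>
    rw [← C_mul_X_pow_eq_monomial, Jet.evoV_C_mul, Jet.evoV_X_pow, TT_add, TT_C_mul, TT_C_mul,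
      TT_C_mul, hiter, TT_X_pow, der_mul]
    ring

/-- the radial part of a symmetry in the linearisable case -/
theorem TT_YEq (q : p.Rad) (hc : q.c = 3) (hed : q.ed = 3) (hJ : q.J = 0) {V : F[X]}
    (hV : p.VEq q.FR V) : q.YEq (TT q (iota J R V)) (p.Zf V) := by
  obtain ⟨Y, hY⟩ : ∃ Y, TT q (iota J R V) = Y := ⟨_, rfl⟩
  obtain ⟨G, hG⟩ : ∃ G, G = C Y * Jet.vv R + C R * iota J R V := ⟨_, rfl⟩
  obtain ⟨FF, hF⟩ : ∃ G, G = C q.FR * Jet.vv R + C R * iota J R p.VF := ⟨_, rfl⟩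
  have hF' := L.TT_VF q hc hed hJ
  have h1 := L.TT_evo q hed hF hF' (iota J R V)
  have h2 := L.TT_evo q hed hG hY (iota J R p.VF)
  have h3 : J.evoV FF (iota J R V) = J.evoV G (iota J R p.VF) := by
    unfold Polar.VEq at hV
    rw [L.evoV_F hF, L.evoV_VF hG, hV, p.ip_symm V p.VF]
  rw [h3, h2, hF', hY, L.evo_F hF] at h1
  rw [hY]
  unfold Polar.Rad.YEq
  rw [← L.evo_FR q hG]
  linear_combination -h1

end Link

end Pool.Agent.Lib.MP_4d1bc1_mp
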