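import Pool.Agent.Lib.MP_4d1bc1_mp.TimeTop

set_option autoImplicit false

/-! Gradients of tangent vectors. -/

namespace Pool.Agent.Lib.MP_4d1bc1_mp

open Finset Polynomial

universe u

variable {F : Type u} [Field F] [Algebra ℝ F]

namespace Polar

variable (p : Polar F)

/-- If `DK U` has no component but a multiple of `U` and of `k_0` then `U = 0`. -/
theorem DK_inj {U : F[X]} {y z : F} (h : p.DK U = C y * U + C z) : U = 0 ∧ z = 0 := by
  have h1 : U = 0 := by
    have h2 := congrArg (fun W => W.coeff (U.natDegree + 1)) h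
    simp only [coeff_DK_succ, coeff_add, coeff_C_mul, coeff_C] at h2
    rw [coeff_eq_zero_of_natDegree_lt (by omega), map_zero, if_neg (by omega)] at h2
    simp only [zero_add, mul_zero, add_zero] at h2
    exact leadingCoeff_eq_zero.1 h2
  refine ⟨h1, ?_⟩
  rw [h1] at h
  simp only [map_zero, mul_zero, zero_add] at h
  exact (C_eq_zero.1 h.symm)

/-- gradient of a tangent vector -/
noncomputable def gV (L : ℕ) (V : F[X]) : F[X][X] := V.sum fun i a => monomial i (p.grad L a)

@[simp] theorem coeff_gV (L : ℕ) (V : F[X]) (n : ℕ) :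
    (p.gV L V).coeff n = p.grad L (V.coeff n) := by
  unfold gV
  rw [Polynomial.sum_def, finsetSum_coeff]
  simp only [coeff_monomial]
  rw [Finset.sum_ite_eq' V.support n (fun i => p.grad L (V.coeff i))]
  split_ifs with h
  · rfl
  · rw [notMem_support_iff.1 h, grad_zero]

theorem gV_add (L : ℕ) (U V : F[X]) : p.gV L (U + V) = p.gV L U + p.gV L V := by
  refine Polynomial.ext fun i => ?_
  rw [coeff_gV, coeff_add, coeff_add, coeff_gV, coeff_gV, grad_add]

/-- derivative of tensors, as a function -/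
noncomputable def DKtFun (T : F[X][X]) : F[X][X] := T.sum fun i a => monomial i (p.DK a)

theorem coeff_DKtFun (T : F[X][X]) (n : ℕ) :
    (p.DKtFun T).coeff n = p.DK (T.coeff n) := by
  unfold DKtFun
  rw [Polynomial.sum_def, finsetSum_coeff]
  simp only [coeff_monomial]
  rw [Finset.sum_ite_eq' T.support n (fun i => p.DK (T.coeff i))]
  split_ifs with h
  · rfl
  · rw [notMem_support_iff.1 h, map_zero]

/-- derivative of tensors -/
noncomputable def DKt : F[X][X] →+ F[X][X] where
  toFun T := p.DKtFun T + X * T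
  map_zero' := by
    refine Polynomial.ext fun i => ?_
    rw [mul_zero, add_zero, coeff_DKtFun, coeff_zero, map_zero]
  map_add' U V := by
    refine Polynomial.ext fun i => ?_
    simp only [mul_add, coeff_add, coeff_DKtFun, map_add]
    ring

theorem coeff_DKt_zero (T : F[X][X]) : (p.DKt T).coeff 0 = p.DK (T.coeff 0) := by
  change (p.DKtFun T + X * T).coeff 0 = _
  rw [coeff_add, coeff_DKtFun]; simp

theorem coeff_DKt_succ (T : F[X][X]) (n : ℕ) :
    (p.DKt T).coeff (n + 1) = p.DK (T.coeff (n + 1)) + T.coeff n := by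
  change (p.DKtFun T + X * T).coeff (n + 1) = _
  rw [coeff_add, coeff_DKtFun, coeff_X_mul]

theorem DKt_inj {T : F[X][X]} (h : p.DKt T = 0) : T = 0 := by
  have h2 := congrArg (fun W => W.coeff (T.natDegree + 1)) h
  simp only [coeff_DKt_succ, coeff_zero] at h2
  rw [coeff_eq_zero_of_natDegree_lt (by omega), map_zero, zero_add] at h2
  exact leadingCoeff_eq_zero.1 h2

theorem DKt_const_mul {a : F} (ha : p.IsConst a) (T : F[X][X]) :
    p.DKt (C (C a) * T) = C (C a) * p.DKt T := by
  refine Polynomial.ext fun i => ?_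
  cases i with
  | zero => rw [coeff_DKt_zero, coeff_C_mul, coeff_C_mul, coeff_DKt_zero, p.DK_const_mul ha]
  | succ i =>
    rw [coeff_DKt_succ, coeff_C_mul, coeff_C_mul, coeff_C_mul, coeff_DKt_succ,
      p.DK_const_mul ha]
    ring

theorem DKt_const {a : F} (ha : p.IsConst a) :
    p.DKt (C (C a)) = C (C a) * (C X + X) := by
  refine Polynomial.ext fun i => ?_
  rcases i with _ | _ | i
  · rw [coeff_DKt_zero, coeff_C_mul, coeff_C, if_pos rfl, DK_C, ha.D_eq]
    simp
  · rw [coeff_DKt_succ, coeff_C_mul]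
    simp [coeff_C]
  · rw [coeff_DKt_succ, coeff_C_mul]
    simp [coeff_C, coeff_X]

theorem DKt_mul_CX (T : F[X][X]) : p.DKt (T * C X) = p.DKt T * C X := by
  refine Polynomial.ext fun i => ?_
  cases i with
  | zero => rw [coeff_DKt_zero, coeff_mul_C, coeff_mul_C, coeff_DKt_zero, DK_mul_X]
  | succ i =>
    rw [coeff_DKt_succ, coeff_mul_C, coeff_mul_C, coeff_mul_C, coeff_DKt_succ, DK_mul_X]
    ring

theorem DKt_mul_X (T : F[X][X]) : p.DKt (T * X) = p.DKt T * X := by
  refine Polynomial.ext fun i => ?_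
  rcases i with _ | _ | i
  · rw [coeff_DKt_zero]; simp
  · rw [coeff_DKt_succ, coeff_mul_X, coeff_mul_X, coeff_DKt_zero]; simp
  · rw [coeff_DKt_succ, coeff_mul_X, coeff_mul_X, coeff_mul_X, coeff_DKt_succ]

/-- shifted gradient -/
noncomputable def gVm (L : ℕ) (V : F[X]) : F[X][X] :=
  match L with
  | 0 => 0
  | L + 1 => p.gV L V

theorem gV_DK (L : ℕ) (V : F[X]) : p.gV L (p.DK V) = p.DKt (p.gV L V) + p.gVm L V := by
  refine Polynomial.ext fun i => ?_
  have h : ∀ i, (p.gVm L V).coeff i = p.gradm L (V.coeff i) := by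
    intro i
    cases L with
    | zero => simp [gVm, gradm]
    | succ L => simp [gVm, gradm]
  cases i with
  | zero => rw [coeff_gV, coeff_DK_zero, coeff_add, coeff_DKt_zero, coeff_gV, h, grad_D']
  | succ i =>
    rw [coeff_gV, coeff_DK_succ, coeff_add, coeff_DKt_succ, coeff_gV, coeff_gV, h, grad_add,
      grad_D']
    ring

theorem gV_succ_DK (L : ℕ) (V : F[X]) :
    p.gV (L + 1) (p.DK V) = p.DKt (p.gV (L + 1) V) + p.gV L V := by
  rw [gV_DK]; rfl

theorem gV_zero_DK (V : F[X]) : p.gV 0 (p.DK V) = p.DKt (p.gV 0 V) := by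
  rw [gV_DK]; simp [gVm]

/-- contraction with `k_0` in the first factor -/
noncomputable def ct (T : F[X][X]) : F[X] := T.sum fun i a => C (p.kap 0 i) * a

theorem ct_add (T U : F[X][X]) : p.ct (T + U) = p.ct T + p.ct U := by
  unfold ct
  rw [Polynomial.sum_add_index _ _ _ (by simp) (by intro a b c; rw [mul_add])]

@[simp] theorem ct_zero : p.ct 0 = 0 := by simp [ct]

theorem ct_C (a : F[X]) : p.ct (C a) = C p.S * a := by
  rw [ct, ← monomial_zero_left, Polynomial.sum_monomial_index _ _ (by simp)]; rfl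

theorem ct_C_mul_X (a : F[X]) : p.ct (C a * X) = C (p.kap 0 1) * a := by
  rw [ct, ← monomial_one_one_eq_X, C_mul_monomial, Polynomial.sum_monomial_index _ _ (by simp)]
  rw [mul_one]

theorem ip_one_eq {W : F[X]} {n : ℕ} (h : ∀ i, n ≤ i → W.coeff i = 0) :
    p.ip 1 W = ∑ i ∈ range n, W.coeff i * p.kap 0 i := by
  rw [p.ip_symm, ← pow_zero (X : F[X]), p.ip_X_pow_right h]
  exact sum_congr rfl fun i _ => by rw [p.kap_symm]

/-- gradient of `⟨k_0, W⟩` -/
theorem grad_ip_one (L : ℕ) (W : F[X]) :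
    p.grad (L + 1) (p.ip 1 W) = C (W.coeff (L + 1)) + p.ct (p.gV (L + 1) W) := by
  have h : ∀ i, W.natDegree + 1 ≤ i → W.coeff i = 0 := fun i hi =>
    coeff_eq_zero_of_natDegree_lt (by omega)
  have h1 := p.grad_ip_pow h (L + 1) 0
  rw [pow_zero, p.ip_symm, if_neg (by omega), zero_add, mul_one] at h1
  rw [h1]
  congr 1
  rw [ct, Polynomial.sum_def]
  have h2 : ∑ i ∈ range (W.natDegree + 1), C (p.kap i 0) * p.grad (L + 1) (W.coeff i)
      = ∑ i ∈ range (W.natDegree + 1), C (p.kap 0 i) * (p.gV (L + 1) W).coeff i :=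
    sum_congr rfl fun i _ => by rw [coeff_gV, p.kap_symm]
  rw [h2]
  symm
  apply sum_subset
  · intro i hi
    by_contra h3
    apply mem_support_iff.1 hi
    rw [coeff_gV, h i (by simpa using h3), grad_zero]
  · intro i _ hi
    rw [notMem_support_iff.1 hi, mul_zero]

/-- gradient of `⟨k_1, W⟩` -/
theorem grad_ip_X (L : ℕ) {W : F[X]} (h0 : p.gV (L + 2) W = 0) :
    p.grad (L + 2) (p.ip X W) = C (W.coeff (L + 2)) * X := by
  have h : ∀ i, W.natDegree + 1 ≤ i → W.coeff i = 0 := fun i hi =>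
    coeff_eq_zero_of_natDegree_lt (by omega)
  have h1 := p.grad_ip_pow h (L + 2) 1
  rw [pow_one, p.ip_symm, if_neg (by omega), zero_add] at h1
  rw [h1, sum_eq_zero, add_zero]
  intro i _
  rw [← coeff_gV, h0]; simp

end Polar

end Pool.Agent.Lib.MP_4d1bc1_mp
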