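import Pool.Agent.Lib.MP_4d1bc1_mp.Const

set_option autoImplicit false

/-! The time flow: `k_t = k_3 + 3 S k_1 + (3/2) S_1 k` in the polar frame. -/

namespace Pool.Agent.Lib.MP_4d1bc1_mp

open Finset Polynomial

universe u

variable {F : Type u} [Field F] [Algebra ℝ F]

namespace Polar

variable (p : Polar F)

/-- `S = ⟨vₓ, vₓ⟩` -/
noncomputable def S : F := p.kap 0 0

/-- `F⃗ = k_3 + 3 S k_1 + (3/2) S_1 k_0` -/
noncomputable def Fv : F[X] := X ^ 3 + C (3 * p.S) * X + C (3 / 2 * p.D p.S)

/-- covariant derivatives of `F⃗` -/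
noncomputable def W (a : ℕ) : F[X] := p.DK^[a] p.Fv

theorem W_zero : p.W 0 = p.Fv := rfl
theorem W_succ (a : ℕ) : p.W (a + 1) = p.DK (p.W a) := by
  rw [W, W, Function.iterate_succ_apply']

/-- the coefficients -/
noncomputable def cc (a : ℕ) : ℕ → F
  | 0 => 3 / 2
  | i + 1 => 3 * (a.choose i : F) + 3 / 2 * (a.choose (i + 1) : F)

theorem cc_isConst (a i : ℕ) : p.IsConst (cc a i : F) := by
  cases i with
  | zero => exact (p.isConst_ofNat 3).div (p.isConst_ofNat 2)
  | succ i =>
    exact ((p.isConst_ofNat 3).mul (p.isConst_natCast _)).add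
      (((p.isConst_ofNat 3).div (p.isConst_ofNat 2)).mul (p.isConst_natCast _))

theorem cc_eq_zero {a i : ℕ} (h : a + 1 < i) : (cc a i : F) = 0 := by
  cases i with
  | zero => omega
  | succ i =>
    simp only [cc]
    rw [Nat.choose_eq_zero_of_lt (by omega), Nat.choose_eq_zero_of_lt (by omega)]
    simp

theorem cc_succ_zero (a : ℕ) : (cc (a + 1) 0 : F) = cc a 0 := rfl

theorem cc_succ_succ (p : Polar F) (a i : ℕ) :
    (cc (a + 1) (i + 1) : F) = cc a (i + 1) + cc a i := by
  have := p.charZero
  cases i with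
  | zero =>
    simp only [cc, Nat.choose_zero_right, Nat.choose_one_right, zero_add]
    push_cast; ring
  | succ i =>
    simp only [cc]
    rw [Nat.choose_succ_succ a i, Nat.choose_succ_succ a (i + 1)]
    push_cast; ring

/-- iterated derivatives of `S` -/
noncomputable def Sd (n : ℕ) : F := p.D^[n] p.S

theorem Sd_zero : p.Sd 0 = p.S := rfl
theorem Sd_succ (n : ℕ) : p.Sd (n + 1) = p.D (p.Sd n) := by
  rw [Sd, Sd, Function.iterate_succ_apply']

theorem coeff_W (a i : ℕ) :
    (p.W a).coeff i = (if i = a + 3 then 1 else 0) + cc a i * p.Sd (a + 1 - i) := by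
  induction a generalizing i with
  | zero =>
    rw [W_zero, Fv]
    rcases i with _ | _ | i
    · simp [cc, Sd_succ, Sd_zero]
    · simp [cc, Sd_zero, coeff_X_pow, coeff_C]
    · rw [cc_eq_zero (by omega)]
      simp only [coeff_add, coeff_X_pow, coeff_C_mul, coeff_X, coeff_C]
      simp
  | succ a ih =>
    rw [W_succ]
    cases i with
    | zero =>
      rw [coeff_DK_zero, ih, map_add, der_const_mul _ (cc_isConst p a 0).D_eq, ← Sd_succ,
        cc_succ_zero]
      simp
    | succ i =>
      rw [coeff_DK_succ, ih, ih, map_add, der_const_mul _ (cc_isConst p a (i + 1)).D_eq,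
        ← Sd_succ, cc_succ_succ p]
      have h1 : p.D (if i + 1 = a + 3 then (1 : F) else 0) = 0 := by
        split_ifs <;> simp
      rw [h1]
      have h2 : (cc a (i + 1) : F) * p.Sd (a + 1 - (i + 1) + 1)
          = cc a (i + 1) * p.Sd (a + 1 + 1 - (i + 1)) := by
        by_cases h : i ≤ a
        · congr 2; omega
        · rw [cc_eq_zero (by omega)]; ring
      rw [h2]
      have h3 : a + 1 - i = a + 1 + 1 - (i + 1) := by omega
      have h4 : (i = a + 3) = (i + 1 = a + 1 + 3) := by
        simp only [eq_iff_iff]; omega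
      rw [h3]
      simp only [h4]
      ring

theorem grad_S (L : ℕ) : p.grad L p.S = if L = 0 then C 2 else 0 := by
  ext j
  rw [coeff_grad, S, G_kap']
  split_ifs with h1 h2 h3 h4
  all_goals first
    | (simp only [coeff_C, coeff_zero]; grind)
    | grind

theorem grad_Sd (n L : ℕ) :
    p.grad L (p.Sd n) = C (2 * (n.choose L : F)) * X ^ (n - L) := by
  induction n generalizing L with
  | zero =>
    rw [Sd_zero, grad_S]
    cases L with
    | zero => simp
    | succ L => simp
  | succ n ih =>
    rw [Sd_succ]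
    have hc : p.IsConst (2 * (n.choose L : F)) := (p.isConst_ofNat 2).mul (p.isConst_natCast _)
    cases L with
    | zero =>
      rw [grad_zero_D, ih, p.DK_const_mul hc, DK_X_pow]
      simp
    | succ L =>
      rw [grad_succ_D, ih, ih, p.DK_const_mul hc, DK_X_pow, Nat.choose_succ_succ]
      have h1 : (C (2 * (n.choose (L + 1) : F)) : F[X]) * X ^ (n - (L + 1) + 1)
          = C (2 * (n.choose (L + 1) : F)) * X ^ (n + 1 - (L + 1)) := by
        by_cases h : L + 1 ≤ n
        · congr 2; omega
        · rw [Nat.choose_eq_zero_of_lt (by omega)]; simp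
      have h2 : n - L = n + 1 - (L + 1) := by omega
      rw [h1, h2]
      push_cast
      simp only [map_mul, map_add]
      ring

theorem E_S (k : ℕ) : p.E k p.S = 0 := p.E_kap k 0 0

theorem E_D_eq_zero {f : F} (hf : ∀ k, p.E k f = 0) (k : ℕ) : p.E k (p.D f) = 0 := by
  cases k with
  | zero => rw [E_zero_D, hf, map_zero]
  | succ k => rw [E_succ_D, hf, hf, map_zero, add_zero]

theorem E_Sd (k n : ℕ) : p.E k (p.Sd n) = 0 := by
  induction n generalizing k with
  | zero => exact p.E_S k
  | succ n ih => rw [Sd_succ]; exact p.E_D_eq_zero (fun k => ih k) k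

theorem E_coeff_W (k a i : ℕ) : p.E k ((p.W a).coeff i) = 0 := by
  rw [coeff_W, map_add, der_mul_zero _ ((cc_isConst p a i).1 k) (p.E_Sd k _)]
  split_ifs <;> simp

end Polar

end Pool.Agent.Lib.MP_4d1bc1_mp
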