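import Pool.Agent.Lib.MP_4d1bc1_mp.Time

set_option autoImplicit false

/-! Gradient of the time derivative. -/

namespace Pool.Agent.Lib.MP_4d1bc1_mp

open Finset Polynomial

universe u

variable {F : Type u} [Field F] [Algebra ℝ F]

namespace Polar

variable (p : Polar F)

/-- The time derivation with `R_t = FR`. -/
noncomputable def Dt (FR : F) : Derivation ℝ F F :=
  p.vfd (fun i => p.D^[i] FR) (fun i j => p.ip (p.W i) (X ^ j) + p.ip (X ^ i) (p.W j))

theorem Dt_r (FR : F) (i : ℕ) : p.Dt FR (p.r i) = p.D^[i] FR := p.vfd_r _ _ i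

theorem Dt_kap (FR : F) (i j : ℕ) :
    p.Dt FR (p.kap i j) = p.ip (p.W i) (X ^ j) + p.ip (X ^ i) (p.W j) := by
  refine p.vfd_kap _ _ ?_ i j
  intro i j
  rw [p.ip_symm (p.W i), p.ip_symm (X ^ i)]
  ring

theorem D_Dt (FR f : F) : p.Dt FR (p.D f) = p.D (p.Dt FR f) := by
  refine p.vfd_comm_of (c := fun i => p.D^[i] FR)
    (e := fun i j => p.ip (p.W i) (X ^ j) + p.ip (X ^ i) (p.W j))
    (c' := fun i => p.r (i + 1)) (e' := fun i j => p.kap (i + 1) j + p.kap i (j + 1)) ?_ ?_ f
  · intro i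
    change p.Dt FR (p.r (i + 1)) = p.D (p.D^[i] FR)
    rw [Dt_r, Function.iterate_succ_apply']
  · intro i j
    change p.Dt FR (p.kap (i + 1) j + p.kap i (j + 1))
      = p.D (p.ip (p.W i) (X ^ j) + p.ip (X ^ i) (p.W j))
    rw [map_add, Dt_kap, Dt_kap, map_add, D_ip, D_ip, DK_X_pow, DK_X_pow, W_succ, W_succ]
    ring

theorem grad_kap (L i b : ℕ) :
    p.grad L (p.kap i b) = (if L = b then X ^ i else 0) + (if L = i then X ^ b else 0) := by
  ext j
  rw [coeff_grad, G_kap', coeff_add]
  congr 1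
  · split_ifs with h1 h2 h3
    · rw [coeff_X_pow, if_pos h1.1]
    · exact absurd h1.2 h2
    · rw [coeff_X_pow, if_neg]; intro h; exact h1 ⟨h, h3⟩
    · simp
  · split_ifs with h1 h2 h3
    · rw [coeff_X_pow, if_pos h1.1]
    · exact absurd h1.2 h2
    · rw [coeff_X_pow, if_neg]; intro h; exact h1 ⟨h, h3⟩
    · simp

theorem eq_sum_range {U : F[X]} {n : ℕ} (h : ∀ i, n ≤ i → U.coeff i = 0) :
    U = ∑ i ∈ range n, C (U.coeff i) * X ^ i := by
  ext j
  rw [finsetSum_coeff]
  simp only [coeff_C_mul, coeff_X_pow, mul_ite, mul_one, mul_zero]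
  rw [Finset.sum_ite_eq (range n) j (fun i => U.coeff i)]
  split_ifs with hj
  · rfl
  · exact h j (by simpa using hj)

theorem ip_X_pow_right {U : F[X]} {n : ℕ} (h : ∀ i, n ≤ i → U.coeff i = 0) (b : ℕ) :
    p.ip U (X ^ b) = ∑ i ∈ range n, U.coeff i * p.kap i b := by
  conv_lhs => rw [eq_sum_range h]
  rw [ip_sum_left]
  exact sum_congr rfl fun i _ => by rw [ip_C_mul_left, ip_X_pow]

theorem grad_ip_pow {U : F[X]} {n : ℕ} (h : ∀ i, n ≤ i → U.coeff i = 0) (L b : ℕ) :
    p.grad L (p.ip U (X ^ b)) = (if L = b then U else 0) + C (U.coeff L) * X ^ b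
      + ∑ i ∈ range n, C (p.kap i b) * p.grad L (U.coeff i) := by
  rw [p.ip_X_pow_right h, grad_sum]
  simp only [grad_mul, grad_kap]
  rw [sum_add_distrib]
  congr 1
  have h1 : ∀ i ∈ range n, (C (U.coeff i) * ((if L = b then (X : F[X]) ^ i else 0)
      + (if L = i then X ^ b else 0)))
      = (if L = b then C (U.coeff i) * X ^ i else 0)
        + (if L = i then C (U.coeff L) * X ^ b else 0) := by
    intro i _
    rw [mul_add, mul_ite, mul_ite, mul_zero]
    congr 1
    split_ifs with h2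
    · rw [h2]
    · rfl
  rw [sum_congr rfl h1, sum_add_distrib]
  congr 1
  · split_ifs
    · exact (eq_sum_range h).symm
    · simp
  · rw [Finset.sum_ite_eq (range n) L (fun _ => C (U.coeff L) * (X : F[X]) ^ b)]
    split_ifs with h2
    · rfl
    · rw [h L (by simpa using h2)]; simp

theorem coeff_W_big (a i : ℕ) (h : a + 4 ≤ i) : (p.W a).coeff i = 0 := by
  rw [coeff_W, if_neg (by omega), cc_eq_zero (by omega)]
  simp

/-- time derivative on tangent vectors -/
noncomputable def DtK (FR : F) : F[X] →+ F[X] where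
  toFun U := cm (p.Dt FR) U + U.sum fun a c => C c * p.W a
  map_zero' := by simp
  map_add' U V := by
    rw [map_add, Polynomial.sum_add_index _ _ _ (by simp) (by intro a b c; rw [C_add, add_mul])]
    ring

theorem DtK_apply (FR : F) (U : F[X]) :
    p.DtK FR U = cm (p.Dt FR) U + U.sum fun a c => C c * p.W a := rfl

theorem DtK_C_mul (FR a : F) (U : F[X]) :
    p.DtK FR (C a * U) = C (p.Dt FR a) * U + C a * p.DtK FR U := by
  rw [DtK_apply, DtK_apply, cm_mul, cm_C]
  have : ((C a * U).sum fun b c => C c * p.W b) = C a * (U.sum fun b c => C c * p.W b) := by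
    rw [← smul_eq_C_mul, Polynomial.sum_smul_index _ _ _ (by simp), Polynomial.sum_def,
      Polynomial.sum_def, mul_sum]
    exact sum_congr rfl fun i _ => by rw [C_mul]; ring
  rw [this]
  ring

theorem DtK_X_pow (FR : F) (n : ℕ) : p.DtK FR (X ^ n) = p.W n := by
  rw [DtK_apply, cm_X_pow, ← monomial_one_right_eq_X_pow,
    Polynomial.sum_monomial_index _ _ (by simp)]
  simp

theorem sum_eq_range' {U : F[X]} {n : ℕ} (h : ∀ i, n ≤ i → U.coeff i = 0) :
    (U.sum fun a c => C c * p.W a) = ∑ a ∈ range n, C (U.coeff a) * p.W a := by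
  rw [Polynomial.sum_def]
  apply sum_subset
  · intro i hi
    by_contra h2
    exact (mem_support_iff.1 hi) (h i (by simpa using h2))
  · intro i _ hi
    rw [notMem_support_iff.1 hi]; simp

/-- the terms of the gradient of the time derivative -/
noncomputable def Rt (f : F) (a L : ℕ) : F[X] :=
  C ((p.W a).coeff L) * p.grad a f
    + ∑ i ∈ range (a + 4), C (p.ip (p.grad a f) (X ^ i)) * p.grad L ((p.W a).coeff i)

theorem grad_Dt (FR f : F) {N : ℕ} (hN : p.Bd f N) (L : ℕ) :
    p.grad L (p.Dt FR f) = p.DtK FR (p.grad L f)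
      + ∑ i ∈ range N, C (p.E i f) * p.grad L (p.D^[i] FR)
      + ∑ a ∈ range N, p.Rt f a L := by
  have := p.charZero
  have hg : ∀ a j, N ≤ j → (p.grad a f).coeff j = 0 := by
    intro a j hj; rw [coeff_grad, hN.2 j a hj]
  -- step 1
  have h1 : p.grad L (p.Dt FR f) = cm (p.Dt FR) (p.grad L f)
      + ∑ i ∈ range N, C (p.E i f) * p.grad L (p.D^[i] FR)
      + ∑ a ∈ range N, ∑ b ∈ range N,
        C (p.G a b f) * p.grad L (p.ip (p.W a) (X ^ b)) := by
    ext j
    have h2 := p.G_vfd j L (fun i => p.D^[i] FR)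
      (fun i j => p.ip (p.W i) (X ^ j) + p.ip (X ^ i) (p.W j)) f
    rw [← Dt, p.vfd_eq_sum _ _ f N hN] at h2
    rw [coeff_grad, h2, coeff_add, coeff_add, coeff_cm, coeff_grad, finsetSum_coeff,
      finsetSum_coeff, add_assoc]
    congr 1
    congr 1
    · exact sum_congr rfl fun i _ => by rw [coeff_C_mul, coeff_grad]; ring
    · have h3 : ∀ a b : ℕ, p.G j L (p.ip (p.W a) (X ^ b) + p.ip (X ^ a) (p.W b)) * p.G a b f
          = p.G j L (p.ip (p.W a) (X ^ b)) * p.G a b f
            + p.G j L (p.ip (p.W b) (X ^ a)) * p.G b a f := by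
        intro a b
        rw [map_add, p.ip_symm (X ^ a), p.G_symm b a]
        ring
      simp only [h3, sum_add_distrib]
      have h4 : ∑ a ∈ range N, ∑ b ∈ range N,
          p.G j L (p.ip (p.W b) (X ^ a)) * p.G b a f
          = ∑ a ∈ range N, ∑ b ∈ range N,
            p.G j L (p.ip (p.W a) (X ^ b)) * p.G a b f := sum_comm
      rw [h4, ← two_mul, ← mul_assoc, inv_mul_cancel₀ two_ne_zero, one_mul]
      refine sum_congr rfl fun a _ => ?_
      rw [finsetSum_coeff]
      exact sum_congr rfl fun b _ => by rw [coeff_C_mul, coeff_grad]; ring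
  rw [h1, DtK_apply, p.sum_eq_range' (hg L)]
  have h5 : ∀ a, ∑ b ∈ range N, C (p.G a b f) * p.grad L (p.ip (p.W a) (X ^ b))
      = C ((p.grad L f).coeff a) * p.W a + p.Rt f a L := by
    intro a
    have h6 : ∀ b, C (p.G a b f) * p.grad L (p.ip (p.W a) (X ^ b))
        = (if L = b then C (p.G a b f) * p.W a else 0)
          + C ((p.W a).coeff L) * (C (p.G a b f) * X ^ b)
          + ∑ i ∈ range (a + 4),
            C (p.G a b f * p.kap i b) * p.grad L ((p.W a).coeff i) := by
      intro b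
      rw [p.grad_ip_pow (p.coeff_W_big a), mul_add, mul_add, mul_ite, mul_zero, mul_sum]
      congr 1
      · congr 1
        ring
      · exact sum_congr rfl fun i _ => by rw [C_mul]; ring
    simp only [h6, sum_add_distrib]
    have h7 : ∑ b ∈ range N, (if L = b then C (p.G a b f) * p.W a else 0)
        = C ((p.grad L f).coeff a) * p.W a := by
      rw [Finset.sum_ite_eq (range N) L (fun b => C (p.G a b f) * p.W a), coeff_grad]
      split_ifs with h8
      · rfl
      · rw [p.G_symm, hN.2 L a (by simpa using h8)]; simp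
    have h8 : ∑ b ∈ range N, C (p.G a b f) * X ^ b = p.grad a f := by
      conv_rhs => rw [eq_sum_range (hg a)]
      exact sum_congr rfl fun b _ => by rw [coeff_grad, p.G_symm]
    rw [h7, ← mul_sum, h8, sum_comm, Rt, add_assoc]
    congr 2
    refine sum_congr rfl fun i _ => ?_
    rw [← sum_mul, p.ip_X_pow_right (hg a)]
    congr 1
    rw [map_sum]
    exact sum_congr rfl fun b _ => by rw [coeff_grad, p.G_symm a b, p.kap_symm]
  simp only [h5, sum_add_distrib]
  ring

end Polar

end Pool.Agent.Lib.MP_4d1bc1_mp
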