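import Pool.Agent.Lib.MP_4d1bc1_mp.TimeGrad

set_option autoImplicit false

/-! The gradient of the time derivative near the top order. -/

namespace Pool.Agent.Lib.MP_4d1bc1_mp

open Finset Polynomial

universe u

variable {F : Type u} [Field F] [Algebra ℝ F]

namespace Polar

variable (p : Polar F)

theorem grad_coeff_W (a i L : ℕ) : p.grad L ((p.W a).coeff i)
    = C (cc a i) * (C (2 * ((a + 1 - i).choose L : F)) * X ^ (a + 1 - i - L)) := by
  rw [coeff_W, grad_add, p.grad_const_mul (cc_isConst p a i), grad_Sd]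
  have : p.grad L (if i = a + 3 then (1 : F) else 0) = 0 := by
    split_ifs
    · exact p.isConst_one.grad_eq L
    · simp
  rw [this, zero_add]

theorem grad_coeff_W_zero {a i L : ℕ} (h : a + 1 < i + L) :
    p.grad L ((p.W a).coeff i) = 0 := by
  rw [grad_coeff_W]
  by_cases hi : a + 1 < i
  · rw [cc_eq_zero hi]; simp
  · rw [Nat.choose_eq_zero_of_lt (by omega)]; simp

theorem Rt_far (f : F) {a L : ℕ} (h : a + 4 ≤ L) : p.Rt f a L = 0 := by
  rw [Rt, p.coeff_W_big a L h]
  rw [Finset.sum_eq_zero]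
  · simp
  · intro i _
    rw [p.grad_coeff_W_zero (by omega), mul_zero]

theorem Rt_three (f : F) (a : ℕ) : p.Rt f a (a + 3) = p.grad a f := by
  rw [Rt, coeff_W, cc_eq_zero (by omega), if_pos rfl]
  rw [Finset.sum_eq_zero]
  · simp
  · intro i _
    rw [p.grad_coeff_W_zero (by omega), mul_zero]

theorem Rt_two (f : F) (a : ℕ) : p.Rt f a (a + 2) = 0 := by
  rw [Rt, coeff_W, cc_eq_zero (by omega), if_neg (by omega)]
  rw [Finset.sum_eq_zero]
  · simp
  · intro i _
    rw [p.grad_coeff_W_zero (by omega), mul_zero]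

theorem Rt_one (f : F) (a : ℕ) : p.Rt f a (a + 1)
    = C (3 * p.S) * p.grad a f + C (3 * p.ip (p.grad a f) 1) := by
  have := p.charZero
  rw [Rt, coeff_W, if_neg (by omega), Finset.sum_eq_single_of_mem 0 (by simp)]
  · rw [grad_coeff_W]
    simp only [cc, Nat.choose_self, Nat.sub_self, Sd_zero, pow_zero, Nat.sub_zero,
      Nat.choose_succ_self]
    have hA : (0 + (3 * ((1 : ℕ) : F) + 3 / 2 * ((0 : ℕ) : F)) * p.S) = 3 * p.S := by
      push_cast; ring
    have hB : C (p.ip (p.grad a f) 1) * (C (3 / 2) * (C (2 * ((1 : ℕ) : F)) * 1))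
        = C (3 * p.ip (p.grad a f) 1) := by
      rw [mul_one, ← C_mul, ← C_mul]
      congr 1
      push_cast; ring
    rw [hA, hB]
  · intro i _ hi
    rw [p.grad_coeff_W_zero (by omega), mul_zero]

theorem Rt_zero (f : F) (a : ℕ) : p.Rt f a a
    = C ((3 * a + 3 / 2) * p.D p.S) * p.grad a f
      + C (3 * (a + 1) * p.ip (p.grad a f) 1) * X
      + C ((3 * a + 6) * p.ip (p.grad a f) X) := by
  have := p.charZero
  have hcc : (cc a a : F) = 3 * a + 3 / 2 := by
    cases a with
    | zero => simp [cc]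
    | succ a =>
      simp only [cc, Nat.choose_self, Nat.choose_succ_self_right]
      push_cast; ring
  rw [Rt, coeff_W, if_neg (by omega), hcc]
  have h1 : a + 1 - a = 0 + 1 := by omega
  rw [h1, Sd_succ, Sd_zero, zero_add]
  have hs : ∑ i ∈ range (a + 4), C (p.ip (p.grad a f) (X ^ i)) * p.grad a ((p.W a).coeff i)
      = ∑ i ∈ range 2, C (p.ip (p.grad a f) (X ^ i)) * p.grad a ((p.W a).coeff i) := by
    symm
    apply sum_subset
    · intro i hi
      simp only [mem_range] at hi ⊢
      omega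
    · intro i _ hi
      simp only [mem_range] at hi
      rw [p.grad_coeff_W_zero (by omega), mul_zero]
  rw [hs, sum_range_succ, sum_range_one, grad_coeff_W, grad_coeff_W]
  have h2 : a + 1 - 0 - a = 1 := by omega
  have h3 : a + 1 - 1 = a := by omega
  rw [h2, h3, Nat.sub_zero, Nat.sub_self, Nat.choose_self, Nat.choose_succ_self_right]
  have h4 : (cc a 1 : F) = 3 + 3 / 2 * a := by
    simp only [cc, zero_add, Nat.choose_zero_right, Nat.choose_one_right]
    push_cast; ring
  have h5 : (cc a 0 : F) = 3 / 2 := rfl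
  rw [h4, h5, pow_one, pow_zero, mul_one, add_assoc]
  congr 1
  congr 1
  · rw [← mul_assoc, ← C_mul, ← mul_assoc, ← C_mul]
    congr 2
    push_cast; ring
  · rw [← C_mul, ← C_mul]
    congr 1
    push_cast; ring

/-- gradient of the time derivative at a level above which the gradient vanishes -/
theorem grad_Dt_top (FR f : F) {N n : ℕ} (hN : p.Bd f N)
    (hf : ∀ a, n + 3 < a → p.grad a f = 0) :
    p.grad (n + 3) (p.Dt FR f) = p.DtK FR (p.grad (n + 3) f)
      + ∑ i ∈ range N, C (p.E i f) * p.grad (n + 3) (p.D^[i] FR)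
      + p.grad n f
      + (C (3 * p.S) * p.grad (n + 2) f + C (3 * p.ip (p.grad (n + 2) f) 1))
      + (C ((3 * (n + 3) + 3 / 2) * p.D p.S) * p.grad (n + 3) f
      + C (3 * (n + 4) * p.ip (p.grad (n + 3) f) 1) * X
      + C ((3 * (n + 3) + 6) * p.ip (p.grad (n + 3) f) X)) := by
  rw [p.grad_Dt FR f (hN.mono (Nat.le_add_right N (n + 4))) (n + 3)]
  have h0 : ∑ i ∈ range (N + (n + 4)), C (p.E i f) * p.grad (n + 3) (p.D^[i] FR)
      = ∑ i ∈ range N, C (p.E i f) * p.grad (n + 3) (p.D^[i] FR) := by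
    symm
    apply sum_subset (range_subset_range.2 (by omega))
    intro i _ hi
    rw [hN.1 i (by simpa using hi)]; simp
  have h1 : ∑ a ∈ range (N + (n + 4)), p.Rt f a (n + 3)
      = ∑ a ∈ range (n + 4), p.Rt f a (n + 3) := by
    symm
    apply sum_subset (range_subset_range.2 (by omega))
    intro i _ hi
    rw [Rt, hf i (by simp only [mem_range] at hi; omega)]
    simp
  have h2 : ∑ a ∈ range n, p.Rt f a (n + 3) = 0 :=
    sum_eq_zero fun i hi => p.Rt_far f (by simp only [mem_range] at hi; omega)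
  have e1 := p.Rt_zero f (n + 3)
  have e2 := p.Rt_one f (n + 2)
  have e3 := p.Rt_two f (n + 1)
  have e4 := p.Rt_three f n
  rw [h0, h1, sum_range_succ, sum_range_succ, sum_range_succ, sum_range_succ, h2, e4,
    show n + 3 = n + 1 + 2 from rfl, e3, show n + 1 + 2 = n + 2 + 1 from rfl, e2,
    show n + 2 + 1 = n + 3 from rfl, e1]
  push_cast
  rw [show ((n : F) + 3 + 1) = n + 4 by ring]
  ring

/-- gradient of the time derivative at level two -/
theorem grad_Dt_two (FR f : F) {N : ℕ} (hN : p.Bd f N)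
    (hf : ∀ a, 2 < a → p.grad a f = 0) :
    p.grad 2 (p.Dt FR f) = p.DtK FR (p.grad 2 f)
      + ∑ i ∈ range N, C (p.E i f) * p.grad 2 (p.D^[i] FR)
      + (C (3 * p.S) * p.grad 1 f + C (3 * p.ip (p.grad 1 f) 1))
      + (C ((3 * 2 + 3 / 2) * p.D p.S) * p.grad 2 f
      + C (3 * 3 * p.ip (p.grad 2 f) 1) * X
      + C ((3 * 2 + 6) * p.ip (p.grad 2 f) X)) := by
  rw [p.grad_Dt FR f (hN.mono (Nat.le_add_right N 3)) 2]
  have h0 : ∑ i ∈ range (N + 3), C (p.E i f) * p.grad 2 (p.D^[i] FR)
      = ∑ i ∈ range N, C (p.E i f) * p.grad 2 (p.D^[i] FR) := by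
    symm
    apply sum_subset (range_subset_range.2 (by omega))
    intro i _ hi
    rw [hN.1 i (by simpa using hi)]; simp
  have h1 : ∑ a ∈ range (N + 3), p.Rt f a 2
      = ∑ a ∈ range 3, p.Rt f a 2 := by
    symm
    apply sum_subset (range_subset_range.2 (by omega))
    intro i _ hi
    rw [Rt, hf i (by simp only [mem_range] at hi; omega)]
    simp
  have e1 := p.Rt_zero f 2
  have e2 := p.Rt_one f 1
  have e3 := p.Rt_two f 0
  norm_num at e1 e2 e3
  rw [h0, h1, sum_range_succ, sum_range_succ, sum_range_one, e1, e2, e3]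
  norm_num
  ring

end Polar

end Pool.Agent.Lib.MP_4d1bc1_mp
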