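import Pool.Agent.Lib.MP_4d1bc1_mp.ZGrad

set_option autoImplicit false

/-! Twisted derivatives. -/

namespace Pool.Agent.Lib.MP_4d1bc1_mp

open Finset Polynomial

universe u

variable {F : Type u} [Field F] [Algebra ℝ F]

namespace Polar

variable (p : Polar F)

/-- no dependence on the variables `kap i j` -/
def GFree (f : F) : Prop := ∀ L, p.grad L f = 0

variable {p} in
theorem GFree.add {f g : F} (hf : p.GFree f) (hg : p.GFree g) : p.GFree (f + g) := by
  intro L; rw [grad_add, hf, hg, add_zero]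

variable {p} in
theorem GFree.sub {f g : F} (hf : p.GFree f) (hg : p.GFree g) : p.GFree (f - g) := by
  intro L; rw [grad_sub, hf, hg, sub_zero]

variable {p} in
theorem GFree.mul {f g : F} (hf : p.GFree f) (hg : p.GFree g) : p.GFree (f * g) := by
  intro L; rw [grad_mul, hf, hg, mul_zero, mul_zero, add_zero]

variable {p} in
theorem GFree.D {f : F} (hf : p.GFree f) : p.GFree (p.D f) := by
  intro L
  cases L with
  | zero => rw [grad_zero_D, hf, map_zero]
  | succ L => rw [grad_succ_D, hf, hf, map_zero, add_zero]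

theorem GFree_zero : p.GFree 0 := fun L => by simp
theorem GFree_one : p.GFree 1 := fun L => p.isConst_one.grad_eq L

/-- twist coefficients: `D ^ j = ∑ k, tc j k (D + w) ^ k` -/
noncomputable def tc (w : F) : ℕ → ℕ → F
  | 0, 0 => 1
  | 0, (_ + 1) => 0
  | j + 1, 0 => p.D (tc w j 0) - w * tc w j 0
  | j + 1, k + 1 => p.D (tc w j (k + 1)) + tc w j k - w * tc w j (k + 1)

theorem tc_zero_zero (w : F) : p.tc w 0 0 = 1 := rfl
theorem tc_zero_succ (w : F) (k : ℕ) : p.tc w 0 (k + 1) = 0 := rfl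
theorem tc_succ_zero (w : F) (j : ℕ) : p.tc w (j + 1) 0 = p.D (p.tc w j 0) - w * p.tc w j 0 := rfl
theorem tc_succ_succ (w : F) (j k : ℕ) : p.tc w (j + 1) (k + 1)
    = p.D (p.tc w j (k + 1)) + p.tc w j k - w * p.tc w j (k + 1) := rfl

theorem tc_gt (w : F) {j k : ℕ} (h : j < k) : p.tc w j k = 0 := by
  induction j generalizing k with
  | zero =>
    obtain ⟨k, rfl⟩ : ∃ k', k = k' + 1 := ⟨k - 1, by omega⟩
    rfl
  | succ j ih =>
    obtain ⟨k, rfl⟩ : ∃ k', k = k' + 1 := ⟨k - 1, by omega⟩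
    rw [tc_succ_succ, ih (k := k + 1) (by omega), ih (k := k) (by omega)]
    simp

theorem tc_diag (w : F) (j : ℕ) : p.tc w j j = 1 := by
  induction j with
  | zero => rfl
  | succ j ih => rw [tc_succ_succ, ih, p.tc_gt w (by omega)]; simp

theorem tc_GFree {w : F} (hw : p.GFree w) (j k : ℕ) : p.GFree (p.tc w j k) := by
  induction j generalizing k with
  | zero =>
    cases k with
    | zero => exact p.GFree_one
    | succ k => exact p.GFree_zero
  | succ j ih =>
    cases k with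
    | zero => exact (ih 0).D.sub (hw.mul (ih 0))
    | succ k => exact ((ih (k + 1)).D.add (ih k)).sub (hw.mul (ih (k + 1)))

/-- twisted derivative -/
noncomputable def Dh (w : F) : F →+ F where
  toFun f := p.D f + w * f
  map_zero' := by simp
  map_add' f g := by rw [map_add]; ring

theorem Dh_apply (w f : F) : p.Dh w f = p.D f + w * f := rfl

theorem Dh_mul (w a f : F) : p.Dh w (a * f) = p.D a * f + a * p.Dh w f := by
  rw [Dh_apply, Dh_apply, der_mul]; ring

/-- twisted covariant derivative -/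
noncomputable def DhK (w : F) : F[X] →+ F[X] where
  toFun W := p.DK W + C w * W
  map_zero' := by simp
  map_add' f g := by rw [map_add]; ring

theorem DhK_apply (w : F) (W : F[X]) : p.DhK w W = p.DK W + C w * W := rfl

theorem DhK_C_mul (w a : F) (W : F[X]) :
    p.DhK w (C a * W) = C (p.D a) * W + C a * p.DhK w W := by
  rw [DhK_apply, DhK_apply, DK_C_mul]; ring

theorem DhK_C (w a : F) : p.DhK w (C a) = C (p.Dh w a) + C a * X := by
  rw [DhK_apply, DK_C, Dh_apply, C_add, C_mul]; ring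

theorem DhK_mul_X (w : F) (W : F[X]) : p.DhK w (W * X) = p.DhK w W * X := by
  rw [DhK_apply, DhK_apply, DK_mul_X]; ring

theorem DhK_const_mul (w : F) {a : F} (ha : p.IsConst a) (W : F[X]) :
    p.DhK w (C a * W) = C a * p.DhK w W := by
  rw [DhK_C_mul, ha.D_eq]; simp

/-- injectivity -/
theorem DhK_inj {w z : F} {U : F[X]} (h : p.DhK w U = C z) : U = 0 ∧ z = 0 := by
  rw [DhK_apply] at h
  apply p.DK_inj (y := -w)
  rw [← h, C_neg]; ring

theorem iter_D_eq (w f : F) (j : ℕ) :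
    p.D^[j] f = ∑ k ∈ range (j + 1), p.tc w j k * (p.Dh w)^[k] f := by
  induction j with
  | zero => simp [tc_zero_zero]
  | succ j ih =>
    rw [Function.iterate_succ_apply', ih, map_sum,
      sum_range_succ' (fun k => p.tc w (j + 1) k * (p.Dh w)^[k] f)]
    simp only [tc_succ_succ, sub_mul, add_mul, sum_add_distrib, sum_sub_distrib]
    rw [sum_range_succ (fun k => p.D (p.tc w j (k + 1)) * (p.Dh w)^[k + 1] f) j,
      sum_range_succ (fun k => w * p.tc w j (k + 1) * (p.Dh w)^[k + 1] f) j,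
      p.tc_gt w (by omega : j < j + 1)]
    have h1 : ∀ k, p.D (p.tc w j k * (p.Dh w)^[k] f)
        = p.D (p.tc w j k) * (p.Dh w)^[k] f + p.tc w j k * (p.Dh w)^[k + 1] f
          - w * p.tc w j k * (p.Dh w)^[k] f := by
      intro k
      rw [der_mul, Function.iterate_succ_apply', p.Dh_apply w]
      ring
    simp only [h1, sum_add_distrib, sum_sub_distrib]
    rw [sum_range_succ' (fun k => p.D (p.tc w j k) * (p.Dh w)^[k] f) j,
      sum_range_succ' (fun k => w * p.tc w j k * (p.Dh w)^[k] f) j, tc_succ_zero]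
    simp only [map_zero, mul_zero, zero_mul, add_zero, Function.iterate_zero, id_eq]
    ring

theorem vfd_mul (x : F) (c : ℕ → F) (e : ℕ → ℕ → F) (f : F) :
    p.vfd (fun i => x * c i) (fun i j => x * e i j) f = x * p.vfd c e f := by
  have : cf (fun i => x * c i) (fun i j => x * e i j) = fun a => x * cf c e a := by
    funext a; rcases a with i | ⟨i, j⟩
    · rfl
    · simp [cf]; ring
  rw [vfd, this, Frame.vf_mul]
  rfl

/-- twisted partial derivatives -/
noncomputable def Eh (w : F) (k : ℕ) : Derivation ℝ F F :=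
  p.vfd (fun j => p.tc w j k) (fun _ _ => 0)

theorem Eh_r (w : F) (k j : ℕ) : p.Eh w k (p.r j) = p.tc w j k := p.vfd_r _ _ j

theorem Eh_eq_sum (w : F) (k : ℕ) {f : F} {N : ℕ} (hN : p.Bd f N) :
    p.Eh w k f = ∑ j ∈ range N, p.tc w j k * p.E j f := by
  rw [Eh, p.vfd_eq_sum _ _ f N hN]
  simp

theorem Eh_of_E {w : F} {f : F} (hf : ∀ j, p.E j f = 0) (k : ℕ) : p.Eh w k f = 0 := by
  obtain ⟨N, hN⟩ := p.exists_bd f
  rw [p.Eh_eq_sum w k hN]
  exact sum_eq_zero fun j _ => by rw [hf, mul_zero]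

theorem Eh_of_far {w : F} {f : F} {M : ℕ} (hf : ∀ j, M ≤ j → p.E j f = 0) {k : ℕ} (hk : M ≤ k) :
    p.Eh w k f = 0 := by
  obtain ⟨N, hN⟩ := p.exists_bd f
  rw [p.Eh_eq_sum w k hN]
  refine sum_eq_zero fun j _ => ?_
  by_cases h : M ≤ j
  · rw [hf j h, mul_zero]
  · rw [p.tc_gt w (by omega), zero_mul]

theorem Eh_top {w : F} {f : F} {M : ℕ} (hf : ∀ j, M < j → p.E j f = 0) :
    p.Eh w M f = p.E M f := by
  obtain ⟨N, hN⟩ := p.exists_bd f
  rw [p.Eh_eq_sum w M (hN.mono (Nat.le_add_right N (M + 1))),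
    Finset.sum_eq_single_of_mem M (by simp; omega)]
  · rw [tc_diag, one_mul]
  · intro j _ hne
    rcases lt_or_gt_of_ne hne with h | h
    · rw [p.tc_gt w h, zero_mul]
    · rw [hf j h, mul_zero]

theorem Eh_kap (w : F) (k i j : ℕ) : p.Eh w k (p.kap i j) = 0 :=
  p.Eh_of_E (fun l => p.E_kap l i j) k

theorem Eh_zero_D (w f : F) : p.Eh w 0 (p.D f) = p.D (p.Eh w 0 f) - w * p.Eh w 0 f := by
  have h1 := p.vfd_vfd (fun j => p.tc w j 0) (fun i => p.r (i + 1)) (fun _ _ => 0)
    (fun i j => p.kap (i + 1) j + p.kap i (j + 1)) f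
  have h2 := p.vfd_congr (c := fun i => p.vfd (fun j => p.tc w j 0) (fun _ _ => 0) (p.r (i + 1))
      - p.vfd (fun i => p.r (i + 1)) (fun i j => p.kap (i + 1) j + p.kap i (j + 1)) (p.tc w i 0))
    (c' := fun i => (-w) * p.tc w i 0)
    (e := fun i j => p.vfd (fun j => p.tc w j 0) (fun _ _ => 0) (p.kap (i + 1) j + p.kap i (j + 1))
      - p.vfd (fun i => p.r (i + 1)) (fun i j => p.kap (i + 1) j + p.kap i (j + 1)) 0)
    (e' := fun _ _ => (-w) * 0)
    (fun i => by
      change p.Eh w 0 (p.r (i + 1)) - p.D (p.tc w i 0) = _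
      rw [Eh_r, tc_succ_zero]; ring)
    (fun i j => by
      change p.Eh w 0 (p.kap (i + 1) j + p.kap i (j + 1)) - _ = _
      rw [map_add, Eh_kap, Eh_kap, map_zero]; ring) f
  rw [h2, p.vfd_mul] at h1
  change p.Eh w 0 (p.D f) = p.D (p.Eh w 0 f) + (-w) * p.Eh w 0 f at h1
  rw [h1]; ring

theorem Eh_succ_D (w : F) (k : ℕ) (f : F) :
    p.Eh w (k + 1) (p.D f) = p.D (p.Eh w (k + 1) f) + p.Eh w k f - w * p.Eh w (k + 1) f := by
  have h1 := p.vfd_vfd (fun j => p.tc w j (k + 1)) (fun i => p.r (i + 1)) (fun _ _ => 0)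
    (fun i j => p.kap (i + 1) j + p.kap i (j + 1)) f
  have h2 := p.vfd_congr
    (c := fun i => p.vfd (fun j => p.tc w j (k + 1)) (fun _ _ => 0) (p.r (i + 1))
      - p.vfd (fun i => p.r (i + 1)) (fun i j => p.kap (i + 1) j + p.kap i (j + 1))
        (p.tc w i (k + 1)))
    (c' := fun i => p.tc w i k + (-w) * p.tc w i (k + 1))
    (e := fun i j => p.vfd (fun j => p.tc w j (k + 1)) (fun _ _ => 0)
        (p.kap (i + 1) j + p.kap i (j + 1))
      - p.vfd (fun i => p.r (i + 1)) (fun i j => p.kap (i + 1) j + p.kap i (j + 1)) 0)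
    (e' := fun _ _ => 0 + (-w) * 0)
    (fun i => by
      change p.Eh w (k + 1) (p.r (i + 1)) - p.D (p.tc w i (k + 1)) = _
      rw [Eh_r, tc_succ_succ]; ring)
    (fun i j => by
      change p.Eh w (k + 1) (p.kap (i + 1) j + p.kap i (j + 1)) - _ = _
      rw [map_add, Eh_kap, Eh_kap, map_zero]; ring) f
  rw [h2, p.vfd_add, p.vfd_mul] at h1
  change p.Eh w (k + 1) (p.D f)
    = p.D (p.Eh w (k + 1) f) + (p.Eh w k f + (-w) * p.Eh w (k + 1) f) at h1
  rw [h1]; ring

/-- change of frame in the gradient formula -/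
theorem sum_E_iter {w : F} (hw : p.GFree w) {f : F} {N : ℕ} (hN : p.Bd f N) (L : ℕ) (g : F) :
    ∑ j ∈ range N, C (p.E j f) * p.grad L (p.D^[j] g)
      = ∑ k ∈ range N, C (p.Eh w k f) * p.grad L ((p.Dh w)^[k] g) := by
  have h1 : ∀ j ∈ range N, C (p.E j f) * p.grad L (p.D^[j] g)
      = ∑ k ∈ range N, C (p.tc w j k * p.E j f) * p.grad L ((p.Dh w)^[k] g) := by
    intro j hj
    have h2 : p.D^[j] g = ∑ k ∈ range N, p.tc w j k * (p.Dh w)^[k] g := by
      rw [p.iter_D_eq w g j]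
      apply sum_subset (range_subset_range.2 (by simpa using hj))
      intro k _ hk
      rw [p.tc_gt w (by simpa using hk), zero_mul]
    rw [h2, grad_sum, mul_sum]
    refine sum_congr rfl fun k _ => ?_
    rw [grad_mul, p.tc_GFree hw j k L, mul_zero, add_zero, C_mul]
    ring
  rw [sum_congr rfl h1, sum_comm]
  refine sum_congr rfl fun k _ => ?_
  rw [← sum_mul, p.Eh_eq_sum w k hN, map_sum]

end Polar

end Pool.Agent.Lib.MP_4d1bc1_mp
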