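import Pool.Agent.Lib.MP_4d1bc1_mp.Tensor

set_option autoImplicit false

/-! The tangent part of a symmetry does not depend on the radial variables. -/

namespace Pool.Agent.Lib.MP_4d1bc1_mp

open Finset Polynomial

universe u

variable {F : Type u} [Field F] [Algebra ℝ F]

namespace Polar

variable (p : Polar F)

theorem exists_bdV (V : F[X]) : ∃ N, ∀ i, p.Bd (V.coeff i) N := by
  refine ⟨∑ i ∈ range (V.natDegree + 1), p.bd (V.coeff i), fun i => ?_⟩
  by_cases h : i < V.natDegree + 1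
  · exact (p.bd_spec (V.coeff i)).mono
      (Finset.single_le_sum (f := fun i => p.bd (V.coeff i)) (fun _ _ => Nat.zero_le _)
        (mem_range.2 h))
  · rw [coeff_eq_zero_of_natDegree_lt (by omega)]
    exact ⟨fun i _ => map_zero _, fun i j _ => map_zero _⟩

/-- shifted `E` -/
noncomputable def Em (k : ℕ) (f : F) : F :=
  match k with
  | 0 => 0
  | k + 1 => p.E k f

/-- shifted `E` on tangent vectors -/
noncomputable def EKm (k : ℕ) (V : F[X]) : F[X] :=
  match k with
  | 0 => 0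
  | k + 1 => cm (p.E k) V

theorem coeff_EKm (k : ℕ) (V : F[X]) (i : ℕ) : (p.EKm k V).coeff i = p.Em k (V.coeff i) := by
  cases k with
  | zero => simp [EKm, Em]
  | succ k => simp [EKm, Em]

theorem E_D (k : ℕ) (f : F) : p.E k (p.D f) = p.D (p.E k f) + p.Em k f := by
  cases k with
  | zero => rw [E_zero_D]; simp [Em]
  | succ k => rw [E_succ_D]; rfl

theorem E_DK (k : ℕ) (V : F[X]) : cm (p.E k) (p.DK V) = p.DK (cm (p.E k) V) + p.EKm k V := by
  refine Polynomial.ext fun i => ?_
  cases i with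
  | zero => rw [coeff_cm, coeff_DK_zero, coeff_add, coeff_DK_zero, coeff_cm, coeff_EKm, E_D]
  | succ i =>
    rw [coeff_cm, coeff_DK_succ, coeff_add, coeff_DK_succ, coeff_cm, coeff_cm, coeff_EKm,
      map_add, E_D]
    ring

theorem E_ip (k : ℕ) (U V : F[X]) :
    p.E k (p.ip U V) = p.ip (cm (p.E k) U) V + p.ip U (cm (p.E k) V) := by
  induction U using Polynomial.induction_on' with
  | add U V hU hV => rw [ip_add_left, map_add, hU, hV, map_add, ip_add_left, ip_add_left]; ring
  | monomial i a =>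
    induction V using Polynomial.induction_on' with
    | add U V hU hV => rw [ip_add_right, map_add, hU, hV, map_add, ip_add_right, ip_add_right]; ring
    | monomial j b =>
      rw [cm_monomial, cm_monomial, ip_monomial, ip_monomial, ip_monomial, der_mul, der_mul,
        E_kap]
      ring

theorem cm_E_W (k a : ℕ) : cm (p.E k) (p.W a) = 0 := by
  ext i; rw [coeff_cm, E_coeff_W, coeff_zero]

/-- The hypothesis on the right hand side of the radial equation. -/
structure RadTop (FR : F) : Prop where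
  E3 : p.E 3 FR = 1
  E4 : ∀ j, 4 ≤ j → p.E j FR = 0

variable {p} {FR : F}

theorem RadTop.iter (h : p.RadTop FR) (i : ℕ) :
    p.E (i + 3) (p.D^[i] FR) = 1 ∧ ∀ j, i + 4 ≤ j → p.E j (p.D^[i] FR) = 0 := by
  induction i with
  | zero => exact ⟨h.E3, h.E4⟩
  | succ i ih =>
    rw [Function.iterate_succ_apply']
    constructor
    · rw [E_succ_D, ih.2 (i + 3 + 1) (by omega), map_zero, zero_add, ih.1]
    · intro j hj
      obtain ⟨j, rfl⟩ : ∃ j', j = j' + 1 := ⟨j - 1, by omega⟩
      rw [E_succ_D, ih.2 (j + 1) (by omega), ih.2 j (by omega), map_zero, zero_add]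

theorem E_Dt_top (h : p.RadTop FR) (K : ℕ) (f : F) (hf : ∀ j, K < j → p.E j f = 0) :
    p.E (K + 2) (p.Dt FR f) = p.E (K + 2) (p.D^[K] FR) * p.E K f + p.Em K f := by
  obtain ⟨N, hN⟩ := p.exists_bd f
  have hN' := hN.mono (Nat.le_add_left N (K + 1))
  have h1 := p.E_vfd (K + 2) (fun i => p.D^[i] FR)
    (fun i j => p.ip (p.W i) (X ^ j) + p.ip (X ^ i) (p.W j)) f
  rw [← Dt, hf (K + 2) (by omega), map_zero, zero_add, p.vfd_eq_sum _ _ f _ hN'] at h1
  rw [h1]
  have h2 : ∑ i ∈ range (K + 1 + N), ∑ j ∈ range (K + 1 + N),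
      p.E (K + 2) (p.ip (p.W i) (X ^ j) + p.ip (X ^ i) (p.W j)) * p.G i j f = 0 := by
    refine sum_eq_zero fun i _ => sum_eq_zero fun j _ => ?_
    rw [map_add, E_ip, E_ip, cm_E_W, cm_E_W, cm_X_pow, cm_X_pow]
    simp
  rw [h2, mul_zero, add_zero]
  have h3 : ∑ i ∈ range (K + 1 + N), p.E (K + 2) (p.D^[i] FR) * p.E i f
      = ∑ i ∈ range (K + 1), p.E (K + 2) (p.D^[i] FR) * p.E i f := by
    symm
    apply sum_subset (range_subset_range.2 (by omega))
    intro i _ hi
    rw [hf i (by simp only [mem_range] at hi; omega), mul_zero]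
  rw [h3, sum_range_succ, add_comm]
  congr 1
  cases K with
  | zero => simp [Em]
  | succ K =>
    rw [sum_range_succ, sum_eq_zero, zero_add]
    · have := (h.iter K).1
      rw [this, one_mul]; rfl
    · intro i hi
      rw [(h.iter i).2 (K + 1 + 2) (by simp only [mem_range] at hi; omega), zero_mul]

/-- the equation for the tangent part of a symmetry -/
def VEq (p : Polar F) (FR : F) (V : F[X]) : Prop :=
  p.DtK FR V = p.DK (p.DK (p.DK V)) + C (3 * p.S) * p.DK V + C (3 / 2 * p.D p.S) * V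
    + C (3 * (p.ip 1 (p.DK V) - p.ip X V))

theorem VEq.step (h : p.RadTop FR) {V : F[X]} (hV : p.VEq FR V) (K : ℕ)
    (hK : ∀ j, K < j → cm (p.E j) V = 0) : cm (p.E K) V = 0 := by
  have := p.charZero
  have e1 : cm (p.E (K + 1)) V = 0 := hK _ (by omega)
  have e2 : cm (p.E (K + 2)) V = 0 := hK _ (by omega)
  -- left side
  have hL : cm (p.E (K + 2)) (p.DtK FR V)
      = C (p.E (K + 2) (p.D^[K] FR)) * cm (p.E K) V + p.EKm K V := by
    have hn : ∀ i, V.natDegree + 1 ≤ i → V.coeff i = 0 := fun i hi =>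
      coeff_eq_zero_of_natDegree_lt (by omega)
    rw [DtK_apply, p.sum_eq_range' hn, map_add, map_sum]
    have h1 : ∑ a ∈ range (V.natDegree + 1), cm (p.E (K + 2)) (C (V.coeff a) * p.W a) = 0 := by
      refine sum_eq_zero fun a _ => ?_
      rw [cm_mul, cm_E_W, cm_C, ← coeff_cm, e2]
      simp
    rw [h1, add_zero]
    refine Polynomial.ext fun i => ?_
    rw [coeff_cm, coeff_cm, coeff_add, coeff_C_mul, coeff_cm, coeff_EKm]
    refine E_Dt_top h K _ fun j hj => ?_
    rw [← coeff_cm, hK j hj, coeff_zero]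
  have a1 : cm (p.E (K + 1)) (p.DK V) = cm (p.E K) V := by
    rw [E_DK, e1, map_zero, zero_add]; rfl
  have a2 : cm (p.E (K + 2)) (p.DK V) = 0 := by
    rw [E_DK, e2, map_zero, zero_add]; exact e1
  have b1 : cm (p.E (K + 1)) (p.DK (p.DK V)) = 2 * p.DK (cm (p.E K) V) + p.EKm K V := by
    rw [E_DK, a1]
    change _ + cm (p.E K) (p.DK V) = _
    rw [E_DK]; ring
  have b2 : cm (p.E (K + 2)) (p.DK (p.DK V)) = cm (p.E K) V := by
    rw [E_DK, a2, map_zero, zero_add]; exact a1
  have c2 : cm (p.E (K + 2)) (p.DK (p.DK (p.DK V))) = 3 * p.DK (cm (p.E K) V) + p.EKm K V := by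
    rw [E_DK, b2]
    change _ + cm (p.E (K + 1)) (p.DK (p.DK V)) = _
    rw [b1]; ring
  have s0 : p.E (K + 2) (3 * p.S) = 0 := der_mul_zero _ (der_ofNat _ 3) (p.E_S _)
  have s1 : p.E (K + 2) (3 / 2 * p.D p.S) = 0 :=
    der_mul_zero _ (der_div_zero _ (der_ofNat _ 3) (der_ofNat _ 2))
      (p.E_D_eq_zero (fun k => p.E_S k) _)
  have s2 : p.E (K + 2) (3 * (p.ip 1 (p.DK V) - p.ip X V)) = 0 := by
    refine der_mul_zero _ (der_ofNat _ 3) ?_
    rw [map_sub, E_ip, E_ip, a2, e2, cm_X, ← C_1, cm_C]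
    simp
  have hR := congrArg (fun U => cm (p.E (K + 2)) U) hV
  simp only [map_add, cm_mul, cm_C, s0, s1, s2, a2, e2, c2, hL] at hR
  have h3 : p.DK (cm (p.E K) V)
      = C (p.E (K + 2) (p.D^[K] FR) / 3) * cm (p.E K) V + C 0 := by
    have h4 : (C (3 : F) : F[X]) * C (p.E (K + 2) (p.D^[K] FR) / 3)
        = C (p.E (K + 2) (p.D^[K] FR)) := by
      rw [← C_mul]; congr 1; field_simp
    have h5 : (C (3 : F) : F[X]) = 3 := map_ofNat C 3
    have h6 : (3 : F[X]) ≠ 0 := by
      rw [← h5, Ne, C_eq_zero]; exact three_ne_zero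
    refine mul_left_cancel₀ h6 ?_
    rw [h5] at h4
    simp only [C_0] at hR ⊢
    linear_combination -hR - cm (p.E K) V * h4
  exact (p.DK_inj h3).1

theorem VEq.E_free (h : p.RadTop FR) {V : F[X]} (hV : p.VEq FR V) (k : ℕ) :
    cm (p.E k) V = 0 := by
  obtain ⟨N, hN⟩ := p.exists_bdV V
  have key : ∀ n, ∀ k, N ≤ k + n → cm (p.E k) V = 0 := by
    intro n
    induction n with
    | zero =>
      intro k hk
      refine Polynomial.ext fun i => ?_
      rw [coeff_cm, (hN i).1 k (by simpa using hk), coeff_zero]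
    | succ n ih =>
      intro k hk
      exact hV.step h k fun j hj => ih j (by omega)
  exact key N k (by omega)

end Polar

end Pool.Agent.Lib.MP_4d1bc1_mp
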