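import Pool.Agent.Lib.MP_4d1bc1_mp.VTop

set_option autoImplicit false

/-! Top gradients of the tangent part of a symmetry. -/

namespace Pool.Agent.Lib.MP_4d1bc1_mp

open Finset Polynomial

universe u

variable {F : Type u} [Field F] [Algebra ℝ F]

namespace Polar

variable (p : Polar F)

theorem gV_C (L : ℕ) (a : F) : p.gV L (C a) = C (p.grad L a) := by
  refine Polynomial.ext fun i => ?_
  rw [coeff_gV, coeff_C, coeff_C]
  split_ifs <;> simp

theorem gV_sum {ι : Type} (s : Finset ι) (L : ℕ) (f : ι → F[X]) :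
    p.gV L (∑ i ∈ s, f i) = ∑ i ∈ s, p.gV L (f i) := by
  refine Polynomial.ext fun i => ?_
  rw [coeff_gV, finsetSum_coeff, grad_sum, finsetSum_coeff]
  exact sum_congr rfl fun j _ => by rw [coeff_gV]

theorem gV_C_mul {L : ℕ} {a : F} (ha : p.grad L a = 0) (W : F[X]) :
    p.gV L (C a * W) = C (C a) * p.gV L W := by
  refine Polynomial.ext fun i => ?_
  rw [coeff_gV, coeff_C_mul, grad_mul, ha, mul_zero, add_zero, coeff_C_mul, coeff_gV]

theorem grad_coeff_of_gV {L : ℕ} {V : F[X]} (h : p.gV L V = 0) (i : ℕ) :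
    p.grad L (V.coeff i) = 0 := by
  rw [← coeff_gV, h, coeff_zero]

theorem grad_DS_far (L : ℕ) : p.grad (L + 2) (p.D p.S) = 0 := by
  rw [grad_succ_D, grad_S, grad_S]; simp

variable {p} {FR : F} {V : F[X]} {n : ℕ}

theorem VSym.gV_cm_Dt (h : p.VSym FR V n) (l : ℕ) {c : F}
    (hgt : ∀ a, l + 2 < a → p.gV a V = 0) (h1 : p.gV (l + 2) V = C (C c)) :
    p.gV (l + 3) (cm (p.Dt FR) V) = p.gV l V + C (C (6 * p.S * c)) := by
  refine Polynomial.ext fun i => ?_
  obtain ⟨N, hN⟩ := p.exists_bd (V.coeff i)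
  rw [coeff_gV, coeff_cm, p.grad_Dt_top FR (V.coeff i) (n := l) hN
    (fun a ha => p.grad_coeff_of_gV (hgt a (by omega)) i),
    p.grad_coeff_of_gV (hgt (l + 3) (by omega)) i]
  have hE : ∑ j ∈ range N, C (p.E j (V.coeff i)) * p.grad (l + 3) (p.D^[j] FR) = 0 := by
    refine sum_eq_zero fun j _ => ?_
    have h2 := congrArg (fun U => U.coeff i) (h.eq.E_free h.rad j)
    simp only [coeff_cm, coeff_zero] at h2
    rw [h2]; simp
  rw [hE, ← coeff_gV, ← coeff_gV, h1, coeff_add]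
  simp only [map_zero, mul_zero, add_zero, zero_add, ip_zero_left, zero_mul]
  congr 1
  rw [coeff_C, coeff_C]
  split_ifs with h0
  · have h3 : p.ip (C c) 1 = c * p.S := by
      have := p.ip_C_mul_left c 1 1
      rw [mul_one] at this
      rw [this, ← pow_zero X, ip_X_pow]; rfl
    rw [h3, ← C_mul, ← C_add]
    congr 1
    ring
  · simp

theorem VSym.gV_eq (h : p.VSym FR V n) (l : ℕ) {c : F}
    (hgt : ∀ a, l + 2 < a → p.gV a V = 0) (h1 : p.gV (l + 2) V = C (C c)) :
    ∑ j ∈ range (n + 5), C (C (V.coeff j)) * p.gV (l + 3) (p.W j)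
      = 3 * p.DKt (p.DKt (C (C c))) + 3 * p.DKt (p.gV (l + 1) V)
        + C (C (3 * (p.DK V).coeff (l + 3)) - C (3 * V.coeff (l + 3)) * X) := by
  have := p.charZero
  have g3 : p.gV (l + 3) V = 0 := hgt _ (by omega)
  -- left side
  have hL : p.gV (l + 3) (p.DtK FR V) = p.gV l V + C (C (6 * p.S * c))
      + ∑ j ∈ range (n + 5), C (C (V.coeff j)) * p.gV (l + 3) (p.W j) := by
    rw [DtK_apply, p.sum_eq_range' h.deg, gV_add, h.gV_cm_Dt l hgt h1, gV_sum]
    congr 1
    exact sum_congr rfl fun j _ => p.gV_C_mul (p.grad_coeff_of_gV g3 j) _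
  -- right side
  have a3 : p.gV (l + 3) (p.DK V) = C (C c) := by rw [gV_succ_DK, g3, map_zero, zero_add, h1]
  have a2 : p.gV (l + 2) (p.DK V) = p.DKt (C (C c)) + p.gV (l + 1) V := by
    rw [gV_succ_DK, h1]
  have a1 : p.gV (l + 1) (p.DK V) = p.DKt (p.gV (l + 1) V) + p.gV l V := by
    rw [gV_succ_DK]
  have b3 : p.gV (l + 3) (p.DK (p.DK V)) = 2 * p.DKt (C (C c)) + p.gV (l + 1) V := by
    rw [gV_succ_DK, a3, a2]; ring
  have b2 : p.gV (l + 2) (p.DK (p.DK V)) = p.DKt (p.DKt (C (C c)))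
      + 2 * p.DKt (p.gV (l + 1) V) + p.gV l V := by
    rw [gV_succ_DK, a2, a1, map_add]; ring
  have d3 : p.gV (l + 3) (p.DK (p.DK (p.DK V))) = 3 * p.DKt (p.DKt (C (C c)))
      + 3 * p.DKt (p.gV (l + 1) V) + p.gV l V := by
    rw [gV_succ_DK, b3, b2, map_add, two_mul, map_add]; ring
  have s0 : p.grad (l + 3) (3 * p.S) = 0 := by
    rw [p.grad_const_mul (p.isConst_ofNat 3), grad_S, if_neg (by omega), mul_zero]
  have s1 : p.grad (l + 3) (3 / 2 * p.D p.S) = 0 := by
    rw [p.grad_const_mul ((p.isConst_ofNat 3).div (p.isConst_ofNat 2)),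
      show l + 3 = l + 1 + 2 by rfl, grad_DS_far, mul_zero]
  have s2 : p.grad (l + 3) (3 * (p.ip 1 (p.DK V) - p.ip X V))
      = C (3 * (p.DK V).coeff (l + 3)) + C (3 * p.S * c) - C (3 * V.coeff (l + 3)) * X := by
    have g3' : p.gV (l + 1 + 2) V = 0 := g3
    have i1 := p.grad_ip_one (l + 2) (p.DK V)
    have i2 := p.grad_ip_X (l + 1) g3'
    rw [show l + 2 + 1 = l + 3 by rfl, a3, ct_C] at i1
    rw [show l + 1 + 2 = l + 3 by rfl] at i2
    rw [p.grad_const_mul (p.isConst_ofNat 3), grad_sub, i1, i2]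
    simp only [C_mul]
    ring
  have hR : p.gV (l + 3) (p.DtK FR V) = 3 * p.DKt (p.DKt (C (C c)))
      + 3 * p.DKt (p.gV (l + 1) V) + p.gV l V + C (C (3 * p.S)) * C (C c)
      + C (C (3 * (p.DK V).coeff (l + 3)) + C (3 * p.S * c) - C (3 * V.coeff (l + 3)) * X) := by
    have h2 : p.DtK FR V = p.DK (p.DK (p.DK V)) + C (3 * p.S) * p.DK V
      + C (3 / 2 * p.D p.S) * V + C (3 * (p.ip 1 (p.DK V) - p.ip X V)) := h.eq
    rw [h2, gV_add, gV_add, gV_add, d3, p.gV_C_mul s0, a3, p.gV_C_mul s1, g3, gV_C, s2, mul_zero,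
      add_zero]
  have h5 : (C (C (6 * p.S * c)) : F[X][X]) = C (C (3 * p.S)) * C (C c) + C (C (3 * p.S * c)) := by
    rw [← C_mul, ← C_mul, ← C_add, ← C_add]
    congr 2
    ring
  have h6 := hL.symm.trans hR
  simp only [C_add, C_sub] at h6 ⊢
  linear_combination h6 - h5

/-- no gradient at levels `≥ n + 3` -/
theorem VSym.gV_far (h : p.VSym FR V n) (L : ℕ) (hL : n + 3 ≤ L) : p.gV L V = 0 := by
  have := p.charZero
  obtain ⟨N, hN⟩ := p.exists_bdV V
  have key : ∀ m, ∀ L, n + 3 ≤ L → N ≤ L + m → p.gV L V = 0 := by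
    intro m
    induction m with
    | zero =>
      intro L _ hL
      refine Polynomial.ext fun i => ?_
      rw [coeff_gV, p.grad_eq_zero_of_le (hN i) (by simpa using hL), coeff_zero]
    | succ m ih =>
      intro L h3 hL
      obtain ⟨l, rfl⟩ : ∃ l, L = l + 1 := ⟨L - 1, by omega⟩
      have h1 := h.gV_eq l (c := 0) (fun a ha => ih a (by omega) (by omega))
        (by rw [ih (l + 2) (by omega) (by omega)]; simp)
      have hs : ∑ j ∈ range (n + 5), C (C (V.coeff j)) * p.gV (l + 3) (p.W j)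
          = C (C (3 * (p.DK V).coeff (l + 3)) - C (3 * V.coeff (l + 3)) * X) := by
        rw [coeff_DK_succ, h.deg (l + 3) (by omega), map_zero, zero_add, mul_zero, map_zero,
          zero_mul, sub_zero]
        rcases eq_or_lt_of_le h3 with h4 | h4
        · obtain rfl : l = n + 2 := by omega
          rw [Finset.sum_eq_single_of_mem (n + 4) (by simp)]
          · rw [show n + 2 + 3 = n + 4 + 1 by rfl, gV_W_one, ← C_mul, ← C_mul,
              show n + 2 + 2 = n + 4 by rfl, mul_comm]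
          · intro j hj hne
            rw [gV_W_far, mul_zero]
            simp only [mem_range] at hj
            omega
        · rw [h.deg (l + 2) (by omega), sum_eq_zero]
          · simp
          · intro j hj
            rw [gV_W_far, mul_zero]
            simp only [mem_range] at hj
            omega
      rw [hs] at h1
      simp only [map_zero, mul_zero, zero_add] at h1
      have h5 : 3 * p.DKt (p.gV (l + 1) V) = 0 := by linear_combination -h1
      have h6 : (3 : F[X][X]) ≠ 0 := by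
        have h7 : (C (C (3 : F)) : F[X][X]) = 3 := by
          rw [map_ofNat C 3, map_ofNat C 3]
        rw [← h7, Ne, C_eq_zero, C_eq_zero]; exact three_ne_zero
      exact p.DKt_inj ((mul_eq_zero.1 h5).resolve_left h6)
  exact key N L hL (by omega)

theorem three_ne (p : Polar F) : (3 : F[X][X]) ≠ 0 := by
  have := p.charZero
  have h7 : (C (C (3 : F)) : F[X][X]) = 3 := by
    rw [map_ofNat C 3, map_ofNat C 3]
  rw [← h7, Ne, C_eq_zero, C_eq_zero]; exact three_ne_zero

theorem CC3 : (C (C (3 : F)) : F[X][X]) = 3 := by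
  rw [map_ofNat C 3, map_ofNat C 3]

theorem DKt_cancel {T U : F[X][X]} (h : 3 * p.DKt T = 3 * p.DKt U) : T = U := by
  have h1 := mul_left_cancel₀ p.three_ne h
  have h2 : p.DKt (T - U) = 0 := by rw [map_sub, h1, sub_self]
  exact sub_eq_zero.1 (p.DKt_inj h2)

/-- the gradient at level `n + 2` -/
theorem VSym.gV_two (h : p.VSym FR V n) :
    p.gV (n + 2) V = C (C ((n + 6) * V.coeff (n + 4))) := by
  have := p.charZero
  have h1 := h.gV_eq (n + 1) (c := 0) (fun a ha => h.gV_far a (by omega))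
    (by rw [h.gV_far _ (by omega)]; simp)
  have hs : ∑ j ∈ range (n + 5), C (C (V.coeff j)) * p.gV (n + 1 + 3) (p.W j)
      = C (C (3 * V.coeff (n + 3))) + C (C (V.coeff (n + 4))) *
        (C (C (3 * ((n : F) + 5)) * X) + C (C (3 * ((n : F) + 4) + 6)) * X) := by
    rw [sum_range_succ, sum_range_succ, sum_eq_zero]
    · rw [show n + 1 + 3 = n + 3 + 1 by rfl, gV_W_one, show n + 3 + 1 = n + 4 by rfl, gV_W_zero,
        zero_add, ← C_mul, ← C_mul, mul_comm (V.coeff (n + 3))]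
      push_cast
      rw [show (n : F) + 4 + 1 = n + 5 by ring]
    · intro j hj
      rw [gV_W_far, mul_zero]
      simp only [mem_range] at hj
      omega
  rw [hs, coeff_DK_succ, show n + 1 + 3 = n + 4 by rfl, show n + 1 + 2 = n + 3 by rfl,
    h.lead.D_eq] at h1
  have hc : p.IsConst ((n + 6 : F) * V.coeff (n + 4)) :=
    ((p.isConst_natCast n).add (p.isConst_ofNat 6)).mul h.lead
  apply DKt_cancel (p := p)
  rw [p.DKt_const hc]
  simp only [map_zero, mul_zero, zero_add, C_mul, C_add, C_sub, CC3] at h1 ⊢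
  have e5 : (C (C (5 : F)) : F[X][X]) = 5 := by rw [map_ofNat C 5, map_ofNat C 5]
  have e4 : (C (C (4 : F)) : F[X][X]) = 4 := by rw [map_ofNat C 4, map_ofNat C 4]
  have e6 : (C (C (6 : F)) : F[X][X]) = 6 := by rw [map_ofNat C 6, map_ofNat C 6]
  rw [e5, e4, e6] at h1
  rw [e6]
  linear_combination -h1

/-- the gradient at level `n + 1` -/
theorem VSym.gV_one (h : p.VSym FR V n) :
    p.gV (n + 1) V = C (C ((((n : F) + 4) ^ 2 - (n + 4) - 4) / 2 * V.coeff (n + 4))) * C X
      + C (C ((((n : F) + 4) ^ 2 + (n + 4) - 4) / 2 * V.coeff (n + 4))) * X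
      + C (C ((n + 5) * V.coeff (n + 3))) := by
  have := p.charZero
  have h1 := h.gV_eq n (c := (n + 6) * V.coeff (n + 4)) (fun a ha => h.gV_far a (by omega))
    h.gV_two
  have hs : ∑ j ∈ range (n + 5), C (C (V.coeff j)) * p.gV (n + 3) (p.W j)
      = C (C (3 * V.coeff (n + 2))) + C (C (V.coeff (n + 3))) *
        (C (C (3 * ((n : F) + 4)) * X) + C (C (3 * ((n : F) + 3) + 6)) * X)
        + C (C (V.coeff (n + 4))) * (C (C (3 / 2 * ((n : F) + 5) * (n + 4)) * X ^ 2)
      + C (C ((6 + 3 * ((n : F) + 4)) * (n + 4)) * X) * X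
      + C (C (6 * ((n : F) + 4) + 3 / 2 * ((n + 4) * (n + 3)))) * X ^ 2) := by
    rw [sum_range_succ, sum_range_succ, sum_range_succ, sum_eq_zero]
    · rw [show n + 3 = n + 2 + 1 by rfl, gV_W_one, show n + 2 + 1 = n + 3 by rfl, gV_W_zero,
        show n + 4 = n + 3 + 1 by rfl, gV_W_neg,
        zero_add, ← C_mul, ← C_mul, mul_comm (V.coeff (n + 2))]
      push_cast
      rw [show (n : F) + 3 + 1 = n + 4 by ring, show (n : F) + 3 + 2 = n + 5 by ring]
    · intro j hj
      rw [gV_W_far, mul_zero]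
      simp only [mem_range] at hj
      omega
  rw [hs, coeff_DK_succ, h.sub.D_eq] at h1
  have hc : p.IsConst ((n + 6 : F) * V.coeff (n + 4)) :=
    ((p.isConst_natCast n).add (p.isConst_ofNat 6)).mul h.lead
  have hc1 : p.IsConst (((((n : F) + 4) ^ 2 - (n + 4) - 4) / 2) * V.coeff (n + 4)) := by
    rw [show (((n : F) + 4) ^ 2 - (n + 4) - 4) / 2
      = ((n + 4) * (n + 4) - (n + 4) - 4) / 2 by ring]
    exact (((((p.isConst_natCast n).add (p.isConst_ofNat 4)).mul
      ((p.isConst_natCast n).add (p.isConst_ofNat 4))).sub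
      ((p.isConst_natCast n).add (p.isConst_ofNat 4))).sub
      (p.isConst_ofNat 4)).div (p.isConst_ofNat 2) |>.mul h.lead
  have hc2 : p.IsConst (((((n : F) + 4) ^ 2 + (n + 4) - 4) / 2) * V.coeff (n + 4)) := by
    rw [show (((n : F) + 4) ^ 2 + (n + 4) - 4) / 2
      = ((n + 4) * (n + 4) + (n + 4) - 4) / 2 by ring]
    exact (((((p.isConst_natCast n).add (p.isConst_ofNat 4)).mul
      ((p.isConst_natCast n).add (p.isConst_ofNat 4))).add
      ((p.isConst_natCast n).add (p.isConst_ofNat 4))).sub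
      (p.isConst_ofNat 4)).div (p.isConst_ofNat 2) |>.mul h.lead
  have hc3 : p.IsConst ((n + 5 : F) * V.coeff (n + 3)) :=
    ((p.isConst_natCast n).add (p.isConst_ofNat 5)).mul h.sub
  have hD2 : p.DKt (p.DKt (C (C ((n + 6 : F) * V.coeff (n + 4)))))
      = C (C ((n + 6 : F) * V.coeff (n + 4))) * (C X + X) ^ 2 := by
    rw [p.DKt_const hc, mul_add, map_add, DKt_mul_CX, DKt_mul_X, p.DKt_const hc]
    ring
  rw [hD2] at h1
  apply DKt_cancel (p := p)
  rw [map_add, map_add, DKt_mul_CX, DKt_mul_X, p.DKt_const hc1, p.DKt_const hc2, p.DKt_const hc3]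
  have hH : (2 : F[X][X]) * C (C (2 : F)⁻¹) = 1 := by
    have e2 : (C (C (2 : F)) : F[X][X]) = 2 := by rw [map_ofNat C 2, map_ofNat C 2]
    rw [← e2, ← C_mul, ← C_mul, mul_inv_cancel₀ (two_ne_zero), C_1, C_1]
  simp only [div_eq_mul_inv, C_mul, C_add, C_sub, C_pow, map_ofNat, map_natCast, map_zero] at h1 ⊢
  linear_combination (-1) * h1 + (3 * C (C (V.coeff (n + 4))) * ((n : F[X][X]) + 6) * C X ^ 2
    - 3 * (((n : F[X][X]) + 4) ^ 2 - 4) * C (C (V.coeff (n + 4))) * C X * X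
    - 3 * ((n : F[X][X]) + 2) * C (C (V.coeff (n + 4))) * X ^ 2) * hH

end Polar

end Pool.Agent.Lib.MP_4d1bc1_mp
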