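import Pool.Agent.Lib.MP_4d1bc1_mp.VE

set_option autoImplicit false

/-! Top coefficients and top gradients of the tangent part of a symmetry. -/

namespace Pool.Agent.Lib.MP_4d1bc1_mp

open Finset Polynomial

universe u

variable {F : Type u} [Field F] [Algebra ℝ F]

namespace Polar

variable (p : Polar F)

/-! ### gradients of `W` -/

theorem gV_W_far {a L : ℕ} (h : a + 2 ≤ L) : p.gV L (p.W a) = 0 := by
  refine Polynomial.ext fun i => ?_
  rw [coeff_gV, p.grad_coeff_W_zero (by omega), coeff_zero]

theorem gV_W_one (a : ℕ) : p.gV (a + 1) (p.W a) = C (C 3) := by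
  have := p.charZero
  refine Polynomial.ext fun i => ?_
  rw [coeff_gV]
  cases i with
  | zero =>
    rw [grad_coeff_W, coeff_C, if_pos rfl]
    simp only [cc, Nat.sub_zero, Nat.choose_self, Nat.sub_self, pow_zero, mul_one]
    rw [← C_mul]
    congr 1
    push_cast; ring
  | succ i => rw [p.grad_coeff_W_zero (by omega), coeff_C, if_neg (by omega)]

theorem cc_one (a : ℕ) : (cc a 1 : F) = 3 + 3 / 2 * a := by
  simp only [cc, zero_add, Nat.choose_zero_right, Nat.choose_one_right]
  push_cast; ring

theorem gV_W_zero (a : ℕ) :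
    p.gV a (p.W a) = C (C (3 * ((a : F) + 1)) * X) + C (C (3 * (a : F) + 6)) * X := by
  have := p.charZero
  refine Polynomial.ext fun i => ?_
  rw [coeff_gV]
  rcases i with _ | _ | i
  · rw [grad_coeff_W]
    simp only [cc, Nat.sub_zero, Nat.choose_succ_self_right, coeff_add, coeff_C_zero,
      coeff_mul_X_zero, add_zero]
    rw [show a + 1 - a = 1 by omega, pow_one, ← mul_assoc, ← C_mul]
    congr 2
    push_cast; ring
  · rw [grad_coeff_W]
    rw [show a + 1 - (0 + 1) = a by omega, Nat.choose_self, Nat.sub_self, pow_zero, mul_one,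
      ← C_mul, cc_one]
    simp only [coeff_add, coeff_C_succ, coeff_mul_X, coeff_C_zero, zero_add]
    congr 1
    push_cast; ring
  · rw [p.grad_coeff_W_zero (by omega)]
    simp only [coeff_add, coeff_C_succ, coeff_mul_X, zero_add]

theorem two_mul_choose_two (a : ℕ) : 2 * ((a.choose 2 : ℕ) : F) = a * (a - 1) := by
  rw [Nat.choose_two_right]
  have h : 2 ∣ a * (a - 1) := (Nat.even_mul_pred_self a).two_dvd
  have h2 : 2 * (a * (a - 1) / 2) = a * (a - 1) := Nat.mul_div_cancel' h
  have h3 : ((2 * (a * (a - 1) / 2) : ℕ) : F) = ((a * (a - 1) : ℕ) : F) := by rw [h2]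
  push_cast at h3
  rw [h3]
  cases a with
  | zero => simp
  | succ a => push_cast; simp

theorem gV_W_neg (a : ℕ) :
    p.gV a (p.W (a + 1)) = C (C (3 / 2 * ((a : F) + 2) * (a + 1)) * X ^ 2)
      + C (C ((6 + 3 * ((a : F) + 1)) * (a + 1)) * X) * X
      + C (C (6 * ((a : F) + 1) + 3 / 2 * ((a + 1) * a))) * X ^ 2 := by
  have := p.charZero
  have h2 : (2 : F) ≠ 0 := two_ne_zero
  refine Polynomial.ext fun i => ?_
  rw [coeff_gV]
  rcases i with _ | _ | _ | i
  · rw [grad_coeff_W]
    have h3 : (a + 1 + 1 - 0).choose a = (a + 2).choose 2 := by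
      rw [Nat.sub_zero, show a + 1 + 1 = a + 2 by rfl,
        show (a + 2).choose a = (a + 2).choose (a + 2 - 2) by congr 1,
        Nat.choose_symm (by omega)]
    rw [h3, show a + 1 + 1 - 0 - a = 2 by omega]
    have h4 := two_mul_choose_two (F := F) (a + 2)
    simp only [coeff_add, coeff_C_zero, coeff_mul_X_zero, add_zero, cc, coeff_C_mul,
      coeff_X_pow]
    rw [if_neg (by omega), mul_zero, add_zero, h4, ← mul_assoc, ← C_mul]
    congr 2
    push_cast; ring
  · rw [grad_coeff_W, cc_one]
    rw [show a + 1 + 1 - (0 + 1) = a + 1 by omega, Nat.choose_succ_self_right,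
      show a + 1 - a = 1 by omega, pow_one]
    simp only [coeff_add, coeff_C_succ, coeff_mul_X, coeff_C_zero, zero_add, coeff_C_mul,
      coeff_X_pow]
    rw [if_neg (by omega), mul_zero, add_zero, ← mul_assoc, ← C_mul]
    congr 2
    push_cast; ring
  · rw [grad_coeff_W]
    rw [show a + 1 + 1 - (0 + 1 + 1) = a by omega, Nat.choose_self, Nat.sub_self, pow_zero,
      mul_one, ← C_mul]
    simp only [coeff_add, coeff_C_succ, coeff_mul_X, zero_add, coeff_C_mul,
      coeff_X_pow, cc]
    rw [if_pos trivial, mul_one]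
    congr 1
    have h4 := two_mul_choose_two (F := F) (a + 1)
    push_cast at h4 ⊢
    rw [Nat.choose_one_right]
    push_cast
    linear_combination (3 / 2 : F) * h4
  · rw [p.grad_coeff_W_zero (by omega)]
    simp only [coeff_add, coeff_C_succ, coeff_mul_X, zero_add, coeff_C_mul, coeff_X_pow]
    rw [if_neg (by omega), mul_zero]

end Polar

end Pool.Agent.Lib.MP_4d1bc1_mp
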