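import Pool.Agent.Lib.MP_4d1bc1_mp.VLevel

set_option autoImplicit false

/-! Top coefficients of the tangent part of a symmetry. -/

namespace Pool.Agent.Lib.MP_4d1bc1_mp

open Finset Polynomial

universe u

variable {F : Type u} [Field F] [Algebra ℝ F]

namespace Polar

variable (p : Polar F)

/-- The data of the tangent part of a symmetry of order `n + 5`. -/
structure VSym (FR : F) (V : F[X]) (n : ℕ) : Prop where
  rad : p.RadTop FR
  eq : p.VEq FR V
  deg : ∀ i, n + 5 ≤ i → V.coeff i = 0

variable {p} {FR : F} {V : F[X]} {n : ℕ}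

theorem VSym.coeffEq (h : p.VSym FR V n) (i : ℕ) :
    p.Dt FR (V.coeff (i + 1)) + ∑ j ∈ range (n + 5), V.coeff j * (p.W j).coeff (i + 1)
      = (p.DK (p.DK (p.DK V))).coeff (i + 1) + 3 * p.S * (p.DK V).coeff (i + 1)
        + 3 / 2 * p.D p.S * V.coeff (i + 1) := by
  have h1 := congrArg (fun U => U.coeff (i + 1)) h.eq
  simp only [coeff_add, coeff_C_mul, coeff_C_succ, add_zero] at h1
  rw [← h1, DtK_apply, coeff_add, coeff_cm, p.sum_eq_range' h.deg, finsetSum_coeff]
  simp only [coeff_C_mul]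

theorem coeff_DK3 (V : F[X]) (i : ℕ) : (p.DK (p.DK (p.DK V))).coeff (i + 3)
    = p.D (p.D (p.D (V.coeff (i + 3)))) + 3 * p.D (p.D (V.coeff (i + 2)))
      + 3 * p.D (V.coeff (i + 1)) + V.coeff i := by
  simp only [coeff_DK_succ, map_add]
  ring

theorem VSym.lead (h : p.VSym FR V n) : p.IsConst (V.coeff (n + 4)) := by
  have := p.charZero
  apply p.isConst_of_D
  have h1 := h.coeffEq (n + 5)
  rw [show n + 5 + 1 = n + 3 + 3 by rfl, coeff_DK3, coeff_DK_succ, h.deg (n + 3 + 3) (by omega),
    h.deg (n + 3 + 2) (by omega)] at h1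
  have h2 : ∑ j ∈ range (n + 5), V.coeff j * (p.W j).coeff (n + 3 + 3) = V.coeff (n + 3) := by
    rw [Finset.sum_eq_single_of_mem (n + 3) (by simp)]
    · rw [coeff_W, if_pos rfl, cc_eq_zero (by omega)]; ring
    · intro j hj hne
      rw [coeff_W, if_neg (by omega), cc_eq_zero (by simp only [mem_range] at hj; omega)]
      ring
  rw [h2, show n + 3 + 1 = n + 4 by rfl] at h1
  simp only [map_zero, mul_zero, zero_add, add_zero] at h1
  have h3 : 3 * p.D (V.coeff (n + 4)) = 0 := by linear_combination -h1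
  rcases mul_eq_zero.1 h3 with h4 | h4
  · exact absurd h4 three_ne_zero
  · exact h4

theorem VSym.sub (h : p.VSym FR V n) : p.IsConst (V.coeff (n + 3)) := by
  have := p.charZero
  apply p.isConst_of_D
  have h1 := h.coeffEq (n + 4)
  rw [show n + 4 + 1 = n + 2 + 3 by rfl, coeff_DK3, coeff_DK_succ, h.deg (n + 2 + 3) (by omega),
    show n + 2 + 2 = n + 4 by rfl, h.lead.D_eq, show n + 2 + 1 = n + 3 by rfl] at h1
  have h2 : ∑ j ∈ range (n + 5), V.coeff j * (p.W j).coeff (n + 2 + 3)
      = V.coeff (n + 2) + V.coeff (n + 4) * (3 * p.S) := by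
    rw [sum_range_succ, sum_range_succ, Finset.sum_eq_single_of_mem (n + 2) (by simp)]
    · rw [coeff_W, if_pos rfl, cc_eq_zero (by omega), coeff_W, if_neg (by omega),
        cc_eq_zero (by omega), coeff_W, if_neg (by omega)]
      have h3 : (cc (n + 4) (n + 2 + 3) : F) = 3 := by
        simp [cc, Nat.choose_succ_self]
      rw [h3, show n + 4 + 1 - (n + 2 + 3) = 0 by omega, Sd_zero]
      ring
    · intro j hj hne
      rw [coeff_W, if_neg (by omega), cc_eq_zero (by simp only [mem_range] at hj; omega)]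
      ring
  rw [h2, show n + 2 + 2 = n + 4 by rfl] at h1
  simp only [map_zero, mul_zero, zero_add, add_zero] at h1
  have h3 : 3 * p.D (V.coeff (n + 3)) = 0 := by linear_combination -h1
  rcases mul_eq_zero.1 h3 with h4 | h4
  · exact absurd h4 three_ne_zero
  · exact h4

theorem cc_diag (p : Polar F) (a : ℕ) : (cc a a : F) = 3 * a + 3 / 2 := by
  have := p.charZero
  cases a with
  | zero => simp [cc]
  | succ a =>
    simp only [cc, Nat.choose_self, Nat.choose_succ_self_right]
    push_cast; ring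

theorem cc_top (a : ℕ) : (cc a (a + 1) : F) = 3 := by
  simp [cc, Nat.choose_succ_self]

theorem VSym.third (h : p.VSym FR V n) :
    p.IsConst (V.coeff (n + 2) - (n + 4) * V.coeff (n + 4) * p.S) := by
  have := p.charZero
  apply p.isConst_of_D
  have h1 := h.coeffEq (n + 3)
  rw [show n + 3 + 1 = n + 1 + 3 by rfl, coeff_DK3, coeff_DK_succ,
    show n + 1 + 3 = n + 4 by rfl, show n + 1 + 2 = n + 3 by rfl, show n + 1 + 1 = n + 2 by rfl,
    h.lead.D_eq, h.sub.D_eq, map_zero, map_zero, Dt, h.lead.vfd_eq] at h1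
  have h2 : ∑ j ∈ range (n + 5), V.coeff j * (p.W j).coeff (n + 4)
      = V.coeff (n + 1) + V.coeff (n + 3) * (3 * p.S)
        + V.coeff (n + 4) * ((3 * (n + 4) + 3 / 2) * p.D p.S) := by
    rw [sum_range_succ, sum_range_succ, sum_range_succ,
      Finset.sum_eq_single_of_mem (n + 1) (by simp)]
    · rw [coeff_W, if_pos rfl, cc_eq_zero (by omega), coeff_W, if_neg (by omega),
        cc_eq_zero (by omega), coeff_W, if_neg (by omega), cc_top, coeff_W, if_neg (by omega),
        cc_diag p, show n + 3 + 1 - (n + 4) = 0 by omega, Sd_zero,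
        show n + 4 + 1 - (n + 4) = 0 + 1 by omega, Sd_succ, Sd_zero]
      push_cast
      ring
    · intro j hj hne
      rw [coeff_W, if_neg (by omega), cc_eq_zero (by simp only [mem_range] at hj; omega)]
      ring
  rw [h2] at h1
  have hc : p.IsConst ((n + 4 : F) * V.coeff (n + 4)) :=
    ((p.isConst_natCast n).add (p.isConst_ofNat 4)).mul h.lead
  rw [map_sub, p.D_const_mul hc]
  have h3 : 3 * (p.D (V.coeff (n + 2)) - (n + 4) * V.coeff (n + 4) * p.D p.S) = 0 := by
    simp only [mul_zero, zero_add, map_zero] at h1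
    linear_combination -h1
  rcases mul_eq_zero.1 h3 with h4 | h4
  · exact absurd h4 three_ne_zero
  · exact h4

theorem VSym.fourth (h : p.VSym FR V n) :
    p.IsConst (V.coeff (n + 1) - (n + 3) * V.coeff (n + 3) * p.S
      - (n + 4) * (n + 2) / 2 * V.coeff (n + 4) * p.D p.S) := by
  have := p.charZero
  apply p.isConst_of_D
  have h1 := h.coeffEq (n + 2)
  rw [show n + 2 + 1 = n + 3 by rfl, coeff_DK3, coeff_DK_succ,
    h.sub.D_eq, Dt, h.sub.vfd_eq] at h1
  have h2 : ∑ j ∈ range (n + 5), V.coeff j * (p.W j).coeff (n + 3)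
      = V.coeff n + V.coeff (n + 2) * (3 * p.S)
        + V.coeff (n + 3) * ((3 * (n + 3) + 3 / 2) * p.D p.S)
        + V.coeff (n + 4) * (3 / 2 * (n + 4) ^ 2 * p.D (p.D p.S)) := by
    have hcc : (cc (n + 4) (n + 3) : F) = 3 / 2 * (n + 4) ^ 2 := by
      simp only [cc]
      have e1 : (n + 4).choose (n + 2) = (n + 4).choose 2 := by
        rw [show (n + 4).choose (n + 2) = (n + 4).choose (n + 4 - 2) by congr 1,
          Nat.choose_symm (by omega)]
      have e2 : (n + 4).choose (n + 2 + 1) = n + 4 := Nat.choose_succ_self_right (n + 3)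
      rw [e1, e2]
      have e3 := two_mul_choose_two (F := F) (n + 4)
      push_cast at e3 ⊢
      linear_combination (3 / 2 : F) * e3
    rw [sum_range_succ, sum_range_succ, sum_range_succ, sum_range_succ,
      Finset.sum_eq_single_of_mem n (by simp)]
    · rw [coeff_W, if_pos rfl, cc_eq_zero (by omega), coeff_W, if_neg (by omega),
        cc_eq_zero (by omega), coeff_W, if_neg (by omega), cc_top, coeff_W, if_neg (by omega),
        cc_diag p, coeff_W, if_neg (by omega), hcc, show n + 2 + 1 - (n + 3) = 0 by omega, Sd_zero,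
        show n + 3 + 1 - (n + 3) = 0 + 1 by omega, Sd_succ, Sd_zero,
        show n + 4 + 1 - (n + 3) = 1 + 1 by omega, Sd_succ, Sd_succ, Sd_zero]
      push_cast
      ring
    · intro j hj hne
      rw [coeff_W, if_neg (by omega), cc_eq_zero (by simp only [mem_range] at hj; omega)]
      ring
  rw [h2] at h1
  have h5 : p.D (V.coeff (n + 2)) = (n + 4) * V.coeff (n + 4) * p.D p.S := by
    have hc : p.IsConst ((n + 4 : F) * V.coeff (n + 4)) :=
      ((p.isConst_natCast n).add (p.isConst_ofNat 4)).mul h.lead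
    have h6 := h.third.D_eq
    rw [map_sub, p.D_const_mul hc] at h6
    linear_combination h6
  have h7 : p.D (p.D (V.coeff (n + 2))) = (n + 4) * V.coeff (n + 4) * p.D (p.D p.S) := by
    have hc : p.IsConst ((n + 4 : F) * V.coeff (n + 4)) :=
      ((p.isConst_natCast n).add (p.isConst_ofNat 4)).mul h.lead
    rw [h5, p.D_const_mul hc]
  have hc1 : p.IsConst ((n + 3 : F) * V.coeff (n + 3)) :=
    ((p.isConst_natCast n).add (p.isConst_ofNat 3)).mul h.sub
  have hc2 : p.IsConst ((n + 4 : F) * (n + 2) / 2 * V.coeff (n + 4)) :=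
    (((((p.isConst_natCast n).add (p.isConst_ofNat 4)).mul
      ((p.isConst_natCast n).add (p.isConst_ofNat 2))).div (p.isConst_ofNat 2))).mul h.lead
  rw [map_sub, map_sub, p.D_const_mul hc1, p.D_const_mul hc2]
  have h3 : 3 * (p.D (V.coeff (n + 1)) - (n + 3) * V.coeff (n + 3) * p.D p.S
      - (n + 4) * (n + 2) / 2 * V.coeff (n + 4) * p.D (p.D p.S)) = 0 := by
    simp only [mul_zero, zero_add, map_zero] at h1
    linear_combination -h1 - 3 * h7
  rcases mul_eq_zero.1 h3 with h4 | h4
  · exact absurd h4 three_ne_zero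
  · exact h4

end Polar

end Pool.Agent.Lib.MP_4d1bc1_mp
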