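import Pool.Agent.Lib.MP_4d1bc1_mp.LevelsE2

set_option autoImplicit false

/-! The radial block of the radial equation. -/

namespace Pool.Agent.Lib.MP_4d1bc1_mp

open Finset Polynomial

universe u

variable {F : Type u} [Field F] [Algebra ℝ F]

namespace Polar

variable {p : Polar F} {q : p.Rad} {V : F[X]} {Y : F} {n : ℕ}

theorem Rad.E_w (q : p.Rad) (j : ℕ) : p.E (j + 2) q.w = 0 := by
  have h3 : p.E (j + 2) (3 : F)⁻¹ = 0 := ((p.isConst_ofNat 3).inv).1 _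
  rw [Rad.w]
  refine der_mul_zero _ (der_mul_zero _ h3 (q.ha.hE (j + 1))) ?_
  rw [E_r, if_neg (by omega)]

theorem Rad.E_ph (q : p.Rad) (j : ℕ) : p.E (j + 2) q.ph = 0 := by
  rw [Rad.ph, map_add]
  have h1 : p.E (j + 2) (p.r 1) = 0 := by rw [E_r, if_neg (by omega)]
  rw [der_mul_zero _ (der_mul_zero _ (der_ofNat _ 3) (q.IsFn_J.hE (j + 1)))
    (by rw [sq]; exact der_mul_zero _ h1 h1), der_mul_zero _ (q.hc.hE (j + 1)) (p.E_S _),
    add_zero]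

theorem Rad.E_rh (q : p.Rad) (j : ℕ) : p.E (j + 2) q.rh = 0 := by
  have h3 : p.E (j + 2) (3 : F)⁻¹ = 0 := ((p.isConst_ofNat 3).inv).1 _
  have h2 : p.E (j + 2) (2 : F)⁻¹ = 0 := ((p.isConst_ofNat 2).inv).1 _
  have h1 : p.E (j + 2) (p.r 1) = 0 := by rw [E_r, if_neg (by omega)]
  have hs : p.E (j + 2) (p.D p.S) = 0 := p.E_D_eq_zero (fun k => p.E_S k) _
  rw [Rad.rh, map_add, map_add]
  rw [der_mul_zero _ (by
      rw [map_sub, q.IsFn_J.E0.hE (j + 1), der_mul_zero _ (der_mul_zero _ (der_mul_zero _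
        (der_ofNat _ 2) h3) (q.ha.hE (j + 1))) (q.IsFn_J.hE (j + 1)), sub_zero])
      (by rw [pow_succ, sq]; exact der_mul_zero _ (der_mul_zero _ h1 h1) h1),
    der_mul_zero _ (der_mul_zero _ (q.hc.E0.hE (j + 1)) h1) (p.E_S _),
    der_mul_zero _ (der_mul_zero _ h2 (q.IsFn_ed.hE (j + 1))) hs, add_zero, add_zero]

theorem Rad.E_gt (q : p.Rad) (j : ℕ) : p.E (j + 4) q.gt = 0 := by
  have h3 : p.E (j + 4) (3 : F)⁻¹ = 0 := ((p.isConst_ofNat 3).inv).1 _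
  rw [Rad.gt]
  exact der_mul_zero _ (der_mul_zero _ h3 (q.ha.hE (j + 3))) (q.radTop.E4 _ (by omega))

theorem Rad.E_cr (q : p.Rad) (j : ℕ) : p.E (j + 2) (q.c * p.r 1) = 0 := by
  refine der_mul_zero _ (q.hc.hE (j + 1)) ?_
  rw [E_r, if_neg (by omega)]

theorem Eh_far2 (w : F) {f : F} (h : ∀ j, p.E (j + 2) f = 0) (k : ℕ) :
    p.Eh w (k + 2) f = 0 := by
  refine p.Eh_of_far (M := 2) (fun j hj => ?_) (by omega)
  obtain ⟨j, rfl⟩ : ∃ j', j = j' + 2 := ⟨j - 2, by omega⟩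
  exact h j

theorem Rad.Eh_Dh (q : p.Rad) (k : ℕ) (f : F) : p.Eh q.w (k + 2) (p.Dh q.w f)
    = p.D (p.Eh q.w (k + 2) f) + p.Eh q.w (k + 1) f := by
  rw [Dh_apply, map_add, der_mul, Eh_far2 q.w q.E_w, Eh_succ_D]
  ring

/-- the radial block of a symmetry at the level `n + 4` -/
theorem Sym.yblock (h : Sym q V Y n) (hM : ∀ k, n + 6 ≤ k → p.Eh q.w k Y = 0)
    (h5 : p.Eh q.w (n + 5) Y = V.coeff (n + 4)) (h4 : p.Eh q.w (n + 4) Y = V.coeff (n + 3))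
    (h3 : p.Eh q.w (n + 3) Y = k1 V n * q.ph + b2 p V n) :
    p.IsConst (p.Eh q.w (n + 2) Y
      - (k2 V n * p.D q.ph + k1 V n * q.rh + k3 V n * q.ph)) := by
  have := p.charZero
  apply p.isConst_of_D
  obtain ⟨N, hN⟩ := p.exists_bd Y
  have hN' := hN.mono (Nat.le_add_left N (n + 6))
  have hc := q.comm (n + 4) Y hN'
  have hs : ∑ l ∈ range (n + 6 + N), q.lam l (n + 4) * p.Eh q.w l Y
      = p.Eh q.w (n + 1) Y + q.ph * p.Eh q.w (n + 3) Y
        + ((n + 4) * p.D q.ph + q.rh - q.gt) * p.Eh q.w (n + 4) Y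
        + (((n + 5).choose 2 : ℕ) * p.D (p.D q.ph) + (n + 5) * p.D q.rh)
          * p.Eh q.w (n + 5) Y := by
    have e1 : ∑ l ∈ range (n + 6 + N), q.lam l (n + 4) * p.Eh q.w l Y
        = ∑ l ∈ range (n + 6), q.lam l (n + 4) * p.Eh q.w l Y := by
      symm
      apply sum_subset (range_subset_range.2 (by omega))
      intro l _ hl
      rw [hM l (by simpa using hl), mul_zero]
    have e2 : ∑ l ∈ range (n + 1), q.lam l (n + 4) * p.Eh q.w l Y = 0 := by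
      refine sum_eq_zero fun l hl => ?_
      rw [q.lam_far l _ (by simp only [mem_range] at hl; omega), zero_mul]
    have l1 : q.lam (n + 1) (n + 4) = 1 := q.lam_three (n + 1)
    have l2 : q.lam (n + 2) (n + 4) = 0 := q.lam_two (n + 2)
    have l3 : q.lam (n + 3) (n + 4) = q.ph := q.lam_one (n + 3)
    have l4 := q.lam_same (n + 4)
    have l5 := q.lam_neg (n + 4)
    rw [e1, sum_range_succ, sum_range_succ, sum_range_succ, sum_range_succ, sum_range_succ, e2,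
      l1, l2, l3, l4, l5]
    push_cast
    rw [show (n : F) + 4 + 1 = n + 5 by ring, show n + 4 + 1 = n + 5 by rfl]
    ring
  have hdt : p.Dt q.FR (V.coeff (n + 3)) = 0 := h.vs.sub.vfd_eq _ _
  rw [hs, h4, hdt, h5, zero_add] at hc
  have hZ : ∀ k, p.E k (p.Zf V) = 0 := h.vs.E_Z
  have hE := congrArg (fun f => p.Eh q.w (n + 4) f) h.ye.twist
  have z1 : p.Eh q.w (n + 4) (q.c * p.r 1 * p.Zf V) = 0 := by
    refine der_mul_zero _ (Eh_far2 q.w q.E_cr (n + 2)) (p.Eh_of_E hZ _)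
  have z2 : p.Eh q.w (n + 4) (2⁻¹ * q.e * p.D (p.Zf V)) = 0 := by
    refine der_mul_zero _ ?_ (p.Eh_of_E (fun k => p.E_D_eq_zero hZ k) _)
    refine Eh_far2 q.w (fun j => der_mul_zero _ ?_ (q.he.hE (j + 1))) (n + 2)
    exact ((p.isConst_ofNat 2).inv).1 _
  have z3 : p.Eh q.w (n + 4) q.gt = 0 := by
    refine p.Eh_of_far (M := 4) (fun j hj => ?_) (by omega)
    obtain ⟨j, rfl⟩ : ∃ j', j = j' + 4 := ⟨j - 4, by omega⟩
    exact q.E_gt j
  have d1 : p.Eh q.w (n + 4) (p.Dh q.w Y) = p.Eh q.w (n + 3) Y := by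
    rw [q.Eh_Dh (n + 2), show n + 2 + 2 = n + 4 by rfl, h4, h.vs.sub.D_eq, zero_add]
  have d2 : p.Eh q.w (n + 3) (p.Dh q.w Y)
      = p.D (p.Eh q.w (n + 3) Y) + p.Eh q.w (n + 2) Y := q.Eh_Dh (n + 1) Y
  have d3 : p.Eh q.w (n + 2) (p.Dh q.w Y)
      = p.D (p.Eh q.w (n + 2) Y) + p.Eh q.w (n + 1) Y := q.Eh_Dh n Y
  have d4 : p.Eh q.w (n + 4) (p.Dh q.w (p.Dh q.w Y))
      = 2 * p.D (p.Eh q.w (n + 3) Y) + p.Eh q.w (n + 2) Y := by
    rw [q.Eh_Dh (n + 2), show n + 2 + 2 = n + 4 by rfl, show n + 2 + 1 = n + 3 by rfl, d1, d2]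
    ring
  have d5 : p.Eh q.w (n + 3) (p.Dh q.w (p.Dh q.w Y))
      = p.D (p.D (p.Eh q.w (n + 3) Y)) + 2 * p.D (p.Eh q.w (n + 2) Y)
        + p.Eh q.w (n + 1) Y := by
    rw [q.Eh_Dh (n + 1), show n + 1 + 2 = n + 3 by rfl, show n + 1 + 1 = n + 2 by rfl, d2, d3,
      map_add]
    ring
  have d6 : p.Eh q.w (n + 4) (p.Dh q.w (p.Dh q.w (p.Dh q.w Y)))
      = 3 * p.D (p.D (p.Eh q.w (n + 3) Y)) + 3 * p.D (p.Eh q.w (n + 2) Y)
        + p.Eh q.w (n + 1) Y := by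
    have h2 : p.D (2 * p.D (p.Eh q.w (n + 3) Y)) = 2 * p.D (p.D (p.Eh q.w (n + 3) Y)) :=
      p.D_const_mul (p.isConst_ofNat 2) _
    rw [q.Eh_Dh (n + 2), show n + 2 + 2 = n + 4 by rfl, show n + 2 + 1 = n + 3 by rfl, d4, d5,
      map_add, h2]
    ring
  simp only [map_add, der_mul, z3] at hE
  simp only [der_mul] at z1 z2
  rw [hc, d6, d1, Eh_far2 q.w q.E_ph (n + 2), Eh_far2 q.w q.E_rh (n + 2), h4] at hE
  have hE' : p.Eh q.w (n + 1) Y + q.ph * p.Eh q.w (n + 3) Y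
        + ((n + 4) * p.D q.ph + q.rh - q.gt) * V.coeff (n + 3)
        + (((n + 5).choose 2 : ℕ) * p.D (p.D q.ph) + (n + 5) * p.D q.rh)
          * V.coeff (n + 4) + q.gt * V.coeff (n + 3)
      = 3 * p.D (p.D (p.Eh q.w (n + 3) Y)) + 3 * p.D (p.Eh q.w (n + 2) Y)
        + p.Eh q.w (n + 1) Y + q.ph * p.Eh q.w (n + 3) Y + q.rh * V.coeff (n + 3) := by
    linear_combination hE + z1 + z2
  have h3' : p.D (p.D (p.Eh q.w (n + 3) Y)) = k1 V n * p.D (p.D q.ph) := by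
    rw [h3, map_add, p.D_const_mul h.vs.const1, h.vs.constb2.D_eq, add_zero,
      p.D_const_mul h.vs.const1]
  rw [h3'] at hE'
  have r1 : 3 * k1 V n = (n + 5) * V.coeff (n + 4) := by unfold k1; field_simp
  have r3 : 3 * k3 V n = (n + 4) * V.coeff (n + 3) := by unfold k3; field_simp
  have r4 : 3 * k2 V n = (((n + 5).choose 2 : ℕ) : F) * V.coeff (n + 4)
      - (n + 5) * V.coeff (n + 4) := by
    have h2 := two_mul_choose_two (F := F) (n + 5)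
    unfold k2
    push_cast at h2
    field_simp
    linear_combination (-3 * V.coeff (n + 4)) * h2
  rw [map_sub, map_add, map_add, p.D_const_mul h.vs.const1, p.D_const_mul h.vs.const2,
    p.D_const_mul h.vs.const3]
  have h7 : 3 * (p.D (p.Eh q.w (n + 2) Y)
      - (k2 V n * p.D (p.D q.ph) + k1 V n * p.D q.rh + k3 V n * p.D q.ph)) = 0 := by
    linear_combination -hE' - (p.D (p.D q.ph) + p.D q.rh) * r1 - p.D q.ph * r3
      - p.D (p.D q.ph) * r4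
  exact (mul_eq_zero.1 h7).resolve_left three_ne_zero

end Polar

end Pool.Agent.Lib.MP_4d1bc1_mp
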